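import Pool.Agent.NoH.Bas
import Pool.Agent.FZE.Riley

set_option autoImplicit false

/-!
# Part A: the spectrum and the domains
-/

open MeasureTheory Set Pool.Agent.FZC

namespace Pool.Agent.NoH

/- MODULE aa
The thickening `Metric.cthickening r K` of a compact connected `K = -K` which misses all its translates
by `n z`: for small `r` it is compact, connected (union of the closed balls of radius `r` around the
points of `K`: `IsCompact.cthickening_eq_biUnion_closedBall`), symmetric, and misses its translate by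
`z` (`K - K` is compact and misses `z`; take `2 r` smaller than the distance). -/
theorem aa_ball {r : ℝ} {K : Set ℂ} (hK : IsCompact K) (hr : 0 < r) {w : ℂ} :
    w ∈ Metric.cthickening r K ↔ ∃ x ∈ K, ‖w - x‖ ≤ r := by
  rw [hK.cthickening_eq_biUnion_closedBall hr.le]
  simp [Metric.mem_closedBall, dist_eq_norm]

theorem exists_thick {z : ℂ} {K : Set ℂ} (hK : IsCompact K) (hc : IsConnected K)
    (hneg : ∀ w ∈ K, -w ∈ K) (hz : ∀ w ∈ K, w + z ∉ K) : ∃ r : ℝ, 0 < r ∧
    IsCompact (Metric.cthickening r K) ∧ IsConnected (Metric.cthickening r K) ∧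
    (∀ w ∈ Metric.cthickening r K, -w ∈ Metric.cthickening r K) ∧
    ∀ w ∈ Metric.cthickening r K, w + z ∉ Metric.cthickening r K := by
  obtain ⟨⟨x0, y0⟩, -, hmin⟩ := (hK.prod hK).exists_isMinOn
    (hc.nonempty.prod hc.nonempty)
    (f := fun p : ℂ × ℂ => ‖p.1 + z - p.2‖) (by fun_prop)
  obtain ⟨d, hd, hdm⟩ : ∃ d > 0, ∀ x ∈ K, ∀ y ∈ K, d ≤ ‖x + z - y‖ := by
    rcases K.eq_empty_or_nonempty with he | -
    · exact absurd he hc.nonempty.ne_empty
    · obtain ⟨⟨x0, y0⟩, hp, hmin⟩ := (hK.prod hK).exists_isMinOn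
        (hc.nonempty.prod hc.nonempty)
        (f := fun p : ℂ × ℂ => ‖p.1 + z - p.2‖) (by fun_prop)
      refine ⟨‖x0 + z - y0‖, ?_, fun x hx y hy => hmin (Set.mk_mem_prod hx hy)⟩
      rw [gt_iff_lt, norm_pos_iff, sub_ne_zero]
      intro h
      exact hz x0 hp.1 (h ▸ hp.2)
  refine ⟨d / 3, by positivity, hK.cthickening, ?_, ?_, ?_⟩
  · obtain ⟨p, hp⟩ := hc.nonempty
    have hpos : 0 < d / 3 := by positivity
    refine ⟨⟨p, (aa_ball hK hpos).mpr ⟨p, hp, by simpa using hpos.le⟩⟩, ?_⟩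
    apply isPreconnected_of_forall p
    intro w hw
    obtain ⟨x, hx, hwx⟩ := (aa_ball hK hpos).mp hw
    refine ⟨K ∪ Metric.closedBall x (d / 3), ?_, Or.inl hp, Or.inr ?_, ?_⟩
    · rintro y (hy | hy)
      · exact (aa_ball hK hpos).mpr ⟨y, hy, by simpa using hpos.le⟩
      · exact (aa_ball hK hpos).mpr ⟨x, hx, by simpa [Metric.mem_closedBall, dist_eq_norm] using hy⟩
    · simpa [Metric.mem_closedBall, dist_eq_norm] using hwx
    · exact IsPreconnected.union x hx (Metric.mem_closedBall_self hpos.le) hc.isPreconnected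
        (convex_closedBall x _).isPreconnected
  · intro w hw
    have hpos : 0 < d / 3 := by positivity
    obtain ⟨x, hx, hwx⟩ := (aa_ball hK hpos).mp hw
    refine (aa_ball hK hpos).mpr ⟨-x, hneg x hx, ?_⟩
    rwa [show -w - -x = -(w - x) by ring, norm_neg]
  · intro w hw hwz
    have hpos : 0 < d / 3 := by positivity
    obtain ⟨x, hx, hwx⟩ := (aa_ball hK hpos).mp hw
    obtain ⟨y, hy, hwy⟩ := (aa_ball hK hpos).mp hwz
    have h1 := hdm x hx y hy
    have h2 : x + z - y = (w + z - y) - (w - x) := by ring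
    rw [h2] at h1
    have h3 := norm_sub_le (w + z - y) (w - x)
    linarith
/- END aa -/

/- MODULE ab
The filled set misses its translates.  This is the last part (`disjointness`) of the proof of
`Pool.Agent.RSt.exists_fill`, which only uses that `c` is compact, connected, `c = -c` and
`c ∩ (c + z) = ∅` (copy it); then `Pool.Agent.RSt.fil_connected`, `fil_compact` and
`Pool.Agent.RSt.hopf_multiples` for all multiples (`n < 0` by symmetry). -/
theorem ab_unb_neg {c : Set ℂ} {R : ℝ} (hR : 0 < R) (hneg : ∀ w ∈ c, -w ∈ c)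
    (hcR : ∀ w ∈ c, ‖w‖ ≤ R) : ∀ w ∈ Pool.Agent.RSt.unb c R, -w ∈ Pool.Agent.RSt.unb c R := by
  have hfar := Pool.Agent.RSt.far_subset_unb hR.le hcR
  have h1 : (fun w : ℂ => -w) '' Pool.Agent.RSt.unb c R ⊆ Pool.Agent.RSt.unb c R := by
    apply Pool.Agent.RSt.unb_maximal hR.le hcR
      (Pool.Agent.RSt.unb_preconnected.image _ (by fun_prop)) (x := ((R + 1 : ℝ) : ℂ))
    · rintro _ ⟨w, hw, rfl⟩ hwc
      have := hneg _ hwc
      simp only [neg_neg] at this
      exact Pool.Agent.RSt.unb_subset_compl hw this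
    · refine ⟨-((R + 1 : ℝ) : ℂ), hfar ?_, by simp⟩
      simp only [Set.mem_ofPred_eq, norm_neg, Complex.norm_real]
      rw [Real.norm_of_nonneg (by linarith)]
      linarith
    · apply hfar
      simp only [Set.mem_ofPred_eq, Complex.norm_real]
      rw [Real.norm_of_nonneg (by linarith)]
      linarith
  intro w hw
  exact h1 ⟨w, hw, rfl⟩

theorem ab_one {z : ℂ} {c : Set ℂ} {R : ℝ} (hR0 : 0 < R) (hck : IsCompact c) (hcc : IsConnected c)
    (hcneg : ∀ w ∈ c, -w ∈ c) (hcb : ∀ w ∈ c, ‖w‖ ≤ R) (hcz : ∀ w ∈ c, w + z ∉ c) :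
    ∀ w ∈ Pool.Agent.RSt.fil c R, w + z ∉ Pool.Agent.RSt.fil c R := by
  have hccl : IsClosed c := hck.isClosed
  have hcp : IsPreconnected c := hcc.isPreconnected
  set U : Set ℂ := Pool.Agent.RSt.unb c R with hU
  set K : Set ℂ := Pool.Agent.RSt.fil c R with hK
  have hKk : IsCompact K := Pool.Agent.RSt.fil_compact hccl hR0.le hcb
  have hKc : IsConnected K := Pool.Agent.RSt.fil_connected hccl hcc hR0.le hcb
  have hfar : {w : ℂ | R < ‖w‖} ⊆ U := Pool.Agent.RSt.far_subset_unb hR0.le hcb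
  have hUneg : ∀ w ∈ U, -w ∈ U := ab_unb_neg hR0 hcneg hcb
  have hplus : ∀ w ∈ c, w + z ∈ U := by
    by_contra hcon
    push Not at hcon
    obtain ⟨w1, hw1, hw1U⟩ := hcon
    set c1 : Set ℂ := (fun w => w + z) '' c with hc1
    have hc1p : IsPreconnected c1 := hcp.image _ (by fun_prop)
    have hc1c : c1 ⊆ cᶜ := by
      rintro _ ⟨w, hw, rfl⟩
      exact hcz w hw
    have hnone : ∀ w ∈ c, w + z ∈ K := by
      intro w hw hwU
      exact hw1U (Pool.Agent.RSt.unb_maximal hR0.le hcb hc1p hc1c (x := w + z) ⟨w, hw, rfl⟩ hwU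
        ⟨w1, hw1, rfl⟩)
    have hint : ∀ w ∈ c, w + z ∈ interior K := fun w hw =>
      Pool.Agent.RSt.diff_subset_interior hccl hR0.le hcb (hnone w hw) (hcz w hw)
    obtain ⟨p, hp, hpmax⟩ :=
      hKk.exists_isMaxOn hKc.nonempty Complex.continuous_re.continuousOn
    obtain ⟨q, hq, hqmin⟩ :=
      hKk.exists_isMinOn hKc.nonempty Complex.continuous_re.continuousOn
    have hmax : ∀ w ∈ interior K, w.re < p.re := by
      intro w hw
      obtain ⟨e, he, hb⟩ := Metric.mem_nhds_iff.mp (mem_interior_iff_mem_nhds.mp hw)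
      have h1 : w + ((e / 2 : ℝ) : ℂ) ∈ K := by
        apply hb
        rw [Metric.mem_ball, dist_eq_norm, add_sub_cancel_left, Complex.norm_real,
          Real.norm_of_nonneg (by positivity)]
        linarith
      have h2 : (w + ((e / 2 : ℝ) : ℂ)).re ≤ p.re := hpmax h1
      simp only [Complex.add_re, Complex.ofReal_re] at h2
      linarith
    have hmin : ∀ w ∈ interior K, q.re < w.re := by
      intro w hw
      obtain ⟨e, he, hb⟩ := Metric.mem_nhds_iff.mp (mem_interior_iff_mem_nhds.mp hw)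
      have h1 : w - ((e / 2 : ℝ) : ℂ) ∈ K := by
        apply hb
        rw [Metric.mem_ball, dist_eq_norm, sub_sub_cancel_left, norm_neg, Complex.norm_real,
          Real.norm_of_nonneg (by positivity)]
        linarith
      have h2 : q.re ≤ (w - ((e / 2 : ℝ) : ℂ)).re := hqmin h1
      simp only [Complex.sub_re, Complex.ofReal_re] at h2
      linarith
    have hpc : p ∈ c := by
      by_contra hpc
      exact lt_irrefl _ (hmax p (Pool.Agent.RSt.diff_subset_interior hccl hR0.le hcb hp hpc))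
    have hqc : q ∈ c := by
      by_contra hqc
      exact lt_irrefl _ (hmin q (Pool.Agent.RSt.diff_subset_interior hccl hR0.le hcb hq hqc))
    have h1 := hmax _ (hint p hpc)
    have h2 := hmin _ (hint q hqc)
    simp only [Complex.add_re] at h1 h2
    linarith
  have hminus : ∀ w ∈ c, w - z ∈ U := by
    intro w hw
    have := hUneg _ (hplus _ (hcneg w hw))
    rwa [show -(-w + z) = w - z by ring] at this
  intro w hw hwz
  set A : Set ℂ := K ∩ (fun w => w + z) ⁻¹' K with hA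
  have hAo : IsOpen A := by
    rw [isOpen_iff_mem_nhds]
    rintro y ⟨hy1, hy2⟩
    have hyc : y ∉ c := fun h => hy2 (hplus y h)
    have hyc2 : y + z ∉ c := by
      intro h
      have := hminus _ h
      rw [add_sub_cancel_right] at this
      exact hy1 this
    have i1 : K ∈ nhds y :=
      mem_interior_iff_mem_nhds.mp
        (Pool.Agent.RSt.diff_subset_interior hccl hR0.le hcb hy1 hyc)
    have i2 : K ∈ nhds (y + z) :=
      mem_interior_iff_mem_nhds.mp
        (Pool.Agent.RSt.diff_subset_interior hccl hR0.le hcb hy2 hyc2)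
    have i3 : (fun w => w + z) ⁻¹' K ∈ nhds y :=
      (show Continuous (fun w : ℂ => w + z) by fun_prop).continuousAt.preimage_mem_nhds i2
    exact Filter.inter_mem i1 i3
  have hAc : IsClosed A :=
    hKk.isClosed.inter (hKk.isClosed.preimage (by fun_prop))
  have hAu : A = Set.univ := IsClopen.eq_univ ⟨hAc, hAo⟩ ⟨w, hw, hwz⟩
  have h1 : ((R + 1 : ℝ) : ℂ) ∈ A := by rw [hAu]; trivial
  apply h1.1
  apply hfar
  simp only [Set.mem_ofPred_eq, Complex.norm_real]
  rw [Real.norm_of_nonneg (by linarith)]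
  linarith

theorem fil_trn {z : ℂ} {c : Set ℂ} {R : ℝ} (hR : 0 < R) (hck : IsCompact c) (hcc : IsConnected c)
    (hneg : ∀ w ∈ c, -w ∈ c) (hcR : ∀ w ∈ c, ‖w‖ ≤ R) (hz : ∀ w ∈ c, w + z ∉ c) :
    (∀ w ∈ Pool.Agent.RSt.fil c R, -w ∈ Pool.Agent.RSt.fil c R) ∧
    ∀ n : ℤ, n ≠ 0 → ∀ w ∈ Pool.Agent.RSt.fil c R, w + n * z ∉ Pool.Agent.RSt.fil c R := by
  have h1 : ∀ w ∈ Pool.Agent.RSt.fil c R, -w ∈ Pool.Agent.RSt.fil c R := by
    intro w hw hwU
    apply hw
    have := ab_unb_neg hR hneg hcR _ hwU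
    rwa [neg_neg] at this
  refine ⟨h1, ?_⟩
  have h2 := ab_one hR hck hcc hneg hcR hz
  have h3 := fun m : ℕ => Pool.Agent.RSt.hopf_multiples
    (Pool.Agent.RSt.fil_compact hck.isClosed hR.le hcR)
    (Pool.Agent.RSt.fil_connected hck.isClosed hcc hR.le hcR) h2 m
  intro n hn w hw hwn
  rcases lt_or_gt_of_ne hn with hn' | hn'
  · obtain ⟨m, hm⟩ : ∃ m : ℕ, n = -((m : ℤ) + 1) := ⟨(-n - 1).toNat, by omega⟩
    apply h3 m _ hwn
    have e : w + (n : ℂ) * z + ((m : ℂ) + 1) * z = w := by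
      rw [hm]; push_cast; ring
    rwa [e]
  · obtain ⟨m, hm⟩ : ∃ m : ℕ, n = (m : ℤ) + 1 := ⟨(n - 1).toNat, by omega⟩
    apply h3 m w hw
    have e : w + ((m : ℂ) + 1) * z = w + (n : ℂ) * z := by
      rw [hm]; push_cast; ring
    rwa [e]
/- END ab -/

/- MODULE ac
`S = (closure (unb c R))ᶜ` for `c = cthickening r K`: open, bounded (`far_subset_unb`), `S ⊆ fil c R`,
so `neg` (the closure is symmetric) and `trn` hold; `K ⊆ interior c ⊆ S` (`K ⊆ thickening r K`, which is
open and disjoint from `unb c R`, hence from its closure).  `con`: `Sᶜ = closure (unb c R)` is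
preconnected (`unb_preconnected.closure`) and not bounded: if `Z ⊆ Sᶜ` is compact and `Sᶜ \ Z` closed,
`Z ≠ ∅`, then `Sᶜ \ Z = ∅` by preconnectedness (`isPreconnected_closed_iff`), so `Sᶜ = Z` is bounded:
contradiction (`unb_not_bounded`). -/
theorem exists_dom {z : ℂ} {K : Set ℂ} (hK : IsCompact K) (hc : IsConnected K)
    (hneg : ∀ w ∈ K, -w ∈ K) (hz : ∀ w ∈ K, w + z ∉ K) : ∃ S : Set ℂ, Dom z S ∧ K ⊆ S := by
  obtain ⟨r, hr, tk, tc, tneg, tz⟩ := exists_thick hK hc hneg hz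
  set c : Set ℂ := Metric.cthickening r K with hcdef
  obtain ⟨R0, hR0'⟩ := tk.isBounded.exists_norm_le
  set R : ℝ := max R0 1 with hR
  have hR0 : 0 < R := lt_of_lt_of_le one_pos (le_max_right _ _)
  have hcb : ∀ w ∈ c, ‖w‖ ≤ R := fun w hw => (hR0' w hw).trans (le_max_left _ _)
  obtain ⟨fneg, ftrn⟩ := fil_trn hR0 tk tc tneg hcb tz
  have hsub : (closure (Pool.Agent.RSt.unb c R))ᶜ ⊆ Pool.Agent.RSt.fil c R :=
    compl_subset_compl.mpr subset_closure
  refine ⟨(closure (Pool.Agent.RSt.unb c R))ᶜ, ⟨isClosed_closure.isOpen_compl, ?_, ?_, ?_, ?_⟩, ?_⟩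
  · refine ⟨R + 1, fun w hw => ?_⟩
    by_contra hlt
    push Not at hlt
    apply hsub hw
    apply Pool.Agent.RSt.far_subset_unb hR0.le hcb
    simp only [Set.mem_ofPred_eq]
    linarith
  · intro w hw hwn
    apply hw
    have h1 : -(-w) ∈ closure ((fun x : ℂ => -x) '' Pool.Agent.RSt.unb c R) :=
      map_mem_closure (s := Pool.Agent.RSt.unb c R) (f := fun x : ℂ => -x) (by fun_prop) hwn
        (fun x hx => ⟨x, hx, rfl⟩)
    rw [neg_neg] at h1
    apply closure_mono _ h1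
    rintro _ ⟨x, hx, rfl⟩
    exact ab_unb_neg hR0 tneg hcb x hx
  · intro n hn w hw hwn
    exact ftrn n hn w (hsub hw) (hsub hwn)
  · intro Z hZ hZk hZc
    rw [compl_compl] at hZ hZc
    by_contra hne
    obtain ⟨x, hx⟩ := Set.nonempty_iff_ne_empty.mpr hne
    have hp : IsPreconnected (closure (Pool.Agent.RSt.unb c R)) :=
      Pool.Agent.RSt.unb_preconnected.closure
    have hb : ¬ Bornology.IsBounded (Pool.Agent.RSt.unb c R) :=
      Pool.Agent.RSt.unb_not_bounded hR0.le hcb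
    rcases (closure (Pool.Agent.RSt.unb c R) \ Z).eq_empty_or_nonempty with he | ⟨y, hy⟩
    · apply hb
      apply hZk.isBounded.subset
      intro w hw
      by_contra hwZ
      have : w ∈ closure (Pool.Agent.RSt.unb c R) \ Z := ⟨subset_closure hw, hwZ⟩
      rw [he] at this
      exact this
    · have h1 := isPreconnected_closed_iff.mp hp Z (closure (Pool.Agent.RSt.unb c R) \ Z)
        hZk.isClosed hZc (fun w hw => by
          by_cases h : w ∈ Z
          · exact Or.inl h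
          · exact Or.inr ⟨hw, h⟩) ⟨x, hZ hx, hx⟩ ⟨y, hy.1, hy⟩
      obtain ⟨w, -, hw1, hw2⟩ := h1
      exact hw2.2 hw1
  · intro w hw hwcl
    rw [Metric.mem_closure_iff] at hwcl
    obtain ⟨y, hy, hwy⟩ := hwcl r hr
    apply Pool.Agent.RSt.unb_subset_compl hy
    rw [hcdef]
    apply (aa_ball hK hr).mpr
    refine ⟨w, hw, ?_⟩
    rw [← dist_eq_norm, dist_comm]
    exact hwy.le
/- END ac -/

/- MODULE ad
The function: `a` smooth, values in `[0, 1]`, `a = 1` on `K`, `0` off `S` (smooth Urysohn lemma,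
`exists_contDiff_..` / `exists_smooth_zero_one_of_isClosed`-type), made even by
`a w := a₀ w * a₀ (-w)`; `u w = a w⁻¹ - a w` for `w ≠ 0`, `u 0 = -1`.  Near `0`: `w⁻¹ ∉ S` for small
`w ≠ 0`, so `u w = -a w`, smooth, and `a 0 = 1`.  Off `S`: `a w = 0` and `w⁻¹ ∈ K` (as `w ∉ K`,
`w ≠ 0`), so `u w = 1`. -/
theorem exists_fun {z : ℂ} {S K : Set ℂ} (hD : Dom z S) (hKS : K ⊆ S) (hK : IsCompact K)
    (h0 : (0 : ℂ) ∈ K) (hneg : ∀ w ∈ K, -w ∈ K) (hinv : ∀ w : ℂ, w ≠ 0 → w ∈ K ∨ w⁻¹ ∈ K) :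
    ∃ u : ℂ → ℝ, Fun S u := by
  obtain ⟨a0, a1, a2, a3⟩ := exists_contMDiffMap_zero_one_of_isClosed (n := 1)
    (modelWithCornersSelf ℝ ℂ) hD.opn.isClosed_compl hK.isClosed
    (Set.disjoint_left.mpr fun w hw hw' => hw (hKS hw'))
  have hsm : ContDiff ℝ 1 (fun w => a0 w) := a0.contMDiff.contDiff
  set a : ℂ → ℝ := fun w => a0 w * a0 (-w) with ha
  have asm : ContDiff ℝ 1 a := hsm.mul (hsm.comp contDiff_neg)
  have aev : ∀ w, a (-w) = a w := by
    intro w
    simp only [ha, neg_neg]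
    ring
  have a01 : ∀ w, 0 ≤ a w ∧ a w ≤ 1 := by
    intro w
    have h1 := a3 w
    have h2 := a3 (-w)
    exact ⟨mul_nonneg h1.1 h2.1, mul_le_one₀ h1.2 h2.1 h2.2⟩
  have aK : ∀ w ∈ K, a w = 1 := by
    intro w hw
    simp only [ha]
    rw [a2 hw, a2 (hneg w hw)]
    simp
  have aS : ∀ w, w ∉ S → a w = 0 := by
    intro w hw
    simp only [ha]
    rw [a1 hw]
    simp
  obtain ⟨R, hR⟩ := hD.bdd
  have hRp : 0 < R := lt_of_le_of_lt (norm_nonneg _) (hR 0 (hKS h0))
  set u : ℂ → ℝ := fun w => if w = 0 then -1 else a w⁻¹ - a w with hu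
  have unear : ∀ w : ℂ, ‖w‖ < R⁻¹ → u w = -a w := by
    intro w hw
    simp only [hu]
    split_ifs with h
    · rw [h, aK 0 h0]
    · rw [aS w⁻¹, zero_sub]
      intro hS
      have h1 := hR _ hS
      rw [norm_inv] at h1
      have h2 : 0 < ‖w‖ := norm_pos_iff.mpr h
      have h3 := (inv_lt_comm₀ h2 hRp).mp h1
      linarith
  refine ⟨u, ⟨?_, ?_, ?_, ?_, ?_⟩⟩
  · rw [contDiff_iff_contDiffAt]
    intro w
    by_cases hw : w = 0
    · subst hw
      have h1 : ContDiffAt ℝ 1 (fun w => -a w) 0 := asm.neg.contDiffAt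
      apply h1.congr_of_eventuallyEq
      filter_upwards [Metric.ball_mem_nhds (0 : ℂ) (inv_pos.mpr hRp)] with y hy
      rw [Metric.mem_ball, dist_zero_right] at hy
      exact unear y hy
    · have h1 : ContDiffAt ℝ 1 (fun w => a w⁻¹ - a w) w := by
        apply ContDiffAt.sub _ asm.contDiffAt
        exact asm.contDiffAt.comp w (contDiffAt_inv ℝ hw)
      apply h1.congr_of_eventuallyEq
      filter_upwards [isOpen_ne.mem_nhds hw] with y hy
      simp only [hu]
      rw [if_neg hy]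
  · intro w
    simp only [hu]
    split_ifs with h
    · simp
    · rw [abs_le]
      have h1 := a01 w
      have h2 := a01 w⁻¹
      constructor <;> linarith
  · intro w
    by_cases h : w = 0
    · simp [h]
    · simp only [hu]
      rw [if_neg h, if_neg (neg_ne_zero.mpr h), inv_neg, aev, aev]
  · intro w h
    simp only [hu]
    rw [if_neg h, if_neg (inv_ne_zero h), inv_inv]
    ring
  · intro w hw
    have hwK : w ∉ K := fun h => hw (hKS h)
    have hw0 : w ≠ 0 := fun h => hwK (h ▸ h0)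
    have hi : w⁻¹ ∈ K := (hinv w hw0).resolve_left hwK
    simp only [hu]
    rw [if_neg hw0, aK _ hi, aS w hw]
    norm_num
/- END ad -/

/- MODULE ae
The converse: `{w | u w ≤ 0}` is a trap (`Pool.Agent.FZE.Trap`): closed, contained in `S`, so bounded;
contains `0`, symmetric; `u w > 0` implies `w ≠ 0` or `u 0 = -1`.., `u w⁻¹ = -u w < 0`; and it misses its
translate by `z` since it is contained in `S`.  `Pool.Agent.FZE.not_mem_of_trap`.  The other direction:
`Pool.Agent.FZE.exists_continuum`. -/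
theorem ae_not_mem {z : ℂ} {S : Set ℂ} {u : ℂ → ℝ} (hD : Dom z S) (hF : Fun S u) : z ∉ Sig := by
  have hcu : Continuous u := hF.smo.continuous
  have hu0 : u 0 = -1 := by
    obtain ⟨R, hR⟩ := hD.bdd
    set R' : ℝ := max R 1 with hR'
    have hRp : 0 < R' := lt_of_lt_of_le one_pos (le_max_right _ _)
    have hcl : (0 : ℂ) ∈ closure {w : ℂ | w ≠ 0 ∧ ‖w‖ < R'⁻¹} := by
      rw [Metric.mem_closure_iff]
      intro e he
      have hm : 0 < min (R'⁻¹) e / 2 := by positivity
      refine ⟨((min (R'⁻¹) e / 2 : ℝ) : ℂ), ⟨?_, ?_⟩, ?_⟩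
      · exact_mod_cast hm.ne'
      · rw [Complex.norm_real, Real.norm_of_nonneg hm.le]
        have := min_le_left (R'⁻¹) e
        have : 0 < R'⁻¹ := inv_pos.mpr hRp
        linarith
      · rw [dist_zero_left, Complex.norm_real, Real.norm_of_nonneg hm.le]
        have := min_le_right (R'⁻¹) e
        linarith
    have hsub : {w : ℂ | w ≠ 0 ∧ ‖w‖ < R'⁻¹} ⊆ {w | u w = -1} := by
      rintro w ⟨hw0, hw⟩
      have h1 : w⁻¹ ∉ S := by
        intro h
        have h1 := hR _ h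
        rw [norm_inv] at h1
        have h2 : 0 < ‖w‖ := norm_pos_iff.mpr hw0
        have h3 := (inv_lt_comm₀ h2 hRp).mp (lt_of_lt_of_le h1 (le_max_left _ _))
        linarith
      have h2 := hF.inv _ (inv_ne_zero hw0)
      rw [inv_inv, hF.one _ h1] at h2
      exact h2
    have := closure_minimal hsub (isClosed_eq hcu continuous_const) hcl
    exact this
  refine Pool.Agent.FZE.not_mem_of_trap (K := {w | u w ≤ 0}) ⟨?_, ?_, ?_, ?_, ?_⟩
  · rw [Metric.isCompact_iff_isClosed_bounded]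
    refine ⟨isClosed_le hcu continuous_const, ?_⟩
    obtain ⟨R, hR⟩ := hD.bdd
    rw [isBounded_iff_forall_norm_le]
    refine ⟨R, fun w hw => ?_⟩
    by_contra hlt
    push Not at hlt
    have h1 : w ∉ S := fun h => absurd (hR w h) (not_lt.mpr hlt.le)
    have h2 := hF.one w h1
    simp only [Set.mem_ofPred_eq] at hw
    linarith
  · simp only [Set.mem_ofPred_eq, hu0]
    norm_num
  · intro w hw
    simp only [Set.mem_ofPred_eq, hF.evn] at hw ⊢
    exact hw
  · intro w hw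
    simp only [Set.mem_ofPred_eq, not_le] at hw ⊢
    have hw0 : w ≠ 0 := by
      rintro rfl
      rw [hu0] at hw
      linarith
    rw [hF.inv w hw0]
    linarith
  · intro x hx y hy he
    have h1 : ∀ w, u w ≤ 0 → w ∈ S := by
      intro w hw
      by_contra h
      have := hF.one w h
      linarith
    apply hD.trn 1 one_ne_zero y (h1 y hy)
    have h2 : y + ((1 : ℤ) : ℂ) * z = x := by
      push_cast
      rw [← he]
      ring
    rw [h2]
    exact h1 x hx

theorem mem_iff (z : ℂ) : z ∉ Sig ↔ ∃ (S : Set ℂ) (u : ℂ → ℝ), Dom z S ∧ Fun S u := by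
  constructor
  · intro h
    obtain ⟨K, hK, hc, -⟩ := Pool.Agent.FZE.exists_continuum h
    obtain ⟨S, hS, hKS⟩ := exists_dom hK.cpt hc hK.neg (fun w hw hwz => hK.sep _ hwz _ hw (by ring))
    obtain ⟨u, hu⟩ := exists_fun hS hKS hK.cpt hK.zero hK.neg
      (fun w _ => or_iff_not_imp_left.2 fun hx => hK.inv w hx)
    exact ⟨S, u, hS, hu⟩
  · rintro ⟨S, u, hS, hu⟩
    exact ae_not_mem hS hu

theorem far_not_mem : ∀ z : ℂ, 2 < ‖z‖ → z ∉ Sig := by
  intro z hz hmem
  rw [Sig_eq] at hmem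
  obtain ⟨b, hb, ψ, ⟨C, hC⟩, ⟨n0, hn0⟩, hrec⟩ := hmem
  have hzp : 0 < ‖z‖ := by linarith
  have hb1 : ∀ n, ‖b n‖ = 1 := by
    intro n
    rcases hb n with h | h <;> simp [h]
  have key : ∀ k : ℕ, ∀ n, ‖ψ n‖ ≤ (2 / ‖z‖) ^ k * C := by
    intro k
    induction k with
    | zero => intro n; simpa using hC n
    | succ k ih =>
      intro n
      have h1 : ‖z‖ * ‖ψ n‖ ≤ 2 * ((2 / ‖z‖) ^ k * C) := by
        rw [← norm_mul, ← hrec n]
        calc ‖ψ (n + 1) + b (n - 1) * ψ (n - 1)‖ ≤ ‖ψ (n + 1)‖ + ‖b (n - 1) * ψ (n - 1)‖ :=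
              norm_add_le _ _
          _ = ‖ψ (n + 1)‖ + ‖ψ (n - 1)‖ := by rw [norm_mul, hb1, one_mul]
          _ ≤ 2 * ((2 / ‖z‖) ^ k * C) := by linarith [ih (n + 1), ih (n - 1)]
      have h2 : ‖ψ n‖ ≤ 2 * ((2 / ‖z‖) ^ k * C) / ‖z‖ := by
        rw [le_div_iff₀ hzp]
        linarith
      calc ‖ψ n‖ ≤ 2 * ((2 / ‖z‖) ^ k * C) / ‖z‖ := h2
        _ = (2 / ‖z‖) ^ (k + 1) * C := by rw [pow_succ]; ring
  have hlim : Filter.Tendsto (fun k : ℕ => (2 / ‖z‖) ^ k * C) Filter.atTop (nhds (0 * C)) := by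
    apply Filter.Tendsto.mul_const
    apply tendsto_pow_atTop_nhds_zero_of_lt_one (by positivity)
    rw [div_lt_one hzp]
    exact hz
  rw [zero_mul] at hlim
  have h1 : ‖ψ n0‖ ≤ 0 := ge_of_tendsto' hlim (fun k => key k n0)
  exact hn0 (norm_le_zero_iff.mp h1)
/- END ae -/

end Pool.Agent.NoH
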