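import Pool.Agent.NoH.Bet

set_option autoImplicit false

/-!
# Part I: the linear term is at least `(2 - small) En u`
-/

open MeasureTheory Set

namespace Pool.Agent.NoH

/- MODULE ha
`∫ β ‖psi u‖² = En u / 8`: `β w + β w⁻¹ = 1`, `‖psi u w⁻¹‖² ‖w‖⁻⁴ = ‖psi u w‖²` (from `u ∘ inv = -u`,
`psi_inv`), `integral_inv`, `∫ ‖psi u‖² = En u / 4`. -/
private theorem ha_psi {S : Set ℂ} {u : ℂ → ℝ} (hF : Fun S u) {w : ℂ} (hw : w ≠ 0) :
    psi (fun x => u x⁻¹) w = -psi u w := by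
  have he : (fun x => u x⁻¹) =ᶠ[nhds w] fun x => -u x := by
    filter_upwards [isOpen_ne.mem_nhds hw] with x hx
    exact hF.inv x hx
  have hd : fderiv ℝ (fun x => u x⁻¹) w = -fderiv ℝ u w := by
    rw [he.fderiv_eq, fderiv_fun_neg]
  have hg : grd (fun x => u x⁻¹) w = -grd u w := by
    simp only [grd, hd]
    apply Complex.ext
    · simp
    · simp
  simp only [psi, hg, map_neg, neg_div]

theorem integral_beta {z : ℂ} {S : Set ℂ} {u β : ℂ → ℝ} {h M : ℝ} (hD : Dom z S) (hF : Fun S u)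
    (hβ : Bet S h M β) : ∫ w, β w * ‖psi u w‖ ^ 2 = En u / 8 := by
  have hP := plat_of_fun hD hF
  have hg := integrable_grd_sq hD hP
  have hpsi2 : ∀ w, ‖psi u w‖ ^ 2 = ‖grd u w‖ ^ 2 / 4 := fun w => by
    have := norm_grd_sq u w
    linarith
  have hi : Integrable (fun w => ‖psi u w‖ ^ 2) := by
    simp_rw [hpsi2]
    exact hg.div_const 4
  have hcβ : Continuous β := hβ.smo.continuous
  have hiβ : Integrable (fun w => β w * ‖psi u w‖ ^ 2) := by
    refine hi.mono' (hcβ.aestronglyMeasurable.mul hi.aestronglyMeasurable) (ae_of_all _ fun w => ?_)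
    rw [Real.norm_eq_abs, abs_mul, abs_of_nonneg (hβ.bnd w).1, abs_of_nonneg (by positivity)]
    exact mul_le_of_le_one_left (by positivity) (hβ.bnd w).2
  have hE : ∫ w, ‖psi u w‖ ^ 2 = En u / 4 := by
    simp_rw [hpsi2]
    rw [integral_div]
    rfl
  have hpt : ∀ w : ℂ, (‖w‖ ^ 4)⁻¹ • (β w⁻¹ * ‖psi u w⁻¹‖ ^ 2) =
      ‖psi u w‖ ^ 2 - β w * ‖psi u w‖ ^ 2 := by
    intro w
    by_cases hw : w = 0
    · subst hw
      have h0 : psi u 0 = 0 := by
        have h1 : |u 0| = 1 := by rw [(zero_mem hD hF).1]; norm_num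
        rw [psi, grd_eq_zero hF.bnd h1]
        simp
      rw [h0]
      simp [h0]
    · have h1 : psi (fun x => u x⁻¹) w = -psi u w := ha_psi hF hw
      have hu : DifferentiableAt ℝ u w⁻¹ := (hF.smo.differentiable (by norm_num)) _
      have h2 := psi_inv hw hu
      rw [h1] at h2
      have h3 : ‖psi u w‖ = ‖psi u w⁻¹‖ / ‖w‖ ^ 2 := by
        have h4 := congrArg norm h2
        rw [norm_neg, norm_div, norm_neg, norm_pow] at h4
        exact h4
      have hw' : ‖w‖ ≠ 0 := norm_ne_zero_iff.mpr hw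
      rw [hβ.inv w hw, h3, smul_eq_mul]
      field_simp
  have h5 := integral_inv (fun w => β w * ‖psi u w‖ ^ 2)
  simp_rw [hpt] at h5
  rw [integral_sub hi hiβ, hE] at h5
  linarith
/- END ha -/

/- MODULE hb
Mollification of `β ψ_e²`, `ψ_e = conj (mol e (grd u)) / 2 = mol e (psi u)`: it is `C^1` with compact
support, `∫ ‖fderiv (β ψ_e²)‖ ≤ M ∫ ‖ψ_e‖² + 2 ∫ ‖ψ_e‖ ‖fderiv ψ_e‖ ≤ (M + 2 C / e) En u`
(`integral_mol_sq_le`, `exists_fderiv_mol_bound`, Cauchy - Schwarz, `‖psi‖² = ‖grd‖²/4`,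
`norm_fderiv_eq` for `β`), so by `integral_mol_sub_le`
`∫ ‖mol ε (β ψ_e²) - β ψ_e²‖ ≤ ε (M + 2 C / e) En u`. -/
private theorem hb_int {F : Type} [NormedAddCommGroup F] (f : ℂ → F) (hf : Continuous f)
    (hs : HasCompactSupport f) : Integrable fun w => ‖f w‖ ^ 2 := by
  have h1 : HasCompactSupport (fun w => ‖f w‖ ^ 2) := by
    refine hs.mono ?_
    intro w hw
    rw [Function.mem_support] at hw ⊢
    intro h
    exact hw (by rw [h, norm_zero]; norm_num)
  have h2 : Continuous (fun w => ‖f w‖ ^ 2) := hf.norm.pow 2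
  exact h2.integrable_of_hasCompactSupport h1

private theorem hb_psi_cont {S : Set ℂ} {u : ℂ → ℝ} (hF : Fun S u) : Continuous (psi u) :=
  (Complex.continuous_conj.comp (continuous_grd hF.smo)).div_const 2

private theorem hb_psi_supp {z : ℂ} {S : Set ℂ} {u : ℂ → ℝ} (hD : Dom z S) (hF : Fun S u) :
    HasCompactSupport (psi u) :=
  (grd_compactSupport hD (plat_of_fun hD hF)).comp_left
    (g := fun y : ℂ => (starRingEnd ℂ) y / 2) (by simp)

private theorem hb_psi_int {z : ℂ} {S : Set ℂ} {u : ℂ → ℝ} (hD : Dom z S) (hF : Fun S u) :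
    ∫ w, ‖psi u w‖ ^ 2 = En u / 4 := by
  have hpsi2 : ∀ w, ‖psi u w‖ ^ 2 = ‖grd u w‖ ^ 2 / 4 := fun w => by
    have := norm_grd_sq u w
    linarith
  simp_rw [hpsi2]
  rw [integral_div]
  rfl

theorem exists_smooth_bound : ∃ C : ℝ, 0 < C ∧ ∀ (z : ℂ) (S : Set ℂ) (u β : ℂ → ℝ) (h M : ℝ),
    Dom z S → Fun S u → Bet S h M β → 0 ≤ M → ∀ e ε : ℝ, 0 < e → 0 < ε →
    ∫ w, ‖mol ε (fun x => (β x : ℂ) * mol e (psi u) x ^ 2) w - β w * mol e (psi u) w ^ 2‖ ≤
      ε * (M + C / e) * En u := by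
  obtain ⟨C, hC, hCb⟩ := exists_fderiv_mol_bound
  refine ⟨C, hC, ?_⟩
  intro z S u β h M hD hF hβ hM e ε he hε
  have hψc := hb_psi_cont hF
  have hψs := hb_psi_supp hD hF
  have hE := hb_psi_int hD hF
  have hE0 : 0 ≤ En u := integral_nonneg fun w => by positivity
  have hl : 0 < C / e := div_pos hC he
  have he1 : ContDiff ℝ 2 (mol e (psi u)) := mol_contDiff he hψc.locallyIntegrable
  have he2 : HasCompactSupport (mol e (psi u)) := mol_compactSupport he hψs
  have hX : ∫ w, ‖mol e (psi u) w‖ ^ 2 ≤ En u / 4 := by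
    rw [← hE]
    exact integral_mol_sq_le he hψc hψs
  have hY : ∫ w, ‖fderiv ℝ (mol e (psi u)) w‖ ^ 2 ≤ (C / e) ^ 2 * (En u / 4) := by
    rw [← hE]
    exact hCb e he (psi u) hψc hψs
  have hf1 : ContDiff ℝ 1 (fun x => (β x : ℂ) * mol e (psi u) x ^ 2) :=
    (Complex.ofRealCLM.contDiff.comp hβ.smo).mul ((he1.of_le (by norm_num)).pow 2)
  have hf2 : HasCompactSupport (fun x => (β x : ℂ) * mol e (psi u) x ^ 2) :=
    (he2.comp_left (g := fun y : ℂ => y ^ 2) (by simp)).mul_left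
  have h1 := integral_mol_sub_le hε hf1 hf2
  refine le_trans h1 ?_
  have hcd : Continuous (fderiv ℝ (mol e (psi u))) := he1.continuous_fderiv (by norm_num)
  have i1 : Integrable fun w => ‖mol e (psi u) w‖ ^ 2 := hb_int _ he1.continuous he2
  have i2 : Integrable fun w => ‖fderiv ℝ (mol e (psi u)) w‖ ^ 2 := hb_int _ hcd (he2.fderiv ℝ)
  have hpt : ∀ w, ‖fderiv ℝ (fun x => (β x : ℂ) * mol e (psi u) x ^ 2) w‖ ≤
      (M + C / e) * ‖mol e (psi u) w‖ ^ 2 + (C / e)⁻¹ * ‖fderiv ℝ (mol e (psi u)) w‖ ^ 2 := by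
    intro w
    have hb1 : HasFDerivAt (fun x => (β x : ℂ)) (Complex.ofRealCLM.comp (fderiv ℝ β w)) w :=
      Complex.ofRealCLM.hasFDerivAt.comp w
        ((hβ.smo.differentiable (by norm_num)) w).hasFDerivAt
    have hb2 : HasFDerivAt (mol e (psi u)) (fderiv ℝ (mol e (psi u)) w) w :=
      ((he1.differentiable (by norm_num)) w).hasFDerivAt
    have hb3 : HasFDerivAt (fun x => (β x : ℂ) * (mol e (psi u) x * mol e (psi u) x))
        ((β w : ℂ) • (mol e (psi u) w • fderiv ℝ (mol e (psi u)) w +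
          mol e (psi u) w • fderiv ℝ (mol e (psi u)) w) +
          (mol e (psi u) w * mol e (psi u) w) • Complex.ofRealCLM.comp (fderiv ℝ β w)) w :=
      hb1.mul (hb2.mul hb2)
    have e0 : (fun x => (β x : ℂ) * mol e (psi u) x ^ 2) =
        fun x => (β x : ℂ) * (mol e (psi u) x * mol e (psi u) x) := by
      funext x
      ring
    rw [e0, hb3.fderiv]
    have hbM : ‖fderiv ℝ β w‖ ≤ M := by
      rw [norm_fderiv_eq ((hβ.smo.differentiable (by norm_num)) w)]
      exact hβ.grd w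
    have hβ1 : ‖(β w : ℂ)‖ ≤ 1 := by
      rw [Complex.norm_real, Real.norm_eq_abs, abs_of_nonneg (hβ.bnd w).1]
      exact (hβ.bnd w).2
    refine ContinuousLinearMap.opNorm_le_bound _ (by positivity) fun k => ?_
    have e1 : ‖(fderiv ℝ β w) k‖ ≤ M * ‖k‖ :=
      le_trans ((fderiv ℝ β w).le_opNorm k) (mul_le_mul_of_nonneg_right hbM (norm_nonneg _))
    have e2 := (fderiv ℝ (mol e (psi u)) w).le_opNorm k
    set a := mol e (psi u) w with ha
    set D := fderiv ℝ (mol e (psi u)) w with hDd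
    have e3 : ‖(β w : ℂ) * (2 * a * D k) + a ^ 2 * ((fderiv ℝ β w k : ℝ) : ℂ)‖ ≤
        1 * (2 * ‖a‖ * (‖D‖ * ‖k‖)) + ‖a‖ ^ 2 * (M * ‖k‖) := by
      refine le_trans (norm_add_le _ _) (add_le_add ?_ ?_)
      · rw [norm_mul, norm_mul, norm_mul, Complex.norm_ofNat]
        exact mul_le_mul hβ1 (mul_le_mul_of_nonneg_left e2 (by positivity)) (by positivity)
          (by norm_num)
      · rw [norm_mul, norm_pow, Complex.norm_real]
        exact mul_le_mul_of_nonneg_left e1 (by positivity)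
    have e4 : 2 * ‖a‖ * ‖D‖ ≤ C / e * ‖a‖ ^ 2 + (C / e)⁻¹ * ‖D‖ ^ 2 := by
      have h5 : 0 ≤ (C / e)⁻¹ * (C / e * ‖a‖ - ‖D‖) ^ 2 := by positivity
      have h6 : (C / e)⁻¹ * (C / e * ‖a‖ - ‖D‖) ^ 2 =
          C / e * ‖a‖ ^ 2 - 2 * ‖a‖ * ‖D‖ + (C / e)⁻¹ * ‖D‖ ^ 2 := by
        have : C / e ≠ 0 := hl.ne'
        field_simp
        ring
      linarith
    refine le_trans (le_of_eq ?_) (le_trans e3 ?_)
    · congr 1
      change (β w : ℂ) * (a * D k + a * D k) + (a * a) * ((fderiv ℝ β w k : ℝ) : ℂ) =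
        (β w : ℂ) * (2 * a * D k) + a ^ 2 * ((fderiv ℝ β w k : ℝ) : ℂ)
      ring
    · nlinarith [norm_nonneg k]
  have i3 : Integrable fun w => (M + C / e) * ‖mol e (psi u) w‖ ^ 2 +
      (C / e)⁻¹ * ‖fderiv ℝ (mol e (psi u)) w‖ ^ 2 := (i1.const_mul _).add (i2.const_mul _)
  have h2 : ∫ w, ‖fderiv ℝ (fun x => (β x : ℂ) * mol e (psi u) x ^ 2) w‖ ≤
      (M + C / e) * (∫ w, ‖mol e (psi u) w‖ ^ 2) +
        (C / e)⁻¹ * ∫ w, ‖fderiv ℝ (mol e (psi u)) w‖ ^ 2 := by
    rw [← integral_const_mul, ← integral_const_mul,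
      ← integral_add (i1.const_mul _) (i2.const_mul _)]
    exact integral_mono_of_nonneg (ae_of_all _ fun w => norm_nonneg _) i3 (ae_of_all _ hpt)
  have h3 : (C / e)⁻¹ * ∫ w, ‖fderiv ℝ (mol e (psi u)) w‖ ^ 2 ≤ C / e * (En u / 4) := by
    refine le_trans (mul_le_mul_of_nonneg_left hY (by positivity)) (le_of_eq ?_)
    have : C / e ≠ 0 := hl.ne'
    field_simp
  have h4 : (M + C / e) * (∫ w, ‖mol e (psi u) w‖ ^ 2) ≤ (M + C / e) * (En u / 4) :=
    mul_le_mul_of_nonneg_left hX (by positivity)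
  rw [mul_assoc]
  refine mul_le_mul_of_nonneg_left ?_ hε.le
  nlinarith
/- END hb -/

/- MODULE hc
THE LINEAR TERM.  `ψ = psi u`, `ψ_e = mol e ψ`, `‖ψ - ψ_e‖₂ ≤ ω √(En u) / 2`, `‖ψ + ψ_e‖₂ ≤ √(En u)`.
`∫ β ψ² mol ε μ - ∫ β ψ² μ = ∫ β (ψ² - ψ_e²) mol ε μ + ∫ β ψ_e² (mol ε μ - μ) + ∫ β (ψ_e² - ψ²) μ`;
the first and the last are at most `∫ ‖ψ - ψ_e‖ ‖ψ + ψ_e‖ ≤ ω En u / 2` each (`norm_mol_le`), the middle
one is `∫ (mol ε (β ψ_e²) - β ψ_e²) μ` (`integral_mul_mol`), bounded by `exists_smooth_bound`.  And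
`∫ β ψ² μ = ∫ β ‖ψ‖² = En u / 8`. -/
private theorem hc_mol_psi {e : ℝ} (u : ℂ → ℝ) (w : ℂ) :
    mol e (psi u) w = (starRingEnd ℂ) (mol e (grd u) w) / 2 := by
  unfold mol
  rw [← integral_conj, ← integral_div]
  refine integral_congr_ae (ae_of_all _ fun x => ?_)
  simp only [psi]
  rw [Complex.real_smul, Complex.real_smul, map_mul, Complex.conj_ofReal]
  ring

theorem exists_linear : ∃ C : ℝ, 0 < C ∧ ∀ (z : ℂ) (S : Set ℂ) (u β : ℂ → ℝ) (h M : ℝ)
    (μ : ℂ → ℂ), Dom z S → Fun S u → Bet S h M β → 0 ≤ M → Bel z μ →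
    (∀ w, μ w * psi u w ^ 2 = ((‖psi u w‖ ^ 2 : ℝ) : ℂ)) → ∀ e ε ω : ℝ, 0 < e → 0 < ε → 0 ≤ ω →
    ∫ w, ‖grd u w - mol e (grd u) w‖ ^ 2 ≤ ω ^ 2 * En u →
    En u / 8 - (ω + ε * (M + C / e)) * En u ≤
      ∫ w, (β w * psi u w ^ 2 * mol ε μ w).re := by
  obtain ⟨C, hC, hCb⟩ := exists_smooth_bound
  refine ⟨C, hC, ?_⟩
  intro z S u β h M μ hD hF hβ hM hμ hμu e ε ω he hε hω hω2
  have hψc := hb_psi_cont hF
  have hψs := hb_psi_supp hD hF
  have hE := hb_psi_int hD hF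
  have hE0 : 0 ≤ En u := integral_nonneg fun w => by positivity
  have he1 : ContDiff ℝ 2 (mol e (psi u)) := mol_contDiff he hψc.locallyIntegrable
  have he2 : HasCompactSupport (mol e (psi u)) := mol_compactSupport he hψs
  have hX : ∫ w, ‖mol e (psi u) w‖ ^ 2 ≤ En u / 4 := by
    rw [← hE]
    exact integral_mol_sq_le he hψc hψs
  have hμl : LocallyIntegrable μ volume := by
    refine (locallyIntegrable_const (1 : ℝ)).mono hμ.mea.aestronglyMeasurable
      (ae_of_all _ fun w => ?_)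
    rw [norm_one]
    exact hμ.bnd w
  have hmμc : Continuous (mol ε μ) := (mol_contDiff hε hμl).continuous
  have hmμb : ∀ w, ‖mol ε μ w‖ ≤ 1 := norm_mol_le hε hμ.bnd
  have hβc : Continuous (fun w => (β w : ℂ)) := Complex.continuous_ofReal.comp hβ.smo.continuous
  have hβ1 : ∀ w, ‖(β w : ℂ)‖ ≤ 1 := fun w => by
    rw [Complex.norm_real, Real.norm_eq_abs, abs_of_nonneg (hβ.bnd w).1]
    exact (hβ.bnd w).2
  -- the L2 distance
  have hd : ∫ w, ‖psi u w - mol e (psi u) w‖ ^ 2 ≤ ω ^ 2 * En u / 4 := by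
    have h1 : ∀ w, ‖psi u w - mol e (psi u) w‖ ^ 2 = ‖grd u w - mol e (grd u) w‖ ^ 2 / 4 := by
      intro w
      rw [hc_mol_psi, psi, ← sub_div, ← map_sub, norm_div, Complex.norm_conj, Complex.norm_ofNat,
        div_pow]
      norm_num
    simp_rw [h1]
    rw [integral_div]
    linarith
  have hdc : Continuous fun w => psi u w - mol e (psi u) w := hψc.sub he1.continuous
  have hds : HasCompactSupport fun w => psi u w - mol e (psi u) w := hψs.sub he2
  have hsc : Continuous fun w => psi u w + mol e (psi u) w := hψc.add he1.continuous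
  have hss : HasCompactSupport fun w => psi u w + mol e (psi u) w := hψs.add he2
  have hs : ∫ w, ‖psi u w + mol e (psi u) w‖ ^ 2 ≤ En u := by
    have h1 : ∀ w, ‖psi u w + mol e (psi u) w‖ ^ 2 ≤
        2 * ‖psi u w‖ ^ 2 + 2 * ‖mol e (psi u) w‖ ^ 2 := by
      intro w
      have h2 := norm_add_le (psi u w) (mol e (psi u) w)
      have h3 := norm_nonneg (psi u w + mol e (psi u) w)
      nlinarith [sq_nonneg (‖psi u w‖ - ‖mol e (psi u) w‖)]
    have i1 := hb_int _ hψc hψs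
    have i2 := hb_int _ he1.continuous he2
    have h4 : ∫ w, ‖psi u w + mol e (psi u) w‖ ^ 2 ≤
        ∫ w, (2 * ‖psi u w‖ ^ 2 + 2 * ‖mol e (psi u) w‖ ^ 2) :=
      integral_mono (hb_int _ hsc hss) ((i1.const_mul 2).add (i2.const_mul 2)) h1
    rw [integral_add (i1.const_mul 2) (i2.const_mul 2), integral_const_mul, integral_const_mul,
      hE] at h4
    linarith
  have hprod : ∫ w, ‖psi u w - mol e (psi u) w‖ * ‖psi u w + mol e (psi u) w‖ ≤ ω / 2 * En u := by
    refine le_of_forall_pos_le_add fun δ hδ => ?_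
    have hlpos : 0 < (ω + δ / (1 + En u)) / 2 := by positivity
    set l := (ω + δ / (1 + En u)) / 2 with hl
    have h1 : ∀ w, ‖psi u w - mol e (psi u) w‖ * ‖psi u w + mol e (psi u) w‖ ≤
        (2 * l)⁻¹ * ‖psi u w - mol e (psi u) w‖ ^ 2 + l / 2 * ‖psi u w + mol e (psi u) w‖ ^ 2 := by
      intro w
      have h2 : 0 ≤ (2 * l)⁻¹ * (‖psi u w - mol e (psi u) w‖ - l * ‖psi u w + mol e (psi u) w‖) ^ 2 := by
        positivity
      have h3 : (2 * l)⁻¹ * (‖psi u w - mol e (psi u) w‖ - l * ‖psi u w + mol e (psi u) w‖) ^ 2 =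
          (2 * l)⁻¹ * ‖psi u w - mol e (psi u) w‖ ^ 2 + l / 2 * ‖psi u w + mol e (psi u) w‖ ^ 2 -
            ‖psi u w - mol e (psi u) w‖ * ‖psi u w + mol e (psi u) w‖ := by
        field_simp
        ring
      linarith
    have i1 := hb_int _ hdc hds
    have i2 := hb_int _ hsc hss
    have h4 : ∫ w, ‖psi u w - mol e (psi u) w‖ * ‖psi u w + mol e (psi u) w‖ ≤
        ∫ w, ((2 * l)⁻¹ * ‖psi u w - mol e (psi u) w‖ ^ 2 +
          l / 2 * ‖psi u w + mol e (psi u) w‖ ^ 2) :=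
      integral_mono_of_nonneg (ae_of_all _ fun w => by positivity)
        ((i1.const_mul _).add (i2.const_mul _)) (ae_of_all _ h1)
    rw [integral_add (i1.const_mul _) (i2.const_mul _), integral_const_mul, integral_const_mul] at h4
    have h5 : (2 * l)⁻¹ * (∫ w, ‖psi u w - mol e (psi u) w‖ ^ 2) ≤
        (2 * l)⁻¹ * (ω ^ 2 * En u / 4) := mul_le_mul_of_nonneg_left hd (by positivity)
    have h6 : l / 2 * (∫ w, ‖psi u w + mol e (psi u) w‖ ^ 2) ≤ l / 2 * En u :=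
      mul_le_mul_of_nonneg_left hs (by positivity)
    have h7 : (2 * l)⁻¹ * (ω ^ 2 * En u / 4) ≤ ω / 4 * En u := by
      have h8 : ω ≤ 2 * l := by
        rw [hl]
        have : 0 ≤ δ / (1 + En u) := by positivity
        linarith
      have h9 : (2 * l)⁻¹ * ω ≤ 1 := by
        rw [inv_mul_le_iff₀ (by positivity)]
        linarith
      have h10 : (2 * l)⁻¹ * (ω ^ 2 * En u / 4) = ((2 * l)⁻¹ * ω) * (ω / 4 * En u) := by ring
      rw [h10]
      exact mul_le_of_le_one_left (by positivity) h9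
    have h11 : δ / (1 + En u) * En u ≤ δ := by
      rw [div_mul_eq_mul_div, div_le_iff₀ (by positivity)]
      nlinarith
    have h12 : l / 2 * En u = ω / 4 * En u + δ / (1 + En u) * En u / 4 := by
      rw [hl]
      ring
    linarith
  -- the products
  have hf1 : Continuous (fun x => (β x : ℂ) * mol e (psi u) x ^ 2) := hβc.mul (he1.continuous.pow 2)
  have hf2 : HasCompactSupport (fun x => (β x : ℂ) * mol e (psi u) x ^ 2) :=
    (he2.comp_left (g := fun y : ℂ => y ^ 2) (by simp)).mul_left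
  have hf0 : ContDiff ℝ 1 (fun x => (β x : ℂ) * mol e (psi u) x ^ 2) :=
    (Complex.ofRealCLM.contDiff.comp hβ.smo).mul ((he1.of_le (by norm_num)).pow 2)
  have hmf : Continuous (mol ε (fun x => (β x : ℂ) * mol e (psi u) x ^ 2)) :=
    (mol_contDiff hε hf1.locallyIntegrable).continuous
  have hmfs : HasCompactSupport (mol ε (fun x => (β x : ℂ) * mol e (psi u) x ^ 2)) :=
    mol_compactSupport hε hf2
  have hg1 : Continuous (fun x => (β x : ℂ) * (psi u x ^ 2 - mol e (psi u) x ^ 2)) :=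
    hβc.mul ((hψc.pow 2).sub (he1.continuous.pow 2))
  have hg2 : HasCompactSupport (fun x => (β x : ℂ) * (psi u x ^ 2 - mol e (psi u) x ^ 2)) :=
    ((hψs.comp_left (g := fun y : ℂ => y ^ 2) (by simp)).sub
      (he2.comp_left (g := fun y : ℂ => y ^ 2) (by simp))).mul_left
  have hbd : ∀ (m : ℂ → ℂ), (∀ w, ‖m w‖ ≤ 1) → AEStronglyMeasurable m volume →
      Integrable (fun w => (β w : ℂ) * (psi u w ^ 2 - mol e (psi u) w ^ 2) * m w) ∧
      ‖∫ w, (β w : ℂ) * (psi u w ^ 2 - mol e (psi u) w ^ 2) * m w‖ ≤ ω / 2 * En u := by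
    intro m hm hmm
    have hi := (hg1.integrable_of_hasCompactSupport hg2 : Integrable _ volume)
    have hi2 : Integrable (fun w => (β w : ℂ) * (psi u w ^ 2 - mol e (psi u) w ^ 2) * m w) :=
      hi.mul_bdd (c := 1) hmm (ae_of_all _ hm)
    refine ⟨hi2, ?_⟩
    refine le_trans (norm_integral_le_integral_norm _) (le_trans ?_ hprod)
    refine integral_mono_of_nonneg (ae_of_all _ fun w => norm_nonneg _) ?_ (ae_of_all _ fun w => ?_)
    · exact ((hdc.norm.mul hsc.norm).integrable_of_hasCompactSupport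
        (hds.norm.mul_right (f' := fun w => ‖psi u w + mol e (psi u) w‖)) : Integrable _ volume)
    · simp only
      rw [norm_mul, norm_mul, ← norm_mul (psi u w - mol e (psi u) w)]
      have h1 : (psi u w - mol e (psi u) w) * (psi u w + mol e (psi u) w) =
          psi u w ^ 2 - mol e (psi u) w ^ 2 := by ring
      rw [h1]
      calc ‖(β w : ℂ)‖ * ‖psi u w ^ 2 - mol e (psi u) w ^ 2‖ * ‖m w‖
          ≤ 1 * ‖psi u w ^ 2 - mol e (psi u) w ^ 2‖ * 1 := by
            refine mul_le_mul (mul_le_mul_of_nonneg_right (hβ1 w) (norm_nonneg _)) (hm w)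
              (norm_nonneg _) (by positivity)
        _ = _ := by ring
  obtain ⟨j1, b1⟩ := hbd (mol ε μ) hmμb hmμc.aestronglyMeasurable
  obtain ⟨j4, b4⟩ := hbd μ hμ.bnd hμ.mea.aestronglyMeasurable
  have hif := (hf1.integrable_of_hasCompactSupport hf2 : Integrable _ volume)
  have himf := (hmf.integrable_of_hasCompactSupport hmfs : Integrable _ volume)
  have j2 : Integrable (fun w => (β w : ℂ) * mol e (psi u) w ^ 2 * mol ε μ w) :=
    hif.mul_bdd (c := 1) hmμc.aestronglyMeasurable (ae_of_all _ hmμb)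
  have j3 : Integrable (fun w => (β w : ℂ) * mol e (psi u) w ^ 2 * μ w) :=
    hif.mul_bdd (c := 1) hμ.mea.aestronglyMeasurable (ae_of_all _ hμ.bnd)
  have j5 : Integrable (fun w => mol ε (fun x => (β x : ℂ) * mol e (psi u) x ^ 2) w * μ w) :=
    himf.mul_bdd (c := 1) hμ.mea.aestronglyMeasurable (ae_of_all _ hμ.bnd)
  -- middle term
  have hmid : ‖(∫ w, mol ε (fun x => (β x : ℂ) * mol e (psi u) x ^ 2) w * μ w) -
      ∫ w, (β w : ℂ) * mol e (psi u) w ^ 2 * μ w‖ ≤ ε * (M + C / e) * En u := by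
    rw [← integral_sub j5 j3]
    refine le_trans (norm_integral_le_integral_norm _)
      (le_trans ?_ (hCb z S u β h M hD hF hβ hM e ε he hε))
    refine integral_mono_of_nonneg (ae_of_all _ fun w => norm_nonneg _) (himf.sub hif).norm
      (ae_of_all _ fun w => ?_)
    simp only
    rw [← sub_mul, norm_mul]
    exact mul_le_of_le_one_right (norm_nonneg _) (hμ.bnd w)
  have hswap : ∫ w, (β w : ℂ) * mol e (psi u) w ^ 2 * mol ε μ w =
      ∫ w, mol ε (fun x => (β x : ℂ) * mol e (psi u) x ^ 2) w * μ w :=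
    integral_mul_mol hε hf1 hf2 hμ.mea hμ.bnd
  -- the main term
  have hmain : ∫ w, (β w : ℂ) * psi u w ^ 2 * μ w = ((En u / 8 : ℝ) : ℂ) := by
    rw [← integral_beta hD hF hβ, ← integral_complex_ofReal]
    refine integral_congr_ae (ae_of_all _ fun w => ?_)
    simp only
    rw [mul_assoc, mul_comm (psi u w ^ 2), hμu]
    push_cast
    ring
  have hsum1 : ∫ w, (β w : ℂ) * psi u w ^ 2 * mol ε μ w =
      (∫ w, (β w : ℂ) * (psi u w ^ 2 - mol e (psi u) w ^ 2) * mol ε μ w) +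
        ∫ w, (β w : ℂ) * mol e (psi u) w ^ 2 * mol ε μ w := by
    rw [← integral_add j1 j2]
    refine integral_congr_ae (ae_of_all _ fun w => ?_)
    simp only
    ring
  have hsum2 : ∫ w, (β w : ℂ) * psi u w ^ 2 * μ w =
      (∫ w, (β w : ℂ) * (psi u w ^ 2 - mol e (psi u) w ^ 2) * μ w) +
        ∫ w, (β w : ℂ) * mol e (psi u) w ^ 2 * μ w := by
    rw [← integral_add j4 j3]
    refine integral_congr_ae (ae_of_all _ fun w => ?_)
    simp only
    ring
  have hif2 : Integrable (fun w => (β w : ℂ) * psi u w ^ 2 * mol ε μ w) := by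
    have h1 := j1.add j2
    refine h1.congr (ae_of_all _ fun w => ?_)
    simp only [Pi.add_apply]
    ring
  have hre : ∫ w, ((β w : ℂ) * psi u w ^ 2 * mol ε μ w).re =
      (∫ w, (β w : ℂ) * psi u w ^ 2 * mol ε μ w).re := integral_re hif2
  rw [hre, hsum1, hswap]
  rw [hmain] at hsum2
  generalize (∫ w, (β w : ℂ) * (psi u w ^ 2 - mol e (psi u) w ^ 2) * mol ε μ w) = T1 at b1 ⊢
  generalize (∫ w, (β w : ℂ) * (psi u w ^ 2 - mol e (psi u) w ^ 2) * μ w) = T4 at b4 hsum2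
  generalize (∫ w, mol ε (fun x => (β x : ℂ) * mol e (psi u) x ^ 2) w * μ w) = T2 at hmid ⊢
  generalize (∫ w, (β w : ℂ) * mol e (psi u) w ^ 2 * μ w) = T3 at hmid hsum2
  have r1 := Complex.abs_re_le_norm T1
  have r4 := Complex.abs_re_le_norm T4
  have r2 := Complex.abs_re_le_norm (T2 - T3)
  rw [Complex.sub_re] at r2
  have r3 := congrArg Complex.re hsum2
  rw [Complex.add_re, Complex.ofReal_re] at r3
  rw [Complex.add_re]
  have a1 := abs_le.mp (le_trans r1 b1)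
  have a4 := abs_le.mp (le_trans r4 b4)
  have a2 := abs_le.mp (le_trans r2 hmid)
  nlinarith [a1.1, a4.2, a2.1]
/- END hc -/

end Pool.Agent.NoH
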