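import Pool.Agent.NoH.Inv

set_option autoImplicit false

/-!
# Part E: the cotangent kernel, Weyl's lemma, the equivariant vector field
-/

open MeasureTheory Set

namespace Pool.Agent.NoH

/-- The kernel `cot(π x / z) / z`. -/
noncomputable def kap (z x : ℂ) : ℂ :=
  Complex.cos (Real.pi * x / z) / (z * Complex.sin (Real.pi * x / z))

/-- The fundamental strip. -/
def strip (z : ℂ) : Set ℂ := {x | |(x / z).re| ≤ 1 / 2}

/-- The Cauchy transform on the cylinder `ℂ / z ℤ`. -/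
noncomputable def cau (z : ℂ) (μ : ℂ → ℂ) (w : ℂ) : ℂ := ∫ x in strip z, kap z x * μ (w - x)

/- MODULE ea
`‖sin (π ω)‖² = sin²(π a) + sinh²(π b)` for `ω = a + i b` (`Complex.sin_add_mul_I` etc.), so on
`|a| ≤ 1/2`: `‖sin (π ω)‖ ≥ c ‖ω‖` for `|b| ≤ 1` (`|sin π a| ≥ 2 |a|`, `|sinh π b| ≥ π |b|`) and
`‖sin (π ω)‖ ≥ |sinh (π b)| ≥ c e^(|b|)` for `|b| ≥ 1`.  So `‖sin‖^(-p)` is dominated by
`C ‖ω‖^(-p)` near `0`, integrable for `p < 2` (polar coordinates, or
`integrableOn` results for `‖x‖ ^ (-p)`, e.g. `MeasureTheory.Measure` / Japanese bracket style), and by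
`C e^(-p |b|)` for `|b| ≥ 1` on the strip.  Scaling `x = z ω`: the integral over `strip z` is
`‖z‖²` times the integral over `strip 1`, so bounded uniformly for `‖z‖ ≤ 2`. -/
private theorem ea_scale {F : Type} [NormedAddCommGroup F] [NormedSpace ℝ F] {z : ℂ} (hz : z ≠ 0)
    (G : ℂ → F) : (Integrable (fun x => G (x / z)) ↔ Integrable G) ∧
      ∫ x, G (x / z) = ‖z‖ ^ 2 • ∫ x, G x := by
  have hn : ‖z‖ ≠ 0 := norm_ne_zero_iff.2 hz
  have hnc : (‖z‖ : ℂ) ≠ 0 := Complex.ofReal_ne_zero.2 hn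
  have ha : ‖(‖z‖ : ℂ) / z‖ = 1 := by
    rw [norm_div, Complex.norm_real, norm_norm, div_self hn]
  let a : Circle := ⟨(‖z‖ : ℂ) / z, mem_sphere_zero_iff_norm.2 ha⟩
  have e : ∀ x : ℂ, x / z = (‖z‖⁻¹ : ℝ) • (rotation a x) := by
    intro x
    rw [rotation_apply, Complex.real_smul, Complex.ofReal_inv]
    show x / z = (‖z‖ : ℂ)⁻¹ * ((‖z‖ : ℂ) / z * x)
    field_simp
  have hmp : MeasurePreserving (rotation a) := (rotation a).measurePreserving
  have hem : MeasurableEmbedding (rotation a) := (rotation a).toHomeomorph.measurableEmbedding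
  have e1 : (fun x => G (x / z)) = (fun y => G ((‖z‖⁻¹ : ℝ) • y)) ∘ (rotation a) := by
    funext x
    rw [e x]
    rfl
  constructor
  · rw [e1, hmp.integrable_comp_emb hem]
    exact integrable_comp_smul_iff volume G (inv_ne_zero hn)
  · have e2 : ∫ x, G (x / z) = ∫ x, (fun y => G ((‖z‖⁻¹ : ℝ) • y)) (rotation a x) := by
      refine integral_congr_ae (Filter.Eventually.of_forall fun x => ?_)
      show G (x / z) = G ((‖z‖⁻¹ : ℝ) • rotation a x)
      rw [e x]
    have e3 : ∫ x, (fun y => G ((‖z‖⁻¹ : ℝ) • y)) (rotation a x) = ∫ y, G ((‖z‖⁻¹ : ℝ) • y) :=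
      hmp.integral_comp hem (fun y => G ((‖z‖⁻¹ : ℝ) • y))
    rw [e2, e3, Measure.integral_comp_smul, Complex.finrank_real_complex]
    congr 1
    rw [inv_pow, inv_inv, abs_of_nonneg (by positivity)]

private def ea_S : Set ℂ := {w | |w.re| ≤ 1 / 2}

private theorem ea_Sm : MeasurableSet ea_S := by
  have h1 : Continuous fun w : ℂ => |w.re| := Complex.continuous_re.abs
  exact (isClosed_Iic.preimage h1).measurableSet

private theorem ea_stripm (z : ℂ) : MeasurableSet (strip z) := by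
  have h1 : Continuous fun w : ℂ => |(w / z).re| := (Complex.continuous_re.comp (continuous_id.div_const z)).abs
  exact (isClosed_Iic.preimage h1).measurableSet

private theorem ea_strip {F : Type} [NormedAddCommGroup F] [NormedSpace ℝ F] {z : ℂ} (hz : z ≠ 0)
    (G : ℂ → F) : (IntegrableOn (fun x => G (x / z)) (strip z) ↔ IntegrableOn G ea_S) ∧
      ∫ x in strip z, G (x / z) = ‖z‖ ^ 2 • ∫ x in ea_S, G x := by
  have e : (strip z).indicator (fun x => G (x / z)) = fun x => (ea_S.indicator G) (x / z) := by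
    funext x
    by_cases h : x ∈ strip z
    · rw [indicator_of_mem h, indicator_of_mem (show x / z ∈ ea_S from h)]
    · rw [indicator_of_notMem h, indicator_of_notMem (show x / z ∉ ea_S from h)]
  constructor
  · rw [← integrable_indicator_iff (ea_stripm z), ← integrable_indicator_iff ea_Sm, e]
    exact (ea_scale hz _).1
  · rw [← integral_indicator (ea_stripm z), ← integral_indicator ea_Sm, e]
    exact (ea_scale hz _).2

private theorem ea_int1 {q : ℝ} (h1 : q < 1) (c : ℝ) :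
    Integrable fun a : ℝ => (Iic c).indicator (fun y => y ^ (-q)) ‖a‖ := by
  rw [integrable_fun_norm_addHaar volume (f := (Iic c).indicator (fun y => y ^ (-q)))]
  have e : (fun y : ℝ => y ^ (Module.finrank ℝ ℝ - 1) • (Iic c).indicator (fun y => y ^ (-q)) y) =
      (Iic c).indicator (fun y => y ^ (-q)) := by
    funext y
    simp
  rw [e, IntegrableOn, integrable_indicator_iff measurableSet_Iic, IntegrableOn,
    Measure.restrict_restrict measurableSet_Iic, inter_comm, Ioi_inter_Iic]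
  exact (intervalIntegral.intervalIntegrable_rpow' (a := 0) (b := c) (by linarith)).1

private theorem ea_int2 {q : ℝ} (h0 : 0 < q) : Integrable fun a : ℝ => Real.exp (-q * ‖a‖) := by
  rw [integrable_fun_norm_addHaar volume (f := fun y => Real.exp (-q * y))]
  have e : (fun y : ℝ => y ^ (Module.finrank ℝ ℝ - 1) • Real.exp (-q * y)) =
      fun y => Real.exp (-q * y) := by
    funext y
    simp
  rw [e]
  exact integrableOn_exp_mul_Ioi (by linarith) 0

private theorem ea_norm_sin (w : ℂ) :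
    ‖Complex.sin w‖ ^ 2 = Real.sin w.re ^ 2 + Real.sinh w.im ^ 2 := by
  have h1 : Complex.sin w = ⟨Real.sin w.re * Real.cosh w.im, Real.cos w.re * Real.sinh w.im⟩ := by
    rw [Complex.sin_eq, ← Complex.ofReal_sin, ← Complex.ofReal_cos, ← Complex.ofReal_sinh,
      ← Complex.ofReal_cosh]
    apply Complex.ext
    · rw [Complex.add_re, ← Complex.ofReal_mul, ← Complex.ofReal_mul, Complex.ofReal_re,
        Complex.re_ofReal_mul, Complex.I_re, mul_zero, add_zero]
    · rw [Complex.add_im, ← Complex.ofReal_mul, ← Complex.ofReal_mul, Complex.ofReal_im,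
        Complex.im_ofReal_mul, Complex.I_im, mul_one, zero_add]
  rw [h1, ← Complex.normSq_eq_norm_sq, Complex.normSq_mk]
  have h2 := Real.sin_sq_add_cos_sq w.re
  have h3 := Real.cosh_sq w.im
  nlinarith [h2, h3]

private theorem ea_sinh_ge {b : ℝ} (hb : b ≠ 0) {q : ℝ} (h0 : 0 < q) :
    |Real.sinh (Real.pi * b)| ^ (-q) ≤ (Iic (1 : ℝ)).indicator (fun y => y ^ (-q)) ‖b‖ +
      4 ^ q * Real.exp (-q * ‖b‖) := by
  have hb' : 0 < |b| := abs_pos.2 hb
  have hpi : |b| ≤ |Real.pi * b| := by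
    rw [abs_mul, abs_of_pos Real.pi_pos]
    have := Real.pi_gt_three
    nlinarith
  have habs : |Real.sinh (Real.pi * b)| = Real.sinh |Real.pi * b| := by
    rw [Real.abs_sinh]
  have hs1 : |b| ≤ |Real.sinh (Real.pi * b)| := by
    rw [habs]
    exact hpi.trans (Real.self_le_sinh_iff.2 (abs_nonneg _))
  rw [Real.norm_eq_abs]
  by_cases h1 : |b| ≤ 1
  · rw [indicator_of_mem (show |b| ∈ Iic (1 : ℝ) from h1)]
    have h2 : |Real.sinh (Real.pi * b)| ^ (-q) ≤ |b| ^ (-q) :=
      Real.rpow_le_rpow_of_nonpos hb' hs1 (by linarith)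
    have h3 : 0 ≤ (4 : ℝ) ^ q * Real.exp (-q * |b|) := by positivity
    linarith
  · rw [indicator_of_notMem (show |b| ∉ Iic (1 : ℝ) from h1), zero_add]
    push Not at h1
    have h2 : Real.exp |b| / 4 ≤ |Real.sinh (Real.pi * b)| := by
      rw [habs]
      have h3 : Real.sinh |b| ≤ Real.sinh |Real.pi * b| := Real.sinh_le_sinh.2 hpi
      refine le_trans ?_ h3
      rw [Real.sinh_eq]
      have h4 : Real.exp (-|b|) ≤ 1 := Real.exp_le_one_iff.2 (by linarith)
      have h5 : 2 ≤ Real.exp |b| := by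
        have := Real.add_one_le_exp |b|
        linarith
      linarith
    have h6 : |Real.sinh (Real.pi * b)| ^ (-q) ≤ (Real.exp |b| / 4) ^ (-q) :=
      Real.rpow_le_rpow_of_nonpos (by positivity) h2 (by linarith)
    refine h6.trans (le_of_eq ?_)
    rw [Real.div_rpow (by positivity) (by norm_num), Real.rpow_neg (by norm_num : (0:ℝ) ≤ 4),
      div_inv_eq_mul, mul_comm, ← Real.exp_mul]
    congr 2
    ring

private theorem ea_base {p : ℝ} (h0 : 0 < p) (h2 : p < 2) :
    IntegrableOn (fun w : ℂ => ‖Complex.sin (Real.pi * w)‖ ^ (-p)) ea_S := by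
  have hq0 : 0 < p / 2 := by linarith
  have hq1 : p / 2 < 1 := by linarith
  set q := p / 2 with hq
  have hF1 := ea_int1 hq1 (1 / 2)
  have hF2 : Integrable fun b : ℝ => (Iic (1 : ℝ)).indicator (fun y => y ^ (-q)) ‖b‖ +
      4 ^ q * Real.exp (-q * ‖b‖) := (ea_int1 hq1 1).add ((ea_int2 hq0).const_mul _)
  have hF := hF1.mul_prod hF2
  have hmp := Complex.volume_preserving_equiv_real_prod
  have hF' : Integrable fun w : ℂ => (Iic (1 / 2 : ℝ)).indicator (fun y => y ^ (-q)) ‖w.re‖ *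
      ((Iic (1 : ℝ)).indicator (fun y => y ^ (-q)) ‖w.im‖ + 4 ^ q * Real.exp (-q * ‖w.im‖)) :=
    (hmp.integrable_comp_emb Complex.measurableEquivRealProd.measurableEmbedding).2 hF
  rw [← integrable_indicator_iff ea_Sm]
  have hms : Measurable fun w : ℂ => ‖Complex.sin (Real.pi * w)‖ ^ (-p) := by
    have h3 : Continuous fun w : ℂ => ‖Complex.sin (Real.pi * w)‖ :=
      (Complex.continuous_sin.comp (continuous_const.mul continuous_id)).norm
    exact h3.measurable.pow_const _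
  have hre : ∀ᵐ w : ℂ, w.re ≠ 0 := by
    have h4 : ∀ᵐ a : ℝ, a ≠ 0 := by
      rw [ae_iff]
      simp
    have h5 : ∀ᵐ x : ℝ × ℝ, x.1 ≠ 0 := Measure.quasiMeasurePreserving_fst.ae h4
    exact hmp.quasiMeasurePreserving.ae h5
  have him : ∀ᵐ w : ℂ, w.im ≠ 0 := by
    have h4 : ∀ᵐ a : ℝ, a ≠ 0 := by
      rw [ae_iff]
      simp
    have h5 : ∀ᵐ x : ℝ × ℝ, x.2 ≠ 0 := Measure.quasiMeasurePreserving_snd.ae h4
    exact hmp.quasiMeasurePreserving.ae h5
  refine hF'.mono' (hms.indicator ea_Sm).aestronglyMeasurable ?_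
  filter_upwards [hre, him] with w hwr hwi
  by_cases hw : w ∈ ea_S
  · rw [indicator_of_mem hw]
    have hw' : |w.re| ≤ 1 / 2 := hw
    have hr0 : 0 < |w.re| := abs_pos.2 hwr
    have hi0 : 0 < |Real.sinh (Real.pi * w.im)| := by
      rw [abs_pos, Real.sinh_ne_zero]
      exact mul_ne_zero Real.pi_ne_zero hwi
    rw [indicator_of_mem (show ‖w.re‖ ∈ Iic (1 / 2 : ℝ) from hw'), Real.norm_eq_abs,
      abs_of_nonneg (Real.rpow_nonneg (norm_nonneg _) _)]
    have h6 : |w.re| * |Real.sinh (Real.pi * w.im)| ≤ ‖Complex.sin (Real.pi * w)‖ ^ 2 := by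
      rw [ea_norm_sin, Complex.re_ofReal_mul, Complex.im_ofReal_mul]
      have h7 : |w.re| ≤ |Real.sin (Real.pi * w.re)| := by
        have h8 : 2 / Real.pi * |Real.pi * w.re| ≤ |Real.sin (Real.pi * w.re)| := by
          apply Real.mul_abs_le_abs_sin
          rw [abs_mul, abs_of_pos Real.pi_pos]
          nlinarith [Real.pi_pos]
        have h9 : 2 / Real.pi * |Real.pi * w.re| = 2 * |w.re| := by
          rw [abs_mul, abs_of_pos Real.pi_pos]
          field_simp
        rw [h9] at h8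
        linarith
      have h10 : |w.re| * |Real.sinh (Real.pi * w.im)| ≤
          |Real.sin (Real.pi * w.re)| * |Real.sinh (Real.pi * w.im)| :=
        mul_le_mul_of_nonneg_right h7 hi0.le
      have h11 := two_mul_le_add_sq |Real.sin (Real.pi * w.re)| |Real.sinh (Real.pi * w.im)|
      rw [sq_abs, sq_abs] at h11
      have h12 : 0 ≤ |Real.sin (Real.pi * w.re)| * |Real.sinh (Real.pi * w.im)| := by positivity
      linarith
    have h13 : ‖Complex.sin (Real.pi * w)‖ ^ (-p) = (‖Complex.sin (Real.pi * w)‖ ^ 2) ^ (-q) := by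
      rw [← Real.rpow_natCast, ← Real.rpow_mul (norm_nonneg _)]
      congr 1
      rw [hq]
      push_cast
      ring
    rw [h13]
    have h14 : (‖Complex.sin (Real.pi * w)‖ ^ 2) ^ (-q) ≤
        (|w.re| * |Real.sinh (Real.pi * w.im)|) ^ (-q) :=
      Real.rpow_le_rpow_of_nonpos (mul_pos hr0 hi0) h6 (by linarith)
    refine h14.trans ?_
    rw [Real.mul_rpow hr0.le hi0.le]
    exact mul_le_mul_of_nonneg_left (ea_sinh_ge hwi hq0) (Real.rpow_nonneg hr0.le _)
  · rw [indicator_of_notMem hw, norm_zero]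
    have h15 : ∀ (c y : ℝ), 0 ≤ y → 0 ≤ (Iic c).indicator (fun y => y ^ (-q)) y := by
      intro c y hy
      by_cases hc : y ∈ Iic c
      · rw [indicator_of_mem hc]
        exact Real.rpow_nonneg hy _
      · rw [indicator_of_notMem hc]
    exact mul_nonneg (h15 _ _ (norm_nonneg _)) (add_nonneg (h15 _ _ (norm_nonneg _)) (by positivity))

private theorem ea_all {p : ℝ} (h0 : 0 < p) (h2 : p < 2) {z : ℂ} (hz : z ≠ 0) :
    IntegrableOn (fun x : ℂ => ‖Complex.sin (Real.pi * x / z)‖ ^ (-p)) (strip z) ∧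
    ∫ x in strip z, ‖Complex.sin (Real.pi * x / z)‖ ^ (-p) =
      ‖z‖ ^ 2 * ∫ w in ea_S, ‖Complex.sin (Real.pi * w)‖ ^ (-p) := by
  have h := ea_strip hz (fun w : ℂ => ‖Complex.sin (Real.pi * w)‖ ^ (-p))
  have e : (fun x : ℂ => ‖Complex.sin (Real.pi * x / z)‖ ^ (-p)) =
      fun x => (fun w : ℂ => ‖Complex.sin (Real.pi * w)‖ ^ (-p)) (x / z) := by
    funext x
    show _ = ‖Complex.sin (Real.pi * (x / z))‖ ^ (-p)
    rw [mul_div_assoc]
  rw [e]
  exact ⟨h.1.2 (ea_base h0 h2), h.2⟩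

theorem exists_sin_bound {p : ℝ} (h0 : 0 < p) (h2 : p < 2) : ∃ C : ℝ, 0 < C ∧ ∀ z : ℂ, z ≠ 0 →
    ‖z‖ ≤ 2 → IntegrableOn (fun x : ℂ => ‖Complex.sin (Real.pi * x / z)‖ ^ (-p)) (strip z) ∧
    ∫ x in strip z, ‖Complex.sin (Real.pi * x / z)‖ ^ (-p) ≤ C := by
  have hI : 0 ≤ ∫ w in ea_S, ‖Complex.sin (Real.pi * w)‖ ^ (-p) :=
    integral_nonneg fun w => Real.rpow_nonneg (norm_nonneg _) _
  refine ⟨4 * (∫ w in ea_S, ‖Complex.sin (Real.pi * w)‖ ^ (-p)) + 1, by linarith, ?_⟩
  intro z hz hz2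
  obtain ⟨h3, h4⟩ := ea_all h0 h2 hz
  refine ⟨h3, ?_⟩
  rw [h4]
  have h5 : ‖z‖ ^ 2 ≤ 4 := by nlinarith [norm_nonneg z]
  nlinarith
/- END ea -/

/- MODULE eb
`cot A - cot B = sin (B - A) / (sin A sin B)`; `‖cos A‖² ≤ 1 + ‖sin A‖²`, so
`‖cot A‖ ≤ 1 + 1 / ‖sin A‖`; write `‖cot A - cot B‖ = ‖..‖^γ ‖..‖^(1-γ)` and
`‖cot A - cot B‖^(1-γ) ≤ ‖cot A‖^(1-γ) + ‖cot B‖^(1-γ)` (subadditivity of `t ↦ t^(1-γ)`),
`(1 + 1/t)^(1-γ) ≤ 1 + t^(-(1-γ))`, and `x y ≤ x² + y²`-type Young inequalities: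
`s^(-γ) t^(-γ) ≤ s^(-2γ) + t^(-2γ)`, `s^(-1) t^(-γ) ≤ s^(-1-γ) + t^(-1-γ)`. -/
private theorem eb_cot {A : ℂ} (hA : Complex.sin A ≠ 0) :
    ‖Complex.cos A / Complex.sin A‖ ≤ 1 + ‖Complex.sin A‖⁻¹ := by
  have hs : 0 < ‖Complex.sin A‖ := norm_pos_iff.2 hA
  have h1 : Complex.cos A ^ 2 = 1 - Complex.sin A ^ 2 := by
    rw [← Complex.sin_sq_add_cos_sq A]
    ring
  have h2 : ‖Complex.cos A‖ ^ 2 ≤ 1 + ‖Complex.sin A‖ ^ 2 := by
    rw [← norm_pow, h1, ← norm_pow]
    refine (norm_sub_le _ _).trans ?_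
    rw [norm_one]
  have h3 : ‖Complex.cos A‖ ≤ 1 + ‖Complex.sin A‖ := by
    refine abs_le_of_sq_le_sq' ?_ (by positivity) |>.2
    nlinarith
  rw [norm_div, div_le_iff₀ hs, add_mul, inv_mul_cancel₀ hs.ne', one_mul, add_comm]
  exact h3

private theorem eb_young {s t g : ℝ} (hs : 0 < s) (ht : 0 < t) (hg : 0 < g) :
    s ^ (-1 : ℝ) * t ^ (-g) ≤ s ^ (-(1 + g)) + t ^ (-(1 + g)) := by
  rcases le_total s t with h | h
  · have h1 : t ^ (-g) ≤ s ^ (-g) := Real.rpow_le_rpow_of_nonpos hs h (by linarith)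
    have h2 : s ^ (-1 : ℝ) * t ^ (-g) ≤ s ^ (-1 : ℝ) * s ^ (-g) :=
      mul_le_mul_of_nonneg_left h1 (Real.rpow_nonneg hs.le _)
    rw [← Real.rpow_add hs] at h2
    have h3 : 0 ≤ t ^ (-(1 + g)) := Real.rpow_nonneg ht.le _
    have h4 : (-1 : ℝ) + -g = -(1 + g) := by ring
    rw [h4] at h2
    linarith
  · have h1 : s ^ (-1 : ℝ) ≤ t ^ (-1 : ℝ) := Real.rpow_le_rpow_of_nonpos ht h (by norm_num)
    have h2 : s ^ (-1 : ℝ) * t ^ (-g) ≤ t ^ (-1 : ℝ) * t ^ (-g) :=
      mul_le_mul_of_nonneg_right h1 (Real.rpow_nonneg ht.le _)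
    rw [← Real.rpow_add ht] at h2
    have h3 : 0 ≤ s ^ (-(1 + g)) := Real.rpow_nonneg hs.le _
    have h4 : (-1 : ℝ) + -g = -(1 + g) := by ring
    rw [h4] at h2
    linarith

private theorem eb_sub {A : ℂ} (hA : Complex.sin A ≠ 0) {g : ℝ} (h0 : 0 < g) (h1 : g < 1) :
    ‖Complex.cos A / Complex.sin A‖ ^ (1 - g) ≤ 1 + ‖Complex.sin A‖ ^ (g - 1) := by
  have hs : 0 < ‖Complex.sin A‖ := norm_pos_iff.2 hA
  have h2 : ‖Complex.cos A / Complex.sin A‖ ^ (1 - g) ≤ (1 + ‖Complex.sin A‖⁻¹) ^ (1 - g) :=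
    Real.rpow_le_rpow (norm_nonneg _) (eb_cot hA) (by linarith)
  have h3 : (1 + ‖Complex.sin A‖⁻¹) ^ (1 - g) ≤ (1 : ℝ) ^ (1 - g) + (‖Complex.sin A‖⁻¹) ^ (1 - g) :=
    Real.rpow_add_le_add_rpow (by norm_num) (by positivity) (by linarith) (by linarith)
  rw [Real.one_rpow, Real.inv_rpow hs.le, ← Real.rpow_neg hs.le] at h3
  have h4 : -(1 - g) = g - 1 := by ring
  rw [h4] at h3
  exact h2.trans h3

theorem cot_sub_le {γ : ℝ} (h0 : 0 < γ) (h1 : γ < 1) {A B : ℂ} (hA : Complex.sin A ≠ 0)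
    (hB : Complex.sin B ≠ 0) :
    ‖Complex.cos A / Complex.sin A - Complex.cos B / Complex.sin B‖ ≤
      ‖Complex.sin (B - A)‖ ^ γ * (2 * ‖Complex.sin A‖ ^ (-(2 * γ)) +
        2 * ‖Complex.sin B‖ ^ (-(2 * γ)) + 2 * ‖Complex.sin A‖ ^ (-(1 + γ)) +
        2 * ‖Complex.sin B‖ ^ (-(1 + γ))) := by
  have hs : 0 < ‖Complex.sin A‖ := norm_pos_iff.2 hA
  have ht : 0 < ‖Complex.sin B‖ := norm_pos_iff.2 hB
  have hcA := eb_sub hA h0 h1
  have hcB := eb_sub hB h0 h1
  have hX : Complex.cos A / Complex.sin A - Complex.cos B / Complex.sin B =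
      Complex.sin (B - A) / (Complex.sin A * Complex.sin B) := by
    rw [Complex.sin_sub, div_sub_div _ _ hA hB]
    ring_nf
  have hXn : ‖Complex.cos A / Complex.sin A - Complex.cos B / Complex.sin B‖ =
      ‖Complex.sin (B - A)‖ * (‖Complex.sin A‖⁻¹ * ‖Complex.sin B‖⁻¹) := by
    rw [hX, norm_div, norm_mul, div_eq_mul_inv, mul_inv]
  set X := ‖Complex.cos A / Complex.sin A - Complex.cos B / Complex.sin B‖ with hXd
  set s := ‖Complex.sin A‖ with hsd
  set t := ‖Complex.sin B‖ with htd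
  set d := ‖Complex.sin (B - A)‖ with hdd
  have hX0 : 0 ≤ X := norm_nonneg _
  have hd0 : 0 ≤ d := norm_nonneg _
  have e1 : X = X ^ γ * X ^ (1 - γ) := by
    rcases hX0.eq_or_lt with h | h
    · rw [← h, Real.zero_rpow h0.ne', zero_mul]
    · rw [← Real.rpow_add h]
      simp
  have e2 : X ^ γ = d ^ γ * (s ^ (-γ) * t ^ (-γ)) := by
    rw [hXn, Real.mul_rpow hd0 (by positivity), Real.mul_rpow (by positivity) (by positivity),
      Real.inv_rpow hs.le, Real.inv_rpow ht.le, Real.rpow_neg hs.le, Real.rpow_neg ht.le]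
  have e3 : X ^ (1 - γ) ≤ 2 + s ^ (γ - 1) + t ^ (γ - 1) := by
    have h3 : X ^ (1 - γ) ≤ (‖Complex.cos A / Complex.sin A‖ + ‖Complex.cos B / Complex.sin B‖) ^ (1 - γ) :=
      Real.rpow_le_rpow hX0 (norm_sub_le _ _) (by linarith)
    have h4 := Real.rpow_add_le_add_rpow (norm_nonneg (Complex.cos A / Complex.sin A))
      (norm_nonneg (Complex.cos B / Complex.sin B)) (p := 1 - γ) (by linarith) (by linarith)
    linarith
  have e4 : s ^ (-γ) * t ^ (-γ) ≤ s ^ (-(2 * γ)) + t ^ (-(2 * γ)) := by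
    have h3 := two_mul_le_add_sq (s ^ (-γ)) (t ^ (-γ))
    have h4 : (s ^ (-γ)) ^ 2 = s ^ (-(2 * γ)) := by
      rw [← Real.rpow_natCast, ← Real.rpow_mul hs.le]
      congr 1
      push_cast
      ring
    have h5 : (t ^ (-γ)) ^ 2 = t ^ (-(2 * γ)) := by
      rw [← Real.rpow_natCast, ← Real.rpow_mul ht.le]
      congr 1
      push_cast
      ring
    rw [h4, h5] at h3
    have h6 : 0 ≤ s ^ (-γ) * t ^ (-γ) := by positivity
    linarith
  have e5 : s ^ (-γ) * t ^ (-γ) * s ^ (γ - 1) ≤ s ^ (-(1 + γ)) + t ^ (-(1 + γ)) := by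
    have h3 : s ^ (-γ) * t ^ (-γ) * s ^ (γ - 1) = s ^ (-1 : ℝ) * t ^ (-γ) := by
      rw [mul_right_comm, ← Real.rpow_add hs]
      congr 2
      ring
    rw [h3]
    exact eb_young hs ht h0
  have e6 : s ^ (-γ) * t ^ (-γ) * t ^ (γ - 1) ≤ s ^ (-(1 + γ)) + t ^ (-(1 + γ)) := by
    have h3 : s ^ (-γ) * t ^ (-γ) * t ^ (γ - 1) = t ^ (-1 : ℝ) * s ^ (-γ) := by
      rw [mul_assoc, ← Real.rpow_add ht, mul_comm]
      congr 2
      ring
    rw [h3]
    have := eb_young ht hs h0
    linarith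
  rw [e1, e2, mul_assoc]
  refine mul_le_mul_of_nonneg_left ?_ (Real.rpow_nonneg hd0 _)
  have h7 : 0 ≤ s ^ (-γ) * t ^ (-γ) := by positivity
  have h8 := mul_le_mul_of_nonneg_left e3 h7
  have h9 : s ^ (-γ) * t ^ (-γ) * (2 + s ^ (γ - 1) + t ^ (γ - 1)) =
      2 * (s ^ (-γ) * t ^ (-γ)) + s ^ (-γ) * t ^ (-γ) * s ^ (γ - 1) +
        s ^ (-γ) * t ^ (-γ) * t ^ (γ - 1) := by ring
  rw [h9] at h8
  linarith
/- END eb -/

/- MODULE ec
Integrals of `z`-periodic functions over the strip: translation invariant.  (`strip z` is, up to a null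
set, a fundamental domain of the translations by `ℤ z`: e.g. parametrise `x = z (a + i b)`, reduce to
`intervalIntegral` of a `1`-periodic function of `a` (`Function.Periodic.intervalIntegral_add_eq`) for
almost every `b`, Fubini; or `IsAddFundamentalDomain`.)  Consequence (substitution `x ↦ w - x`, the
strip is symmetric): `cau z μ w = ∫ ζ in strip z, kap z (w - ζ) * μ ζ`. -/
private theorem ec_qmp {z : ℂ} (hz : z ≠ 0) :
    Measure.QuasiMeasurePreserving (fun x : ℂ => x / z) volume volume := by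
  have hn : ‖z‖ ≠ 0 := norm_ne_zero_iff.2 hz
  have hnc : (‖z‖ : ℂ) ≠ 0 := Complex.ofReal_ne_zero.2 hn
  have ha : ‖(‖z‖ : ℂ) / z‖ = 1 := by
    rw [norm_div, Complex.norm_real, norm_norm, div_self hn]
  let a : Circle := ⟨(‖z‖ : ℂ) / z, mem_sphere_zero_iff_norm.2 ha⟩
  have e : (fun x : ℂ => x / z) = (fun y : ℂ => (‖z‖⁻¹ : ℝ) • y) ∘ (rotation a) := by
    funext x
    show x / z = (‖z‖⁻¹ : ℝ) • (rotation a x)
    rw [rotation_apply, Complex.real_smul, Complex.ofReal_inv]
    show x / z = (‖z‖ : ℂ)⁻¹ * ((‖z‖ : ℂ) / z * x)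
    field_simp
  have hmp : MeasurePreserving (rotation a) := (rotation a).measurePreserving
  rw [e]
  exact (Measure.quasiMeasurePreserving_smul volume (inv_ne_zero hn)).comp hmp.quasiMeasurePreserving

private theorem ec_ne {z : ℂ} (hz : z ≠ 0) (t : ℝ) : ∀ᵐ x : ℂ, (x / z).re ≠ t := by
  have h1 : ∀ᵐ w : ℂ, w.re ≠ t := by
    have h4 : ∀ᵐ a : ℝ, a ≠ t := by
      rw [ae_iff]
      simp
    have h5 : ∀ᵐ x : ℝ × ℝ, x.1 ≠ t := Measure.quasiMeasurePreserving_fst.ae h4
    exact Complex.volume_preserving_equiv_real_prod.quasiMeasurePreserving.ae h5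
  exact (ec_qmp hz).ae h1

private def ec_H (z : ℂ) (t : ℝ) : Set ℂ := {x | (x / z).re ∈ Ico t (t + 1)}

private theorem ec_fd {z : ℂ} (hz : z ≠ 0) (t : ℝ) :
    IsAddFundamentalDomain (AddSubgroup.zmultiples z) (ec_H z t) volume := by
  have h1 : Continuous fun w : ℂ => (w / z).re := Complex.continuous_re.comp (continuous_id.div_const z)
  refine IsAddFundamentalDomain.mk' (h1.measurable measurableSet_Ico).nullMeasurableSet fun x => ?_
  obtain ⟨m, hm, hu⟩ := existsUnique_add_zsmul_mem_Ico (one_pos : (0 : ℝ) < 1) (x / z).re t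
  have e : ∀ n : ℤ, ((n • z + x) / z).re = (x / z).re + n • (1 : ℝ) := by
    intro n
    rw [add_div, Complex.add_re, add_comm]
    congr 1
    rw [zsmul_eq_mul, mul_div_assoc, div_self hz, mul_one, Complex.intCast_re, zsmul_eq_mul, mul_one]
  refine ⟨⟨m • z, AddSubgroup.mem_zmultiples_iff.2 ⟨m, rfl⟩⟩, ?_, ?_⟩
  · show ((m • z + x) / z).re ∈ Ico t (t + 1)
    rw [e]
    exact hm
  · rintro ⟨g, hg⟩ hgx
    obtain ⟨n, rfl⟩ := AddSubgroup.mem_zmultiples_iff.1 hg
    have hgx' : ((n • z + x) / z).re ∈ Ico t (t + 1) := hgx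
    rw [e] at hgx'
    have := hu n hgx'
    subst this
    rfl

private theorem ec_ae {z : ℂ} (hz : z ≠ 0) (a : ℂ) :
    {x : ℂ | x - a ∈ strip z} =ᵐ[volume] ec_H z ((a / z).re - 1 / 2) := by
  filter_upwards [ec_ne hz ((a / z).re + 1 / 2)] with x hx
  have h1 : (x - a ∈ strip z) ↔ x ∈ ec_H z ((a / z).re - 1 / 2) := by
    show |((x - a) / z).re| ≤ 1 / 2 ↔ (x / z).re ∈ Ico ((a / z).re - 1 / 2) ((a / z).re - 1 / 2 + 1)
    rw [sub_div, Complex.sub_re, abs_le, mem_Ico]
    constructor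
    · rintro ⟨h2, h3⟩
      refine ⟨by linarith, lt_of_le_of_ne (by linarith) fun h4 => hx (by rw [h4]; ring)⟩
    · rintro ⟨h2, h3⟩
      exact ⟨by linarith, by linarith⟩
  exact propext h1

private theorem ec_ae0 {z : ℂ} (hz : z ≠ 0) : strip z =ᵐ[volume] ec_H z (-(1 / 2)) := by
  have h := ec_ae hz 0
  simp only [sub_zero, zero_div, Complex.zero_re, zero_sub] at h
  exact h

private theorem ec_inv {z : ℂ} {F : Type} {g : ℂ → F} (hp : ∀ w, g (w + z) = g w)
    (h : AddSubgroup.zmultiples z) (x : ℂ) : g (h +ᵥ x) = g x := by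
  obtain ⟨h, hh⟩ := h
  obtain ⟨n, rfl⟩ := AddSubgroup.mem_zmultiples_iff.1 hh
  show g (n • z + x) = g x
  have hper : Function.Periodic g z := hp
  rw [add_comm]
  exact hper.zsmul n x

private theorem ec_shift {z : ℂ} (hz : z ≠ 0) {F : Type} [NormedAddCommGroup F] [NormedSpace ℝ F]
    {g : ℂ → F} (hp : ∀ w, g (w + z) = g w) (a : ℂ) :
    (IntegrableOn (fun x => g (x + a)) (strip z) ↔ IntegrableOn g (strip z)) ∧
      ∫ x in strip z, g (x + a) = ∫ x in strip z, g x := by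
  have hmem : MeasurableEmbedding fun x : ℂ => x + a := (MeasurableEquiv.addRight a).measurableEmbedding
  have hmp : MeasurePreserving fun x : ℂ => x + a := measurePreserving_add_right volume a
  have epre : strip z = (fun x : ℂ => x + a) ⁻¹' {x : ℂ | x - a ∈ strip z} := by
    ext x
    show x ∈ strip z ↔ x + a - a ∈ strip z
    rw [add_sub_cancel_right]
  have hinv := ec_inv hp
  constructor
  · have h1 : IntegrableOn (fun x => g (x + a)) (strip z) ↔ IntegrableOn g {x : ℂ | x - a ∈ strip z} := by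
      conv_lhs => rw [epre]
      exact hmp.integrableOn_comp_preimage hmem
    rw [h1, integrableOn_congr_set_ae (ec_ae hz a), integrableOn_congr_set_ae (ec_ae0 hz)]
    exact (ec_fd hz _).integrableOn_iff (ec_fd hz _) hinv
  · have h1 : ∫ x in strip z, g (x + a) = ∫ x in {x : ℂ | x - a ∈ strip z}, g x := by
      conv_lhs => rw [epre]
      exact hmp.setIntegral_preimage_emb hmem g _
    rw [h1, setIntegral_congr_set (ec_ae hz a), setIntegral_congr_set (ec_ae0 hz)]
    exact (ec_fd hz _).setIntegral_eq (ec_fd hz _) hinv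

theorem strip_shift {z : ℂ} (hz : z ≠ 0) {F : Type} [NormedAddCommGroup F] [NormedSpace ℝ F]
    {g : ℂ → F} (hp : ∀ w, g (w + z) = g w) (hg : IntegrableOn g (strip z)) (a : ℂ) :
    IntegrableOn (fun x => g (x + a)) (strip z) ∧
      ∫ x in strip z, g (x + a) = ∫ x in strip z, g x := by
  exact ⟨(ec_shift hz hp a).1.2 hg, (ec_shift hz hp a).2⟩

theorem kap_per {z : ℂ} (hz : z ≠ 0) (x : ℂ) : kap z (x + z) = kap z x ∧ kap z (-x) = -kap z x := by
  constructor
  · unfold kap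
    have e : Real.pi * (x + z) / z = Real.pi * x / z + Real.pi := by
      field_simp
    rw [e, Complex.cos_add_pi, Complex.sin_add_pi, mul_neg, neg_div_neg_eq]
  · unfold kap
    have e : (Real.pi : ℂ) * (-x) / z = -(Real.pi * x / z) := by ring
    rw [e, Complex.cos_neg, Complex.sin_neg, mul_neg, div_neg]

private theorem ec_neg {z : ℂ} {F : Type} [NormedAddCommGroup F] [NormedSpace ℝ F] (g : ℂ → F) :
    (IntegrableOn (fun x => g (-x)) (strip z) ↔ IntegrableOn g (strip z)) ∧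
      ∫ x in strip z, g (-x) = ∫ x in strip z, g x := by
  have hmem : MeasurableEmbedding fun x : ℂ => -x := (MeasurableEquiv.neg ℂ).measurableEmbedding
  have hmp : MeasurePreserving fun x : ℂ => -x := Measure.measurePreserving_neg volume
  have epre : strip z = (fun x : ℂ => -x) ⁻¹' strip z := by
    ext x
    show |(x / z).re| ≤ 1 / 2 ↔ |(-x / z).re| ≤ 1 / 2
    rw [neg_div, Complex.neg_re, abs_neg]
  constructor
  · conv_lhs => rw [epre]
    exact hmp.integrableOn_comp_preimage hmem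
  · conv_lhs => rw [epre]
    exact hmp.setIntegral_preimage_emb hmem g _

private theorem ec_cau {z : ℂ} (hz : z ≠ 0) {μ : ℂ → ℂ} (hμ : Bel z μ) (w : ℂ) :
    (IntegrableOn (fun x => kap z x * μ (w - x)) (strip z) ↔
      IntegrableOn (fun x => kap z (w - x) * μ x) (strip z)) ∧
      ∫ x in strip z, kap z x * μ (w - x) = ∫ x in strip z, kap z (w - x) * μ x := by
  have hp : ∀ x, (fun x => kap z (-x) * μ (w + x)) (x + z) = (fun x => kap z (-x) * μ (w + x)) x := by
    intro x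
    show kap z (-(x + z)) * μ (w + (x + z)) = kap z (-x) * μ (w + x)
    rw [(kap_per hz _).2, (kap_per hz x).1, (kap_per hz x).2, ← add_assoc, hμ.per]
  have h1 := ec_shift (g := fun x => kap z (-x) * μ (w + x)) hz hp (-w)
  have h2 := ec_neg (z := z) (fun x => kap z x * μ (w - x))
  have e1 : (fun x => (fun x => kap z (-x) * μ (w + x)) (x + -w)) = fun x => kap z (w - x) * μ x := by
    funext x
    show kap z (-(x + -w)) * μ (w + (x + -w)) = _
    congr 2
    · ring
    · ring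
  have e2 : (fun x => (fun x => kap z x * μ (w - x)) (-x)) = fun x => kap z (-x) * μ (w + x) := by
    funext x
    show kap z (-x) * μ (w - -x) = _
    rw [sub_neg_eq_add]
  rw [e1] at h1
  rw [e2] at h2
  refine ⟨h2.1.symm.trans h1.1.symm, ?_⟩
  exact (h1.2.trans h2.2).symm

theorem cau_eq {z : ℂ} (hz : z ≠ 0) {μ : ℂ → ℂ} (hμ : Bel z μ) (w : ℂ) :
    cau z μ w = ∫ x in strip z, kap z (w - x) * μ x := by
  exact (ec_cau hz hμ w).2
/- END ec -/

/- MODULE ed
`cau` is `z`-periodic and odd (by the definition), bounded (`‖kap z x‖ ≤ (1 + 1/‖sin‖)/‖z‖`, and `μ`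
vanishes at large height: the integral is over a bounded part of the strip, uniformly in `w`, by
`cau_eq` and `strip_shift`), and Hölder: by `cau_eq`, `cot_sub_le`, `‖sin y‖ ≤ C ‖y‖` for
`‖y‖ ≤ 26 π`, and `exists_sin_bound` + `strip_shift` for `p = 2 γ`, `p = 1 + γ`. -/
private noncomputable def ed_I (p : ℝ) : ℝ := ∫ w in ea_S, ‖Complex.sin (Real.pi * w)‖ ^ (-p)

private theorem ed_I_nonneg (p : ℝ) : 0 ≤ ed_I p :=
  integral_nonneg fun _ => Real.rpow_nonneg (norm_nonneg _) _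

private theorem ed_sin {p : ℝ} (h0 : 0 < p) (h2 : p < 2) {z : ℂ} (hz : z ≠ 0) (w : ℂ) :
    IntegrableOn (fun x : ℂ => ‖Complex.sin (Real.pi * (w - x) / z)‖ ^ (-p)) (strip z) ∧
    ∫ x in strip z, ‖Complex.sin (Real.pi * (w - x) / z)‖ ^ (-p) = ‖z‖ ^ 2 * ed_I p := by
  obtain ⟨h3, h4⟩ := ea_all h0 h2 hz
  have hp : ∀ x, (fun x : ℂ => ‖Complex.sin (Real.pi * x / z)‖ ^ (-p)) (x + z) =
      (fun x : ℂ => ‖Complex.sin (Real.pi * x / z)‖ ^ (-p)) x := by
    intro x
    show ‖Complex.sin (Real.pi * (x + z) / z)‖ ^ (-p) = ‖Complex.sin (Real.pi * x / z)‖ ^ (-p)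
    have e : Real.pi * (x + z) / z = Real.pi * x / z + Real.pi := by
      field_simp
    rw [e, Complex.sin_add_pi, norm_neg]
  have h1 := ec_shift (g := fun x : ℂ => ‖Complex.sin (Real.pi * x / z)‖ ^ (-p)) hz hp (-w)
  have e1 : (fun x : ℂ => ‖Complex.sin (Real.pi * (w - x) / z)‖ ^ (-p)) =
      fun x => (fun x : ℂ => ‖Complex.sin (Real.pi * x / z)‖ ^ (-p)) (x + -w) := by
    funext x
    show _ = ‖Complex.sin (Real.pi * (x + -w) / z)‖ ^ (-p)
    have e : (Real.pi : ℂ) * (x + -w) / z = -(Real.pi * (w - x) / z) := by ring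
    rw [e, Complex.sin_neg, norm_neg]
  rw [e1]
  refine ⟨h1.1.2 h3, ?_⟩
  rw [h1.2, h4]
  rfl

private theorem ed_kap {z : ℂ} (x : ℂ) :
    ‖kap z x‖ ≤ ‖z‖⁻¹ * (1 + ‖Complex.sin (Real.pi * x / z)‖ ^ (-(1 : ℝ))) := by
  rw [Real.rpow_neg (norm_nonneg _), Real.rpow_one]
  unfold kap
  by_cases hs : Complex.sin (Real.pi * x / z) = 0
  · rw [hs, mul_zero, div_zero, norm_zero]
    positivity
  · have h1 := eb_cot hs
    have e : Complex.cos (Real.pi * x / z) / (z * Complex.sin (Real.pi * x / z)) =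
        z⁻¹ * (Complex.cos (Real.pi * x / z) / Complex.sin (Real.pi * x / z)) := by
      rw [div_mul_eq_div_div_swap, div_eq_inv_mul _ z]
    rw [e, norm_mul, norm_inv]
    exact mul_le_mul_of_nonneg_left h1 (by positivity)

private theorem ed_kapm (z : ℂ) : Measurable (kap z) := by
  have h1 : Continuous fun x : ℂ => (Real.pi : ℂ) * x / z :=
    (continuous_const.mul continuous_id).div_const z
  exact (Complex.continuous_cos.comp h1).measurable.div
    ((continuous_const.mul (Complex.continuous_sin.comp h1)).measurable)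

private theorem ed_int {z : ℂ} (hz : z ≠ 0) {μ : ℂ → ℂ} (hμ : Bel z μ) : ∃ B : ℝ, ∀ w,
    IntegrableOn (fun x => kap z (w - x) * μ x) (strip z) ∧ ‖cau z μ w‖ ≤ B ∧
      ∫ x in strip z, ‖kap z (w - x) * μ x‖ ≤ B := by
  obtain ⟨Y, hY⟩ := hμ.hgt
  have hn : 0 < ‖z‖ := norm_pos_iff.2 hz
  set T : Set ℂ := {x | |(x / z).im| ≤ Y} with hT
  have hTm : MeasurableSet T := by
    have h1 : Continuous fun w : ℂ => |(w / z).im| :=
      (Complex.continuous_im.comp (continuous_id.div_const z)).abs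
    exact (isClosed_Iic.preimage h1).measurableSet
  have hTs : strip z ∩ T ⊆ Metric.closedBall 0 (‖z‖ * (1 / 2 + |Y|)) := by
    rintro x ⟨hx1, hx2⟩
    have hx1' : |(x / z).re| ≤ 1 / 2 := hx1
    have hx2' : |(x / z).im| ≤ Y := hx2
    rw [mem_closedBall_zero_iff]
    have h3 : ‖x / z‖ ≤ 1 / 2 + |Y| :=
      (Complex.norm_le_abs_re_add_abs_im _).trans (add_le_add hx1' (hx2'.trans (le_abs_self _)))
    rw [norm_div, div_le_iff₀ hn] at h3
    linarith
  have hTv : volume (strip z ∩ T) ≠ ⊤ :=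
    ((measure_mono hTs).trans_lt measure_closedBall_lt_top).ne
  have hT1 : IntegrableOn (T.indicator fun _ => ‖z‖⁻¹) (strip z) := by
    rw [IntegrableOn, integrable_indicator_iff hTm, IntegrableOn, Measure.restrict_restrict hTm,
      inter_comm]
    exact integrableOn_const hTv
  have hD : ∀ w, IntegrableOn (fun x : ℂ => T.indicator (fun _ => ‖z‖⁻¹) x +
      ‖z‖⁻¹ * ‖Complex.sin (Real.pi * (w - x) / z)‖ ^ (-(1 : ℝ))) (strip z) := fun w =>
    Integrable.add hT1 ((ed_sin one_pos (by norm_num) hz w).1.const_mul _)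
  have hle : ∀ w x : ℂ, ‖kap z (w - x) * μ x‖ ≤ T.indicator (fun _ => ‖z‖⁻¹) x +
      ‖z‖⁻¹ * ‖Complex.sin (Real.pi * (w - x) / z)‖ ^ (-(1 : ℝ)) := by
    intro w x
    have h5 : 0 ≤ ‖z‖⁻¹ * ‖Complex.sin (Real.pi * (w - x) / z)‖ ^ (-(1 : ℝ)) := by positivity
    by_cases hx : x ∈ T
    · rw [indicator_of_mem hx, norm_mul]
      have h3 := ed_kap (z := z) (w - x)
      have h4 : ‖kap z (w - x)‖ * ‖μ x‖ ≤ ‖kap z (w - x)‖ * 1 :=
        mul_le_mul_of_nonneg_left (hμ.bnd x) (norm_nonneg _)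
      linarith
    · rw [indicator_of_notMem hx, hY x (not_le.1 hx), mul_zero, norm_zero]
      linarith
  have hms : ∀ w, AEStronglyMeasurable (fun x => kap z (w - x) * μ x) (volume.restrict (strip z)) := by
    intro w
    have h6 : Measurable fun x => kap z (w - x) := (ed_kapm z).comp (measurable_const.sub measurable_id)
    exact (h6.mul hμ.mea).aestronglyMeasurable
  refine ⟨(∫ x in strip z, T.indicator (fun _ => ‖z‖⁻¹) x) + ‖z‖⁻¹ * (‖z‖ ^ 2 * ed_I 1), fun w => ?_⟩
  have hi : IntegrableOn (fun x => kap z (w - x) * μ x) (strip z) :=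
    Integrable.mono' (hD w) (hms w) (Filter.Eventually.of_forall (hle w))
  have hb : ∫ x in strip z, ‖kap z (w - x) * μ x‖ ≤
      (∫ x in strip z, T.indicator (fun _ => ‖z‖⁻¹) x) + ‖z‖⁻¹ * (‖z‖ ^ 2 * ed_I 1) := by
    refine (integral_mono hi.norm (hD w) fun x => hle w x).trans (le_of_eq ?_)
    rw [integral_add hT1 ((ed_sin one_pos (by norm_num) hz w).1.const_mul _), integral_const_mul,
      (ed_sin one_pos (by norm_num) hz w).2]
  refine ⟨hi, ?_, hb⟩
  rw [cau_eq hz hμ w]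
  exact (norm_integral_le_integral_norm _).trans hb

theorem cau_props {z : ℂ} (hz : z ≠ 0) {μ : ℂ → ℂ} (hμ : Bel z μ) :
    (∀ w, cau z μ (w + z) = cau z μ w) ∧ (∀ w, cau z μ (-w) = -cau z μ w) ∧
      ∃ B : ℝ, ∀ w, ‖cau z μ w‖ ≤ B := by
  refine ⟨fun w => ?_, fun w => ?_, ?_⟩
  · unfold cau
    congr 1
    funext x
    rw [add_sub_right_comm, hμ.per]
  · have h2 := (ec_neg (z := z) (fun x => kap z x * μ (-w - x))).2
    unfold cau
    rw [← h2, ← integral_neg]
    congr 1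
    funext x
    have e : -w - -x = -(w - x) := by ring
    rw [(kap_per hz x).2, e, hμ.neg, neg_mul]
  · obtain ⟨B, hB⟩ := ed_int hz hμ
    exact ⟨B, fun w => (hB w).2.1⟩

private theorem ed_sin_le {R : ℝ} {y : ℂ} (hy : ‖y‖ ≤ R) : ‖Complex.sin y‖ ≤ Real.exp R * ‖y‖ := by
  have h1 : ∀ x ∈ Metric.closedBall (0 : ℂ) R, DifferentiableAt ℂ Complex.sin x := fun x _ =>
    Complex.differentiable_sin x
  have h2 : ∀ x ∈ Metric.closedBall (0 : ℂ) R, ‖deriv Complex.sin x‖ ≤ Real.exp R := by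
    intro x hx
    rw [mem_closedBall_zero_iff] at hx
    rw [Complex.deriv_sin, Complex.cos, norm_div]
    have h3 : ‖Complex.exp (x * Complex.I)‖ ≤ Real.exp R := by
      refine (Complex.norm_exp_le_exp_norm _).trans (Real.exp_le_exp.2 ?_)
      rw [norm_mul, Complex.norm_I, mul_one]
      exact hx
    have h4 : ‖Complex.exp (-x * Complex.I)‖ ≤ Real.exp R := by
      refine (Complex.norm_exp_le_exp_norm _).trans (Real.exp_le_exp.2 ?_)
      rw [norm_mul, Complex.norm_I, mul_one, norm_neg]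
      exact hx
    have h5 := norm_add_le (Complex.exp (x * Complex.I)) (Complex.exp (-x * Complex.I))
    rw [Complex.norm_two, div_le_iff₀ (by norm_num)]
    linarith
  have hR : 0 ≤ R := (norm_nonneg y).trans hy
  have h6 := Convex.norm_image_sub_le_of_norm_deriv_le h1 h2 (convex_closedBall 0 R)
    (Metric.mem_closedBall_self hR) (mem_closedBall_zero_iff.2 hy)
  rw [Complex.sin_zero, sub_zero, sub_zero] at h6
  exact h6

private theorem ed_sin_ne {z : ℂ} (hz : z ≠ 0) (a : ℂ) :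
    ∀ᵐ x : ℂ, Complex.sin (Real.pi * (a - x) / z) ≠ 0 := by
  have h1 : {x : ℂ | Complex.sin (Real.pi * (a - x) / z) = 0}.Countable := by
    refine (countable_range fun k : ℤ => a - k * z).mono ?_
    intro x hx
    obtain ⟨k, hk⟩ := Complex.sin_eq_zero_iff.1 hx
    refine ⟨k, ?_⟩
    have hpi : (Real.pi : ℂ) ≠ 0 := Complex.ofReal_ne_zero.2 Real.pi_ne_zero
    rw [div_eq_iff hz] at hk
    have h2 : a - x = k * z := by
      apply mul_left_cancel₀ hpi
      rw [hk]
      ring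
    show a - k * z = x
    rw [← h2]
    ring
  exact h1.ae_notMem volume

theorem exists_cau_holder {γ : ℝ} (h0 : 0 < γ) (h1 : γ < 1) : ∃ C : ℝ, 0 < C ∧ ∀ z : ℂ,
    1 / 26 ≤ ‖z‖ → ‖z‖ ≤ 2 → ∀ μ : ℂ → ℂ, Bel z μ → ∀ a b : ℂ, ‖a - b‖ ≤ 1 →
    ‖cau z μ a - cau z μ b‖ ≤ C * ‖a - b‖ ^ γ := by
  set K : ℝ := Real.exp (26 * Real.pi) * (26 * Real.pi) with hK
  have hK0 : 0 < K := by positivity
  have hI1 := ed_I_nonneg (2 * γ)
  have hI2 := ed_I_nonneg (1 + γ)
  refine ⟨8 * (ed_I (2 * γ) + ed_I (1 + γ)) * K ^ γ + 1, by positivity, ?_⟩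
  intro z hz1 hz2 μ hμ a b hab
  have hn : 0 < ‖z‖ := lt_of_lt_of_le (by norm_num) hz1
  have hz : z ≠ 0 := norm_pos_iff.1 hn
  obtain ⟨B, hB⟩ := ed_int hz hμ
  have e1 : cau z μ a - cau z μ b =
      ∫ x in strip z, (kap z (a - x) * μ x - kap z (b - x) * μ x) := by
    rw [cau_eq hz hμ, cau_eq hz hμ, integral_sub (hB a).1 (hB b).1]
  set d := ‖Complex.sin (Real.pi * (b - a) / z)‖ with hd
  have hd0 : 0 ≤ d := norm_nonneg _
  have hs1 : ∀ w, _ := fun w => ed_sin (p := 2 * γ) (by linarith) (by linarith) hz w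
  have hs2 : ∀ w, _ := fun w => ed_sin (p := 1 + γ) (by linarith) (by linarith) hz w
  have hDi := ((((hs1 a).1.const_mul 2).add ((hs1 b).1.const_mul 2)).add
    ((hs2 a).1.const_mul 2)).add ((hs2 b).1.const_mul 2)
  have hDi' := hDi.const_mul (‖z‖⁻¹ * d ^ γ)
  have hle : ∀ᵐ x ∂(volume.restrict (strip z)), ‖kap z (a - x) * μ x - kap z (b - x) * μ x‖ ≤
      (‖z‖⁻¹ * d ^ γ) * ((((fun x => 2 * ‖Complex.sin (Real.pi * (a - x) / z)‖ ^ (-(2 * γ))) +
        (fun x => 2 * ‖Complex.sin (Real.pi * (b - x) / z)‖ ^ (-(2 * γ)))) +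
        (fun x => 2 * ‖Complex.sin (Real.pi * (a - x) / z)‖ ^ (-(1 + γ)))) +
        (fun x => 2 * ‖Complex.sin (Real.pi * (b - x) / z)‖ ^ (-(1 + γ)))) x := by
    refine ae_restrict_of_ae ?_
    filter_upwards [ed_sin_ne hz a, ed_sin_ne hz b] with x hxa hxb
    have h3 := cot_sub_le h0 h1 hxa hxb
    have e3 : (Real.pi : ℂ) * (b - x) / z - Real.pi * (a - x) / z = Real.pi * (b - a) / z := by ring
    rw [e3] at h3
    have e4 : kap z (a - x) * μ x - kap z (b - x) * μ x = z⁻¹ *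
        (Complex.cos (Real.pi * (a - x) / z) / Complex.sin (Real.pi * (a - x) / z) -
          Complex.cos (Real.pi * (b - x) / z) / Complex.sin (Real.pi * (b - x) / z)) * μ x := by
      unfold kap
      rw [div_mul_eq_div_div_swap, div_mul_eq_div_div_swap, div_eq_inv_mul _ z, div_eq_inv_mul _ z]
      ring
    rw [e4, norm_mul, norm_mul, norm_inv]
    have h4 : ‖z‖⁻¹ * ‖Complex.cos (Real.pi * (a - x) / z) / Complex.sin (Real.pi * (a - x) / z) -
        Complex.cos (Real.pi * (b - x) / z) / Complex.sin (Real.pi * (b - x) / z)‖ * ‖μ x‖ ≤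
        ‖z‖⁻¹ * ‖Complex.cos (Real.pi * (a - x) / z) / Complex.sin (Real.pi * (a - x) / z) -
        Complex.cos (Real.pi * (b - x) / z) / Complex.sin (Real.pi * (b - x) / z)‖ * 1 :=
      mul_le_mul_of_nonneg_left (hμ.bnd x) (by positivity)
    refine h4.trans ?_
    rw [mul_one, mul_assoc]
    exact mul_le_mul_of_nonneg_left h3 (by positivity)
  rw [e1]
  refine (norm_integral_le_of_norm_le hDi' hle).trans ?_
  have e5 : ∫ x in strip z, (‖z‖⁻¹ * d ^ γ) *
      ((((fun x => 2 * ‖Complex.sin (Real.pi * (a - x) / z)‖ ^ (-(2 * γ))) +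
        (fun x => 2 * ‖Complex.sin (Real.pi * (b - x) / z)‖ ^ (-(2 * γ)))) +
        (fun x => 2 * ‖Complex.sin (Real.pi * (a - x) / z)‖ ^ (-(1 + γ)))) +
        (fun x => 2 * ‖Complex.sin (Real.pi * (b - x) / z)‖ ^ (-(1 + γ)))) x =
      4 * ‖z‖ * (ed_I (2 * γ) + ed_I (1 + γ)) * d ^ γ := by
    rw [integral_const_mul]
    have e6 := integral_add' ((((hs1 a).1.const_mul 2).add ((hs1 b).1.const_mul 2)).add
      ((hs2 a).1.const_mul 2)) ((hs2 b).1.const_mul 2)
    have e7 := integral_add' (((hs1 a).1.const_mul 2).add ((hs1 b).1.const_mul 2))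
      ((hs2 a).1.const_mul 2)
    have e8 := integral_add' ((hs1 a).1.const_mul 2) ((hs1 b).1.const_mul 2)
    rw [e6, e7, e8, integral_const_mul, integral_const_mul, integral_const_mul, integral_const_mul,
      (hs1 a).2, (hs1 b).2, (hs2 a).2, (hs2 b).2]
    field_simp
    ring
  rw [e5]
  have h7 : ‖(Real.pi : ℂ) * (b - a) / z‖ ≤ 26 * Real.pi * ‖a - b‖ := by
    rw [norm_div, norm_mul, Complex.norm_real, Real.norm_eq_abs, abs_of_pos Real.pi_pos,
      norm_sub_rev, div_le_iff₀ hn]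
    have h8 : 1 ≤ 26 * ‖z‖ := by linarith
    have h9 : 0 ≤ Real.pi * ‖a - b‖ := by positivity
    nlinarith
  have h8 : d ≤ K * ‖a - b‖ := by
    have h9 : ‖(Real.pi : ℂ) * (b - a) / z‖ ≤ 26 * Real.pi := by
      refine h7.trans ?_
      have : 0 ≤ 26 * Real.pi := by positivity
      nlinarith [norm_nonneg (a - b)]
    have h10 := ed_sin_le h9
    refine h10.trans ?_
    rw [hK, mul_assoc]
    exact mul_le_mul_of_nonneg_left h7 (Real.exp_pos _).le
  have h9 : d ^ γ ≤ K ^ γ * ‖a - b‖ ^ γ := by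
    rw [← Real.mul_rpow hK0.le (norm_nonneg _)]
    exact Real.rpow_le_rpow hd0 h8 h0.le
  have h10 : 4 * ‖z‖ * (ed_I (2 * γ) + ed_I (1 + γ)) * d ^ γ ≤
      8 * (ed_I (2 * γ) + ed_I (1 + γ)) * (K ^ γ * ‖a - b‖ ^ γ) := by
    have h11 : 4 * ‖z‖ * (ed_I (2 * γ) + ed_I (1 + γ)) ≤ 8 * (ed_I (2 * γ) + ed_I (1 + γ)) := by
      nlinarith
    exact mul_le_mul h11 h9 (Real.rpow_nonneg hd0 _) (by positivity)
  have h12 : 0 ≤ ‖a - b‖ ^ γ := Real.rpow_nonneg (norm_nonneg _) _
  calc 4 * ‖z‖ * (ed_I (2 * γ) + ed_I (1 + γ)) * d ^ γ ≤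
      8 * (ed_I (2 * γ) + ed_I (1 + γ)) * (K ^ γ * ‖a - b‖ ^ γ) := h10
    _ = 8 * (ed_I (2 * γ) + ed_I (1 + γ)) * K ^ γ * ‖a - b‖ ^ γ := by ring
    _ ≤ (8 * (ed_I (2 * γ) + ed_I (1 + γ)) * K ^ γ + 1) * ‖a - b‖ ^ γ := by
      rw [add_mul, one_mul]
      linarith
/- END ed -/

/- MODULE ee
Cauchy - Pompeiu in the plane: polar coordinates around `ζ`, `w = ζ + r e^(iθ)`:
`dbar φ w = (e^(iθ) / 2) (∂_r + (i / r) ∂_θ) φ`, so the integral is
`(1/2) ∫∫ (∂_r φ + (i/r) ∂_θ φ) dr dθ = (1/2) (-2 π φ ζ) + 0`. -/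
private noncomputable def ee_e (t : ℝ) : ℂ := (Real.cos t : ℂ) + (Real.sin t : ℂ) * Complex.I

private theorem ee_norm (t : ℝ) : ‖ee_e t‖ = 1 := by
  unfold ee_e
  rw [Complex.ofReal_cos, Complex.ofReal_sin, ← Complex.exp_mul_I]
  exact Complex.norm_exp_ofReal_mul_I t

private theorem ee_ne (t : ℝ) : ee_e t ≠ 0 := by
  rw [← norm_ne_zero_iff, ee_norm]
  exact one_ne_zero

private theorem ee_cont : Continuous ee_e := by
  unfold ee_e
  fun_prop

private theorem ee_deriv (t : ℝ) : HasDerivAt ee_e (Complex.I * ee_e t) t := by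
  have h1 := ((Real.hasDerivAt_cos t).ofReal_comp).add
    (((Real.hasDerivAt_sin t).ofReal_comp).mul_const Complex.I)
  have e : ((-Real.sin t : ℝ) : ℂ) + ((Real.cos t : ℝ) : ℂ) * Complex.I = Complex.I * ee_e t := by
    unfold ee_e
    have h2 := Complex.I_mul_I
    push_cast
    linear_combination (-(Complex.sin t)) * h2
  rw [e] at h1
  exact h1

private theorem ee_lin (L : ℂ →L[ℝ] ℂ) (t : ℝ) :
    (L 1 + Complex.I * L Complex.I) / ee_e t = L (ee_e t) + Complex.I * L (Complex.I * ee_e t) := by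
  have e1 : ee_e t = (Real.cos t : ℝ) • (1 : ℂ) + (Real.sin t : ℝ) • Complex.I := by
    unfold ee_e
    rw [Complex.real_smul, Complex.real_smul, mul_one]
  have e2 : Complex.I * ee_e t = (-Real.sin t : ℝ) • (1 : ℂ) + (Real.cos t : ℝ) • Complex.I := by
    unfold ee_e
    rw [Complex.real_smul, Complex.real_smul, mul_one]
    have h2 := Complex.I_mul_I
    push_cast
    linear_combination (Complex.sin t) * h2
  have h3 : L (ee_e t) = Real.cos t * L 1 + Real.sin t * L Complex.I := by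
    rw [e1, map_add, map_smul, map_smul, Complex.real_smul, Complex.real_smul]
  have h4 : L (Complex.I * ee_e t) = -Real.sin t * L 1 + Real.cos t * L Complex.I := by
    rw [e2, map_add, map_smul, map_smul, Complex.real_smul, Complex.real_smul]
    push_cast
    ring
  rw [div_eq_iff (ee_ne t), h3, h4]
  unfold ee_e
  have h5 : (Complex.cos t) ^ 2 + (Complex.sin t) ^ 2 = 1 := by
    rw [add_comm]
    exact Complex.sin_sq_add_cos_sq t
  have h2 := Complex.I_mul_I
  push_cast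
  linear_combination (-(L 1) - Complex.I * L Complex.I) * h5 +
    (L 1 * Complex.sin t ^ 2 - L Complex.I * Complex.cos t * Complex.sin t) * h2

private theorem ee_supp {φ : ℂ → ℂ} (hc : HasCompactSupport φ) (ζ : ℂ) : ∃ R : ℝ, 0 < R ∧
    ∀ w, R < ‖w - ζ‖ → φ w = 0 ∧ fderiv ℝ φ w = 0 := by
  obtain ⟨R, hR⟩ := hc.isCompact.isBounded.subset_closedBall ζ
  refine ⟨max R 1, by positivity, fun w hw => ?_⟩
  have h1 : w ∉ tsupport φ := by
    intro h
    have := hR h
    rw [mem_closedBall_iff_norm] at this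
    exact absurd (lt_of_le_of_lt (le_max_left R 1) hw) (not_lt.2 this)
  refine ⟨image_eq_zero_of_notMem_tsupport h1, ?_⟩
  by_contra h2
  exact h1 (support_fderiv_subset ℝ h2)

private theorem ee_intOn {G : ℝ × ℝ → ℂ} (hG : Continuous G) {R : ℝ} (h : ∀ p : ℝ × ℝ, R < p.1 → G p = 0) :
    IntegrableOn G (Ioi (0 : ℝ) ×ˢ Ioo (-Real.pi) Real.pi) := by
  have h1 : IntegrableOn G (Icc (0 : ℝ) R ×ˢ Icc (-Real.pi) Real.pi) :=
    hG.continuousOn.integrableOn_compact (isCompact_Icc.prod isCompact_Icc)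
  have hm : MeasurableSet {p : ℝ × ℝ | R < p.1} := (isOpen_lt continuous_const continuous_fst).measurableSet
  have h2 : IntegrableOn G {p : ℝ × ℝ | R < p.1} := by
    refine (integrableOn_congr_fun (g := fun _ => (0 : ℂ)) (fun p hp => h p hp) hm).2 ?_
    exact integrableOn_zero
  refine (h1.union h2).mono_set ?_
  rintro ⟨r, t⟩ ⟨hr, ht⟩
  by_cases hR : r ≤ R
  · exact Or.inl ⟨⟨le_of_lt hr, hR⟩, ⟨ht.1.le, ht.2.le⟩⟩
  · exact Or.inr (not_le.1 hR)

theorem pompeiu {φ : ℂ → ℂ} (hφ : ContDiff ℝ 1 φ) (hc : HasCompactSupport φ) (ζ : ℂ) :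
    ∫ w, dbar φ w / (w - ζ) = -(Real.pi : ℂ) * φ ζ := by
  obtain ⟨R, hR0, hR⟩ := ee_supp hc ζ
  have hpi := Real.pi_pos
  have hdf : Continuous (fderiv ℝ φ) := hφ.continuous_fderiv (by norm_num)
  have hdiff : Differentiable ℝ φ := hφ.differentiable (by norm_num)
  have e0 : ∫ w, dbar φ w / (w - ζ) = ∫ w, dbar φ (ζ + w) / w := by
    rw [← integral_add_left_eq_self (fun w => dbar φ w / (w - ζ)) ζ]
    refine integral_congr_ae (Filter.Eventually.of_forall fun w => ?_)
    show dbar φ (ζ + w) / (ζ + w - ζ) = dbar φ (ζ + w) / w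
    rw [add_sub_cancel_left]
  rw [e0, ← Complex.integral_comp_polarCoord_symm]
  set A : ℝ × ℝ → ℂ := fun p => fderiv ℝ φ (ζ + p.1 * ee_e p.2) (ee_e p.2) with hA
  set B : ℝ × ℝ → ℂ := fun p => fderiv ℝ φ (ζ + p.1 * ee_e p.2) (Complex.I * ee_e p.2) with hB
  have hpt : Continuous fun p : ℝ × ℝ => ζ + (p.1 : ℂ) * ee_e p.2 :=
    continuous_const.add ((Complex.continuous_ofReal.comp continuous_fst).mul
      (ee_cont.comp continuous_snd))
  have hAc : Continuous A := (hdf.comp hpt).clm_apply (ee_cont.comp continuous_snd)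
  have hBc : Continuous B :=
    (hdf.comp hpt).clm_apply (continuous_const.mul (ee_cont.comp continuous_snd))
  have hz : ∀ p : ℝ × ℝ, R < p.1 → φ (ζ + p.1 * ee_e p.2) = 0 ∧
      fderiv ℝ φ (ζ + p.1 * ee_e p.2) = 0 := by
    intro p hp
    apply hR
    rw [add_sub_cancel_left, norm_mul, ee_norm, mul_one, Complex.norm_real, Real.norm_eq_abs,
      abs_of_pos (hR0.trans hp)]
    exact hp
  have hAz : ∀ p : ℝ × ℝ, R < p.1 → A p = 0 := fun p hp => by
    show fderiv ℝ φ (ζ + p.1 * ee_e p.2) (ee_e p.2) = 0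
    rw [(hz p hp).2]
    rfl
  have hBz : ∀ p : ℝ × ℝ, R < p.1 → B p = 0 := fun p hp => by
    show fderiv ℝ φ (ζ + p.1 * ee_e p.2) (Complex.I * ee_e p.2) = 0
    rw [(hz p hp).2]
    rfl
  have hAi := ee_intOn hAc hAz
  have hBi := ee_intOn hBc hBz
  have e1 : ∀ p ∈ polarCoord.target, p.1 • (dbar φ (ζ + Complex.polarCoord.symm p) /
      Complex.polarCoord.symm p) = (1 / 2 : ℂ) * (A p + Complex.I * B p) := by
    intro p hp
    have hp1 : 0 < p.1 := hp.1
    have e2 : Complex.polarCoord.symm p = (p.1 : ℂ) * ee_e p.2 := by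
      rw [Complex.polarCoord_symm_apply]
      unfold ee_e
      rfl
    have h3 : (p.1 : ℂ) ≠ 0 := Complex.ofReal_ne_zero.2 hp1.ne'
    have h4 := ee_lin (fderiv ℝ φ (ζ + p.1 * ee_e p.2)) p.2
    rw [e2, Complex.real_smul]
    show (p.1 : ℂ) * (dbar φ (ζ + p.1 * ee_e p.2) / (p.1 * ee_e p.2)) = (1 / 2 : ℂ) *
      (fderiv ℝ φ (ζ + p.1 * ee_e p.2) (ee_e p.2) +
        Complex.I * fderiv ℝ φ (ζ + p.1 * ee_e p.2) (Complex.I * ee_e p.2))
    rw [← h4]
    unfold dbar
    have h5 := ee_ne p.2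
    field_simp
  rw [setIntegral_congr_fun polarCoord.open_target.measurableSet e1]
  have et : polarCoord.target = Ioi (0 : ℝ) ×ˢ Ioo (-Real.pi) Real.pi := rfl
  rw [et, integral_const_mul]
  have e3 : ∫ p in Ioi (0 : ℝ) ×ˢ Ioo (-Real.pi) Real.pi, (A p + Complex.I * B p) =
      (∫ p in Ioi (0 : ℝ) ×ˢ Ioo (-Real.pi) Real.pi, A p) +
        Complex.I * ∫ p in Ioi (0 : ℝ) ×ˢ Ioo (-Real.pi) Real.pi, B p := by
    rw [integral_add hAi (hBi.const_mul _), integral_const_mul]
  have hder : ∀ r t : ℝ, HasFDerivAt φ (fderiv ℝ φ (ζ + r * ee_e t)) (ζ + r * ee_e t) := fun r t =>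
    (hdiff _).hasFDerivAt
  have hIB : ∫ p in Ioi (0 : ℝ) ×ˢ Ioo (-Real.pi) Real.pi, B p = 0 := by
    rw [Measure.volume_eq_prod, setIntegral_prod _ hBi]
    refine (setIntegral_congr_fun (g := fun _ => (0 : ℂ)) measurableSet_Ioi fun r hr => ?_).trans (by simp)
    have hr' : (0 : ℝ) < r := hr
    have hrc : (r : ℂ) ≠ 0 := Complex.ofReal_ne_zero.2 hr'.ne'
    show ∫ t in Ioo (-Real.pi) Real.pi, B (r, t) = 0
    rw [← integral_Ioc_eq_integral_Ioo, ← intervalIntegral.integral_of_le (by linarith)]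
    have h6 : ∀ t ∈ uIcc (-Real.pi) Real.pi, HasDerivAt (fun t : ℝ => (r : ℂ)⁻¹ * φ (ζ + r * ee_e t))
        (B (r, t)) t := by
      intro t _
      have h7 : HasDerivAt (fun t : ℝ => ζ + r * ee_e t) (r * (Complex.I * ee_e t)) t :=
        ((ee_deriv t).const_mul (r : ℂ)).const_add ζ
      have h8 := (hder r t).comp_hasDerivAt t h7
      have h9 : fderiv ℝ φ (ζ + r * ee_e t) (r * (Complex.I * ee_e t)) =
          r * fderiv ℝ φ (ζ + r * ee_e t) (Complex.I * ee_e t) := by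
        have h10 := (fderiv ℝ φ (ζ + r * ee_e t)).map_smul r (Complex.I * ee_e t)
        rw [Complex.real_smul, Complex.real_smul] at h10
        exact h10
      rw [h9] at h8
      have h11 := h8.const_mul (r : ℂ)⁻¹
      rw [← mul_assoc, inv_mul_cancel₀ hrc, one_mul] at h11
      exact h11
    rw [intervalIntegral.integral_eq_sub_of_hasDerivAt h6]
    · have h12 : ee_e Real.pi = ee_e (-Real.pi) := by
        unfold ee_e
        simp
      rw [h12, sub_self]
    · exact (hBc.comp (continuous_const.prodMk continuous_id)).intervalIntegrable _ _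
  have hIA : ∫ p in Ioi (0 : ℝ) ×ˢ Ioo (-Real.pi) Real.pi, A p = -(2 * Real.pi) * φ ζ := by
    have hAi' : Integrable A ((volume.restrict (Ioi (0 : ℝ))).prod
        (volume.restrict (Ioo (-Real.pi) Real.pi))) := by
      rw [Measure.prod_restrict, ← Measure.volume_eq_prod]
      exact hAi
    rw [Measure.volume_eq_prod, ← Measure.prod_restrict, integral_prod_symm _ hAi']
    have h6 : ∀ t ∈ Ioo (-Real.pi) Real.pi, ∫ r in Ioi (0 : ℝ), A (r, t) = -φ ζ := by
      intro t _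
      have h7 : ∀ r ∈ Ioi (0 : ℝ), HasDerivAt (fun r : ℝ => φ (ζ + r * ee_e t)) (A (r, t)) r := by
        intro r _
        have h8 : HasDerivAt (fun r : ℝ => ζ + (r : ℂ) * ee_e t) (ee_e t) r := by
          have h9 : HasDerivAt (fun r : ℝ => (r : ℂ)) 1 r := Complex.ofRealCLM.hasDerivAt
          have h10 := (h9.mul_const (ee_e t)).const_add ζ
          rw [one_mul] at h10
          exact h10
        exact (hder r t).comp_hasDerivAt r h8
      have h8 : IntegrableOn (fun r => A (r, t)) (Ioi (0 : ℝ)) := by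
        have h9 : Continuous fun r => A (r, t) := hAc.comp (continuous_id.prodMk continuous_const)
        have h10 : IntegrableOn (fun r => A (r, t)) (Icc (0 : ℝ) R) :=
          h9.continuousOn.integrableOn_compact isCompact_Icc
        have h11 : IntegrableOn (fun r => A (r, t)) (Ioi R) := by
          refine (integrableOn_congr_fun (g := fun _ => (0 : ℂ)) (fun r hr => hAz (r, t) hr)
            measurableSet_Ioi).2 integrableOn_zero
        refine (h10.union h11).mono_set fun r hr => ?_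
        by_cases hrR : r ≤ R
        · exact Or.inl ⟨le_of_lt hr, hrR⟩
        · exact Or.inr (not_le.1 hrR)
      have h9 : Filter.Tendsto (fun r : ℝ => φ (ζ + r * ee_e t)) Filter.atTop (nhds 0) := by
        refine tendsto_const_nhds.congr' ?_
        filter_upwards [Filter.eventually_gt_atTop R] with r hr
        exact (hz (r, t) hr).1.symm
      have h10 : Continuous fun r : ℝ => φ (ζ + r * ee_e t) :=
        hφ.continuous.comp (continuous_const.add (Complex.continuous_ofReal.mul continuous_const))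
      rw [integral_Ioi_of_hasDerivAt_of_tendsto h10.continuousWithinAt h7 h8 h9]
      simp
    rw [setIntegral_congr_fun measurableSet_Ioo h6, setIntegral_const, Measure.real,
      Real.volume_Ioo, ENNReal.toReal_ofReal (by linarith), Complex.real_smul]
    push_cast
    ring
  rw [e3, hIA, hIB]
  ring

private theorem ee_int_dbar {ψ : ℂ → ℂ} (hψ : ContDiff ℝ 1 ψ) (hc : HasCompactSupport ψ) :
    ∫ w, dbar ψ w = 0 := by
  have hdf : Continuous (fderiv ℝ ψ) := hψ.continuous_fderiv (by norm_num)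
  have hdc : HasCompactSupport (fderiv ℝ ψ) := hc.fderiv ℝ
  have h1 : ∀ v : ℂ, Integrable (fun w => fderiv ℝ ψ w v) ∧ ∫ w, fderiv ℝ ψ w v = 0 := by
    intro v
    have hci : Continuous fun w => fderiv ℝ ψ w v := hdf.clm_apply continuous_const
    have hcs : HasCompactSupport fun w => fderiv ℝ ψ w v :=
      hdc.comp_left (g := fun L : ℂ →L[ℝ] ℂ => L v) rfl
    have hi : Integrable fun w => fderiv ℝ ψ w v := hci.integrable_of_hasCompactSupport hcs
    refine ⟨hi, ?_⟩
    have hψi : Integrable ψ := hψ.continuous.integrable_of_hasCompactSupport hc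
    have h2 := integral_mul_fderiv_eq_neg_fderiv_mul_of_integrable (𝕜 := ℂ) (μ := (volume : Measure ℂ))
      (f := fun _ : ℂ => (1 : ℂ)) (g := ψ) (v := v) (by simp) (by simpa using hi) (by simpa using hψi)
      (fun x _ => differentiableAt_const _) (fun x _ => hψ.differentiable (by norm_num) x)
    simpa using h2
  unfold dbar
  have e : (fun w => (fderiv ℝ ψ w 1 + Complex.I * fderiv ℝ ψ w Complex.I) / 2) =
      fun w => (1 / 2 : ℂ) * (fderiv ℝ ψ w 1 + Complex.I * fderiv ℝ ψ w Complex.I) := by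
    funext w
    ring
  rw [e, integral_const_mul, integral_add (h1 1).1 ((h1 Complex.I).1.const_mul _), (h1 1).2,
    integral_const_mul, (h1 Complex.I).2]
  simp

/-- `∫ g dbar φ = 0` for holomorphic `g` on an open set containing the support of `φ`. -/
theorem integral_hol_dbar {φ g : ℂ → ℂ} {U : Set ℂ} (hU : IsOpen U) (hφ : ContDiff ℝ 1 φ)
    (hc : HasCompactSupport φ) (hs : tsupport φ ⊆ U) (hg : DifferentiableOn ℂ g U) :
    ∫ w, g w * dbar φ w = 0 := by
  set ψ : ℂ → ℂ := fun w => g w * φ w with hψ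
  have hψc : HasCompactSupport ψ := hc.mul_left
  have hψz : ∀ w, w ∉ tsupport φ → ψ =ᶠ[nhds w] fun _ => 0 := by
    intro w hw
    have h1 : (tsupport φ)ᶜ ∈ nhds w := (isClosed_tsupport φ).isOpen_compl.mem_nhds hw
    filter_upwards [h1] with y hy
    show g y * φ y = 0
    rw [image_eq_zero_of_notMem_tsupport hy, mul_zero]
  have hφz : ∀ w, w ∉ tsupport φ → fderiv ℝ φ w = 0 := by
    intro w hw
    by_contra h2
    exact hw (support_fderiv_subset ℝ h2)
  have hψ1 : ContDiff ℝ 1 ψ := by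
    rw [contDiff_iff_contDiffAt]
    intro w
    by_cases hw : w ∈ tsupport φ
    · have h1 : ContDiffAt ℂ 1 g w :=
        (hg.contDiffOn hU).contDiffAt (hU.mem_nhds (hs hw))
      exact (h1.restrict_scalars ℝ).mul hφ.contDiffAt
    · exact (contDiffAt_const (c := (0 : ℂ))).congr_of_eventuallyEq (hψz w hw)
  have e : (fun w => g w * dbar φ w) = dbar ψ := by
    funext w
    by_cases hw : w ∈ tsupport φ
    · have h1 : DifferentiableAt ℂ g w := hg.differentiableAt (hU.mem_nhds (hs hw))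
      have h2 : HasFDerivAt g (fderiv ℂ g w) w := h1.hasFDerivAt
      have h3 : HasFDerivAt g ((fderiv ℂ g w).restrictScalars ℝ) w := h2.restrictScalars ℝ
      have h4 : HasFDerivAt φ (fderiv ℝ φ w) w := (hφ.differentiable (by norm_num) w).hasFDerivAt
      have h5 := (h3.mul h4).fderiv
      have h6 : fderiv ℂ g w Complex.I = Complex.I * fderiv ℂ g w 1 := by
        have := (fderiv ℂ g w).map_smul Complex.I 1
        rw [smul_eq_mul, smul_eq_mul, mul_one] at this
        exact this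
      unfold dbar
      have h7 : fderiv ℝ ψ w = g w • fderiv ℝ φ w + φ w • (fderiv ℂ g w).restrictScalars ℝ := h5
      rw [h7]
      simp only [_root_.add_apply, _root_.smul_apply,
        ContinuousLinearMap.coe_restrictScalars', smul_eq_mul]
      rw [h6]
      have h8 := Complex.I_mul_I
      linear_combination (-(φ w * fderiv ℂ g w 1) / 2) * h8
    · unfold dbar
      rw [hφz w hw, (hψz w hw).fderiv_eq]
      simp
  rw [e]
  exact ee_int_dbar hψ1 hψc
/- END ee -/

/- MODULE ef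
Structure of the kernel near its pole: `kap z x = 1 / (π x) + k₀ x` for `0 < |(x/z).re| + ..` in the
open set `{x | |(x / z).re| < 1}`, `x ≠ 0`, with `k₀` holomorphic there (removable singularity of
`π cot(π ω) - 1/ω` at `0`; `sin (π ω) ≠ 0` for `|ω.re| < 1`, `ω ≠ 0`). -/
theorem exists_k0 {z : ℂ} (hz : z ≠ 0) : ∃ k₀ : ℂ → ℂ,
    DifferentiableOn ℂ k₀ {x | |(x / z).re| < 1} ∧
    ∀ x, |(x / z).re| < 1 → x ≠ 0 → kap z x = 1 / (Real.pi * x) + k₀ x := by
  have hpi : (Real.pi : ℂ) ≠ 0 := Complex.ofReal_ne_zero.2 Real.pi_ne_zero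
  set U : Set ℂ := {w | |w.re| < 1} with hUd
  have hU : IsOpen U := isOpen_lt Complex.continuous_re.abs continuous_const
  have h0U : (0 : ℂ) ∈ U := by
    show |(0 : ℂ).re| < 1
    simp
  have hUn : U ∈ nhds (0 : ℂ) := hU.mem_nhds h0U
  have hf : Differentiable ℂ fun w : ℂ => Complex.sin (Real.pi * w) :=
    Complex.differentiable_sin.comp (differentiable_id.const_mul _)
  set S : ℂ → ℂ := dslope (fun w : ℂ => Complex.sin (Real.pi * w)) 0 with hS
  have hSd : DifferentiableOn ℂ S U := (Complex.differentiableOn_dslope hUn).2 hf.differentiableOn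
  have hSne : ∀ w, w ≠ 0 → S w = Complex.sin (Real.pi * w) / w := by
    intro w hw
    rw [hS, dslope_of_ne _ hw, slope_def_field]
    simp
  have hS0 : S 0 = Real.pi := by
    have h1 : HasDerivAt (fun w : ℂ => Complex.sin (Real.pi * w)) (Real.pi : ℂ) 0 := by
      have h2 := ((hasDerivAt_id (0 : ℂ)).const_mul (Real.pi : ℂ)).csin
      simpa using h2
    rw [hS, dslope_same, h1.deriv]
  have hSU : ∀ w ∈ U, S w ≠ 0 := by
    intro w hw
    by_cases h : w = 0
    · rw [h, hS0]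
      exact hpi
    · rw [hSne w h]
      refine div_ne_zero (fun h1 => ?_) h
      obtain ⟨k, hk⟩ := Complex.sin_eq_zero_iff.1 h1
      have h2 : w = k := by
        apply mul_left_cancel₀ hpi
        rw [hk]
        ring
      have h3 : |w.re| < 1 := hw
      rw [h2, Complex.intCast_re] at h3
      have h4 : |k| < 1 := by exact_mod_cast h3
      have h5 : k = 0 := Int.abs_lt_one_iff.1 h4
      apply h
      rw [h2, h5]
      simp
  set N : ℂ → ℂ := fun w => Real.pi * Complex.cos (Real.pi * w) - S w with hN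
  have hNd : DifferentiableOn ℂ N U :=
    ((Complex.differentiable_cos.comp (differentiable_id.const_mul _)).differentiableOn.const_mul _).sub hSd
  have hN0 : N 0 = 0 := by
    show Real.pi * Complex.cos (Real.pi * 0) - S 0 = 0
    rw [hS0]
    simp
  set N₁ : ℂ → ℂ := dslope N 0 with hN1
  have hN1d : DifferentiableOn ℂ N₁ U := (Complex.differentiableOn_dslope hUn).2 hNd
  have hNN : ∀ w, w ≠ 0 → N w = w * N₁ w := by
    intro w hw
    rw [hN1, dslope_of_ne _ hw, slope_def_field, hN0, sub_zero, sub_zero, mul_div_cancel₀ _ hw]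
  refine ⟨fun x => z⁻¹ * (N₁ (x / z) / (Real.pi * S (x / z))), ?_, ?_⟩
  · have hmap : MapsTo (fun x : ℂ => x / z) {x | |(x / z).re| < 1} U := fun x hx => hx
    have hd : DifferentiableOn ℂ (fun x : ℂ => x / z) {x | |(x / z).re| < 1} :=
      (differentiable_id.div_const z).differentiableOn
    have h1 := hN1d.comp hd hmap
    have h2 := hSd.comp hd hmap
    exact (h1.div (h2.const_mul _) fun x hx => mul_ne_zero hpi (hSU _ hx)).const_mul _
  · intro x hx hx0
    have hw : x / z ≠ 0 := div_ne_zero hx0 hz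
    have h1 := hSU (x / z) hx
    have h2 := hNN (x / z) hw
    have h3 : Real.pi * Complex.cos (Real.pi * (x / z)) = S (x / z) + x / z * N₁ (x / z) := by
      rw [← h2]
      show _ = S (x / z) + (Real.pi * Complex.cos (Real.pi * (x / z)) - S (x / z))
      ring
    have h4 : Complex.sin (Real.pi * (x / z)) = x / z * S (x / z) := by
      rw [hSne _ hw, mul_div_cancel₀ _ hw]
    unfold kap
    rw [mul_div_assoc, h4]
    have h5 : Complex.cos (Real.pi * (x / z)) = (S (x / z) + x / z * N₁ (x / z)) / Real.pi := by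
      rw [← h3, mul_div_cancel_left₀ _ hpi]
    rw [h5]
    field_simp
/- END ef -/

/- MODULE eg
The weak equation for test functions with small support: let the support of `φ` be in the ball of
radius `‖z‖ / 4` around `w₀`.  By `cau_eq` and `strip_shift` (shift by `w₀`)
`cau z μ w = ∫ x in strip z, kap z (w - w₀ - x) μ (w₀ + x)`, with `|((w - w₀ - x)/z).re| < 1`, so
`kap = 1/(π (w - w₀ - x)) + k₀ (w - w₀ - x)`; multiply by `dbar φ w`, Fubini (the integrand is
integrable: `μ` vanishes at large height, `1/‖·‖` is locally integrable), `pompeiu` for the first part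
(value `-φ (w₀ + x)`) and `integral_hol_dbar` for the second (value `0`):
`∫ cau dbar φ = - ∫ x in strip z, φ (w₀ + x) μ (w₀ + x) = - ∫ φ μ` because the support of
`φ (w₀ + ·)` is in the strip. -/
private theorem eg_dbar_zero {φ : ℂ → ℂ} {w : ℂ} (hw : w ∉ tsupport φ) : dbar φ w = 0 := by
  have h1 : fderiv ℝ φ w = 0 := by
    by_contra h2
    exact hw (support_fderiv_subset ℝ h2)
  unfold dbar
  rw [h1]
  simp

private theorem eg_dbar_cont {φ : ℂ → ℂ} (hφ : ContDiff ℝ 1 φ) : Continuous (dbar φ) := by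
  have hdf : Continuous (fderiv ℝ φ) := hφ.continuous_fderiv (by norm_num)
  exact ((hdf.clm_apply continuous_const).add
    (continuous_const.mul (hdf.clm_apply continuous_const))).div_const _

private theorem eg_dbar_comp {φ : ℂ → ℂ} (_hφ : ContDiff ℝ 1 φ) (hc : HasCompactSupport φ) :
    HasCompactSupport (dbar φ) := by
  refine HasCompactSupport.intro hc.isCompact fun w hw => eg_dbar_zero hw

private theorem eg_small {z : ℂ} (hz : z ≠ 0) {x : ℂ} (hx : x ∈ Metric.closedBall (0 : ℂ) (‖z‖ / 4)) :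
    |(x / z).re| ≤ 1 / 4 := by
  have hn : 0 < ‖z‖ := norm_pos_iff.2 hz
  rw [mem_closedBall_zero_iff] at hx
  refine (Complex.abs_re_le_norm _).trans ?_
  rw [norm_div, div_le_iff₀ hn]
  linarith

private theorem eg_ker {z : ℂ} (hz : z ≠ 0) {φ : ℂ → ℂ} (hφ : ContDiff ℝ 1 φ)
    (hs : tsupport φ ⊆ Metric.closedBall 0 (‖z‖ / 4)) {x : ℂ} (hx : x ∈ strip z) :
    ∫ y, kap z (y - x) * dbar φ y = -φ x := by
  have hpi : (Real.pi : ℂ) ≠ 0 := Complex.ofReal_ne_zero.2 Real.pi_ne_zero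
  have hc : HasCompactSupport φ := (isCompact_closedBall (0 : ℂ) (‖z‖ / 4)).of_isClosed_subset
    (isClosed_tsupport φ) hs
  obtain ⟨k₀, hk1, hk2⟩ := exists_k0 hz
  set U : Set ℂ := {y | |((y - x) / z).re| < 1} with hUd
  have hU : IsOpen U := isOpen_lt (Complex.continuous_re.comp
    ((continuous_id.sub continuous_const).div_const z)).abs continuous_const
  have hKU : Metric.closedBall (0 : ℂ) (‖z‖ / 4) ⊆ U := by
    intro y hy
    have h1 := eg_small hz hy
    have h2 : |(x / z).re| ≤ 1 / 2 := hx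
    show |((y - x) / z).re| < 1
    rw [sub_div, Complex.sub_re]
    refine (abs_sub _ _).trans_lt ?_
    linarith
  have hsU : tsupport φ ⊆ U := hs.trans hKU
  have hg : DifferentiableOn ℂ (fun y => k₀ (y - x)) U :=
    hk1.comp (differentiable_id.sub_const x).differentiableOn fun y hy => hy
  have h1 := integral_hol_dbar hU hφ hc hsU hg
  have h2 := pompeiu hφ hc x
  have hgi : Integrable fun y => k₀ (y - x) * dbar φ y := by
    have h3 : ContinuousOn (fun y => k₀ (y - x) * dbar φ y) (tsupport φ) :=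
      (hg.continuousOn.mono hsU).mul (eg_dbar_cont hφ).continuousOn
    have h4 := h3.integrableOn_compact (μ := volume) hc.isCompact
    refine (integrableOn_iff_integrable_of_support_subset fun y hy => ?_).1 h4
    by_contra h5
    exact hy (by show k₀ (y - x) * dbar φ y = 0; rw [eg_dbar_zero h5, mul_zero])
  have hki : Integrable fun y => kap z (y - x) * dbar φ y := by
    obtain ⟨M, hM⟩ := (eg_dbar_comp hφ hc).exists_bound_of_continuous (eg_dbar_cont hφ)
    have hM0 : 0 ≤ M := (norm_nonneg _).trans (hM 0)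
    have h3 : IntegrableOn (fun y => kap z (y - x) * dbar φ y) (Metric.closedBall (0 : ℂ) (‖z‖ / 4)) := by
      have h4 : IntegrableOn (fun y => ‖z‖⁻¹ * (1 + ‖Complex.sin (Real.pi * (x - y) / z)‖ ^ (-(1 : ℝ))) * M)
          (Metric.closedBall (0 : ℂ) (‖z‖ / 4)) := by
        have h5 : IntegrableOn (fun _ : ℂ => (1 : ℝ)) (Metric.closedBall (0 : ℂ) (‖z‖ / 4)) :=
          integrableOn_const measure_closedBall_lt_top.ne
        have h6 : Metric.closedBall (0 : ℂ) (‖z‖ / 4) ⊆ strip z := fun y hy => by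
          have := eg_small hz hy
          show |(y / z).re| ≤ 1 / 2
          linarith
        have h7 := (ed_sin one_pos (by norm_num) hz x).1.mono_set h6
        exact ((h5.add h7).const_mul _).mul_const _
      refine Integrable.mono' h4 ?_ (Filter.Eventually.of_forall fun y => ?_)
      · exact (((ed_kapm z).comp (measurable_id.sub_const x)).mul
          (eg_dbar_cont hφ).measurable).aestronglyMeasurable
      · rw [norm_mul]
        have h8 := ed_kap (z := z) (y - x)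
        have e : ‖Complex.sin (Real.pi * (y - x) / z)‖ = ‖Complex.sin (Real.pi * (x - y) / z)‖ := by
          have e' : (Real.pi : ℂ) * (y - x) / z = -(Real.pi * (x - y) / z) := by ring
          rw [e', Complex.sin_neg, norm_neg]
        rw [e] at h8
        exact mul_le_mul h8 (hM y) (norm_nonneg _) (by positivity)
    refine (integrableOn_iff_integrable_of_support_subset fun y hy => ?_).1 h3
    by_contra h5
    exact hy (by
      show kap z (y - x) * dbar φ y = 0
      rw [eg_dbar_zero fun h6 => h5 (hs h6), mul_zero])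
  have hae : ∀ᵐ y : ℂ, kap z (y - x) * dbar φ y - k₀ (y - x) * dbar φ y =
      (Real.pi : ℂ)⁻¹ * (dbar φ y / (y - x)) := by
    have h3 : ∀ᵐ y : ℂ, y ≠ x := by
      rw [ae_iff]
      simp
    filter_upwards [h3] with y hy
    by_cases h4 : y ∈ tsupport φ
    · rw [hk2 (y - x) (hsU h4) (sub_ne_zero.2 hy)]
      have h5 : y - x ≠ 0 := sub_ne_zero.2 hy
      field_simp
      ring
    · rw [eg_dbar_zero h4]
      simp
  have h3 : ∫ y, (kap z (y - x) * dbar φ y - k₀ (y - x) * dbar φ y) =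
      (Real.pi : ℂ)⁻¹ * ∫ y, dbar φ y / (y - x) := by
    rw [integral_congr_ae hae, integral_const_mul]
  rw [integral_sub hki hgi, h1, sub_zero, h2] at h3
  rw [h3]
  field_simp

theorem weak_small {z : ℂ} (hz : z ≠ 0) {μ : ℂ → ℂ} (hμ : Bel z μ) {φ : ℂ → ℂ}
    (hφ : ContDiff ℝ 1 φ) (w₀ : ℂ) (hs : tsupport φ ⊆ Metric.closedBall w₀ (‖z‖ / 4)) :
    ∫ w, cau z μ w * dbar φ w = -∫ w, μ w * φ w := by
  obtain ⟨B, hB⟩ := ed_int hz hμ
  set ψ : ℂ → ℂ := fun y => φ (w₀ + y) with hψ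
  have hψ1 : ContDiff ℝ 1 ψ := hφ.comp (contDiff_const.add contDiff_id)
  have hψs : tsupport ψ ⊆ Metric.closedBall 0 (‖z‖ / 4) := by
    refine closure_minimal (fun y hy => ?_) Metric.isClosed_closedBall
    have h1 : w₀ + y ∈ tsupport φ := subset_tsupport φ hy
    have h2 := hs h1
    rw [mem_closedBall_iff_norm, add_sub_cancel_left] at h2
    exact mem_closedBall_zero_iff.2 h2
  have hψc : HasCompactSupport ψ := (isCompact_closedBall (0 : ℂ) (‖z‖ / 4)).of_isClosed_subset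
    (isClosed_tsupport ψ) hψs
  have hdψ : ∀ y, dbar ψ y = dbar φ (w₀ + y) := by
    intro y
    unfold dbar
    rw [hψ, fderiv_comp_add_left]
  have hsh : ∀ y, IntegrableOn (fun x => kap z (y - x) * μ (w₀ + x)) (strip z) ∧
      ∫ x in strip z, kap z (y - x) * μ (w₀ + x) = cau z μ (w₀ + y) ∧
      ∫ x in strip z, ‖kap z (y - x) * μ (w₀ + x)‖ ≤ B := by
    intro y
    have hp : ∀ x, (fun x => kap z (w₀ + y - x) * μ x) (x + z) = (fun x => kap z (w₀ + y - x) * μ x) x := by
      intro x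
      show kap z (w₀ + y - (x + z)) * μ (x + z) = kap z (w₀ + y - x) * μ x
      have e : w₀ + y - x = w₀ + y - (x + z) + z := by ring
      rw [hμ.per, e, (kap_per hz _).1]
    have hp' : ∀ x, (fun x => ‖kap z (w₀ + y - x) * μ x‖) (x + z) =
        (fun x => ‖kap z (w₀ + y - x) * μ x‖) x := fun x => congrArg norm (hp x)
    have h1 := ec_shift (g := fun x => kap z (w₀ + y - x) * μ x) hz hp w₀
    have h2 := ec_shift (g := fun x => ‖kap z (w₀ + y - x) * μ x‖) hz hp' w₀
    have e1 : (fun x => (fun x => kap z (w₀ + y - x) * μ x) (x + w₀)) =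
        fun x => kap z (y - x) * μ (w₀ + x) := by
      funext x
      show kap z (w₀ + y - (x + w₀)) * μ (x + w₀) = _
      congr 2
      · ring
      · ring
    have e2 : (fun x => (fun x => ‖kap z (w₀ + y - x) * μ x‖) (x + w₀)) =
        fun x => ‖kap z (y - x) * μ (w₀ + x)‖ := by
      funext x
      exact congrArg norm (congrFun e1 x)
    rw [e1] at h1
    rw [e2] at h2
    refine ⟨h1.1.2 (hB _).1, ?_, ?_⟩
    · rw [h1.2, cau_eq hz hμ]
    · rw [h2.2]
      exact (hB _).2.2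
  have e0 : ∫ w, cau z μ w * dbar φ w = ∫ y, ∫ x in strip z, kap z (y - x) * μ (w₀ + x) * dbar ψ y := by
    rw [← integral_add_left_eq_self (fun w => cau z μ w * dbar φ w) w₀]
    refine integral_congr_ae (Filter.Eventually.of_forall fun y => ?_)
    show cau z μ (w₀ + y) * dbar φ (w₀ + y) =
      ∫ x in strip z, kap z (y - x) * μ (w₀ + x) * dbar ψ y
    rw [integral_mul_const, (hsh y).2.1, hdψ]
  have hmeas : Measurable fun p : ℂ × ℂ => kap z (p.1 - p.2) * μ (w₀ + p.2) * dbar ψ p.1 :=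
    (((ed_kapm z).comp (measurable_fst.sub measurable_snd)).mul
      (hμ.mea.comp (measurable_const.add measurable_snd))).mul
      ((eg_dbar_cont hψ1).measurable.comp measurable_fst)
  have hint : Integrable (fun p : ℂ × ℂ => kap z (p.1 - p.2) * μ (w₀ + p.2) * dbar ψ p.1)
      (volume.prod (volume.restrict (strip z))) := by
    rw [integrable_prod_iff hmeas.aestronglyMeasurable]
    constructor
    · exact Filter.Eventually.of_forall fun y => (hsh y).1.mul_const (dbar ψ y)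
    · have h1 : Integrable fun y => B * ‖dbar ψ y‖ :=
        (((eg_dbar_cont hψ1).integrable_of_hasCompactSupport (eg_dbar_comp hψ1 hψc)).norm).const_mul B
      refine h1.mono' (hmeas.norm.aestronglyMeasurable.integral_prod_right') ?_
      refine Filter.Eventually.of_forall fun y => ?_
      show ‖∫ x in strip z, ‖kap z (y - x) * μ (w₀ + x) * dbar ψ y‖‖ ≤ B * ‖dbar ψ y‖
      rw [Real.norm_eq_abs, abs_of_nonneg (integral_nonneg fun _ => norm_nonneg _)]
      have e : (fun x => ‖kap z (y - x) * μ (w₀ + x) * dbar ψ y‖) =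
          fun x => ‖kap z (y - x) * μ (w₀ + x)‖ * ‖dbar ψ y‖ := by
        funext x
        rw [norm_mul]
      rw [e, integral_mul_const]
      exact mul_le_mul_of_nonneg_right (hsh y).2.2 (norm_nonneg _)
  rw [e0, integral_integral_swap hint]
  have h3 : ∀ x ∈ strip z, ∫ y, kap z (y - x) * μ (w₀ + x) * dbar ψ y = -(μ (w₀ + x) * ψ x) := by
    intro x hx
    have e : (fun y => kap z (y - x) * μ (w₀ + x) * dbar ψ y) =
        fun y => μ (w₀ + x) * (kap z (y - x) * dbar ψ y) := by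
      funext y
      ring
    rw [e, integral_const_mul, eg_ker hz hψ1 hψs hx, mul_neg]
  rw [setIntegral_congr_fun (ea_stripm z) h3, integral_neg]
  congr 1
  rw [setIntegral_eq_integral_of_forall_compl_eq_zero]
  · exact integral_add_left_eq_self (fun w => μ w * φ w) w₀
  · intro x hx
    have h4 : x ∉ tsupport ψ := fun h5 => hx (by
      have := eg_small hz (hψs h5)
      show |(x / z).re| ≤ 1 / 2
      linarith)
    rw [image_eq_zero_of_notMem_tsupport h4, mul_zero]
/- END eg -/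

/- MODULE eh
The weak equation for all test functions: partition of unity (`SmoothPartitionOfUnity`, or the
mollifier: `φ = Σ` of finitely many pieces `φ · χ_j` with `χ_j` smooth of support in balls of radius
`‖z‖ / 4`; alternatively `φ w = ∫ a, φ w rhoe ε (w - a) da` with `ε ≤ ‖z‖/4`, apply `weak_small` to
`w ↦ φ w * rhoe ε (w - a)` for each `a` and Fubini in `a`). -/
private theorem eh_pieces {z : ℂ} (hz : z ≠ 0) {μ : ℂ → ℂ} (hμ : Bel z μ) (hc : Continuous (cau z μ))
    (s : Finset ℂ) : ∀ φ : ℂ → ℂ, ContDiff ℝ 1 φ → HasCompactSupport φ →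
    tsupport φ ⊆ ⋃ a ∈ s, Metric.ball a (‖z‖ / 8) → ∫ w, cau z μ w * dbar φ w = -∫ w, μ w * φ w := by
  have hn : 0 < ‖z‖ := norm_pos_iff.2 hz
  induction s using Finset.induction_on with
  | empty =>
    intro φ hφ hφc hs
    have h1 : tsupport φ = ∅ := by
      simpa using hs
    have h2 : φ = 0 := tsupport_eq_empty_iff.1 h1
    rw [h2]
    have h3 : ∀ w, dbar (0 : ℂ → ℂ) w = 0 := fun w => eg_dbar_zero (by
      rw [← h2, h1]
      exact notMem_empty w)
    simp [h3]
  | insert a s _ ih =>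
    intro φ hφ hφc hs
    let χ : ContDiffBump a := ⟨‖z‖ / 8, ‖z‖ / 4, by positivity, by linarith⟩
    have hχ : ContDiff ℝ 1 fun w : ℂ => ((χ w : ℝ) : ℂ) :=
      Complex.ofRealCLM.contDiff.comp (χ.contDiff (n := 1))
    set φ1 : ℂ → ℂ := fun w => ((χ w : ℝ) : ℂ) * φ w with hφ1
    set φ2 : ℂ → ℂ := fun w => (1 - ((χ w : ℝ) : ℂ)) * φ w with hφ2
    have h11 : ContDiff ℝ 1 φ1 := hχ.mul hφ
    have h21 : ContDiff ℝ 1 φ2 := (contDiff_const.sub hχ).mul hφ
    have h1c : HasCompactSupport φ1 := hφc.mul_left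
    have h2c : HasCompactSupport φ2 := hφc.mul_left
    have h1s : tsupport φ1 ⊆ Metric.closedBall a (‖z‖ / 4) := by
      refine closure_minimal (fun w hw => ?_) Metric.isClosed_closedBall
      by_contra h
      apply hw
      show ((χ w : ℝ) : ℂ) * φ w = 0
      have h3 : χ w = 0 := by
        apply χ.zero_of_le_dist
        show ‖z‖ / 4 ≤ dist w a
        rw [Metric.mem_closedBall, not_le] at h
        exact h.le
      rw [h3]
      simp
    have h2s : tsupport φ2 ⊆ ⋃ a ∈ s, Metric.ball a (‖z‖ / 8) := by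
      have h3 : tsupport φ2 ⊆ tsupport φ := by
        refine closure_mono fun w hw h4 => hw ?_
        show (1 - ((χ w : ℝ) : ℂ)) * φ w = 0
        rw [h4, mul_zero]
      have h4 : tsupport φ2 ⊆ (Metric.ball a (‖z‖ / 8))ᶜ := by
        refine closure_minimal (fun w hw h5 => hw ?_) Metric.isOpen_ball.isClosed_compl
        show (1 - ((χ w : ℝ) : ℂ)) * φ w = 0
        have h6 : χ w = 1 := χ.one_of_mem_closedBall (Metric.ball_subset_closedBall h5)
        rw [h6]
        simp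
      intro w hw
      have h5 := hs (h3 hw)
      rw [mem_iUnion₂] at h5 ⊢
      obtain ⟨b, hb, hwb⟩ := h5
      rcases Finset.mem_insert.1 hb with rfl | hb
      · exact absurd hwb (h4 hw)
      · exact ⟨b, hb, hwb⟩
    have e1 : ∀ w, φ w = φ1 w + φ2 w := by
      intro w
      show φ w = ((χ w : ℝ) : ℂ) * φ w + (1 - ((χ w : ℝ) : ℂ)) * φ w
      ring
    have e2 : ∀ w, dbar φ w = dbar φ1 w + dbar φ2 w := by
      intro w
      have h3 : φ = φ1 + φ2 := funext e1
      unfold dbar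
      rw [h3, fderiv_add (h11.differentiable (by norm_num) w) (h21.differentiable (by norm_num) w)]
      simp only [_root_.add_apply]
      ring
    have hi : ∀ ψ : ℂ → ℂ, ContDiff ℝ 1 ψ → HasCompactSupport ψ →
        Integrable (fun w => cau z μ w * dbar ψ w) ∧ Integrable fun w => μ w * ψ w := by
      intro ψ hψ hψc
      constructor
      · exact (hc.mul (eg_dbar_cont hψ)).integrable_of_hasCompactSupport
          (eg_dbar_comp hψ hψc).mul_left
      · refine (hψ.continuous.integrable_of_hasCompactSupport hψc).bdd_mul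
          (c := 1) hμ.mea.aestronglyMeasurable (Filter.Eventually.of_forall fun w => hμ.bnd w)
    have e3 : (fun w => cau z μ w * dbar φ w) =
        fun w => cau z μ w * dbar φ1 w + cau z μ w * dbar φ2 w := by
      funext w
      rw [e2, mul_add]
    have e4 : (fun w => μ w * φ w) = fun w => μ w * φ1 w + μ w * φ2 w := by
      funext w
      rw [← mul_add, ← e1]
    rw [e3, e4, integral_add (hi φ1 h11 h1c).1 (hi φ2 h21 h2c).1,
      integral_add (hi φ1 h11 h1c).2 (hi φ2 h21 h2c).2, weak_small hz hμ h11 a h1s, ih φ2 h21 h2c h2s,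
      neg_add]

theorem weak {z : ℂ} (hz : z ≠ 0) {μ : ℂ → ℂ} (hμ : Bel z μ) (hc : Continuous (cau z μ))
    {φ : ℂ → ℂ} (hφ : ContDiff ℝ 1 φ) (hs : HasCompactSupport φ) :
    ∫ w, cau z μ w * dbar φ w = -∫ w, μ w * φ w := by
  have hn : 0 < ‖z‖ := norm_pos_iff.2 hz
  obtain ⟨t, _, ht⟩ := hs.isCompact.elim_nhds_subcover (fun a => Metric.ball a (‖z‖ / 8))
    fun a _ => Metric.ball_mem_nhds a (by positivity)
  exact eh_pieces hz hμ hc t φ hφ hs ht

/-- `dbar` of the mollified transform: `fderiv_mol` and `weak` with the test function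
`y ↦ rhoe ε (w - y)` (`dbar` of it is minus `dbar (rhoe ε)` at `w - y`). -/
theorem dbar_mol_cau {z : ℂ} (hz : z ≠ 0) {μ : ℂ → ℂ} (hμ : Bel z μ) (hc : Continuous (cau z μ))
    {ε : ℝ} (hε : 0 < ε) (w : ℂ) : dbar (mol ε (cau z μ)) w = mol ε μ w := by
  obtain ⟨h1, h2, h3, h4, h5, h6, h7⟩ := rhoe_props hε
  set χ : ℂ → ℂ := fun y => ((rhoe ε (w - y) : ℝ) : ℂ) with hχ
  have hχ1 : ContDiff ℝ 1 χ :=
    (Complex.ofRealCLM.contDiff.comp (h5.comp (contDiff_const.sub contDiff_id))).of_le (by norm_num)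
  have hχc : HasCompactSupport χ := by
    refine HasCompactSupport.intro (isCompact_closedBall w ε) fun y hy => ?_
    rw [mem_closedBall_iff_norm, not_le, norm_sub_rev] at hy
    show ((rhoe ε (w - y) : ℝ) : ℂ) = 0
    rw [h4 _ hy, Complex.ofReal_zero]
  have hw := weak hz hμ hc hχ1 hχc
  have hdχ : ∀ y, dbar χ y = -((((fderiv ℝ (rhoe ε) (w - y) 1 : ℝ) : ℂ) +
      Complex.I * ((fderiv ℝ (rhoe ε) (w - y) Complex.I : ℝ) : ℂ)) / 2) := by
    intro y
    have h8 : HasFDerivAt (rhoe ε) (fderiv ℝ (rhoe ε) (w - y)) (w - y) :=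
      (h5.differentiable (by norm_num) _).hasFDerivAt
    have h9 : HasFDerivAt (fun y : ℂ => w - y) (-(ContinuousLinearMap.id ℝ ℂ)) y :=
      (hasFDerivAt_id y).const_sub w
    have h10 := (Complex.ofRealCLM.hasFDerivAt.comp y (h8.comp y h9)).fderiv
    have h11 : ∀ h : ℂ, fderiv ℝ χ y h = -((fderiv ℝ (rhoe ε) (w - y) h : ℝ) : ℂ) := by
      intro h
      have h12 : fderiv ℝ χ y = Complex.ofRealCLM.comp
          ((fderiv ℝ (rhoe ε) (w - y)).comp (-(ContinuousLinearMap.id ℝ ℂ))) := h10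
      rw [h12]
      simp
    unfold dbar
    rw [h11, h11]
    ring
  have hli : LocallyIntegrable (cau z μ) volume := hc.locallyIntegrable
  have hdc : ∀ h : ℂ, Continuous fun x => fderiv ℝ (rhoe ε) x h := fun h =>
    (h5.continuous_fderiv (by norm_num)).clm_apply continuous_const
  have hds : ∀ h : ℂ, HasCompactSupport fun x => fderiv ℝ (rhoe ε) x h := by
    intro h
    have h8 : HasCompactSupport (rhoe ε) := HasCompactSupport.intro (isCompact_closedBall (0 : ℂ) ε)
      fun y hy => h4 y (by rwa [mem_closedBall_zero_iff, not_le] at hy)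
    exact (h8.fderiv ℝ).comp_left (g := fun L : ℂ →L[ℝ] ℝ => L h) rfl
  have hint : ∀ h : ℂ, Integrable fun x => fderiv ℝ (rhoe ε) x h • cau z μ (w - x) := fun h =>
    ((hdc h).smul (hc.comp (continuous_const.sub continuous_id))).integrable_of_hasCompactSupport
      ((hds h).smul_right)
  have e1 : dbar (mol ε (cau z μ)) w = -∫ y, cau z μ y * dbar χ y := by
    unfold dbar
    rw [fderiv_mol hε hli, fderiv_mol hε hli, ← integral_const_mul, ← integral_add (hint 1)
      ((hint Complex.I).const_mul _), ← integral_div, ← integral_neg,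
      ← integral_sub_left_eq_self (fun x => -(cau z μ x * ((fderiv ℝ χ x 1 +
        Complex.I * fderiv ℝ χ x Complex.I) / 2))) volume w]
    refine integral_congr_ae (Filter.Eventually.of_forall fun x => ?_)
    have h8 := hdχ (w - x)
    rw [sub_sub_cancel] at h8
    unfold dbar at h8
    show (fderiv ℝ (rhoe ε) x 1 • cau z μ (w - x) + Complex.I * (fderiv ℝ (rhoe ε) x Complex.I •
      cau z μ (w - x))) / 2 = -(cau z μ (w - x) * ((fderiv ℝ χ (w - x) 1 +
        Complex.I * fderiv ℝ χ (w - x) Complex.I) / 2))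
    rw [h8, Complex.real_smul, Complex.real_smul]
    ring
  rw [e1, hw, neg_neg]
  unfold mol
  rw [← integral_sub_left_eq_self (fun x => μ x * χ x) volume w]
  refine integral_congr_ae (Filter.Eventually.of_forall fun x => ?_)
  show μ (w - x) * ((rhoe ε (w - (w - x)) : ℝ) : ℂ) = rhoe ε x • μ (w - x)
  rw [sub_sub_cancel, Complex.real_smul, mul_comm]
/- END eh -/

/- MODULE ei
Weyl's lemma.  On a ball `B` whose closed double is in `U`: multiply `k` by the indicator of a compact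
neighbourhood, mollify at small scale: `dbar` of the mollification vanishes on `B` (test function
`y ↦ rhoe ε (w - y)`), so it is holomorphic there (`C^1` with `dbar = 0`: real-differentiable with
complex-linear derivative), and it converges uniformly to `k` on `B`
(`TendstoLocallyUniformlyOn.differentiableOn`). -/
private theorem ei_holo {g : ℂ → ℂ} {w : ℂ} (hg : DifferentiableAt ℝ g w) (h : dbar g w = 0) :
    DifferentiableAt ℂ g w := by
  rw [differentiableAt_complex_iff_differentiableAt_real]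
  refine ⟨hg, ?_⟩
  have h1 : fderiv ℝ g w 1 + Complex.I * fderiv ℝ g w Complex.I = 0 := by
    unfold dbar at h
    have := (div_eq_zero_iff.1 h).resolve_right two_ne_zero
    exact this
  rw [smul_eq_mul]
  linear_combination (-Complex.I) * h1 + fderiv ℝ g w Complex.I * Complex.I_sq

private theorem ei_int {g : ℂ → ℝ} (hg : Continuous g) {C : ℝ} (hC : ∀ x, ‖g x‖ ≤ C) {f : ℂ → ℂ}
    (hf : Integrable f) (w : ℂ) : Integrable (fun x => g x • f (w - x)) := by
  have h1 : Integrable (fun x => f (w - x)) := hf.comp_sub_left w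
  exact h1.bdd_smul C hg.aestronglyMeasurable (Filter.Eventually.of_forall hC)

private theorem ei_dbar {ε : ℝ} (hε : 0 < ε) {k f : ℂ → ℂ} (hf : Integrable f) (w : ℂ)
    (hfk : ∀ y, ‖w - y‖ ≤ ε → f y = k y)
    (h : ∀ φ : ℂ → ℂ, ContDiff ℝ 1 φ → HasCompactSupport φ → tsupport φ ⊆ Metric.closedBall w ε →
      ∫ y, k y * dbar φ y = 0) : dbar (mol ε f) w = 0 := by
  obtain ⟨-, hρc, -, hρ0, hρd, -, -⟩ := rhoe_props hε
  obtain ⟨C, hC, hCb⟩ := exists_rho_bound
  have hρd1 : ContDiff ℝ 1 (rhoe ε) := hρd.of_le (by norm_num)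
  have hcd : Continuous (fderiv ℝ (rhoe ε)) := hρd1.continuous_fderiv one_ne_zero
  have hdiff : Differentiable ℝ (rhoe ε) := hρd1.differentiable one_ne_zero
  have hDc : ∀ v : ℂ, Continuous (fun x => fderiv ℝ (rhoe ε) x v) := fun v =>
    hcd.clm_apply continuous_const
  have hDb : ∀ v x : ℂ, ‖fderiv ℝ (rhoe ε) x v‖ ≤ C / ε ^ 3 * ‖v‖ := fun v x =>
    (ContinuousLinearMap.le_opNorm _ _).trans
      (mul_le_mul_of_nonneg_right ((hCb ε hε).2.1 x) (norm_nonneg _))
  have hI : ∀ v : ℂ, Integrable (fun x => fderiv ℝ (rhoe ε) x v • f (w - x)) := fun v =>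
    ei_int (hDc v) (hDb v) hf w
  -- the test function
  obtain ⟨φ, hφ⟩ : ∃ φ : ℂ → ℂ, φ = fun y => ((rhoe ε (w - y) : ℝ) : ℂ) := ⟨_, rfl⟩
  have hφd : ContDiff ℝ 1 φ := by
    rw [hφ]
    exact Complex.ofRealCLM.contDiff.comp (hρd1.comp (contDiff_const.sub contDiff_id))
  have hφf : ∀ y v, fderiv ℝ φ y v = -((fderiv ℝ (rhoe ε) (w - y) v : ℝ) : ℂ) := by
    intro y v
    have h1 : HasFDerivAt (fun y : ℂ => w - y) (-ContinuousLinearMap.id ℝ ℂ) y :=
      (hasFDerivAt_id y).const_sub w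
    have h2 : HasFDerivAt φ
        (Complex.ofRealCLM.comp ((fderiv ℝ (rhoe ε) (w - y)).comp (-ContinuousLinearMap.id ℝ ℂ))) y := by
      rw [hφ]
      exact (Complex.ofRealCLM.hasFDerivAt).comp y
        (((hdiff (w - y)).hasFDerivAt).comp y h1)
    rw [h2.fderiv]
    simp
  have hsub : Function.support φ ⊆ Metric.closedBall w ε := by
    intro y hy
    rw [Metric.mem_closedBall, dist_comm, dist_eq_norm]
    by_contra hc
    push Not at hc
    apply hy
    rw [hφ]
    simp only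
    rw [hρ0 _ hc, Complex.ofReal_zero]
  have hts : tsupport φ ⊆ Metric.closedBall w ε :=
    closure_minimal hsub Metric.isClosed_closedBall
  have hcs : HasCompactSupport φ :=
    HasCompactSupport.of_support_subset_isCompact (isCompact_closedBall w ε) hsub
  have h0 := h φ hφd hcs hts
  have hz : ∀ y, k y * dbar φ y = f y * dbar φ y := by
    intro y
    by_cases hy : ‖w - y‖ ≤ ε
    · rw [hfk y hy]
    · have h1 : y ∉ tsupport φ := by
        intro h2
        have h3 := hts h2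
        rw [Metric.mem_closedBall, dist_comm, dist_eq_norm] at h3
        exact hy h3
      have h2 : fderiv ℝ φ y = 0 := fderiv_of_notMem_tsupport ℝ h1
      have h3 : dbar φ y = 0 := by
        unfold dbar
        rw [h2]
        simp
      rw [h3, mul_zero, mul_zero]
  have hz2 : (fun y => k y * dbar φ y) = fun y => (fun x => -(1 / 2 : ℂ) *
      (fderiv ℝ (rhoe ε) x 1 • f (w - x) +
        Complex.I * (fderiv ℝ (rhoe ε) x Complex.I • f (w - x)))) (w - y) := by
    funext y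
    rw [hz y]
    unfold dbar
    rw [hφf, hφf]
    simp only [sub_sub_cancel, Complex.real_smul]
    ring
  rw [hz2, integral_sub_left_eq_self (fun x => -(1 / 2 : ℂ) *
      (fderiv ℝ (rhoe ε) x 1 • f (w - x) +
        Complex.I * (fderiv ℝ (rhoe ε) x Complex.I • f (w - x)))) volume w,
    integral_const_mul, integral_add (hI 1) ((hI Complex.I).const_mul _),
    integral_const_mul] at h0
  unfold dbar
  rw [fderiv_mol hε hf.locallyIntegrable, fderiv_mol hε hf.locallyIntegrable]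
  have h1 := (mul_eq_zero.1 h0).resolve_left (by norm_num)
  rw [h1, zero_div]

theorem weyl {U : Set ℂ} (hU : IsOpen U) {k : ℂ → ℂ} (hk : ContinuousOn k U)
    (h : ∀ φ : ℂ → ℂ, ContDiff ℝ 1 φ → HasCompactSupport φ → tsupport φ ⊆ U →
      ∫ w, k w * dbar φ w = 0) : DifferentiableOn ℂ k U := by
  intro w₀ hw₀
  obtain ⟨r, hr, hrU⟩ := Metric.isOpen_iff.1 hU w₀ hw₀
  obtain ⟨R, hR⟩ : ∃ R : ℝ, R = r / 4 := ⟨_, rfl⟩
  have hR0 : 0 < R := by rw [hR]; positivity
  have hKU : Metric.closedBall w₀ (3 * R) ⊆ U := by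
    refine subset_trans (fun x hx => ?_) hrU
    rw [Metric.mem_closedBall] at hx
    rw [Metric.mem_ball]
    linarith
  have hKc : IsCompact (Metric.closedBall w₀ (3 * R)) := isCompact_closedBall _ _
  obtain ⟨f, hf⟩ : ∃ f : ℂ → ℂ, f = (Metric.closedBall w₀ (3 * R)).indicator k := ⟨_, rfl⟩
  have hfint : Integrable f := by
    rw [hf]
    exact ((hk.mono hKU).integrableOn_compact hKc).integrable_indicator hKc.measurableSet
  have hfk : ∀ y ∈ Metric.closedBall w₀ (3 * R), f y = k y := fun y hy => by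
    rw [hf, Set.indicator_of_mem hy]
  have hmem : ∀ w ∈ Metric.ball w₀ R, ∀ y : ℂ, ‖w - y‖ ≤ R → y ∈ Metric.closedBall w₀ (3 * R) := by
    intro w hw y hy
    rw [Metric.mem_ball] at hw
    rw [Metric.mem_closedBall]
    rw [← dist_eq_norm, dist_comm] at hy
    have := dist_triangle y w w₀
    linarith
  have hhol : ∀ ε : ℝ, 0 < ε → ε < R → DifferentiableOn ℂ (mol ε f) (Metric.ball w₀ R) := by
    intro ε hε hεR w hw
    refine (ei_holo ?_ ?_).differentiableWithinAt
    · exact ((mol_contDiff hε hfint.locallyIntegrable).differentiable (by norm_num)) w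
    · refine ei_dbar hε hfint w (k := k) (fun y hy => hfk y (hmem w hw y (by linarith))) ?_
      intro φ h1 h2 h3
      refine h φ h1 h2 (h3.trans (subset_trans (fun y hy => ?_) hKU))
      rw [Metric.mem_closedBall, dist_comm, dist_eq_norm] at hy
      exact hmem w hw y (by linarith)
  have hunif : TendstoUniformlyOn (fun ε => mol ε f) k (nhdsWithin 0 (Set.Ioi 0))
      (Metric.ball w₀ R) := by
    rw [Metric.tendstoUniformlyOn_iff]
    intro δ hδ
    have huc := hKc.uniformContinuousOn_of_continuous (hk.mono hKU)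
    rw [Metric.uniformContinuousOn_iff] at huc
    obtain ⟨η, hη, hηk⟩ := huc (δ / 2) (by positivity)
    have hmin : 0 < min η R := lt_min hη hR0
    filter_upwards [Ioo_mem_nhdsGT hmin] with ε hε w hw
    obtain ⟨hε0, hε1⟩ := hε
    obtain ⟨-, hρc, hρn, hρ0, -, hρi, hρ1⟩ := rhoe_props hε0
    obtain ⟨C, hC, hCb⟩ := exists_rho_bound
    have hεη : ε < η := lt_of_lt_of_le hε1 (min_le_left _ _)
    have hεR : ε < R := lt_of_lt_of_le hε1 (min_le_right _ _)
    have hi1 : Integrable (fun x => rhoe ε x • f (w - x)) := by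
      refine ei_int hρc (C := C / ε ^ 2) (fun x => ?_) hfint w
      rw [Real.norm_of_nonneg (hρn x)]
      exact (hCb ε hε0).1 x
    have hi2 : Integrable (fun x => rhoe ε x • k w) := hρi.smul_const _
    have e1 : mol ε f w - k w = ∫ x, (rhoe ε x • f (w - x) - rhoe ε x • k w) := by
      rw [integral_sub hi1 hi2, integral_smul_const, hρ1, one_smul]
      rfl
    have e2 : ‖mol ε f w - k w‖ ≤ ∫ x, rhoe ε x * (δ / 2) := by
      rw [e1]
      refine norm_integral_le_of_norm_le (hρi.mul_const _) (Filter.Eventually.of_forall fun x => ?_)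
      rw [← smul_sub, norm_smul, Real.norm_of_nonneg (hρn x)]
      by_cases hx : ‖x‖ ≤ ε
      · refine mul_le_mul_of_nonneg_left ?_ (hρn x)
        have h1 : w - x ∈ Metric.closedBall w₀ (3 * R) := hmem w hw _ (by
          rw [sub_sub_cancel]
          linarith)
        have h2 : w ∈ Metric.closedBall w₀ (3 * R) := hmem w hw _ (by
          rw [sub_self, norm_zero]
          linarith)
        rw [hfk _ h1, ← dist_eq_norm]
        refine (hηk _ h1 _ h2 ?_).le
        rw [dist_eq_norm, sub_sub_cancel_left, norm_neg]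
        linarith
      · push Not at hx
        rw [hρ0 x hx, zero_mul, zero_mul]
    rw [integral_mul_const, hρ1, one_mul] at e2
    rw [dist_comm, dist_eq_norm]
    linarith
  have hd := hunif.tendstoLocallyUniformlyOn.differentiableOn (by
    filter_upwards [Ioo_mem_nhdsGT hR0] with ε hε
    exact hhol ε hε.1 hε.2) Metric.isOpen_ball
  exact (hd.differentiableAt (Metric.isOpen_ball.mem_nhds (Metric.mem_ball_self hR0))).differentiableWithinAt
/- END ei -/

/- MODULE ej
`k w = cau w + w² cau w⁻¹` is weakly holomorphic on `{0}ᶜ`: for a test function `φ` with support off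
`0` put `Φ x = x⁻⁴ φ x⁻¹` (`Φ 0 = 0`, again `C^1` with compact support off `0`);
`dbar Φ x = -x⁻⁴ (dbar φ x⁻¹) / conj x ²`, so by `integral_inv`
`∫ w² cau w⁻¹ dbar φ w = -∫ cau dbar Φ = ∫ μ Φ = ∫ μ φ` (the last step again by `integral_inv` and
`Bel.inv`: `‖w‖⁻⁴ μ w⁻¹ w⁴ φ w = μ w φ w`).  With `weak` for `φ` the sum is `0`; `weyl`. -/
private theorem ej_supp {φ : ℂ → ℂ} (h0 : (0 : ℂ) ∉ tsupport φ) :
    ∃ r : ℝ, 0 < r ∧ ∀ x, ‖x‖ < r → φ x = 0 := by
  have h1 : (tsupport φ)ᶜ ∈ nhds (0 : ℂ) := (isClosed_tsupport φ).isOpen_compl.mem_nhds h0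
  obtain ⟨r, hr, hrs⟩ := Metric.mem_nhds_iff.1 h1
  refine ⟨r, hr, fun x hx => ?_⟩
  have h2 : x ∈ (tsupport φ)ᶜ := hrs (by simpa using hx)
  exact image_eq_zero_of_notMem_tsupport h2

private theorem ej_dbar {φ : ℂ → ℂ} (hφ : ContDiff ℝ 1 φ) (hc : HasCompactSupport φ) :
    Continuous (dbar φ) ∧ HasCompactSupport (dbar φ) := by
  have h1 : Continuous (fderiv ℝ φ) := hφ.continuous_fderiv one_ne_zero
  constructor
  · unfold dbar
    exact ((h1.clm_apply continuous_const).add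
      (continuous_const.mul (h1.clm_apply continuous_const))).div_const _
  · refine HasCompactSupport.of_support_subset_isCompact hc ?_
    intro x hx
    by_contra h2
    apply hx
    unfold dbar
    rw [fderiv_of_notMem_tsupport ℝ h2]
    simp

/-- the transformed test function -/
private noncomputable def ej_T (φ : ℂ → ℂ) (x : ℂ) : ℂ := (x⁻¹) ^ 4 * φ x⁻¹

private theorem ej_T_zero {φ : ℂ → ℂ} (hc : HasCompactSupport φ) :
    ∃ r : ℝ, 0 < r ∧ ∀ x, ‖x‖ < r → ej_T φ x = 0 := by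
  obtain ⟨R, hR⟩ := hc.isBounded.exists_norm_le
  refine ⟨1 / (|R| + 1), by positivity, fun x hx => ?_⟩
  rcases eq_or_ne x 0 with rfl | hx0
  · simp [ej_T]
  · have h1 : φ x⁻¹ = 0 := by
      apply image_eq_zero_of_notMem_tsupport
      intro h2
      have h3 := hR _ h2
      rw [norm_inv] at h3
      have h4 : 0 < ‖x‖ := norm_pos_iff.2 hx0
      have h5 : ‖x‖ * (|R| + 1) < 1 := by
        rw [lt_div_iff₀ (by positivity)] at hx
        exact hx
      have h6 : ‖x‖⁻¹ ≤ |R| := h3.trans (le_abs_self R)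
      have h7 : 1 ≤ |R| * ‖x‖ := by
        rw [inv_le_iff_one_le_mul₀ h4] at h6
        exact h6
      nlinarith
    rw [ej_T, h1, mul_zero]

private theorem ej_T_fderiv {φ : ℂ → ℂ} (hφ : ContDiff ℝ 1 φ) {x : ℂ} (hx : x ≠ 0) :
    ContDiffAt ℝ 1 (ej_T φ) x ∧ dbar (ej_T φ) x =
      -((x⁻¹) ^ 4 * (((starRingEnd ℂ) x) ^ 2)⁻¹ * dbar φ x⁻¹) := by
  have hinv : ContDiffAt ℝ 1 (fun x : ℂ => x⁻¹) x := (contDiffAt_inv ℂ hx).restrict_scalars ℝ
  have h4 : ContDiffAt ℝ 1 (fun x : ℂ => (x⁻¹) ^ 4) x := hinv.pow 4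
  have hcomp : ContDiffAt ℝ 1 (fun x : ℂ => φ x⁻¹) x := hφ.contDiffAt.comp x hinv
  refine ⟨h4.mul hcomp, ?_⟩
  -- derivatives
  have hd1 : HasDerivAt (fun x : ℂ => (x⁻¹) ^ 4) (4 * (x⁻¹) ^ 3 * (-(x ^ 2)⁻¹)) x := by
    have := (hasDerivAt_inv hx).fun_pow 4
    simpa using this
  have hd1' : HasFDerivAt (fun x : ℂ => (x⁻¹) ^ 4)
      (((ContinuousLinearMap.toSpanSingleton ℂ (4 * (x⁻¹) ^ 3 * (-(x ^ 2)⁻¹)) : ℂ →L[ℂ] ℂ)).restrictScalars ℝ) x :=
    hd1.hasFDerivAt.restrictScalars ℝ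
  have hdi : HasFDerivAt (fun x : ℂ => x⁻¹)
      (((ContinuousLinearMap.toSpanSingleton ℂ (-(x ^ 2)⁻¹) : ℂ →L[ℂ] ℂ)).restrictScalars ℝ) x :=
    (hasDerivAt_inv hx).hasFDerivAt.restrictScalars ℝ
  have hdφ : HasFDerivAt φ (fderiv ℝ φ x⁻¹) x⁻¹ :=
    ((hφ.differentiable one_ne_zero) x⁻¹).hasFDerivAt
  have hdc : HasFDerivAt (fun x : ℂ => φ x⁻¹) ((fderiv ℝ φ x⁻¹).comp
      (((ContinuousLinearMap.toSpanSingleton ℂ (-(x ^ 2)⁻¹) : ℂ →L[ℂ] ℂ)).restrictScalars ℝ)) x :=
    hdφ.comp x hdi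
  have hdT := hd1'.mul hdc
  have hTf : fderiv ℝ (ej_T φ) x = _ := hdT.fderiv
  -- real linearity of the derivative of `φ`
  have hlin : ∀ v : ℂ, fderiv ℝ φ x⁻¹ v = v.re * fderiv ℝ φ x⁻¹ 1 + v.im * fderiv ℝ φ x⁻¹ Complex.I := by
    intro v
    have e1 : v = v.re • (1 : ℂ) + v.im • Complex.I := by
      rw [Complex.real_smul, Complex.real_smul, mul_one]
      exact (Complex.re_add_im v).symm
    conv_lhs => rw [e1]
    rw [map_add, map_smul, map_smul, Complex.real_smul, Complex.real_smul]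
  unfold dbar
  rw [hTf]
  simp only [add_apply, smul_apply, ContinuousLinearMap.comp_apply, ContinuousLinearMap.coe_restrictScalars',
    ContinuousLinearMap.toSpanSingleton_apply, smul_eq_mul, one_mul]
  obtain ⟨a, ha⟩ : ∃ a, a = fderiv ℝ φ x⁻¹ 1 := ⟨_, rfl⟩
  obtain ⟨b, hb⟩ : ∃ b, b = fderiv ℝ φ x⁻¹ Complex.I := ⟨_, rfl⟩
  obtain ⟨y, hy⟩ : ∃ y, y = -(x ^ 2)⁻¹ := ⟨_, rfl⟩
  have hy2 : (((starRingEnd ℂ) x) ^ 2)⁻¹ = -(starRingEnd ℂ) y := by
    rw [hy, map_neg, map_inv₀, map_pow, neg_neg]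
  rw [← hy, hlin y, hlin (Complex.I * y), ← ha, ← hb, hy2]
  have e2 : ((Complex.I * y).re : ℂ) = -(y.im : ℂ) := by simp
  have e3 : ((Complex.I * y).im : ℂ) = (y.re : ℂ) := by simp
  have e4 : (starRingEnd ℂ) y = (y.re : ℂ) - y.im * Complex.I := by
    apply Complex.ext <;> simp
  rw [e2, e3, e4]
  have hI : Complex.I ^ 2 = -1 := Complex.I_sq
  linear_combination (((x⁻¹) ^ 4 * (y.im : ℂ) * b + φ x⁻¹ * (4 * x⁻¹ ^ 3 * y)) / 2) * hI

theorem differentiableOn_k {z : ℂ} (hz : z ≠ 0) {μ : ℂ → ℂ} (hμ : Bel z μ)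
    (hc : Continuous (cau z μ)) :
    DifferentiableOn ℂ (fun w => cau z μ w + w ^ 2 * cau z μ w⁻¹) {0}ᶜ := by
  refine weyl isOpen_compl_singleton ?_ ?_
  · exact hc.continuousOn.add ((continuousOn_id.pow 2).mul (hc.comp_continuousOn continuousOn_inv₀))
  intro φ hφ hcs hts
  have h0 : (0 : ℂ) ∉ tsupport φ := fun h => hts h rfl
  obtain ⟨r, hr, hφ0⟩ := ej_supp h0
  obtain ⟨r', hr', hT0⟩ := ej_T_zero hcs
  have hev : ej_T φ =ᶠ[nhds 0] fun _ => 0 := by
    filter_upwards [Metric.ball_mem_nhds (0 : ℂ) hr'] with x hx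
    exact hT0 x (by simpa using hx)
  have hTd : ContDiff ℝ 1 (ej_T φ) := by
    rw [contDiff_iff_contDiffAt]
    intro x
    rcases eq_or_ne x 0 with rfl | hx
    · exact contDiffAt_const.congr_of_eventuallyEq hev
    · exact (ej_T_fderiv hφ hx).1
  have hTc : HasCompactSupport (ej_T φ) := by
    refine HasCompactSupport.of_support_subset_isCompact (isCompact_closedBall 0 (1 / r)) ?_
    intro x hx
    rw [mem_closedBall_zero_iff]
    by_contra hcon
    push Not at hcon
    apply hx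
    have h1 : 0 < ‖x‖ := lt_trans (by positivity) hcon
    have h2 : ‖x⁻¹‖ < r := by
      rw [norm_inv, inv_lt_comm₀ h1 hr, inv_eq_one_div]
      exact hcon
    rw [ej_T, hφ0 _ h2, mul_zero]
  have hT00 : dbar (ej_T φ) 0 = 0 := by
    have h1 : fderiv ℝ (ej_T φ) 0 = 0 := by
      rw [hev.fderiv_eq]
      exact fderiv_const_apply _
    unfold dbar
    rw [h1]
    simp
  have w1 := weak hz hμ hc hφ hcs
  have w2 := weak hz hμ hc hTd hTc
  have hn4 : ∀ x : ℂ, (((‖x‖ ^ 4)⁻¹ : ℝ) : ℂ) = (x⁻¹) ^ 2 * (((starRingEnd ℂ) x) ^ 2)⁻¹ := by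
    intro x
    have h1 : ((‖x‖ ^ 2 : ℝ) : ℂ) = x * (starRingEnd ℂ) x := by
      rw [Complex.mul_conj, Complex.normSq_eq_norm_sq]
    have h2 : ((‖x‖ ^ 4 : ℝ) : ℂ) = x ^ 2 * ((starRingEnd ℂ) x) ^ 2 := by
      rw [show ‖x‖ ^ 4 = (‖x‖ ^ 2) ^ 2 by ring, Complex.ofReal_pow, h1, mul_pow]
    rw [Complex.ofReal_inv, h2, mul_inv, inv_pow]
  have e1 : ∫ w, μ w * φ w = ∫ w, μ w * ej_T φ w := by
    rw [← integral_inv (fun w => μ w * φ w)]
    congr 1
    funext x
    rcases eq_or_ne x 0 with rfl | hx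
    · simp [ej_T]
    · have hcx : (starRingEnd ℂ) x ≠ 0 := (map_ne_zero _).2 hx
      rw [Complex.real_smul, hn4, hμ.inv x hx, rat, ej_T]
      field_simp
  have e2 : (fun x : ℂ => (‖x‖ ^ 4)⁻¹ • ((x⁻¹) ^ 2 * cau z μ x⁻¹⁻¹ * dbar φ x⁻¹)) =
      fun x => -(cau z μ x * dbar (ej_T φ) x) := by
    funext x
    rcases eq_or_ne x 0 with rfl | hx
    · rw [hT00]
      simp
    · have hcx : (starRingEnd ℂ) x ≠ 0 := (map_ne_zero _).2 hx
      rw [Complex.real_smul, hn4, (ej_T_fderiv hφ hx).2, inv_inv]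
      ring
  have i1 : Integrable (fun w => cau z μ w * dbar φ w) :=
    (hc.mul (ej_dbar hφ hcs).1).integrable_of_hasCompactSupport (ej_dbar hφ hcs).2.mul_left
  have i3 : Integrable (fun w => cau z μ w * dbar (ej_T φ) w) :=
    (hc.mul (ej_dbar hTd hTc).1).integrable_of_hasCompactSupport (ej_dbar hTd hTc).2.mul_left
  have i2 : Integrable (fun w : ℂ => w ^ 2 * cau z μ w⁻¹ * dbar φ w) := by
    rw [← integrable_inv, e2]
    exact i3.neg
  have e3 : ∫ w : ℂ, w ^ 2 * cau z μ w⁻¹ * dbar φ w = ∫ w, μ w * φ w := by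
    rw [← integral_inv (fun w : ℂ => w ^ 2 * cau z μ w⁻¹ * dbar φ w), e2, integral_neg, w2, neg_neg,
      e1]
  have e4 : (fun w : ℂ => (cau z μ w + w ^ 2 * cau z μ w⁻¹) * dbar φ w) =
      fun w => cau z μ w * dbar φ w + w ^ 2 * cau z μ w⁻¹ * dbar φ w := by
    funext w
    ring
  rw [e4, integral_add i1 i2, w1, e3, neg_add_cancel]
/- END ej -/

/- MODULE ek
`K w = cau w / w + w cau w⁻¹` is holomorphic off `0`, `K w⁻¹ = K w`, and `w K w → 0` as `w → 0`
(`cau 0 = 0`, `cau` continuous and bounded): removable singularity at `0`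
(`Complex.differentiableOn_update_limUnder_of_isLittleO` or `.._of_bddAbove`), so `K` is bounded near
`0`, hence near infinity, hence (continuity on the compact annulus) bounded: the extended `K` is a
bounded entire function, constant by Liouville; the value is `K 1 = 2 cau 1`. -/
theorem cau_inv {z : ℂ} (hz : z ≠ 0) {μ : ℂ → ℂ} (hμ : Bel z μ) (hc : Continuous (cau z μ))
    {w : ℂ} (hw : w ≠ 0) : cau z μ w + w ^ 2 * cau z μ w⁻¹ = 2 * cau z μ 1 * w := by
  obtain ⟨-, hodd, B, hB⟩ := cau_props hz hμ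
  have h0 : cau z μ 0 = 0 := by
    have h1 := hodd 0
    rw [neg_zero] at h1
    exact CharZero.eq_neg_self_iff.1 h1
  obtain ⟨G, hG⟩ : ∃ G : ℂ → ℂ, G = fun w => cau z μ w + w ^ 2 * cau z μ w⁻¹ := ⟨_, rfl⟩
  have hG0 : G 0 = 0 := by rw [hG]; simp [h0]
  have hGc : ContinuousAt G 0 := by
    have h1 : Filter.Tendsto (fun w : ℂ => cau z μ w) (nhds 0) (nhds 0) := by
      have h2 := hc.tendsto 0
      rwa [h0] at h2
    have h2 : Filter.Tendsto (fun w : ℂ => w ^ 2 * cau z μ w⁻¹) (nhds 0) (nhds 0) := by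
      apply squeeze_zero_norm (a := fun w : ℂ => ‖w‖ ^ 2 * B)
      · intro w
        rw [norm_mul, norm_pow]
        exact mul_le_mul_of_nonneg_left (hB _) (by positivity)
      · have h3 : Filter.Tendsto (fun w : ℂ => ‖w‖ ^ 2 * B) (nhds 0) (nhds (‖(0 : ℂ)‖ ^ 2 * B)) :=
          (Continuous.tendsto (by fun_prop) 0)
        simpa using h3
    have h3 := h1.add h2
    rw [add_zero] at h3
    change Filter.Tendsto G (nhds 0) (nhds (G 0))
    rw [hG0, hG]
    exact h3
  have hGd : DifferentiableOn ℂ G Set.univ := by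
    refine (Complex.differentiableOn_compl_singleton_and_continuousAt_iff
      (Filter.univ_mem (f := nhds (0 : ℂ)))).1 ⟨?_, hGc⟩
    rw [hG]
    exact (differentiableOn_k hz hμ hc).mono fun x hx => hx.2
  have hKd : Differentiable ℂ (dslope G 0) := by
    rw [← differentiableOn_univ]
    exact (Complex.differentiableOn_dslope Filter.univ_mem).2 hGd
  have hKw : ∀ x : ℂ, x ≠ 0 → dslope G 0 x = G x / x := by
    intro x hx
    rw [dslope_of_ne _ hx, slope_def_field, hG0, sub_zero, sub_zero]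
  have hKinv : ∀ x : ℂ, x ≠ 0 → dslope G 0 x⁻¹ = dslope G 0 x := by
    intro x hx
    rw [hKw x hx, hKw _ (inv_ne_zero hx), hG]
    simp only [inv_inv]
    field_simp
    ring
  have hbdd : Bornology.IsBounded (Set.range (dslope G 0)) := by
    obtain ⟨M, hM⟩ := (isCompact_closedBall (0 : ℂ) 1).exists_bound_of_continuousOn
      hKd.continuous.continuousOn
    rw [isBounded_iff_forall_norm_le]
    refine ⟨M, ?_⟩
    rintro _ ⟨x, rfl⟩
    rcases le_or_gt ‖x‖ 1 with h1 | h1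
    · exact hM x (by simpa using h1)
    · have hx : x ≠ 0 := by
        rintro rfl
        rw [norm_zero] at h1
        linarith
      rw [← hKinv x hx]
      refine hM _ ?_
      rw [mem_closedBall_zero_iff, norm_inv]
      exact inv_le_one_of_one_le₀ h1.le
  have hconst := hKd.apply_eq_apply_of_bounded hbdd w 1
  rw [hKw w hw, hKw 1 one_ne_zero, div_one, div_eq_iff hw] at hconst
  rw [hG] at hconst
  simp only [inv_one, one_pow, one_mul] at hconst
  rw [hconst]
  ring
/- END ek -/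

/- MODULE el
THE VECTOR FIELD.  `V w = mol ε cau w - cau 1 * w`, `δ = -cau 1 * z`.  Odd (`mol_neg`), `trn`,
`dbar V = mol ε μ` (`dbar` of a linear function is `0`), `‖fderiv (mol ε cau)‖ ≤ (C/ε) C ε^γ`
(`fderiv_mol`, `∫ fderiv rhoe = 0`, `exists_cau_holder`, `exists_rho_bound`), and `‖cau 1‖ ≤ C`
(chain of points from `0` to `1`: `cau 0 = 0`); `‖mol ε cau - cau‖ ≤ C ε^γ`, and
`V w + w² V w⁻¹ = (mol ε cau - cau) w + w² (mol ε cau - cau) w⁻¹` by `cau_inv`. -/
private theorem el_cont {z : ℂ} {μ : ℂ → ℂ} {C γ : ℝ} (hγ : 0 < γ)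
    (h : ∀ a b : ℂ, ‖a - b‖ ≤ 1 → ‖cau z μ a - cau z μ b‖ ≤ C * ‖a - b‖ ^ γ) :
    Continuous (cau z μ) := by
  rw [continuous_iff_continuousAt]
  intro b
  rw [ContinuousAt, tendsto_iff_norm_sub_tendsto_zero]
  have h1 : Filter.Tendsto (fun a : ℂ => C * ‖a - b‖ ^ γ) (nhds b) (nhds 0) := by
    have h2 : Filter.Tendsto (fun a : ℂ => ‖a - b‖) (nhds b) (nhds 0) := by
      have h3 : Continuous fun a : ℂ => ‖a - b‖ := by fun_prop
      have h4 := h3.tendsto b
      rwa [sub_self, norm_zero] at h4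
    have h5 := (h2.rpow_const (p := γ) (Or.inr hγ.le)).const_mul C
    rwa [Real.zero_rpow hγ.ne', mul_zero] at h5
  refine squeeze_zero' (Filter.Eventually.of_forall fun a => norm_nonneg _) ?_ h1
  filter_upwards [Metric.ball_mem_nhds b one_pos] with a ha
  refine h a b ?_
  rw [Metric.mem_ball, dist_eq_norm] at ha
  exact ha.le

/-- mollification changes a Hoelder function little -/
private theorem el_close {k : ℂ → ℂ} (hk : Continuous k) {C γ : ℝ} (hC : 0 ≤ C) (hγ : 0 < γ)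
    (h : ∀ a b : ℂ, ‖a - b‖ ≤ 1 → ‖k a - k b‖ ≤ C * ‖a - b‖ ^ γ) {ε : ℝ} (hε : 0 < ε)
    (hε1 : ε ≤ 1) (w : ℂ) : ‖mol ε k w - k w‖ ≤ C * ε ^ γ := by
  obtain ⟨-, hρc, hρn, hρ0, -, hρi, hρ1⟩ := rhoe_props hε
  have hcs : HasCompactSupport (rhoe ε) := by
    refine HasCompactSupport.of_support_subset_isCompact (isCompact_closedBall (0 : ℂ) ε) ?_
    intro x hx
    rw [mem_closedBall_zero_iff]
    by_contra hc
    push Not at hc
    exact hx (hρ0 x hc)
  have hi1 : Integrable (fun x => rhoe ε x • k (w - x)) :=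
    (hρc.smul (hk.comp (continuous_const.sub continuous_id))).integrable_of_hasCompactSupport
      hcs.smul_right
  have hi2 : Integrable (fun x => rhoe ε x • k w) := hρi.smul_const _
  have e1 : mol ε k w - k w = ∫ x, (rhoe ε x • k (w - x) - rhoe ε x • k w) := by
    rw [integral_sub hi1 hi2, integral_smul_const, hρ1, one_smul]
    rfl
  have e2 : ‖mol ε k w - k w‖ ≤ ∫ x, rhoe ε x * (C * ε ^ γ) := by
    rw [e1]
    refine norm_integral_le_of_norm_le (hρi.mul_const _) (Filter.Eventually.of_forall fun x => ?_)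
    rw [← smul_sub, norm_smul, Real.norm_of_nonneg (hρn x)]
    by_cases hx : ‖x‖ ≤ ε
    · refine mul_le_mul_of_nonneg_left ?_ (hρn x)
      have h2 : w - x - w = -x := by ring
      have h3 := h (w - x) w (by rw [h2, norm_neg]; linarith)
      rw [h2, norm_neg] at h3
      exact h3.trans (mul_le_mul_of_nonneg_left (Real.rpow_le_rpow (norm_nonneg _) hx hγ.le) hC)
    · push Not at hx
      rw [hρ0 x hx, zero_mul, zero_mul]
  rwa [integral_mul_const, hρ1, one_mul] at e2

/-- the derivative of the mollification of a Hoelder function -/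
private theorem el_deriv {k : ℂ → ℂ} (hk : Continuous k) {C γ D : ℝ} (hC : 0 ≤ C) (hγ : 0 < γ)
    (h : ∀ a b : ℂ, ‖a - b‖ ≤ 1 → ‖k a - k b‖ ≤ C * ‖a - b‖ ^ γ) {ε : ℝ} (hε : 0 < ε)
    (hε1 : ε ≤ 1) (hD : ∫ w, ‖fderiv ℝ (rhoe ε) w‖ ≤ D / ε) (w : ℂ) :
    ‖fderiv ℝ (mol ε k) w‖ ≤ C * D * ε ^ (γ - 1) := by
  obtain ⟨-, hρc, hρn, hρ0, hρd, hρi, hρ1⟩ := rhoe_props hε
  have hρd1 : ContDiff ℝ 1 (rhoe ε) := hρd.of_le (by norm_num)
  have hcd : Continuous (fderiv ℝ (rhoe ε)) := hρd1.continuous_fderiv one_ne_zero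
  have hsub : Function.support (rhoe ε) ⊆ Metric.closedBall 0 ε := by
    intro x hx
    rw [mem_closedBall_zero_iff]
    by_contra hc
    push Not at hc
    exact hx (hρ0 x hc)
  have hts : tsupport (rhoe ε) ⊆ Metric.closedBall 0 ε :=
    closure_minimal hsub Metric.isClosed_closedBall
  have hcs : HasCompactSupport (rhoe ε) :=
    HasCompactSupport.of_support_subset_isCompact (isCompact_closedBall (0 : ℂ) ε) hsub
  have hcsd : HasCompactSupport (fderiv ℝ (rhoe ε)) := hcs.fderiv ℝ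
  have hf0 : ∀ x, ε < ‖x‖ → fderiv ℝ (rhoe ε) x = 0 := by
    intro x hx
    refine fderiv_of_notMem_tsupport ℝ fun h2 => ?_
    have h3 := hts h2
    rw [mem_closedBall_zero_iff] at h3
    linarith
  have hin : Integrable (fun x => ‖fderiv ℝ (rhoe ε) x‖) :=
    hcd.norm.integrable_of_hasCompactSupport hcsd.norm
  have hεγ : 0 < ε ^ (γ - 1) := Real.rpow_pos_of_pos hε _
  have hD0 : 0 ≤ D := by
    have h2 : 0 ≤ D / ε := le_trans (integral_nonneg fun x => norm_nonneg _) hD
    by_contra hc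
    push Not at hc
    have := div_neg_of_neg_of_pos hc hε
    linarith
  refine ContinuousLinearMap.opNorm_le_bound _ (by positivity) fun v => ?_
  rw [fderiv_mol hε hk.locallyIntegrable]
  have hdv : Continuous (fun x => fderiv ℝ (rhoe ε) x v) := hcd.clm_apply continuous_const
  have hcv : HasCompactSupport (fun x => fderiv ℝ (rhoe ε) x v) := by
    refine hcsd.mono fun x hx => ?_
    intro h2
    apply hx
    change fderiv ℝ (rhoe ε) x v = 0
    rw [h2]
    rfl
  have hi1 : Integrable (fun x => fderiv ℝ (rhoe ε) x v • k (w - x)) :=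
    (hdv.smul (hk.comp (continuous_const.sub continuous_id))).integrable_of_hasCompactSupport
      hcv.smul_right
  have hi0 : Integrable (fun x => fderiv ℝ (rhoe ε) x v) := hdv.integrable_of_hasCompactSupport hcv
  have hi2 : Integrable (fun x => fderiv ℝ (rhoe ε) x v • k w) := hi0.smul_const _
  have hz : ∫ x, fderiv ℝ (rhoe ε) x v = 0 := by
    have h2 := fderiv_mol (F := ℝ) hε (f := fun _ => (1 : ℝ)) continuous_const.locallyIntegrable w v
    have h3 : mol ε (fun _ : ℂ => (1 : ℝ)) = fun _ => (1 : ℝ) := by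
      funext y
      unfold mol
      rw [integral_smul_const, hρ1, one_smul]
    rw [h3, fderiv_fun_const] at h2
    simpa using h2.symm
  have e1 : ∫ x, fderiv ℝ (rhoe ε) x v • k (w - x) =
      ∫ x, (fderiv ℝ (rhoe ε) x v • k (w - x) - fderiv ℝ (rhoe ε) x v • k w) := by
    rw [integral_sub hi1 hi2, integral_smul_const, hz, zero_smul, sub_zero]
  rw [e1]
  have e2 : ‖∫ x, (fderiv ℝ (rhoe ε) x v • k (w - x) - fderiv ℝ (rhoe ε) x v • k w)‖ ≤
      ∫ x, ‖fderiv ℝ (rhoe ε) x‖ * (‖v‖ * (C * ε ^ γ)) := by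
    refine norm_integral_le_of_norm_le (hin.mul_const _) (Filter.Eventually.of_forall fun x => ?_)
    rw [← smul_sub, norm_smul]
    by_cases hx : ‖x‖ ≤ ε
    · have h2 : w - x - w = -x := by ring
      have h3 := h (w - x) w (by rw [h2, norm_neg]; linarith)
      rw [h2, norm_neg] at h3
      have h4 := h3.trans (mul_le_mul_of_nonneg_left (Real.rpow_le_rpow (norm_nonneg _) hx hγ.le) hC)
      calc ‖fderiv ℝ (rhoe ε) x v‖ * ‖k (w - x) - k w‖
          ≤ (‖fderiv ℝ (rhoe ε) x‖ * ‖v‖) * (C * ε ^ γ) :=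
            mul_le_mul (ContinuousLinearMap.le_opNorm _ _) h4 (norm_nonneg _) (by positivity)
        _ = _ := by ring
    · push Not at hx
      rw [hf0 x hx]
      simp
  refine e2.trans ?_
  rw [integral_mul_const]
  have e3 : ε ^ γ = ε * ε ^ (γ - 1) := by
    rw [Real.rpow_sub_one hε.ne']
    field_simp
  calc (∫ x, ‖fderiv ℝ (rhoe ε) x‖) * (‖v‖ * (C * ε ^ γ))
      ≤ D / ε * (‖v‖ * (C * ε ^ γ)) := mul_le_mul_of_nonneg_right hD (by positivity)
    _ = C * D * ε ^ (γ - 1) * ‖v‖ := by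
      rw [e3]
      field_simp

theorem vec_field {γ : ℝ} (h0 : 0 < γ) (h1 : γ < 1) : ∃ C : ℝ, 1 ≤ C ∧ ∀ z : ℂ, 1 / 26 ≤ ‖z‖ →
    ‖z‖ ≤ 2 → ∀ μ : ℂ → ℂ, Bel z μ → ∀ ε : ℝ, 0 < ε → ε ≤ 1 → ∃ (V : ℂ → ℂ) (δ : ℂ),
    Vec z δ (C * ε ^ (γ - 1)) (C * ε ^ γ) V ∧ ∀ w, dbar V w = mol ε μ w := by
  obtain ⟨C1, hC1, hol⟩ := exists_cau_holder h0 h1
  obtain ⟨D, hD, hDb⟩ := exists_rho_bound
  refine ⟨1 + C1 * D + C1, by nlinarith [mul_pos hC1 hD], ?_⟩
  intro z hz1 hz2 μ hμ ε hε hε1
  have hz : z ≠ 0 := by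
    rintro rfl
    rw [norm_zero] at hz1
    norm_num at hz1
  have hh := hol z hz1 hz2 μ hμ
  have hc : Continuous (cau z μ) := el_cont h0 hh
  obtain ⟨hper, hodd, -⟩ := cau_props hz hμ
  have hc0 : cau z μ 0 = 0 := by
    have h2 := hodd 0
    rw [neg_zero] at h2
    exact CharZero.eq_neg_self_iff.1 h2
  have hc1 : ‖cau z μ 1‖ ≤ C1 := by
    have h2 := hh 1 0 (by simp)
    rw [hc0, sub_zero, sub_zero, norm_one, Real.one_rpow, mul_one] at h2
    exact h2
  have hmd : ContDiff ℝ 2 (mol ε (cau z μ)) := mol_contDiff hε hc.locallyIntegrable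
  have hmd1 : ContDiff ℝ 1 (mol ε (cau z μ)) := hmd.of_le (by norm_num)
  have hεp : 1 ≤ ε ^ (γ - 1) := Real.one_le_rpow_of_pos_of_le_one_of_nonpos hε hε1 (by linarith)
  have hεg : 0 < ε ^ γ := Real.rpow_pos_of_pos hε _
  have hlin : ∀ w : ℂ, HasFDerivAt (fun w : ℂ => cau z μ 1 * w)
      (((ContinuousLinearMap.toSpanSingleton ℂ (cau z μ 1) : ℂ →L[ℂ] ℂ)).restrictScalars ℝ) w := by
    intro w
    have h2 : HasDerivAt (fun w : ℂ => cau z μ 1 * w) (cau z μ 1) w := by
      simpa using (hasDerivAt_id w).const_mul (cau z μ 1)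
    exact h2.hasFDerivAt.restrictScalars ℝ
  have hVd : ∀ w : ℂ, HasFDerivAt (fun w : ℂ => mol ε (cau z μ) w - cau z μ 1 * w)
      (fderiv ℝ (mol ε (cau z μ)) w -
        ((ContinuousLinearMap.toSpanSingleton ℂ (cau z μ 1) : ℂ →L[ℂ] ℂ)).restrictScalars ℝ) w :=
    fun w => ((hmd1.differentiable one_ne_zero) w).hasFDerivAt.sub (hlin w)
  refine ⟨fun w => mol ε (cau z μ) w - cau z μ 1 * w, -(cau z μ 1 * z), ⟨?_, ?_, ?_, ?_, ?_⟩, ?_⟩
  · exact hmd1.sub (contDiff_const.mul contDiff_id)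
  · intro w
    have h2 : (fun x => cau z μ (-x)) = fun x => -cau z μ x := funext hodd
    have h3 : mol ε (fun x => -cau z μ x) w = -mol ε (cau z μ) w := by
      unfold mol
      simp only [smul_neg]
      rw [integral_neg]
    rw [mol_neg hε, h2, h3]
    ring
  · intro w
    have h2 : mol ε (cau z μ) (w + z) = mol ε (cau z μ) w := by
      unfold mol
      congr 1
      funext x
      rw [show w + z - x = (w - x) + z by ring, hper]
    rw [h2]
    ring
  · intro w
    rw [(hVd w).fderiv]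
    have h2 := el_deriv hc hC1.le h0 hh hε hε1 (hDb ε hε).2.2 w
    have h3 : ‖((ContinuousLinearMap.toSpanSingleton ℂ (cau z μ 1) : ℂ →L[ℂ] ℂ)).restrictScalars ℝ‖
        ≤ C1 := by
      rw [ContinuousLinearMap.norm_restrictScalars, ContinuousLinearMap.norm_toSpanSingleton]
      exact hc1
    have h4 := norm_sub_le (fderiv ℝ (mol ε (cau z μ)) w)
      (((ContinuousLinearMap.toSpanSingleton ℂ (cau z μ 1) : ℂ →L[ℂ] ℂ)).restrictScalars ℝ)
    nlinarith
  · intro w hw
    have h2 := cau_inv hz hμ hc hw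
    have h3 : mol ε (cau z μ) w - cau z μ 1 * w + w ^ 2 * (mol ε (cau z μ) w⁻¹ - cau z μ 1 * w⁻¹) =
        (mol ε (cau z μ) w - cau z μ w) + w ^ 2 * (mol ε (cau z μ) w⁻¹ - cau z μ w⁻¹) := by
      have h4 : w ^ 2 * w⁻¹ = w := by
        rw [sq, mul_assoc, mul_inv_cancel₀ hw, mul_one]
      linear_combination h2 - cau z μ 1 * h4
    rw [h3]
    have h5 := el_close hc hC1.le h0 hh hε hε1 w
    have h6 := el_close hc hC1.le h0 hh hε hε1 w⁻¹
    calc ‖(mol ε (cau z μ) w - cau z μ w) + w ^ 2 * (mol ε (cau z μ) w⁻¹ - cau z μ w⁻¹)‖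
        ≤ ‖mol ε (cau z μ) w - cau z μ w‖ + ‖w ^ 2 * (mol ε (cau z μ) w⁻¹ - cau z μ w⁻¹)‖ :=
          norm_add_le _ _
      _ = ‖mol ε (cau z μ) w - cau z μ w‖ + ‖w‖ ^ 2 * ‖mol ε (cau z μ) w⁻¹ - cau z μ w⁻¹‖ := by
          rw [norm_mul, norm_pow]
      _ ≤ C1 * ε ^ γ + ‖w‖ ^ 2 * (C1 * ε ^ γ) :=
          add_le_add h5 (mul_le_mul_of_nonneg_left h6 (by positivity))
      _ = C1 * ε ^ γ * (1 + ‖w‖ ^ 2) := by ring
      _ ≤ (1 + C1 * D + C1) * ε ^ γ * (1 + ‖w‖ ^ 2) := by
          refine mul_le_mul_of_nonneg_right (mul_le_mul_of_nonneg_right ?_ hεg.le) (by positivity)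
          nlinarith [mul_pos hC1 hD]
  · intro w
    rw [← dbar_mol_cau hz hμ hc hε w]
    unfold dbar
    rw [(hVd w).fderiv]
    simp only [sub_apply, ContinuousLinearMap.coe_restrictScalars',
      ContinuousLinearMap.toSpanSingleton_apply, smul_eq_mul, one_mul]
    linear_combination (-cau z μ 1 / 2) * Complex.I_sq
/- END el -/

end Pool.Agent.NoH
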