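import Pool.Agent.NoH.Bet

set_option autoImplicit false

/-!
# Part G2: the deformation maps

`f = id + t V`, `f̂ = inv ∘ f ∘ inv`, `g = β f + (1 - β) f̂`.
-/

open MeasureTheory Set

namespace Pool.Agent.NoH

/-- `f = id + t V`. -/
noncomputable def fm (t : ℝ) (V : ℂ → ℂ) (w : ℂ) : ℂ := w + t * V w

/-- `f̂ w = 1 / f (1 / w)`, `f̂ 0 = 0`. -/
noncomputable def fh (t : ℝ) (V : ℂ → ℂ) (w : ℂ) : ℂ := (fm t V w⁻¹)⁻¹

/-- The factor `N` with `f̂ w = w N w`. -/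
noncomputable def nn (t : ℝ) (V : ℂ → ℂ) (w : ℂ) : ℂ := (1 + t * (w * V w⁻¹))⁻¹

/-- The blended map. -/
noncomputable def gm (t : ℝ) (V : ℂ → ℂ) (β : ℂ → ℝ) (w : ℂ) : ℂ :=
  β w * fm t V w + (1 - β w) * fh t V w

/-- The bound of `‖Dg - 1‖`. -/
noncomputable def lam (t Λ κ h M : ℝ) : ℝ :=
  7 * (t * Λ) + M * (t * κ * (1 + (2 / h) ^ 2) + 2 * (t * Λ) ^ 2 * (2 / h))

/- MODULE gb
`V 0 = 0` (odd), so `‖V w‖ ≤ Λ ‖w‖` (mean value inequality on the convex set `ℂ`), `‖w V w⁻¹‖ ≤ Λ`,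
`‖N - 1‖ ≤ 2 t Λ`, `‖N‖ ≤ 4/3` for `t Λ ≤ 1/4`. `f̂ w = w N w` for `w ≠ 0`. -/
private theorem gb_lip {z δ : ℂ} {Λ κ : ℝ} {V : ℂ → ℂ} (hV : Vec z δ Λ κ V) (x y : ℂ) :
    ‖V y - V x‖ ≤ Λ * ‖y - x‖ :=
  Convex.norm_image_sub_le_of_norm_fderiv_le (𝕜 := ℝ) (s := Set.univ)
    (fun w _ => (hV.smo.differentiable (by norm_num)).differentiableAt) (fun w _ => hV.lip w)
    convex_univ (mem_univ x) (mem_univ y)

theorem V_le {z δ : ℂ} {Λ κ : ℝ} {V : ℂ → ℂ} (hV : Vec z δ Λ κ V) (w : ℂ) :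
    V 0 = 0 ∧ ‖V w‖ ≤ Λ * ‖w‖ ∧ ‖w * V w⁻¹‖ ≤ Λ := by
  have h0 : V 0 = 0 := by
    have h1 := hV.odd 0
    rw [neg_zero] at h1
    have h2 : (2 : ℂ) * V 0 = 0 := by linear_combination h1
    rcases mul_eq_zero.1 h2 with h3 | h3
    · norm_num at h3
    · exact h3
  have hA : ∀ x : ℂ, ‖V x‖ ≤ Λ * ‖x‖ := by
    intro x
    have h1 := gb_lip hV 0 x
    rwa [h0, sub_zero, sub_zero] at h1
  have hΛ : 0 ≤ Λ := le_trans (norm_nonneg _) (hV.lip 0)
  refine ⟨h0, hA w, ?_⟩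
  rcases eq_or_ne w 0 with hw | hw
  · rw [hw, zero_mul, norm_zero]
    exact hΛ
  · have h1 := hA w⁻¹
    rw [norm_inv] at h1
    have h2 : 0 < ‖w‖ := norm_pos_iff.2 hw
    rw [norm_mul]
    calc ‖w‖ * ‖V w⁻¹‖ ≤ ‖w‖ * (Λ * ‖w‖⁻¹) := mul_le_mul_of_nonneg_left h1 h2.le
      _ = Λ := by field_simp

theorem nn_le {z δ : ℂ} {Λ κ t : ℝ} {V : ℂ → ℂ} (hV : Vec z δ Λ κ V) (ht : 0 ≤ t)
    (h : t * Λ ≤ 1 / 4) (w : ℂ) : 1 + t * (w * V w⁻¹) ≠ 0 ∧ ‖nn t V w - 1‖ ≤ 2 * (t * Λ) ∧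
      ‖nn t V w‖ ≤ 4 / 3 ∧ fh t V w = w * nn t V w := by
  obtain ⟨h0, h1, h2⟩ := V_le hV w
  set a : ℂ := (t : ℂ) * (w * V w⁻¹) with ha
  have hna : ‖a‖ ≤ t * Λ := by
    rw [ha, norm_mul, Complex.norm_real, Real.norm_of_nonneg ht]
    exact mul_le_mul_of_nonneg_left h2 ht
  have hna' : ‖a‖ ≤ 1 / 4 := hna.trans h
  have hlow : 3 / 4 ≤ ‖1 + a‖ := by
    have h3 : ‖(1 : ℂ)‖ - ‖a‖ ≤ ‖1 + a‖ := by
      have h4 := norm_sub_norm_le (1 : ℂ) (-a)
      rwa [norm_neg, sub_neg_eq_add] at h4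
    rw [norm_one] at h3
    linarith
  have hne : 1 + a ≠ 0 := by
    intro h3
    rw [h3, norm_zero] at hlow
    norm_num at hlow
  have hpos : 0 < ‖1 + a‖ := by linarith
  have hinv : ‖(1 + a)⁻¹‖ ≤ 4 / 3 := by
    rw [norm_inv]
    rw [inv_le_comm₀ hpos (by norm_num)]
    norm_num
    linarith
  have hsub : ‖(1 + a)⁻¹ - 1‖ ≤ 2 * (t * Λ) := by
    have h3 : (1 + a)⁻¹ - 1 = -a * (1 + a)⁻¹ := by
      field_simp
      ring
    rw [h3, norm_mul, norm_neg]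
    have h4 : ‖a‖ * ‖(1 + a)⁻¹‖ ≤ (t * Λ) * (4 / 3) :=
      mul_le_mul hna hinv (norm_nonneg _) (le_trans (norm_nonneg _) hna)
    have h5 : 0 ≤ t * Λ := le_trans (norm_nonneg _) hna
    linarith
  refine ⟨hne, hsub, hinv, ?_⟩
  unfold fh fm nn
  rcases eq_or_ne w 0 with hw | hw
  · rw [hw, inv_zero, h0]
    simp
  · have h3 : w⁻¹ + (t : ℂ) * V w⁻¹ = w⁻¹ * (1 + t * (w * V w⁻¹)) := by
      field_simp
    rw [h3, mul_inv, inv_inv]
/- END gb -/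

/- MODULE gc
`f` is a homeomorphism of the plane: `f - id` is Lipschitz with constant `t Λ ≤ 1/4`
(`LipschitzWith`, then `ApproximatesLinearOn.toHomeomorph` with the identity, or Banach's fixed point
theorem), of class `C^1`, odd, `f (w + z) = f w + (z + t δ)`, hence `f (w + n z) = f w + n (z + t δ)`. -/
private theorem gc_per {z δ : ℂ} {Λ κ : ℝ} {V : ℂ → ℂ} (hV : Vec z δ Λ κ V) (n : ℤ) (w : ℂ) :
    V (w + n * z) = V w + n * δ := by
  induction n using Int.induction_on generalizing w with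
  | zero => simp
  | succ n ih =>
    have h1 : w + ((n : ℤ) + 1 : ℤ) * z = (w + (n : ℤ) * z) + z := by
      push_cast
      ring
    rw [h1, hV.trn, ih]
    push_cast
    ring
  | pred n ih =>
    have h1 : V (w + (-(n : ℤ) - 1 : ℤ) * z) + δ = V (w + (-(n : ℤ) : ℤ) * z) := by
      rw [← hV.trn]
      congr 1
      push_cast
      ring
    have h2 := ih w
    rw [← h1] at h2
    have h3 : V (w + (-(n : ℤ) - 1 : ℤ) * z) = V w + ((-(n : ℤ) : ℤ) : ℂ) * δ - δ := by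
      rw [← h2]
      ring
    rw [h3]
    push_cast
    ring

theorem exists_homeo_fm {z δ : ℂ} {Λ κ t : ℝ} {V : ℂ → ℂ} (hV : Vec z δ Λ κ V) (ht : 0 ≤ t)
    (h : t * Λ ≤ 1 / 4) : ∃ F : ℂ ≃ₜ ℂ, (∀ w, F w = fm t V w) ∧ (∀ w, F (-w) = -F w) ∧
      ∀ (n : ℤ) (w : ℂ), F (w + n * z) = F w + n * (z + t * δ) := by
  have hap : ApproximatesLinearOn (fm t V) ((ContinuousLinearEquiv.refl ℝ ℂ : ℂ ≃L[ℝ] ℂ) : ℂ →L[ℝ] ℂ)
      Set.univ (1 / 4 : NNReal) := by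
    intro x _ y _
    have h1 : fm t V x - fm t V y - ((ContinuousLinearEquiv.refl ℝ ℂ : ℂ ≃L[ℝ] ℂ) : ℂ →L[ℝ] ℂ) (x - y)
        = (t : ℂ) * (V x - V y) := by
      simp only [fm, ContinuousLinearEquiv.coe_refl, ContinuousLinearMap.coe_id', id_eq]
      ring
    rw [h1, norm_mul, Complex.norm_real, Real.norm_of_nonneg ht]
    have h2 := gb_lip hV y x
    have h3 : ((1 / 4 : NNReal) : ℝ) = 1 / 4 := by norm_num
    rw [h3]
    calc t * ‖V x - V y‖ ≤ t * (Λ * ‖x - y‖) := mul_le_mul_of_nonneg_left h2 ht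
      _ = (t * Λ) * ‖x - y‖ := by ring
      _ ≤ 1 / 4 * ‖x - y‖ := mul_le_mul_of_nonneg_right h (norm_nonneg _)
  have hN : (1 / 4 : NNReal) < ‖((ContinuousLinearEquiv.refl ℝ ℂ).symm : ℂ →L[ℝ] ℂ)‖₊⁻¹ := by
    have h1 : ((ContinuousLinearEquiv.refl ℝ ℂ).symm : ℂ →L[ℝ] ℂ) = ContinuousLinearMap.id ℝ ℂ := by
      ext <;> simp
    rw [h1]
    have h2 : ‖ContinuousLinearMap.id ℝ ℂ‖₊ = 1 := by
      apply NNReal.eq
      simp
    rw [h2, inv_one]
    rw [← NNReal.coe_lt_coe]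
    norm_num
  refine ⟨ApproximatesLinearOn.toHomeomorph (fm t V) hap (Or.inr hN), fun w => rfl, fun w => ?_,
    fun n w => ?_⟩
  · change fm t V (-w) = -fm t V w
    unfold fm
    rw [hV.odd]
    ring
  · change fm t V (w + n * z) = fm t V w + n * (z + t * δ)
    unfold fm
    rw [gc_per hV]
    ring

/-- The image of `S` is a domain of `z + t δ`: all clauses are transported by the homeomorphism
(`con`: for `Z ⊆ (F '' S)ᶜ = F '' Sᶜ` use `F.symm '' Z`). -/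
theorem dom_image {z δ : ℂ} {Λ κ t : ℝ} {V : ℂ → ℂ} {S : Set ℂ} (hD : Dom z S)
    (hV : Vec z δ Λ κ V) (ht : 0 ≤ t) (h : t * Λ ≤ 1 / 4) : Dom (z + t * δ) (fm t V '' S) := by
  obtain ⟨F, hF, hodd, hper⟩ := exists_homeo_fm hV ht h
  have hfun : fm t V = F := funext fun w => (hF w).symm
  rw [hfun]
  refine ⟨?_, ?_, ?_, ?_, ?_⟩
  · exact F.isOpenMap S hD.opn
  · obtain ⟨R, hR⟩ := hD.bdd
    refine ⟨2 * |R|, ?_⟩
    rintro _ ⟨w, hw, rfl⟩
    rw [hF w]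
    unfold fm
    have h1 := (V_le hV w).2.1
    have h2 := hR w hw
    have h3 : 0 ≤ ‖w‖ := norm_nonneg w
    have h4 : R ≤ |R| := le_abs_self R
    calc ‖w + (t : ℂ) * V w‖ ≤ ‖w‖ + ‖(t : ℂ) * V w‖ := norm_add_le _ _
      _ = ‖w‖ + t * ‖V w‖ := by rw [norm_mul, Complex.norm_real, Real.norm_of_nonneg ht]
      _ ≤ ‖w‖ + t * (Λ * ‖w‖) := by
          have := mul_le_mul_of_nonneg_left h1 ht
          linarith
      _ = ‖w‖ + (t * Λ) * ‖w‖ := by ring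
      _ ≤ ‖w‖ + 1 / 4 * ‖w‖ := by
          have := mul_le_mul_of_nonneg_right h h3
          linarith
      _ < 2 * |R| := by linarith
  · rintro _ ⟨w, hw, rfl⟩
    exact ⟨-w, hD.neg w hw, hodd w⟩
  · intro n hn
    rintro _ ⟨w, hw, rfl⟩ ⟨x, hx, hxw⟩
    rw [← hper n w] at hxw
    have h1 := F.injective hxw
    rw [h1] at hx
    exact hD.trn n hn w hw hx
  · intro Z hZ hZc hZcl
    have h1 : F ⁻¹' Z ⊆ Sᶜ := by
      intro w hw hwS
      exact hZ hw ⟨w, hwS, rfl⟩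
    have h2 : IsCompact (F ⁻¹' Z) := by
      rw [F.isCompact_preimage]
      exact hZc
    have h3 : IsClosed (Sᶜ \ F ⁻¹' Z) := by
      have h4 : Sᶜ \ F ⁻¹' Z = F ⁻¹' ((F '' S)ᶜ \ Z) := by
        ext w
        simp only [mem_sdiff, mem_compl_iff, mem_preimage]
        constructor
        · rintro ⟨ha, hb⟩
          refine ⟨?_, hb⟩
          rintro ⟨x, hx, hxw⟩
          rw [F.injective hxw] at hx
          exact ha hx
        · rintro ⟨ha, hb⟩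
          exact ⟨fun hw => ha ⟨w, hw, rfl⟩, hb⟩
      rw [h4]
      exact hZcl.preimage F.continuous
    have h5 := hD.con _ h1 h2 h3
    rw [Set.eq_empty_iff_forall_notMem]
    intro w hw
    have h6 : F.symm w ∈ F ⁻¹' Z := by
      rw [mem_preimage, F.apply_symm_apply]
      exact hw
    rw [h5] at h6
    exact h6
/- END gc -/

/- MODULE gd
Derivative of `f̂` off `0`.  `V̂ w = w V w⁻¹` has real derivative `h ↦ h V w⁻¹ - w V'(w⁻¹)(h / w²)` of norm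
`≤ 2 Λ / ‖w‖`, so `N` has derivative of norm `≤ (4/3)² t 2 Λ / ‖w‖`, and `f̂ = w N`:
`‖Df̂ - 1‖ ≤ ‖N - 1‖ + ‖w‖ ‖DN‖ ≤ 2 t Λ + (32/9) t Λ ≤ 6 t Λ`.
`dbar f̂ w = t N² (dbar V w⁻¹) conj(rat w)⁻¹..`: from `f̂ = w N`, `N = (1 + t V̂)⁻¹`,
`dbar V̂ w = w (dbar V w⁻¹) (-1 / conj w ²)`, so `dbar f̂ = w (-N²) t dbar V̂ = t N² (w² / conj w ²) dbar V w⁻¹`
and `w² / conj w ² = rat w⁻¹`. -/
private theorem gd_fm {z δ : ℂ} {Λ κ : ℝ} {V : ℂ → ℂ} (hV : Vec z δ Λ κ V) (t : ℝ) (w : ℂ) :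
    HasFDerivAt (fm t V) (ContinuousLinearMap.id ℝ ℂ + (t : ℂ) • fderiv ℝ V w) w := by
  have h1 : HasFDerivAt V (fderiv ℝ V w) w :=
    (hV.smo.differentiable (by norm_num)).differentiableAt.hasFDerivAt
  have h2 : HasFDerivAt (fun x : ℂ => (t : ℂ) • V x) ((t : ℂ) • fderiv ℝ V w) w := h1.const_smul (t : ℂ)
  exact (hasFDerivAt_id w).add h2

/-- the derivative of `f̂` -/
private theorem gd_fh {z δ : ℂ} {Λ κ t : ℝ} {V : ℂ → ℂ} (hV : Vec z δ Λ κ V) (ht : 0 ≤ t)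
    (h : t * Λ ≤ 1 / 4) {w : ℂ} (hw : w ≠ 0) : DifferentiableAt ℝ (fh t V) w ∧ ∀ x : ℂ,
      fderiv ℝ (fh t V) w x = nn t V w ^ 2 * (x + t * (w ^ 2 * fderiv ℝ V w⁻¹ (x / w ^ 2))) := by
  obtain ⟨hne, -, -, hfh⟩ := nn_le hV ht h w
  have hF : fm t V w⁻¹ ≠ 0 := by
    intro h0
    apply hne
    have : w * fm t V w⁻¹ = 1 + t * (w * V w⁻¹) := by
      unfold fm
      rw [mul_add, mul_inv_cancel₀ hw]
      ring
    rw [← this, h0, mul_zero]
  have e1 : HasFDerivAt (fun x : ℂ => x⁻¹) (-(ContinuousLinearMap.mulLeftRight ℝ ℂ w⁻¹ w⁻¹)) w :=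
    hasFDerivAt_inv' hw
  have e2 := (gd_fm hV t w⁻¹).comp w e1
  have e3 : HasFDerivAt (fun x : ℂ => x⁻¹)
      (-(ContinuousLinearMap.mulLeftRight ℝ ℂ (fm t V w⁻¹)⁻¹ (fm t V w⁻¹)⁻¹)) (fm t V w⁻¹) :=
    hasFDerivAt_inv' hF
  have e4 := e3.comp w e2
  have e5 : HasFDerivAt (fh t V) _ w := e4
  refine ⟨e5.differentiableAt, ?_⟩
  intro x
  rw [e5.fderiv]
  have hi : (fm t V w⁻¹)⁻¹ = w * nn t V w := hfh
  simp only [ContinuousLinearMap.comp_apply, neg_apply,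
    ContinuousLinearMap.mulLeftRight_apply, add_apply,
    ContinuousLinearMap.id_apply, smul_apply, smul_eq_mul, hi, map_neg]
  have hx : w⁻¹ * x * w⁻¹ = x / w ^ 2 := by field_simp
  rw [hx]
  field_simp

/-- a real linear map applied along a direction -/
private theorem gd_lin (L : ℂ →L[ℝ] ℂ) (a : ℂ) :
    L a + Complex.I * L (Complex.I * a) = (L 1 + Complex.I * L Complex.I) * (starRingEnd ℂ) a := by
  have e : ∀ b : ℂ, L b = b.re * L 1 + b.im * L Complex.I := by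
    intro b
    have : b = b.re • (1 : ℂ) + b.im • Complex.I := by
      apply Complex.ext <;> simp
    conv_lhs => rw [this]
    rw [map_add, map_smul, map_smul]
    simp
  rw [e a, e (Complex.I * a)]
  simp only [Complex.mul_re, Complex.mul_im, Complex.I_re, Complex.I_im, zero_mul, one_mul, zero_sub,
    zero_add]
  have h2 : (starRingEnd ℂ) a = a.re - a.im * Complex.I := by
    apply Complex.ext <;> simp
  rw [h2]
  have hI := Complex.I_sq
  push_cast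
  linear_combination ((a.im : ℂ) * L Complex.I) * hI

theorem fh_deriv {z δ : ℂ} {Λ κ t : ℝ} {V : ℂ → ℂ} (hV : Vec z δ Λ κ V) (ht : 0 ≤ t)
    (h : t * Λ ≤ 1 / 4) {w : ℂ} (hw : w ≠ 0) : ContDiffAt ℝ 1 (fh t V) w ∧
      ‖fderiv ℝ (fh t V) w - ContinuousLinearMap.id ℝ ℂ‖ ≤ 6 * (t * Λ) ∧
      dbar (fh t V) w = t * nn t V w ^ 2 * rat w⁻¹ * dbar V w⁻¹ := by
  obtain ⟨hne, hN1, hN2, hfh⟩ := nn_le hV ht h w
  obtain ⟨hV0, -, hVw⟩ := V_le hV w
  have hF : fm t V w⁻¹ ≠ 0 := by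
    intro h0
    apply hne
    have : w * fm t V w⁻¹ = 1 + t * (w * V w⁻¹) := by
      unfold fm
      rw [mul_add, mul_inv_cancel₀ hw]
      ring
    rw [← this, h0, mul_zero]
  have hΛ : 0 ≤ Λ := le_trans (norm_nonneg _) (hV.lip w)
  obtain ⟨-, hD⟩ := gd_fh hV ht h hw
  refine ⟨?_, ?_, ?_⟩
  · have e1 : ContDiffAt ℝ 1 (fun x : ℂ => x⁻¹) w := contDiffAt_inv ℝ hw
    have e2 : ContDiffAt ℝ 1 (fun x : ℂ => V x⁻¹) w := hV.smo.contDiffAt.comp w e1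
    have e3 : ContDiffAt ℝ 1 (fun x : ℂ => x⁻¹ + (t : ℂ) * V x⁻¹) w := e1.add (contDiffAt_const.mul e2)
    exact e3.inv hF
  · refine ContinuousLinearMap.opNorm_le_bound _ (by positivity) ?_
    intro x
    have hA : ‖w ^ 2 * fderiv ℝ V w⁻¹ (x / w ^ 2)‖ ≤ Λ * ‖x‖ := by
      rw [norm_mul, norm_pow]
      have h1 : ‖fderiv ℝ V w⁻¹ (x / w ^ 2)‖ ≤ Λ * (‖x‖ / ‖w‖ ^ 2) := by
        have := (fderiv ℝ V w⁻¹).le_of_opNorm_le (hV.lip w⁻¹) (x / w ^ 2)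
        rwa [norm_div, norm_pow] at this
      have hw' : 0 < ‖w‖ ^ 2 := by positivity
      calc ‖w‖ ^ 2 * ‖fderiv ℝ V w⁻¹ (x / w ^ 2)‖ ≤ ‖w‖ ^ 2 * (Λ * (‖x‖ / ‖w‖ ^ 2)) := by gcongr
        _ = Λ * ‖x‖ := by field_simp
    have hN3 : nn t V w ^ 2 - 1 = (nn t V w - 1) - t * (w * V w⁻¹) * nn t V w ^ 2 := by
      have : nn t V w * (1 + t * (w * V w⁻¹)) = 1 := by
        unfold nn
        rw [inv_mul_cancel₀ hne]
      linear_combination (nn t V w) * this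
    have key : (fderiv ℝ (fh t V) w - ContinuousLinearMap.id ℝ ℂ) x =
        (nn t V w - 1) * x - nn t V w ^ 2 * (t * (w * V w⁻¹)) * x +
          nn t V w ^ 2 * (t * (w ^ 2 * fderiv ℝ V w⁻¹ (x / w ^ 2))) := by
      rw [sub_apply, hD, ContinuousLinearMap.id_apply]
      linear_combination x * hN3
    rw [key]
    have b0 : ‖(t : ℂ)‖ = t := by rw [Complex.norm_real, Real.norm_of_nonneg ht]
    have hN4 : ‖nn t V w ^ 2‖ ≤ 16 / 9 := by
      rw [norm_pow]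
      nlinarith [norm_nonneg (nn t V w)]
    have b1 : ‖(nn t V w - 1) * x‖ ≤ 2 * (t * Λ) * ‖x‖ := by
      rw [norm_mul]; gcongr
    have b2 : ‖nn t V w ^ 2 * (t * (w * V w⁻¹)) * x‖ ≤ 16 / 9 * (t * Λ) * ‖x‖ := by
      rw [norm_mul, norm_mul, norm_mul (t : ℂ), b0]; gcongr
    have b3 : ‖nn t V w ^ 2 * (t * (w ^ 2 * fderiv ℝ V w⁻¹ (x / w ^ 2)))‖ ≤
        16 / 9 * (t * (Λ * ‖x‖)) := by
      rw [norm_mul, norm_mul (t : ℂ), b0]; gcongr
    have b4 := norm_add_le ((nn t V w - 1) * x - nn t V w ^ 2 * (t * (w * V w⁻¹)) * x)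
      (nn t V w ^ 2 * (t * (w ^ 2 * fderiv ℝ V w⁻¹ (x / w ^ 2))))
    have b5 := norm_sub_le ((nn t V w - 1) * x) (nn t V w ^ 2 * (t * (w * V w⁻¹)) * x)
    have b6 : 0 ≤ t * Λ * ‖x‖ := by positivity
    nlinarith
  · unfold dbar
    rw [hD, hD]
    have h1 := gd_lin (fderiv ℝ V w⁻¹) (1 / w ^ 2)
    have h2 : Complex.I * (1 / w ^ 2) = Complex.I / w ^ 2 := by ring
    rw [h2] at h1
    have h3 : w ^ 2 * (starRingEnd ℂ) (1 / w ^ 2) = rat w⁻¹ := by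
      unfold rat
      have hw' : (starRingEnd ℂ) w ≠ 0 := by
        rw [Ne, map_eq_zero]; exact hw
      rw [map_div₀, map_one, map_pow, map_inv₀]
      field_simp
    have hI := Complex.I_sq
    rw [← h3]
    linear_combination (nn t V w ^ 2 * t * w ^ 2 / 2) * h1 + (nn t V w ^ 2 / 2) * hI

/-- The difference: `f̂ - f = -t (V w + w² V w⁻¹) - t w² V w⁻¹ (N - 1)`. -/
theorem fh_sub {z δ : ℂ} {Λ κ t : ℝ} {V : ℂ → ℂ} (hV : Vec z δ Λ κ V) (ht : 0 ≤ t)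
    (h : t * Λ ≤ 1 / 4) {w : ℂ} (hw : w ≠ 0) : ‖fh t V w - fm t V w‖ ≤
      t * κ * (1 + ‖w‖ ^ 2) + 2 * (t * Λ) ^ 2 * ‖w‖ := by
  obtain ⟨hne, hN1, hN2, hfh⟩ := nn_le hV ht h w
  obtain ⟨hV0, -, hVw⟩ := V_le hV w
  have hΛ : 0 ≤ Λ := le_trans (norm_nonneg _) (hV.lip w)
  have hN : nn t V w * (1 + t * (w * V w⁻¹)) = 1 := by
    unfold nn
    rw [inv_mul_cancel₀ hne]
  have key : fh t V w - fm t V w = -(t * (V w + w ^ 2 * V w⁻¹)) -
      t * (w * (w * V w⁻¹)) * (nn t V w - 1) := by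
    rw [hfh]
    unfold fm
    linear_combination w * hN
  rw [key]
  have b0 : ‖(t : ℂ)‖ = t := by rw [Complex.norm_real, Real.norm_of_nonneg ht]
  refine le_trans (norm_sub_le _ _) ?_
  rw [norm_neg, norm_mul, b0, norm_mul, norm_mul (t : ℂ), b0, norm_mul w]
  have b1 : t * ‖V w + w ^ 2 * V w⁻¹‖ ≤ t * (κ * (1 + ‖w‖ ^ 2)) := by
    gcongr
    exact hV.inv w hw
  have b2 : t * (‖w‖ * ‖w * V w⁻¹‖) * ‖nn t V w - 1‖ ≤ t * (‖w‖ * Λ) * (2 * (t * Λ)) := by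
    gcongr
  calc t * ‖V w + w ^ 2 * V w⁻¹‖ + t * (‖w‖ * ‖w * V w⁻¹‖) * ‖nn t V w - 1‖
      ≤ t * (κ * (1 + ‖w‖ ^ 2)) + t * (‖w‖ * Λ) * (2 * (t * Λ)) := add_le_add b1 b2
    _ = t * κ * (1 + ‖w‖ ^ 2) + 2 * (t * Λ) ^ 2 * ‖w‖ := by ring
/- END gd -/

/- MODULE ge
Derivative of `g` off `0`: `Dg = β Df + (1 - β) Df̂ + (Dβ)(f - f̂)`, and `Dβ = 0` unless
`h/2 ≤ ‖w‖ ≤ 2/h` (`bet_zero`), where `fh_sub` gives
`‖f - f̂‖ ≤ t κ (1 + (2/h)²) + 2 (t Λ)² (2/h)`; so `‖Dg - 1‖ ≤ lam`.  `dbar g` likewise (`dbar β` of a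
real function has norm `‖grd β‖ / 2`). -/
private theorem ge_fm {z δ : ℂ} {Λ κ : ℝ} {V : ℂ → ℂ} (hV : Vec z δ Λ κ V) (t : ℝ) (w : ℂ) :
    HasFDerivAt (fm t V) (ContinuousLinearMap.id ℝ ℂ + (t : ℂ) • fderiv ℝ V w) w := by
  have h1 : HasFDerivAt V (fderiv ℝ V w) w :=
    (hV.smo.differentiable (by norm_num)).differentiableAt.hasFDerivAt
  have h2 : HasFDerivAt (fun x : ℂ => (t : ℂ) • V x) ((t : ℂ) • fderiv ℝ V w) w := h1.const_smul (t : ℂ)
  exact (hasFDerivAt_id w).add h2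

private theorem ge_rat (w : ℂ) : ‖rat w‖ ≤ 1 := by
  unfold rat
  rw [norm_div, norm_pow, norm_pow, RCLike.norm_conj]
  exact div_self_le_one _

private theorem ge_err {z δ : ℂ} {Λ κ t h M : ℝ} {V : ℂ → ℂ} {β : ℂ → ℝ} {S : Set ℂ} (h0 : 0 < h)
    (hβ : Bet S h M β) (hV : Vec z δ Λ κ V) (hκ : 0 ≤ κ) (ht : 0 ≤ t) (hM : 0 ≤ M)
    (hl : t * Λ ≤ 1 / 4) {w : ℂ} (hw : w ≠ 0) : ‖grd β w‖ * ‖fm t V w - fh t V w‖ ≤
      M * (t * κ * (1 + (2 / h) ^ 2) + 2 * (t * Λ) ^ 2 * (2 / h)) := by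
  have hΛ : 0 ≤ Λ := le_trans (norm_nonneg _) (hV.lip w)
  by_cases hc : 2 / h < ‖w‖
  · rw [(bet_zero h0 hβ).2.2.2 w hc, norm_zero, zero_mul]
    positivity
  · push Not at hc
    have h1 := fh_sub hV ht hl hw
    rw [norm_sub_rev]
    have h2 : t * κ * (1 + ‖w‖ ^ 2) + 2 * (t * Λ) ^ 2 * ‖w‖ ≤
        t * κ * (1 + (2 / h) ^ 2) + 2 * (t * Λ) ^ 2 * (2 / h) := by gcongr
    exact mul_le_mul (hβ.grd w) (h1.trans h2) (norm_nonneg _) hM

theorem gm_deriv {z δ : ℂ} {Λ κ t h M : ℝ} {V : ℂ → ℂ} {β : ℂ → ℝ} {S : Set ℂ} (h0 : 0 < h)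
    (hβ : Bet S h M β) (hV : Vec z δ Λ κ V) (hκ : 0 ≤ κ) (ht : 0 ≤ t) (hM : 0 ≤ M)
    (hl : t * Λ ≤ 1 / 4) {w : ℂ} (hw : w ≠ 0) : ContDiffAt ℝ 1 (gm t V β) w ∧
      ‖fderiv ℝ (gm t V β) w - ContinuousLinearMap.id ℝ ℂ‖ ≤ lam t Λ κ h M ∧
      ‖dbar (gm t V β) w - (t * (β w * dbar V w + (1 - β w) * (rat w⁻¹ * dbar V w⁻¹)))‖ ≤
        8 * (t * Λ) * (t * ‖dbar V w⁻¹‖) +
          M * (t * κ * (1 + (2 / h) ^ 2) + 2 * (t * Λ) ^ 2 * (2 / h)) := by
  have hΛ : 0 ≤ Λ := le_trans (norm_nonneg _) (hV.lip w)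
  obtain ⟨c1, c2, c3⟩ := fh_deriv hV ht hl hw
  obtain ⟨hne, hN1, hN2, hfh⟩ := nn_le hV ht hl w
  have herr := ge_err h0 hβ hV hκ ht hM hl hw
  obtain ⟨hb0, hb1⟩ := hβ.bnd w
  have hβd : DifferentiableAt ℝ β w := (hβ.smo.differentiable (by norm_num)).differentiableAt
  have hfd : DifferentiableAt ℝ (fh t V) w := c1.differentiableAt (by norm_num)
  -- the derivative
  have d1 : HasFDerivAt (fun x => (β x : ℂ)) (Complex.ofRealCLM.comp (fderiv ℝ β w)) w :=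
    Complex.ofRealCLM.hasFDerivAt.comp w hβd.hasFDerivAt
  have d2 := d1.fun_mul (ge_fm hV t w)
  have d3 : HasFDerivAt (fun x => (1 : ℂ) - (β x : ℂ)) (-(Complex.ofRealCLM.comp (fderiv ℝ β w))) w :=
    d1.const_sub 1
  have d4 := d3.fun_mul hfd.hasFDerivAt
  have d5 := d2.fun_add d4
  have hgd : HasFDerivAt (gm t V β) _ w := d5
  have hD : ∀ x : ℂ, fderiv ℝ (gm t V β) w x = β w * (x + t * fderiv ℝ V w x) +
      (1 - β w) * fderiv ℝ (fh t V) w x + (fderiv ℝ β w x : ℝ) * (fm t V w - fh t V w) := by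
    intro x
    rw [hgd.fderiv]
    simp only [add_apply, smul_apply, neg_apply, ContinuousLinearMap.comp_apply, smul_eq_mul,
      ContinuousLinearMap.id_apply, Complex.ofRealCLM_apply]
    ring
  refine ⟨?_, ?_, ?_⟩
  · have e1 : ContDiffAt ℝ 1 (fun x => (β x : ℂ)) w :=
      Complex.ofRealCLM.contDiff.contDiffAt.comp w hβ.smo.contDiffAt
    have e2 : ContDiffAt ℝ 1 (fm t V) w :=
      contDiffAt_id.add (contDiffAt_const.mul hV.smo.contDiffAt)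
    exact (e1.mul e2).add ((contDiffAt_const.sub e1).mul c1)
  · have hpos : 0 ≤ lam t Λ κ h M := by unfold lam; positivity
    refine ContinuousLinearMap.opNorm_le_bound _ hpos ?_
    intro x
    have key : (fderiv ℝ (gm t V β) w - ContinuousLinearMap.id ℝ ℂ) x =
        β w * (t * fderiv ℝ V w x) + (1 - β w) * ((fderiv ℝ (fh t V) w - ContinuousLinearMap.id ℝ ℂ) x) +
          (fderiv ℝ β w x : ℝ) * (fm t V w - fh t V w) := by
      rw [sub_apply, sub_apply, hD, ContinuousLinearMap.id_apply]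
      ring
    rw [key]
    have b0 : ‖(t : ℂ)‖ = t := by rw [Complex.norm_real, Real.norm_of_nonneg ht]
    have b1 : ‖(β w : ℂ)‖ = β w := by rw [Complex.norm_real, Real.norm_of_nonneg hb0]
    have b2 : ‖(1 : ℂ) - β w‖ = 1 - β w := by
      rw [← Complex.ofReal_one, ← Complex.ofReal_sub, Complex.norm_real, Real.norm_of_nonneg (by linarith)]
    have b3 : ‖fderiv ℝ V w x‖ ≤ Λ * ‖x‖ := (fderiv ℝ V w).le_of_opNorm_le (hV.lip w) x
    have b4 : ‖(fderiv ℝ (fh t V) w - ContinuousLinearMap.id ℝ ℂ) x‖ ≤ 6 * (t * Λ) * ‖x‖ :=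
      ContinuousLinearMap.le_of_opNorm_le _ c2 x
    have b5 : ‖((fderiv ℝ β w x : ℝ) : ℂ)‖ ≤ ‖grd β w‖ * ‖x‖ := by
      rw [Complex.norm_real, ← norm_fderiv_eq hβd]
      exact (fderiv ℝ β w).le_opNorm x
    calc ‖β w * (t * fderiv ℝ V w x) + (1 - β w) * ((fderiv ℝ (fh t V) w - ContinuousLinearMap.id ℝ ℂ) x) +
          (fderiv ℝ β w x : ℝ) * (fm t V w - fh t V w)‖
        ≤ ‖β w * (t * fderiv ℝ V w x)‖ +
          ‖(1 - β w) * ((fderiv ℝ (fh t V) w - ContinuousLinearMap.id ℝ ℂ) x)‖ +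
          ‖(fderiv ℝ β w x : ℝ) * (fm t V w - fh t V w)‖ := norm_add₃_le
      _ ≤ β w * (t * (Λ * ‖x‖)) + (1 - β w) * (6 * (t * Λ) * ‖x‖) +
          (‖grd β w‖ * ‖x‖) * ‖fm t V w - fh t V w‖ := by
          rw [norm_mul, norm_mul, norm_mul, norm_mul, b0, b1, b2]
          have hb2 : 0 ≤ 1 - β w := by linarith
          gcongr
      _ ≤ lam t Λ κ h M * ‖x‖ := by
          unfold lam
          have hx : 0 ≤ ‖x‖ := norm_nonneg x
          have h1 : 0 ≤ t * Λ * ‖x‖ := by positivity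
          have h2 : β w * (t * (Λ * ‖x‖)) + (1 - β w) * (6 * (t * Λ) * ‖x‖) ≤ 7 * (t * Λ) * ‖x‖ := by
            nlinarith
          have h3 : (‖grd β w‖ * ‖x‖) * ‖fm t V w - fh t V w‖ ≤
              M * (t * κ * (1 + (2 / h) ^ 2) + 2 * (t * Λ) ^ 2 * (2 / h)) * ‖x‖ := by
            calc (‖grd β w‖ * ‖x‖) * ‖fm t V w - fh t V w‖ =
                (‖grd β w‖ * ‖fm t V w - fh t V w‖) * ‖x‖ := by ring
              _ ≤ _ := by gcongr
          linarith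
  · have hgr : ((fderiv ℝ β w 1 : ℝ) : ℂ) + Complex.I * ((fderiv ℝ β w Complex.I : ℝ) : ℂ) = grd β w := by
      unfold grd
      apply Complex.ext <;> simp
    have key : dbar (gm t V β) w - (t * (β w * dbar V w + (1 - β w) * (rat w⁻¹ * dbar V w⁻¹))) =
        (1 - β w) * (rat w⁻¹ * ((t * dbar V w⁻¹) * (nn t V w ^ 2 - 1))) +
          grd β w / 2 * (fm t V w - fh t V w) := by
      have e1 : dbar (gm t V β) w = β w * (t * dbar V w) + (1 - β w) * dbar (fh t V) w +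
          grd β w / 2 * (fm t V w - fh t V w) := by
        rw [← hgr]
        unfold dbar
        rw [hD, hD]
        have hI := Complex.I_sq
        linear_combination (β w / 2) * hI
      rw [e1, c3]
      ring
    rw [key]
    have b0 : ‖(t : ℂ)‖ = t := by rw [Complex.norm_real, Real.norm_of_nonneg ht]
    have b2 : ‖(1 : ℂ) - β w‖ = 1 - β w := by
      rw [← Complex.ofReal_one, ← Complex.ofReal_sub, Complex.norm_real, Real.norm_of_nonneg (by linarith)]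
    have hN4 : ‖nn t V w ^ 2 - 1‖ ≤ 8 * (t * Λ) := by
      have : nn t V w ^ 2 - 1 = (nn t V w - 1) * (nn t V w + 1) := by ring
      rw [this, norm_mul]
      have h2 : ‖nn t V w + 1‖ ≤ 4 / 3 + 1 := by
        refine le_trans (norm_add_le _ _) ?_
        rw [norm_one]
        linarith
      have h3 : 0 ≤ t * Λ := by positivity
      calc ‖nn t V w - 1‖ * ‖nn t V w + 1‖ ≤ (2 * (t * Λ)) * (4 / 3 + 1) := by gcongr
        _ ≤ 8 * (t * Λ) := by nlinarith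
    refine le_trans (norm_add_le _ _) (add_le_add ?_ ?_)
    · rw [norm_mul, b2, norm_mul, norm_mul, norm_mul, b0]
      have h1 : 0 ≤ t * ‖dbar V w⁻¹‖ := by positivity
      have hb2 : 1 - β w ≤ 1 := by linarith
      have hb3 : 0 ≤ 1 - β w := by linarith
      calc (1 - β w) * (‖rat w⁻¹‖ * (t * ‖dbar V w⁻¹‖ * ‖nn t V w ^ 2 - 1‖))
          ≤ 1 * (1 * (t * ‖dbar V w⁻¹‖ * (8 * (t * Λ)))) := by
            gcongr
            exact ge_rat _
        _ = 8 * (t * Λ) * (t * ‖dbar V w⁻¹‖) := by ring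
    · rw [norm_mul, norm_div]
      have h2 : ‖(2 : ℂ)‖ = 2 := by norm_num
      rw [h2]
      have h3 : 0 ≤ ‖grd β w‖ * ‖fm t V w - fh t V w‖ := by positivity
      linarith
/- END ge -/

/- MODULE gf
`g` is a homeomorphism of the plane if `lam ≤ 1/4`: `g - id` is continuous on `ℂ` (at `0`: `β = 0`,
`g = f̂`, `‖f̂ w‖ ≤ (4/3) ‖w‖`, `g 0 = 0`) and Lipschitz with constant `1/4`: for a segment avoiding `0`
by the mean value inequality, for a segment through `0` by splitting at `0` and continuity.  `g` is odd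
(`β` even, `f`, `f̂` odd).  Off `0` `g⁻¹` is of class `C^1` (inverse function theorem). -/
private theorem gf_tL {t Λ κ h M : ℝ} (h0 : 0 < h) (hκ : 0 ≤ κ) (ht : 0 ≤ t) (hM : 0 ≤ M)
    (hΛ : 0 ≤ Λ) (hl : lam t Λ κ h M ≤ 1 / 4) : t * Λ ≤ 1 / 4 := by
  unfold lam at hl
  have h1 : 0 ≤ M * (t * κ * (1 + (2 / h) ^ 2) + 2 * (t * Λ) ^ 2 * (2 / h)) := by positivity
  have h2 : 0 ≤ t * Λ := by positivity
  linarith

private theorem gf_zero {z δ : ℂ} {Λ κ t h M : ℝ} {V : ℂ → ℂ} {β : ℂ → ℝ} {S : Set ℂ}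
    (h0 : 0 < h) (hβ : Bet S h M β) (hV : Vec z δ Λ κ V) : gm t V β 0 = 0 := by
  have hb : β 0 = 0 := (bet_zero h0 hβ).2.1 0 (by rw [norm_zero]; positivity)
  have hv : V 0 = 0 := (V_le hV 0).1
  unfold gm fh fm
  rw [hb, inv_zero, hv]
  simp

private theorem gf_near {z δ : ℂ} {Λ κ t h M : ℝ} {V : ℂ → ℂ} {β : ℂ → ℝ} {S : Set ℂ}
    (h0 : 0 < h) (hβ : Bet S h M β) (hV : Vec z δ Λ κ V) (ht : 0 ≤ t) (htL : t * Λ ≤ 1 / 4)
    {w : ℂ} (hw : ‖w‖ ≤ h / 2) : ‖gm t V β w‖ ≤ 4 / 3 * ‖w‖ := by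
  have hb : β w = 0 := (bet_zero h0 hβ).2.1 w hw
  obtain ⟨-, -, hn, hf⟩ := nn_le hV ht htL w
  unfold gm
  rw [hb, hf]
  simp only [Complex.ofReal_zero, zero_mul, sub_zero, one_mul, zero_add]
  rw [norm_mul, mul_comm]
  exact mul_le_mul_of_nonneg_right hn (norm_nonneg w)

private theorem gf_seg {z δ : ℂ} {Λ κ t h M : ℝ} {V : ℂ → ℂ} {β : ℂ → ℝ} {S : Set ℂ}
    (h0 : 0 < h) (hβ : Bet S h M β) (hV : Vec z δ Λ κ V) (hκ : 0 ≤ κ) (ht : 0 ≤ t) (hM : 0 ≤ M)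
    (htL : t * Λ ≤ 1 / 4) (hl : lam t Λ κ h M ≤ 1 / 4) {x y : ℂ} (hxy : (0 : ℂ) ∉ segment ℝ x y) :
    ‖gm t V β y - gm t V β x - (y - x)‖ ≤ 1 / 4 * ‖y - x‖ := by
  have hd : ∀ w ∈ segment ℝ x y, HasFDerivWithinAt (gm t V β) (fderiv ℝ (gm t V β) w)
      (segment ℝ x y) w := by
    intro w hw
    have hw0 : w ≠ 0 := fun h => hxy (h ▸ hw)
    have h1 := (gm_deriv h0 hβ hV hκ ht hM htL hw0).1
    exact (h1.differentiableAt (by norm_num)).hasFDerivAt.hasFDerivWithinAt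
  have hb : ∀ w ∈ segment ℝ x y, ‖fderiv ℝ (gm t V β) w - ContinuousLinearMap.id ℝ ℂ‖ ≤ 1 / 4 := by
    intro w hw
    have hw0 : w ≠ 0 := fun h => hxy (h ▸ hw)
    exact ((gm_deriv h0 hβ hV hκ ht hM htL hw0).2.1).trans hl
  have h3 := Convex.norm_image_sub_le_of_norm_hasFDerivWithin_le' hd hb (convex_segment x y)
    (left_mem_segment ℝ x y) (right_mem_segment ℝ x y)
  simpa using h3

private theorem gf_ray {z δ : ℂ} {Λ κ t h M : ℝ} {V : ℂ → ℂ} {β : ℂ → ℝ} {S : Set ℂ}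
    (h0 : 0 < h) (hβ : Bet S h M β) (hV : Vec z δ Λ κ V) (hκ : 0 ≤ κ) (ht : 0 ≤ t) (hM : 0 ≤ M)
    (htL : t * Λ ≤ 1 / 4) (hl : lam t Λ κ h M ≤ 1 / 4) (x : ℂ) :
    ‖gm t V β x - x‖ ≤ 1 / 4 * ‖x‖ := by
  by_cases hx : x = 0
  · rw [hx, gf_zero h0 hβ hV]
    simp
  have hxn : 0 < ‖x‖ := norm_pos_iff.mpr hx
  apply le_of_forall_pos_le_add
  intro ε hε
  set s : ℝ := min 1 (min (h / (2 * ‖x‖)) (3 * ε / (7 * ‖x‖))) with hs
  have hs0 : 0 < s := by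
    rw [hs]
    apply lt_min one_pos
    apply lt_min <;> positivity
  have hs1 : s ≤ 1 := min_le_left _ _
  have hs2 : s * ‖x‖ ≤ h / 2 := by
    have h1 : s ≤ h / (2 * ‖x‖) := (min_le_right _ _).trans (min_le_left _ _)
    calc s * ‖x‖ ≤ h / (2 * ‖x‖) * ‖x‖ := mul_le_mul_of_nonneg_right h1 hxn.le
      _ = h / 2 := by field_simp
  have hs3 : s * ‖x‖ ≤ 3 * ε / 7 := by
    have h1 : s ≤ 3 * ε / (7 * ‖x‖) := (min_le_right _ _).trans (min_le_right _ _)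
    calc s * ‖x‖ ≤ 3 * ε / (7 * ‖x‖) * ‖x‖ := mul_le_mul_of_nonneg_right h1 hxn.le
      _ = 3 * ε / 7 := by field_simp
  set y : ℂ := (s : ℂ) * x with hy
  have hyn : ‖y‖ = s * ‖x‖ := by
    rw [hy, norm_mul, Complex.norm_real, Real.norm_eq_abs, abs_of_pos hs0]
  have hseg : (0 : ℂ) ∉ segment ℝ y x := by
    rintro ⟨a, b, ha, hb, hab, hc⟩
    have h1 : ((a * s + b : ℝ) : ℂ) * x = 0 := by
      rw [← hc, hy, Complex.real_smul, Complex.real_smul]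
      push_cast
      ring
    rcases mul_eq_zero.mp h1 with h2 | h2
    · have h3 : a * s + b = 0 := by exact_mod_cast h2
      have h4 : 0 ≤ a * s := by positivity
      have h5 : b = 0 := by linarith
      have h6 : a = 1 := by linarith
      rw [h5, h6] at h3
      linarith
    · exact hx h2
  have h1 := gf_seg h0 hβ hV hκ ht hM htL hl hseg
  have h2 : ‖gm t V β y‖ ≤ 4 / 3 * ‖y‖ := gf_near h0 hβ hV ht htL (by rw [hyn]; exact hs2)
  have h3 : ‖x - y‖ ≤ ‖x‖ := by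
    have : x - y = ((1 - s : ℝ) : ℂ) * x := by rw [hy]; push_cast; ring
    rw [this, norm_mul, Complex.norm_real, Real.norm_eq_abs, abs_of_nonneg (by linarith)]
    nlinarith
  have h4 : gm t V β x - x = (gm t V β x - gm t V β y - (x - y)) + (gm t V β y - y) := by ring
  calc ‖gm t V β x - x‖ ≤ ‖gm t V β x - gm t V β y - (x - y)‖ + ‖gm t V β y - y‖ := by
        rw [h4]; exact norm_add_le _ _
    _ ≤ 1 / 4 * ‖x‖ + (‖gm t V β y‖ + ‖y‖) := by
        apply add_le_add _ (norm_sub_le _ _)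
        exact h1.trans (by linarith)
    _ ≤ 1 / 4 * ‖x‖ + ε := by
        rw [hyn] at h2 ⊢
        linarith

private theorem gf_lip {z δ : ℂ} {Λ κ t h M : ℝ} {V : ℂ → ℂ} {β : ℂ → ℝ} {S : Set ℂ}
    (h0 : 0 < h) (hβ : Bet S h M β) (hV : Vec z δ Λ κ V) (hκ : 0 ≤ κ) (ht : 0 ≤ t) (hM : 0 ≤ M)
    (htL : t * Λ ≤ 1 / 4) (hl : lam t Λ κ h M ≤ 1 / 4) (x y : ℂ) :
    ‖gm t V β x - gm t V β y - (x - y)‖ ≤ 1 / 4 * ‖x - y‖ := by
  by_cases hxy : (0 : ℂ) ∈ segment ℝ y x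
  · have h1 := dist_add_dist_of_mem_segment hxy
    rw [dist_zero_right, dist_zero_left, dist_comm, dist_eq_norm] at h1
    have h2 := gf_ray h0 hβ hV hκ ht hM htL hl x
    have h3 := gf_ray h0 hβ hV hκ ht hM htL hl y
    have h4 : gm t V β x - gm t V β y - (x - y) = (gm t V β x - x) - (gm t V β y - y) := by ring
    rw [h4]
    refine (norm_sub_le _ _).trans ?_
    rw [← h1]
    linarith
  · exact gf_seg h0 hβ hV hκ ht hM htL hl hxy

private theorem gf_odd {z δ : ℂ} {Λ κ t h M : ℝ} {V : ℂ → ℂ} {β : ℂ → ℝ} {S : Set ℂ}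
    (hβ : Bet S h M β) (hV : Vec z δ Λ κ V) (w : ℂ) : gm t V β (-w) = -gm t V β w := by
  unfold gm fh fm
  rw [hβ.evn, inv_neg, hV.odd, hV.odd]
  have h1 : -w⁻¹ + (t : ℂ) * -V w⁻¹ = -(w⁻¹ + t * V w⁻¹) := by ring
  rw [h1, inv_neg]
  ring

theorem exists_homeo_gm {z δ : ℂ} {Λ κ t h M : ℝ} {V : ℂ → ℂ} {β : ℂ → ℝ} {S : Set ℂ}
    (h0 : 0 < h) (hβ : Bet S h M β) (hV : Vec z δ Λ κ V) (hκ : 0 ≤ κ) (ht : 0 ≤ t) (hM : 0 ≤ M)
    (hΛ : 0 ≤ Λ) (hl : lam t Λ κ h M ≤ 1 / 4) : ∃ G : ℂ ≃ₜ ℂ, (∀ w, G w = gm t V β w) ∧ G 0 = 0 ∧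
      (∀ w, G (-w) = -G w) ∧ ∀ w, w ≠ 0 → ContDiffAt ℝ 1 G.symm w := by
  have htL := gf_tL h0 hκ ht hM hΛ hl
  have hA : ApproximatesLinearOn (gm t V β) ((ContinuousLinearEquiv.refl ℝ ℂ : ℂ ≃L[ℝ] ℂ) : ℂ →L[ℝ] ℂ)
      univ (1 / 4) := by
    intro x _ y _
    have h1 := gf_lip h0 hβ hV hκ ht hM htL hl x y
    simpa using h1
  have hc : Subsingleton ℂ ∨ (1 / 4 : NNReal) <
      ‖((ContinuousLinearEquiv.refl ℝ ℂ : ℂ ≃L[ℝ] ℂ).symm : ℂ →L[ℝ] ℂ)‖₊⁻¹ := by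
    right
    have h1 : ‖((ContinuousLinearEquiv.refl ℝ ℂ : ℂ ≃L[ℝ] ℂ).symm : ℂ →L[ℝ] ℂ)‖₊ = 1 := by
      rw [ContinuousLinearEquiv.refl_symm, ContinuousLinearEquiv.coe_refl]
      apply NNReal.eq
      rw [coe_nnnorm, NNReal.coe_one]
      exact ContinuousLinearMap.norm_id
    rw [h1, inv_one, ← NNReal.coe_lt_coe]
    norm_num
  set G : ℂ ≃ₜ ℂ := hA.toHomeomorph (gm t V β) hc with hG
  have hGw : ∀ w, G w = gm t V β w := fun w => rfl
  have hG0 : G 0 = 0 := by rw [hGw]; exact gf_zero h0 hβ hV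
  refine ⟨G, hGw, hG0, ?_, ?_⟩
  · intro w
    rw [hGw, hGw]
    exact gf_odd hβ hV w
  · intro w hw
    have hx : G.symm w ≠ 0 := by
      intro h1
      apply hw
      rw [← G.apply_symm_apply w, h1, hG0]
    obtain ⟨d1, d2, -⟩ := gm_deriv h0 hβ hV hκ ht hM htL hx
    set A := fderiv ℝ (gm t V β) (G.symm w) with hAdef
    have hAn : ‖(ContinuousLinearMap.id ℝ ℂ) - A‖ < 1 := by
      rw [norm_sub_rev]
      have := d2.trans hl
      linarith
    have hAd : HasFDerivAt G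
        ((ContinuousLinearEquiv.ofUnit (Units.oneSub ((ContinuousLinearMap.id ℝ ℂ) - A) hAn) :
          ℂ ≃L[ℝ] ℂ) : ℂ →L[ℝ] ℂ) (G.symm w) := by
      have e1 : ((ContinuousLinearEquiv.ofUnit (Units.oneSub ((ContinuousLinearMap.id ℝ ℂ) - A) hAn) :
          ℂ ≃L[ℝ] ℂ) : ℂ →L[ℝ] ℂ) = A := by
        apply ContinuousLinearMap.ext
        intro k
        show (1 - ((ContinuousLinearMap.id ℝ ℂ) - A)) k = A k
        have : (1 : ℂ →L[ℝ] ℂ) = ContinuousLinearMap.id ℝ ℂ := rfl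
        rw [this, sub_sub_cancel]
      rw [e1]
      exact (d1.differentiableAt (by norm_num)).hasFDerivAt
    exact G.toOpenPartialHomeomorph.contDiffAt_symm (mem_univ w) hAd d1
/- END gf -/

/- MODULE gg
`u ∘ g⁻¹` is a plateau function of `S' = f '' S`.  If `w ∉ S'` then `w = f x` with `x ∉ S`, so `β x = 1`
and `g x = f x = w`, `u (g⁻¹ w) = u x = 1`.  If `w ∈ Km S'`: `w = 0`: `u 0 = -1`; otherwise
`w⁻¹ = f x`, `x ∉ S`, `x ≠ 0`, `x⁻¹ ∈ Km S`, `β x⁻¹ = 0` (`Bet.inv`), `g x⁻¹ = f̂ x⁻¹ = (f x)⁻¹ = w`, so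
`u (g⁻¹ w) = u x⁻¹ = -1`.  `C^1`: off `0` by composition; near `0` it is constant `-1` (a neighbourhood
of `0` is in `Km S` (`ball_sub_km`), its image under the homeomorphism `g` is a neighbourhood of `0`). -/
theorem plat_gm {z δ : ℂ} {Λ κ t h M : ℝ} {V : ℂ → ℂ} {β : ℂ → ℝ} {S : Set ℂ} {u : ℂ → ℝ}
    (hD : Dom z S) (hF : Fun S u) (h0 : 0 < h) (hβ : Bet S h M β) (hV : Vec z δ Λ κ V)
    (hκ : 0 ≤ κ) (ht : 0 ≤ t) (hM : 0 ≤ M) (hΛ : 0 ≤ Λ) (hl : lam t Λ κ h M ≤ 1 / 4) {G : ℂ ≃ₜ ℂ}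
    (hG : ∀ w, G w = gm t V β w) : Plat (fm t V '' S) fun w => u (G.symm w) := by
  have htL := gf_tL h0 hκ ht hM hΛ hl
  obtain ⟨G', hG', hG0', -, hGs'⟩ := exists_homeo_gm h0 hβ hV hκ ht hM hΛ hl
  have hGG : G = G' := by
    apply Homeomorph.ext
    intro w
    rw [hG, hG']
  subst hGG
  obtain ⟨F, hFf, -, -⟩ := exists_homeo_fm hV ht htL
  have hP := plat_of_fun hD hF
  have hs0 : G.symm 0 = 0 := by
    have h1 := G.symm_apply_apply 0
    rwa [hG0'] at h1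
  refine ⟨?_, ?_, ?_, ?_⟩
  · rw [contDiff_iff_contDiffAt]
    intro w
    by_cases hw : w = 0
    · obtain ⟨r, hr, hrK⟩ := ball_sub_km hD
      have h1 : ∀ᶠ y in nhds (0 : ℂ), u (G.symm y) = -1 := by
        have h2 : G.symm ⁻¹' (Metric.ball 0 r) ∈ nhds (0 : ℂ) := by
          apply G.symm.continuous.continuousAt.preimage_mem_nhds
          rw [hs0]
          exact Metric.ball_mem_nhds 0 hr
        filter_upwards [h2] with y hy
        apply hP.mon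
        apply hrK
        simpa using hy
      rw [hw]
      exact (contDiffAt_const (c := (-1 : ℝ))).congr_of_eventuallyEq h1
    · exact hF.smo.contDiffAt.comp w (hGs' w hw)
  · intro w
    exact hF.bnd _
  · intro w hw
    obtain ⟨x, rfl⟩ := F.surjective w
    have hx : x ∉ S := by
      intro hx
      exact hw ⟨x, hx, (hFf x).symm⟩
    have hgx : G x = F x := by
      rw [hG', hFf]
      unfold gm
      rw [hβ.one x hx]
      simp
    show u (G.symm (F x)) = 1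
    rw [← hgx, G.symm_apply_apply]
    exact hF.one x hx
  · intro w hw
    rcases hw with hw | hw
    · show u (G.symm w) = -1
      rw [hw, hs0]
      exact (zero_mem hD hF).1
    · obtain ⟨x, hxw⟩ := F.surjective w⁻¹
      have hx : x ∉ S := by
        intro hx
        exact hw ⟨x, hx, by rw [← hFf, hxw]⟩
      have hx0 : x ≠ 0 := (inv_mem hD hF hx).1
      have hb : β x⁻¹ = 0 := by
        rw [hβ.inv x hx0, hβ.one x hx]
        ring
      have hgx : G x⁻¹ = w := by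
        rw [hG']
        unfold gm fh
        have hfx : fm t V x = w⁻¹ := by rw [← hFf, hxw]
        rw [hb, inv_inv, hfx, inv_inv]
        simp
      show u (G.symm w) = -1
      rw [← hgx, G.symm_apply_apply, hF.inv x hx0, hF.one x hx]
/- END gg -/

/- MODULE gh
Linear algebra: a real linear map `A h = p h + q conj h` with `‖q‖ < ‖p‖`, and a real covector
`ξ h = 2 Re (ψ h)`.  Then `A⁻¹ k = (conj p k - q conj k) / J`, `J = ‖p‖² - ‖q‖² = det A`,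
`ξ (A⁻¹ k) = 2 Re ((ψ conj p - conj ψ conj q) k) / J`.  So for differentiable `u ∘ G⁻¹` at `G x`:
`J ‖grd (u ∘ G⁻¹) (G x)‖² = 4 ‖ψ conj p - conj ψ conj q‖² / J`, `ψ = psi u x`, `p = del G x`,
`q = dbar G x`. -/
private theorem gh_lin (A : ℂ →L[ℝ] ℂ) (k : ℂ) :
    A k = (A 1 - Complex.I * A Complex.I) / 2 * k
      + (A 1 + Complex.I * A Complex.I) / 2 * (starRingEnd ℂ) k := by
  have h1 : A k = k.re * A 1 + k.im * A Complex.I := by
    have h2 : k = k.re • (1 : ℂ) + k.im • Complex.I := by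
      rw [Complex.real_smul, Complex.real_smul, mul_one]
      exact (Complex.re_add_im k).symm
    conv_lhs => rw [h2]
    rw [map_add, map_smul, map_smul, Complex.real_smul, Complex.real_smul]
  have h3 : k = k.re + k.im * Complex.I := (Complex.re_add_im k).symm
  have h4 : (starRingEnd ℂ) k = k.re - k.im * Complex.I := by
    conv_lhs => rw [h3]
    rw [map_add, map_mul, Complex.conj_ofReal, Complex.conj_ofReal, Complex.conj_I]
    ring
  have hI2 : Complex.I * Complex.I = -1 := Complex.I_mul_I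
  rw [h1, h4]
  conv_rhs => rw [h3]
  simp only [Complex.add_re, Complex.add_im, Complex.ofReal_re, Complex.ofReal_im, Complex.mul_re,
    Complex.mul_im, Complex.I_re, Complex.I_im, mul_zero, mul_one, zero_mul, sub_zero, add_zero,
    zero_add]
  linear_combination (k.im * A Complex.I) * hI2

private theorem gh_det (A : ℂ →L[ℝ] ℂ) :
    A.det = ‖(A 1 - Complex.I * A Complex.I) / 2‖ ^ 2 - ‖(A 1 + Complex.I * A Complex.I) / 2‖ ^ 2 := by
  have h : A.det = (A 1).re * (A Complex.I).im - (A Complex.I).re * (A 1).im := by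
    rw [ContinuousLinearMap.det, ← LinearMap.det_toMatrix Complex.basisOneI, Matrix.det_fin_two]
    simp [LinearMap.toMatrix_apply, Complex.coe_basisOneI_repr]
  rw [h, ← Complex.normSq_eq_norm_sq, ← Complex.normSq_eq_norm_sq]
  simp only [Complex.normSq_apply, Complex.div_re, Complex.div_im, Complex.sub_re, Complex.sub_im,
    Complex.add_re, Complex.add_im, Complex.mul_re, Complex.mul_im, Complex.I_re, Complex.I_im,
    Complex.re_ofNat, Complex.im_ofNat]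
  ring

theorem energy_point {u : ℂ → ℝ} {G : ℂ ≃ₜ ℂ} {x : ℂ} (hu : DifferentiableAt ℝ u x)
    (hG : DifferentiableAt ℝ G x) (hG' : DifferentiableAt ℝ G.symm (G x))
    (hq : ‖dbar G x‖ < ‖del G x‖) :
    (fderiv ℝ G x).det = ‖del G x‖ ^ 2 - ‖dbar G x‖ ^ 2 ∧
    (‖del G x‖ ^ 2 - ‖dbar G x‖ ^ 2) * ‖grd (fun w => u (G.symm w)) (G x)‖ ^ 2 =
      4 * ‖psi u x * (starRingEnd ℂ) (del G x) -
        (starRingEnd ℂ) (psi u x) * (starRingEnd ℂ) (dbar G x)‖ ^ 2 /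
        (‖del G x‖ ^ 2 - ‖dbar G x‖ ^ 2) := by
  set A := fderiv ℝ G x with hA
  set B := fderiv ℝ G.symm (G x) with hB
  have hdet : A.det = ‖del G x‖ ^ 2 - ‖dbar G x‖ ^ 2 := by
    rw [gh_det]
    rfl
  refine ⟨hdet, ?_⟩
  set p := del G x with hp
  set q := dbar G x with hq'
  have hJ : (0 : ℝ) < ‖p‖ ^ 2 - ‖q‖ ^ 2 := by
    have h0 := norm_nonneg q
    nlinarith
  have hAk : ∀ k, A k = p * k + q * (starRingEnd ℂ) k := fun k => gh_lin A k
  -- `A (B k) = k`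
  have hAB : ∀ k, A (B k) = k := by
    intro k
    have e1 : HasFDerivAt G.symm B (G x) := hG'.hasFDerivAt
    have e2 : HasFDerivAt G A (G.symm (G x)) := by
      rw [G.symm_apply_apply]
      exact hG.hasFDerivAt
    have e3 := e2.comp (G x) e1
    have e4 : (G ∘ G.symm) = fun w : ℂ => w := by
      funext w
      simp
    rw [e4] at e3
    have e5 := e3.unique (hasFDerivAt_id (𝕜 := ℝ) (G x))
    have e6 := congrArg (fun T : ℂ →L[ℝ] ℂ => T k) e5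
    simpa using e6
  have hpp : p * (starRingEnd ℂ) p = ((‖p‖ ^ 2 : ℝ) : ℂ) := by
    rw [Complex.mul_conj, Complex.normSq_eq_norm_sq]
  have hqq : q * (starRingEnd ℂ) q = ((‖q‖ ^ 2 : ℝ) : ℂ) := by
    rw [Complex.mul_conj, Complex.normSq_eq_norm_sq]
  have hJB : ∀ k, ((‖p‖ ^ 2 - ‖q‖ ^ 2 : ℝ) : ℂ) * B k = (starRingEnd ℂ) p * k - q * (starRingEnd ℂ) k := by
    intro k
    have e1 : p * B k + q * (starRingEnd ℂ) (B k) = k := by
      rw [← hAk, hAB]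
    have e2 : (starRingEnd ℂ) p * (starRingEnd ℂ) (B k) + (starRingEnd ℂ) q * B k = (starRingEnd ℂ) k := by
      have := congrArg (starRingEnd ℂ) e1
      rw [map_add, map_mul, map_mul, Complex.conj_conj] at this
      exact this
    rw [Complex.ofReal_sub, ← hpp, ← hqq]
    linear_combination (starRingEnd ℂ) p * e1 - q * e2
  set c := psi u x * (starRingEnd ℂ) p - (starRingEnd ℂ) (psi u x) * (starRingEnd ℂ) q with hc
  have hv : ∀ k, (‖p‖ ^ 2 - ‖q‖ ^ 2) * fderiv ℝ (fun w => u (G.symm w)) (G x) k = 2 * (c * k).re := by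
    intro k
    have e1 : HasFDerivAt G.symm B (G x) := hG'.hasFDerivAt
    have e2 : HasFDerivAt u (fderiv ℝ u x) (G.symm (G x)) := by
      rw [G.symm_apply_apply]
      exact hu.hasFDerivAt
    have e3 := (e2.comp (G x) e1).fderiv
    have e4 : fderiv ℝ (fun w => u (G.symm w)) (G x) = (fderiv ℝ u x).comp B := e3
    rw [e4, ContinuousLinearMap.comp_apply, fderiv_eq_grd hu]
    have e5 : (starRingEnd ℂ) (grd u x) = 2 * psi u x := by
      unfold psi; ring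
    rw [e5]
    have e6 : (‖p‖ ^ 2 - ‖q‖ ^ 2) * (2 * psi u x * B k).re
        = (2 * psi u x * (((‖p‖ ^ 2 - ‖q‖ ^ 2 : ℝ) : ℂ) * B k)).re := by
      rw [show 2 * psi u x * (((‖p‖ ^ 2 - ‖q‖ ^ 2 : ℝ) : ℂ) * B k)
        = ((‖p‖ ^ 2 - ‖q‖ ^ 2 : ℝ) : ℂ) * (2 * psi u x * B k) by ring, Complex.re_ofReal_mul]
    rw [e6, hJB]
    have e7 : (psi u x * (q * (starRingEnd ℂ) k)).re
        = ((starRingEnd ℂ) (psi u x) * (starRingEnd ℂ) q * k).re := by
      have : (starRingEnd ℂ) (psi u x * (q * (starRingEnd ℂ) k))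
          = (starRingEnd ℂ) (psi u x) * (starRingEnd ℂ) q * k := by
        rw [map_mul, map_mul, Complex.conj_conj]; ring
      rw [← this, Complex.conj_re]
    have e8 : 2 * psi u x * ((starRingEnd ℂ) p * k - q * (starRingEnd ℂ) k)
        = ((2 : ℝ) : ℂ) * (psi u x * (starRingEnd ℂ) p * k - psi u x * (q * (starRingEnd ℂ) k)) := by
      push_cast; ring
    rw [e8, Complex.re_ofReal_mul, Complex.sub_re, e7, ← Complex.sub_re, ← sub_mul]
  set J := ‖p‖ ^ 2 - ‖q‖ ^ 2 with hJdef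
  have hg : grd (fun w => u (G.symm w)) (G x) = ⟨2 * c.re / J, -(2 * c.im) / J⟩ := by
    unfold grd
    have h1 := hv 1
    have hI := hv Complex.I
    rw [mul_one] at h1
    have hcI : (c * Complex.I).re = -c.im := by simp
    rw [hcI] at hI
    apply Complex.ext
    · show fderiv ℝ (fun w => u (G.symm w)) (G x) 1 = 2 * c.re / J
      rw [eq_div_iff hJ.ne']
      linarith
    · show fderiv ℝ (fun w => u (G.symm w)) (G x) Complex.I = -(2 * c.im) / J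
      rw [eq_div_iff hJ.ne']
      linarith
  rw [hg, ← Complex.normSq_eq_norm_sq, ← Complex.normSq_eq_norm_sq, Complex.normSq_apply,
    Complex.normSq_apply]
  field_simp
  ring

/-- Norms of `del` and `dbar`. -/
theorem del_dbar_le (f : ℂ → ℂ) (w : ℂ) :
    ‖del f w - 1‖ ≤ ‖fderiv ℝ f w - ContinuousLinearMap.id ℝ ℂ‖ ∧
    ‖dbar f w‖ ≤ ‖fderiv ℝ f w - ContinuousLinearMap.id ℝ ℂ‖ ∧ ‖dbar f w‖ ≤ ‖fderiv ℝ f w‖ := by
  set A := fderiv ℝ f w with hA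
  set D := A - ContinuousLinearMap.id ℝ ℂ with hD
  have hD1 : D 1 = A 1 - 1 := by simp [hD]
  have hDI : D Complex.I = A Complex.I - Complex.I := by simp [hD]
  have n1 : ‖D 1‖ ≤ ‖D‖ := by simpa using D.le_opNorm 1
  have nI : ‖D Complex.I‖ ≤ ‖D‖ := by simpa using D.le_opNorm Complex.I
  have m1 : ‖A 1‖ ≤ ‖A‖ := by simpa using A.le_opNorm 1
  have mI : ‖A Complex.I‖ ≤ ‖A‖ := by simpa using A.le_opNorm Complex.I
  have hI2 : Complex.I * Complex.I = -1 := Complex.I_mul_I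
  refine ⟨?_, ?_, ?_⟩
  · have e : del f w - 1 = (D 1 - Complex.I * D Complex.I) / 2 := by
      unfold del
      rw [← hA, hD1, hDI]
      linear_combination (-1 / 2 : ℂ) * hI2
    rw [e, norm_div, Complex.norm_two]
    have := norm_sub_le (D 1) (Complex.I * D Complex.I)
    rw [norm_mul, Complex.norm_I, one_mul] at this
    linarith
  · have e : dbar f w = (D 1 + Complex.I * D Complex.I) / 2 := by
      unfold dbar
      rw [← hA, hD1, hDI]
      linear_combination (1 / 2 : ℂ) * hI2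
    rw [e, norm_div, Complex.norm_two]
    have := norm_add_le (D 1) (Complex.I * D Complex.I)
    rw [norm_mul, Complex.norm_I, one_mul] at this
    linarith
  · unfold dbar
    rw [← hA, norm_div, Complex.norm_two]
    have := norm_add_le (A 1) (Complex.I * A Complex.I)
    rw [norm_mul, Complex.norm_I, one_mul] at this
    linarith
/- END gh -/

/- MODULE gi
Pointwise estimate: `‖p - 1‖ ≤ l ≤ 1/4`, `‖q‖ ≤ l`:
`‖ψ conj p - conj ψ conj q‖² = ‖ψ‖² (‖p‖² + ‖q‖²) - 2 Re (ψ² conj p q)`, so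
`4 ‖..‖² / J ≤ 4 ‖ψ‖² - 8 Re (ψ² q) + 4 ‖ψ‖² 2 ‖q‖² / J + 8 ‖ψ‖² ‖q‖ ‖conj p / J - 1‖` and
`J ≥ 1/2`, `‖conj p / J - 1‖ ≤ 10 l`.  (Constant `100` is generous.) -/
theorem energy_le {ψ p q : ℂ} {l : ℝ} (hl : l ≤ 1 / 4) (hp : ‖p - 1‖ ≤ l) (hq : ‖q‖ ≤ l) :
    4 * ‖ψ * (starRingEnd ℂ) p - (starRingEnd ℂ) ψ * (starRingEnd ℂ) q‖ ^ 2 /
      (‖p‖ ^ 2 - ‖q‖ ^ 2) ≤ 4 * ‖ψ‖ ^ 2 - 8 * (ψ ^ 2 * q).re + 100 * l * ‖q‖ * ‖ψ‖ ^ 2 := by
  have hl0 : 0 ≤ l := (norm_nonneg q).trans hq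
  have hp1 : ‖p‖ ≤ 1 + l := by
    have : p = (p - 1) + 1 := by ring
    calc ‖p‖ = ‖(p - 1) + 1‖ := by rw [← this]
      _ ≤ ‖p - 1‖ + ‖(1 : ℂ)‖ := norm_add_le _ _
      _ ≤ 1 + l := by rw [norm_one]; linarith
  have hp2 : 1 - l ≤ ‖p‖ := by
    have h1 : ‖(1 : ℂ)‖ ≤ ‖p‖ + ‖p - 1‖ := by
      calc ‖(1 : ℂ)‖ = ‖p - (p - 1)‖ := by congr 1; ring
        _ ≤ ‖p‖ + ‖p - 1‖ := norm_sub_le _ _
    rw [norm_one] at h1
    linarith
  have hq0 := norm_nonneg q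
  have ha0 := norm_nonneg ψ
  have hpp : p * (starRingEnd ℂ) p = ((‖p‖ ^ 2 : ℝ) : ℂ) := by
    rw [Complex.mul_conj, Complex.normSq_eq_norm_sq]
  set J := ‖p‖ ^ 2 - ‖q‖ ^ 2 with hJdef
  have hJ : 1 / 2 ≤ J := by nlinarith
  have hJ0 : 0 < J := by linarith
  have hJ1 : |1 - J| ≤ 5 / 2 * l := by
    rw [abs_le]
    constructor <;> nlinarith
  have hN : ‖ψ * (starRingEnd ℂ) p - (starRingEnd ℂ) ψ * (starRingEnd ℂ) q‖ ^ 2
      = ‖ψ‖ ^ 2 * (‖p‖ ^ 2 + ‖q‖ ^ 2) - 2 * (ψ ^ 2 * q * (starRingEnd ℂ) p).re := by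
    simp only [← Complex.normSq_eq_norm_sq]
    simp only [Complex.normSq_apply, Complex.sub_re, Complex.sub_im, Complex.mul_re, Complex.mul_im,
      Complex.conj_re, Complex.conj_im, pow_two]
    ring
  rw [div_le_iff₀ hJ0, hN]
  have hkey : (ψ ^ 2 * q * ((J : ℂ) - (starRingEnd ℂ) p)).re
      ≤ ‖ψ‖ ^ 2 * ‖q‖ * (7 / 2 * l) := by
    refine (Complex.re_le_norm _).trans ?_
    rw [norm_mul, norm_mul, norm_pow]
    apply mul_le_mul_of_nonneg_left _ (by positivity)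
    have h1 : (J : ℂ) - (starRingEnd ℂ) p = -(((1 - J : ℝ) : ℂ)) - (starRingEnd ℂ) (p - 1) := by
      rw [map_sub, map_one]; push_cast; ring
    calc ‖(J : ℂ) - (starRingEnd ℂ) p‖ ≤ ‖-(((1 - J : ℝ) : ℂ))‖ + ‖(starRingEnd ℂ) (p - 1)‖ := by
          rw [h1]; exact norm_sub_le _ _
      _ ≤ 5 / 2 * l + l := by
          rw [norm_neg, Complex.norm_real, Complex.norm_conj, Real.norm_eq_abs]
          exact add_le_add hJ1 hp
      _ = 7 / 2 * l := by ring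
  have hX : (ψ ^ 2 * q * ((J : ℂ) - (starRingEnd ℂ) p)).re
      = J * (ψ ^ 2 * q).re - (ψ ^ 2 * q * (starRingEnd ℂ) p).re := by
    rw [mul_sub, Complex.sub_re, mul_comm (ψ ^ 2 * q) (J : ℂ), Complex.re_ofReal_mul]
  rw [hX] at hkey
  have hqq : ‖q‖ ^ 2 ≤ l * ‖q‖ := by nlinarith
  have h5 : ‖ψ‖ ^ 2 * ‖q‖ ^ 2 ≤ ‖ψ‖ ^ 2 * (l * ‖q‖) := mul_le_mul_of_nonneg_left hqq (by positivity)
  have h6 : 0 ≤ l * ‖q‖ * ‖ψ‖ ^ 2 := by positivity
  have h7 : (1 / 2) * (l * ‖q‖ * ‖ψ‖ ^ 2) ≤ J * (l * ‖q‖ * ‖ψ‖ ^ 2) :=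
    mul_le_mul_of_nonneg_right hJ h6
  have h8 : (4 * ‖ψ‖ ^ 2 - 8 * (ψ ^ 2 * q).re + 100 * l * ‖q‖ * ‖ψ‖ ^ 2) * J
      = 4 * ‖ψ‖ ^ 2 * J - 8 * (J * (ψ ^ 2 * q).re) + 100 * (J * (l * ‖q‖ * ‖ψ‖ ^ 2)) := by ring
  rw [h8, hJdef]
  rw [hJdef] at hkey h7
  nlinarith
/- END gi -/

/- MODULE gj
Change of variables: `En (u ∘ G⁻¹) = ∫ ‖grd (u ∘ G⁻¹)‖² = ∫ |det DG| ‖grd (u ∘ G⁻¹) (G x)‖²`
(`integral_image_eq_integral_abs_det_fderiv_smul` on `{0}ᶜ`, `G 0 = 0`), then `energy_point` (hypotheses: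
`gm_deriv`, `del_dbar_le`, `lam ≤ 1/4`) and `energy_le` with `l = lam` and
`‖q‖ ≤ 3 t + e`, `e = M (t κ (1 + (2/h)²) + 2 (t Λ)² (2/h))`, if `‖dbar V‖ ≤ 1`. -/
theorem En_gm {z δ : ℂ} {Λ κ t h M : ℝ} {V : ℂ → ℂ} {β : ℂ → ℝ} {S : Set ℂ} {u : ℂ → ℝ}
    (hD : Dom z S) (hF : Fun S u) (h0 : 0 < h) (hβ : Bet S h M β) (hV : Vec z δ Λ κ V)
    (hV1 : ∀ w, ‖dbar V w‖ ≤ 1) (hκ : 0 ≤ κ) (ht : 0 ≤ t) (hM : 0 ≤ M) (hΛ : 0 ≤ Λ)
    (hl : lam t Λ κ h M ≤ 1 / 4) {G : ℂ ≃ₜ ℂ} (hG : ∀ w, G w = gm t V β w) :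
    En (fun w => u (G.symm w)) ≤ En u - 8 * (∫ w, (psi u w ^ 2 * dbar (gm t V β) w).re) +
      100 * lam t Λ κ h M *
        (3 * t + M * (t * κ * (1 + (2 / h) ^ 2) + 2 * (t * Λ) ^ 2 * (2 / h))) * En u := by
  have he0 : 0 ≤ M * (t * κ * (1 + (2 / h) ^ 2) + 2 * (t * Λ) ^ 2 * (2 / h)) := by positivity
  have htΛ0 : 0 ≤ t * Λ := mul_nonneg ht hΛ
  have hlam0 : 0 ≤ lam t Λ κ h M := by unfold lam; positivity
  have htΛ : t * Λ ≤ 1 / 4 := by
    unfold lam at hl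
    linarith
  obtain ⟨G', hG', hG0, -, hGd⟩ := exists_homeo_gm h0 hβ hV hκ ht hM hΛ hl
  have hGG : G' = G := by
    apply Homeomorph.ext
    intro w
    rw [hG', hG]
  subst hGG
  have hfun : (G' : ℂ → ℂ) = gm t V β := funext hG
  set e : ℝ := M * (t * κ * (1 + (2 / h) ^ 2) + 2 * (t * Λ) ^ 2 * (2 / h)) with he
  set l : ℝ := lam t Λ κ h M with hldef
  -- facts at a point
  have hq : ∀ x : ℂ, x ≠ 0 → ‖del G' x - 1‖ ≤ l ∧ ‖dbar G' x‖ ≤ l ∧ ‖dbar G' x‖ ≤ 3 * t + e := by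
    intro x hx
    obtain ⟨-, g2, g3⟩ := gm_deriv h0 hβ hV hκ ht hM htΛ hx
    rw [hfun]
    obtain ⟨a1, a2, -⟩ := del_dbar_le (gm t V β) x
    refine ⟨a1.trans g2, a2.trans g2, ?_⟩
    have b0 : ‖(t : ℂ)‖ = t := by rw [Complex.norm_real, Real.norm_of_nonneg ht]
    obtain ⟨hb0, hb1⟩ := hβ.bnd x
    have b1 : ‖(β x : ℂ)‖ = β x := by rw [Complex.norm_real, Real.norm_of_nonneg hb0]
    have b2 : ‖(1 : ℂ) - β x‖ = 1 - β x := by
      rw [← Complex.ofReal_one, ← Complex.ofReal_sub, Complex.norm_real, Real.norm_of_nonneg (by linarith)]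
    have b3 : ‖rat x⁻¹‖ ≤ 1 := by
      unfold rat
      rw [norm_div, norm_pow, norm_pow, RCLike.norm_conj]
      exact div_self_le_one _
    have b4 : ‖(t : ℂ) * (β x * dbar V x + (1 - β x) * (rat x⁻¹ * dbar V x⁻¹))‖ ≤ t := by
      rw [norm_mul, b0]
      have b5 : ‖(β x : ℂ) * dbar V x + (1 - β x) * (rat x⁻¹ * dbar V x⁻¹)‖ ≤ 1 := by
        refine le_trans (norm_add_le _ _) ?_
        rw [norm_mul, norm_mul, norm_mul, b1, b2]
        have hb2 : 0 ≤ 1 - β x := by linarith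
        calc β x * ‖dbar V x‖ + (1 - β x) * (‖rat x⁻¹‖ * ‖dbar V x⁻¹‖)
            ≤ β x * 1 + (1 - β x) * (1 * 1) := by
              gcongr
              · exact hV1 x
              · exact hV1 _
          _ = 1 := by ring
      calc t * _ ≤ t * 1 := by gcongr
        _ = t := by ring
    have b6 : 8 * (t * Λ) * (t * ‖dbar V x⁻¹‖) ≤ 2 * t := by
      calc 8 * (t * Λ) * (t * ‖dbar V x⁻¹‖) ≤ 8 * (1 / 4) * (t * 1) := by
            gcongr
            exact hV1 _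
        _ = 2 * t := by ring
    have b7 := norm_sub_norm_le (dbar (gm t V β) x)
      (t * (β x * dbar V x + (1 - β x) * (rat x⁻¹ * dbar V x⁻¹)))
    linarith
  -- change of variables
  have hcv : En (fun w => u (G'.symm w)) =
      ∫ x in ({0}ᶜ : Set ℂ), |(fderiv ℝ G' x).det| • ‖grd (fun w => u (G'.symm w)) (G' x)‖ ^ 2 := by
    have himg : (G' : ℂ → ℂ) '' ({0}ᶜ : Set ℂ) = {0}ᶜ := by
      rw [← Homeomorph.coe_toEquiv, Equiv.image_compl, Set.image_singleton]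
      rw [Homeomorph.coe_toEquiv, hG0]
    have h1 := integral_image_eq_integral_abs_det_fderiv_smul (volume : Measure ℂ)
      (s := ({0}ᶜ : Set ℂ)) (f := G') (f' := fun x => fderiv ℝ G' x) (measurableSet_singleton 0).compl
      (by
        intro x hx
        have hx' : x ≠ 0 := hx
        have c1 := (gm_deriv h0 hβ hV hκ ht hM htΛ hx').1
        rw [← hfun] at c1
        exact (c1.differentiableAt (by norm_num)).hasFDerivAt.hasFDerivWithinAt)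
      (G'.injective.injOn) (fun w => ‖grd (fun w => u (G'.symm w)) w‖ ^ 2)
    rw [himg] at h1
    rw [← h1, restrict_compl_singleton]
    rfl
  have hu1 : ContDiff ℝ 1 u := hF.smo
  have hP := plat_of_fun hD hF
  have hint := integrable_grd_sq hD hP
  have hcg := continuous_grd hu1
  have hcpsi : Continuous (psi u) := by
    unfold psi
    exact (Complex.continuous_conj.comp hcg).div_const 2
  have hmq : Measurable (fun w => dbar (gm t V β) w) := by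
    unfold dbar
    exact ((measurable_fderiv_apply_const ℝ _ 1).add
      (measurable_const.mul (measurable_fderiv_apply_const ℝ _ Complex.I))).div_const 2
  have hae : ∀ᵐ w : ℂ, w ≠ 0 := by
    rw [ae_iff]
    simp
  have hint2 : Integrable (fun w => (psi u w ^ 2 * dbar (gm t V β) w).re) := by
    refine Integrable.mono' hint ?_ ?_
    · exact (Complex.measurable_re.comp ((hcpsi.measurable.pow_const 2).mul hmq)).aestronglyMeasurable
    · filter_upwards [hae] with w hw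
      have h1 := (hq w hw).2.1
      rw [hfun] at h1
      have h2 := norm_grd_sq u w
      rw [Real.norm_eq_abs]
      refine le_trans (Complex.abs_re_le_norm _) ?_
      rw [norm_mul, norm_pow]
      have h3 : 0 ≤ ‖psi u w‖ ^ 2 := by positivity
      have h4 : ‖dbar (gm t V β) w‖ ≤ 4 := by linarith
      calc ‖psi u w‖ ^ 2 * ‖dbar (gm t V β) w‖ ≤ ‖psi u w‖ ^ 2 * 4 := by gcongr
        _ = ‖grd u w‖ ^ 2 := by rw [h2]; ring
  rw [hcv]
  have hH : Integrable (fun w => ‖grd u w‖ ^ 2 - 8 * (psi u w ^ 2 * dbar (gm t V β) w).re +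
      100 * l * (3 * t + e) * ‖grd u w‖ ^ 2) :=
    (hint.sub (hint2.const_mul 8)).add (hint.const_mul _)
  have hmono : ∫ x in ({0}ᶜ : Set ℂ), |(fderiv ℝ G' x).det| •
      ‖grd (fun w => u (G'.symm w)) (G' x)‖ ^ 2 ≤ ∫ w in ({0}ᶜ : Set ℂ), (‖grd u w‖ ^ 2 -
        8 * (psi u w ^ 2 * dbar (gm t V β) w).re + 100 * l * (3 * t + e) * ‖grd u w‖ ^ 2) := by
    refine integral_mono_of_nonneg (Filter.Eventually.of_forall fun x => ?_) hH.integrableOn ?_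
    · exact mul_nonneg (abs_nonneg _) (by positivity)
    · refine (ae_restrict_mem (measurableSet_singleton 0).compl).mono ?_
      intro x hx
      have hx' : x ≠ 0 := hx
      obtain ⟨q1, q2, q3⟩ := hq x hx'
      have c1 := (gm_deriv h0 hβ hV hκ ht hM htΛ hx').1
      rw [← hfun] at c1
      have hGx : G' x ≠ 0 := by
        intro hh
        apply hx'
        apply G'.injective
        rw [hh, hG0]
      have hpn : 3 / 4 ≤ ‖del G' x‖ := by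
        have h1 := norm_sub_norm_le (1 : ℂ) (del G' x)
        rw [norm_one, norm_sub_rev] at h1
        linarith
      have hlt : ‖dbar G' x‖ < ‖del G' x‖ := by linarith
      obtain ⟨r1, r2⟩ := energy_point (u := u) (G := G') (x := x)
        ((hu1.differentiable (by norm_num)).differentiableAt) (c1.differentiableAt (by norm_num))
        ((hGd _ hGx).differentiableAt (by norm_num)) hlt
      have hJ : 0 < ‖del G' x‖ ^ 2 - ‖dbar G' x‖ ^ 2 := by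
        have := norm_nonneg (dbar G' x)
        nlinarith
      have r3 := energy_le (ψ := psi u x) hl q1 q2
      show |(fderiv ℝ G' x).det| * ‖grd (fun w => u (G'.symm w)) (G' x)‖ ^ 2 ≤ _
      rw [r1, abs_of_pos hJ, r2]
      refine le_trans r3 ?_
      have h2 := norm_grd_sq u x
      have h3 : 0 ≤ ‖psi u x‖ ^ 2 := by positivity
      rw [← hfun]
      show 4 * ‖psi u x‖ ^ 2 - 8 * (psi u x ^ 2 * dbar G' x).re + 100 * l * ‖dbar G' x‖ * ‖psi u x‖ ^ 2 ≤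
        ‖grd u x‖ ^ 2 - 8 * (psi u x ^ 2 * dbar G' x).re + 100 * l * (3 * t + e) * ‖grd u x‖ ^ 2
      have h4 : 100 * l * ‖dbar G' x‖ * ‖psi u x‖ ^ 2 ≤ 100 * l * (3 * t + e) * ‖grd u x‖ ^ 2 := by
        rw [h2]
        have h5 : ‖psi u x‖ ^ 2 ≤ 4 * ‖psi u x‖ ^ 2 := by linarith
        gcongr
      rw [h2] at h4 ⊢
      linarith
  refine hmono.trans (le_of_eq ?_)
  have hs1 : Integrable (fun w => ‖grd u w‖ ^ 2 - 8 * (psi u w ^ 2 * dbar (gm t V β) w).re) :=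
    hint.sub (hint2.const_mul 8)
  have hs2 : Integrable (fun w => 100 * l * (3 * t + e) * ‖grd u w‖ ^ 2) := hint.const_mul _
  rw [restrict_compl_singleton, integral_add hs1 hs2, integral_sub hint (hint2.const_mul 8),
    integral_const_mul, integral_const_mul]
  rfl
/- END gj -/

/- MODULE gk
The linear term.  `dbar (gm ..) = t (β dbar V + (1 - β) rat w⁻¹ dbar V w⁻¹) + error` (`gm_deriv`),
`∫ ‖psi u‖² = En u / 4`, and by `integral_inv`, `psi u w⁻¹ = w² psi u w` (from `u ∘ inv = -u` and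
`psi_inv`), `β w⁻¹ = 1 - β w`:
`∫ (1 - β w) psi² rat w⁻¹ dbar V w⁻¹ = ∫ β psi² dbar V`.  (`psi u ^ 2` is continuous with compact
support, `dbar V` is bounded continuous.) -/
private theorem gk_psi_inv {S : Set ℂ} {u : ℂ → ℝ} (hF : Fun S u) {w : ℂ} (hw : w ≠ 0) :
    psi u w⁻¹ = w ^ 2 * psi u w := by
  have hd : Differentiable ℝ u := hF.smo.differentiable (by norm_num)
  have h1 := psi_inv (u := u) hw (hd _)
  have h2 : fderiv ℝ (fun x => u x⁻¹) w = -fderiv ℝ u w := by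
    have h3 : (fun x => u x⁻¹) =ᶠ[nhds w] fun x => -u x := by
      filter_upwards [isOpen_ne.mem_nhds hw] with x hx
      exact hF.inv x hx
    rw [h3.fderiv_eq, fderiv_fun_neg]
  have h4 : psi (fun x => u x⁻¹) w = -psi u w := by
    unfold psi grd
    rw [h2]
    simp only [neg_apply]
    rw [Complex.ext_iff]
    constructor <;> simp <;> ring
  rw [h4] at h1
  have h5 : psi u w⁻¹ / w ^ 2 = psi u w := by
    rw [neg_div] at h1
    exact (neg_injective h1).symm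
  rw [← h5]
  field_simp

private theorem gk_rat {w : ℂ} (hw : w ≠ 0) : (((‖w‖ ^ 4)⁻¹ : ℝ) : ℂ) * w ^ 4 = rat w⁻¹ := by
  unfold rat
  have h1 : (starRingEnd ℂ) w ≠ 0 := by simpa using hw
  have h2 : ((‖w‖ ^ 4 : ℝ) : ℂ) = w ^ 2 * (starRingEnd ℂ) w ^ 2 := by
    have h3 : ((‖w‖ ^ 2 : ℝ) : ℂ) = w * (starRingEnd ℂ) w := by
      rw [Complex.mul_conj, Complex.normSq_eq_norm_sq]
    have h4 : ‖w‖ ^ 4 = (‖w‖ ^ 2) * (‖w‖ ^ 2) := by ring
    rw [h4, Complex.ofReal_mul, h3]; ring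
  rw [Complex.ofReal_inv, h2, map_inv₀]
  field_simp

theorem linear_term {z δ : ℂ} {Λ κ t h M : ℝ} {V : ℂ → ℂ} {β : ℂ → ℝ} {S : Set ℂ} {u : ℂ → ℝ}
    (hD : Dom z S) (hF : Fun S u) (h0 : 0 < h) (hβ : Bet S h M β) (hV : Vec z δ Λ κ V)
    (hV1 : ∀ w, ‖dbar V w‖ ≤ 1) (hκ : 0 ≤ κ) (ht : 0 ≤ t) (hM : 0 ≤ M) (hΛ : 0 ≤ Λ)
    (hl : t * Λ ≤ 1 / 4) :
    2 * t * (∫ w, (β w * psi u w ^ 2 * dbar V w).re) -
      (8 * (t * Λ) * t + M * (t * κ * (1 + (2 / h) ^ 2) + 2 * (t * Λ) ^ 2 * (2 / h))) * En u / 4 ≤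
      ∫ w, (psi u w ^ 2 * dbar (gm t V β) w).re := by
  set e1 : ℝ := M * (t * κ * (1 + (2 / h) ^ 2) + 2 * (t * Λ) ^ 2 * (2 / h)) with he1
  set e : ℝ := 8 * (t * Λ) * t + e1 with he
  have he1n : 0 ≤ e1 := by positivity
  have hen : 0 ≤ e := by positivity
  have hcg : Continuous (grd u) := continuous_grd hF.smo
  have hsg : HasCompactSupport (grd u) := grd_compactSupport hD (plat_of_fun hD hF)
  have hcψ : Continuous (psi u) := by
    unfold psi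
    exact (Complex.continuous_conj.comp hcg).div_const _
  have hsψ : HasCompactSupport (psi u) := by
    have : psi u = (fun x : ℂ => (starRingEnd ℂ) x / 2) ∘ grd u := rfl
    rw [this]
    exact hsg.comp_left (by simp)
  have i0 : Integrable fun w => psi u w ^ 2 :=
    Continuous.integrable_of_hasCompactSupport (by fun_prop)
      (hsψ.comp_left (g := fun x : ℂ => x ^ 2) (by simp))
  have i0n : Integrable fun w => ‖psi u w‖ ^ 2 :=
    Continuous.integrable_of_hasCompactSupport (by fun_prop)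
      (hsψ.comp_left (g := fun x : ℂ => ‖x‖ ^ 2) (by simp))
  -- measurability
  have hmd : ∀ f : ℂ → ℂ, Measurable (dbar f) := by
    intro f
    unfold dbar
    have h1 := measurable_fderiv_apply_const ℝ f (1 : ℂ)
    have h2 := measurable_fderiv_apply_const ℝ f Complex.I
    exact (h1.add (measurable_const.mul h2)).div_const _
  have hmr : Measurable fun w : ℂ => rat w⁻¹ := by
    unfold rat
    exact ((Complex.continuous_conj.measurable.comp measurable_inv).pow_const 2).div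
      (measurable_inv.pow_const 2)
  have hrat : ∀ w : ℂ, ‖rat w‖ ≤ 1 := by
    intro w
    unfold rat
    rw [norm_div, norm_pow, norm_pow, RCLike.norm_conj]
    exact div_self_le_one _
  have hD0 : (starRingEnd ℂ) (1 : ℂ) = 1 := by simp
  -- integrability of the pieces
  have hA : Integrable fun w => psi u w ^ 2 * ((β w : ℂ) * dbar V w) := by
    refine i0.mul_bdd (c := 1) ?_ ?_
    · exact ((Complex.continuous_ofReal.comp hβ.smo.continuous).measurable.mul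
        (hmd V)).aestronglyMeasurable
    · refine Filter.Eventually.of_forall fun w => ?_
      rw [norm_mul, Complex.norm_real, Real.norm_of_nonneg (hβ.bnd w).1]
      exact mul_le_one₀ (hβ.bnd w).2 (norm_nonneg _) (hV1 w)
  have hB : Integrable fun w => psi u w ^ 2 * (((1 - β w : ℝ) : ℂ) * (rat w⁻¹ * dbar V w⁻¹)) := by
    refine i0.mul_bdd (c := 1) ?_ ?_
    · refine Measurable.aestronglyMeasurable ?_
      refine Measurable.mul ?_ (hmr.mul ((hmd V).comp measurable_inv))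
      exact Complex.measurable_ofReal.comp (measurable_const.sub hβ.smo.continuous.measurable)
    · refine Filter.Eventually.of_forall fun w => ?_
      have h1 := hβ.bnd w
      rw [norm_mul, Complex.norm_real, Real.norm_of_nonneg (by linarith), norm_mul]
      exact mul_le_one₀ (by linarith) (by positivity)
        (mul_le_one₀ (hrat _) (norm_nonneg _) (hV1 _))
  have hne : ∀ᵐ w : ℂ, w ≠ 0 := by
    have : (volume : Measure ℂ) {0} = 0 := by simp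
    rw [ae_iff]
    simp
  have hbd : ∀ᵐ w : ℂ, ‖dbar (gm t V β) w -
      (t * (β w * dbar V w + (1 - β w) * (rat w⁻¹ * dbar V w⁻¹)))‖ ≤ e := by
    filter_upwards [hne] with w hw
    have h1 := (gm_deriv h0 hβ hV hκ ht hM hl hw).2.2
    refine h1.trans ?_
    have h2 : 8 * (t * Λ) * (t * ‖dbar V w⁻¹‖) ≤ 8 * (t * Λ) * t := by
      refine mul_le_mul_of_nonneg_left ?_ (by positivity)
      exact mul_le_of_le_one_right ht (hV1 _)
    linarith
  have hq : Integrable fun w => psi u w ^ 2 * dbar (gm t V β) w := by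
    refine i0.mul_bdd (c := e + 2 * t) (hmd _).aestronglyMeasurable ?_
    filter_upwards [hbd] with w hw
    have h1 := hβ.bnd w
    have h2 : ‖(t : ℂ) * (β w * dbar V w + (1 - β w) * (rat w⁻¹ * dbar V w⁻¹))‖ ≤ 2 * t := by
      rw [norm_mul, Complex.norm_real, Real.norm_of_nonneg ht, mul_comm 2 t]
      refine mul_le_mul_of_nonneg_left ((norm_add_le _ _).trans ?_) ht
      have a1 : ‖(β w : ℂ) * dbar V w‖ ≤ 1 := by
        rw [norm_mul, Complex.norm_real, Real.norm_of_nonneg h1.1]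
        exact mul_le_one₀ h1.2 (norm_nonneg _) (hV1 w)
      have a2 : ‖(1 - β w : ℂ) * (rat w⁻¹ * dbar V w⁻¹)‖ ≤ 1 := by
        have : (1 - β w : ℂ) = ((1 - β w : ℝ) : ℂ) := by push_cast; ring
        rw [this, norm_mul, Complex.norm_real, Real.norm_of_nonneg (by linarith), norm_mul]
        exact mul_le_one₀ (by linarith) (by positivity)
          (mul_le_one₀ (hrat _) (norm_nonneg _) (hV1 _))
      linarith
    calc ‖dbar (gm t V β) w‖ = ‖(dbar (gm t V β) w -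
        (t * (β w * dbar V w + (1 - β w) * (rat w⁻¹ * dbar V w⁻¹)))) +
        (t * (β w * dbar V w + (1 - β w) * (rat w⁻¹ * dbar V w⁻¹)))‖ := by ring_nf
      _ ≤ e + 2 * t := (norm_add_le _ _).trans (add_le_add hw h2)
  -- the inversion
  have hinv : ∫ w, psi u w ^ 2 * (((1 - β w : ℝ) : ℂ) * (rat w⁻¹ * dbar V w⁻¹)) =
      ∫ w, psi u w ^ 2 * ((β w : ℂ) * dbar V w) := by
    rw [← integral_inv (fun w => psi u w ^ 2 * ((β w : ℂ) * dbar V w))]
    refine integral_congr_ae ?_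
    filter_upwards [hne] with w hw
    rw [gk_psi_inv hF hw, hβ.inv w hw, ← gk_rat hw, Complex.real_smul]
    ring
  have hintre : ∀ f : ℂ → ℂ, Integrable f → ∫ w, (f w).re = (∫ w, f w).re := by
    intro f hf
    exact integral_re hf
  have hIψ : ∫ w, ‖psi u w‖ ^ 2 = En u / 4 := by
    unfold En
    have : (fun w => ‖grd u w‖ ^ 2) = fun w => 4 * ‖psi u w‖ ^ 2 := by
      funext w; exact norm_grd_sq u w
    rw [this, integral_const_mul]; ring
  have hAr : ∫ w, (β w * psi u w ^ 2 * dbar V w).re =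
      (∫ w, psi u w ^ 2 * ((β w : ℂ) * dbar V w)).re := by
    rw [← hintre _ hA]
    refine integral_congr_ae (Filter.Eventually.of_forall fun w => ?_)
    simp only
    congr 1; ring
  -- the main inequality
  have hmono : ∫ w, (t * (psi u w ^ 2 * ((β w : ℂ) * dbar V w)).re +
      t * (psi u w ^ 2 * (((1 - β w : ℝ) : ℂ) * (rat w⁻¹ * dbar V w⁻¹))).re -
      e * ‖psi u w‖ ^ 2) ≤ ∫ w, (psi u w ^ 2 * dbar (gm t V β) w).re := by
    refine integral_mono_ae (((hA.re.const_mul t).add (hB.re.const_mul t)).sub (i0n.const_mul e))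
      hq.re ?_
    filter_upwards [hbd] with w hw
    have h1 : psi u w ^ 2 * dbar (gm t V β) w =
        (t : ℂ) * (psi u w ^ 2 * ((β w : ℂ) * dbar V w)) +
        (t : ℂ) * (psi u w ^ 2 * (((1 - β w : ℝ) : ℂ) * (rat w⁻¹ * dbar V w⁻¹))) +
        psi u w ^ 2 * (dbar (gm t V β) w -
        (t * (β w * dbar V w + (1 - β w) * (rat w⁻¹ * dbar V w⁻¹)))) := by
      push_cast; ring
    rw [h1, Complex.add_re, Complex.add_re, Complex.re_ofReal_mul, Complex.re_ofReal_mul]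
    have h2 : |(psi u w ^ 2 * (dbar (gm t V β) w -
        (t * (β w * dbar V w + (1 - β w) * (rat w⁻¹ * dbar V w⁻¹))))).re| ≤ e * ‖psi u w‖ ^ 2 := by
      refine (Complex.abs_re_le_norm _).trans ?_
      rw [norm_mul, norm_pow, mul_comm]
      exact mul_le_mul_of_nonneg_right hw (sq_nonneg _)
    have h3 := (abs_le.1 h2).1
    linarith
  have j1 : Integrable fun w => t * (psi u w ^ 2 * ((β w : ℂ) * dbar V w)).re := hA.re.const_mul t
  have j2 : Integrable fun w =>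
      t * (psi u w ^ 2 * (((1 - β w : ℝ) : ℂ) * (rat w⁻¹ * dbar V w⁻¹))).re := hB.re.const_mul t
  have j3 : Integrable fun w => t * (psi u w ^ 2 * ((β w : ℂ) * dbar V w)).re +
      t * (psi u w ^ 2 * (((1 - β w : ℝ) : ℂ) * (rat w⁻¹ * dbar V w⁻¹))).re := j1.add j2
  rw [integral_sub j3 (i0n.const_mul e), integral_add j1 j2, integral_const_mul,
    integral_const_mul, integral_const_mul, hintre _ hA, hintre _ hB, hinv, hIψ] at hmono
  rw [hAr]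
  linarith
/- END gk -/

/- MODULE gl
THE DEFORMATION.  `S' = fm t V '' S` (`dom_image`), `u' = sym (u ∘ G⁻¹)` (`exists_homeo_gm`, `plat_gm`,
`fun_sym` for `z + t δ`), `En u' ≤ En (u ∘ G⁻¹)`, `En_gm`, `linear_term`.  With `1 ≤ Λ`, `t Λ ≤ c`,
`t κ ≤ c` (`c` small depending on `h, M`) `lam ≤ 1/4`, and
`lam ≤ C t (Λ + κ)`-type bounds: everything beyond the linear term is at most `C t (κ + t Λ²) En u`
(use `κ ≤ 1`). -/
private theorem gl_a {A B M L t κ Λ e : ℝ} (hA : 0 < A) (hB : 0 < B) (hM : 0 < M)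
    (hL : L = 7 + M * (A + B)) (ht : 0 ≤ t) (hκ : 0 ≤ κ) (hκ1 : κ ≤ 1) (hΛ : 1 ≤ Λ)
    (hc : t * Λ ≤ 1 / (4 * L)) (he : e = M * (t * κ * A + (t * Λ) ^ 2 * B)) :
    7 * (t * Λ) + e ≤ 1 / 4 ∧ t * Λ ≤ 1 / 4 ∧ t ≤ 1 ∧ 0 ≤ e ∧
      e ≤ M * (A + B) * (t * (κ + t * Λ ^ 2)) ∧ t * Λ * t ≤ t * (κ + t * Λ ^ 2) := by
  have hMAB : 0 < M * (A + B) := mul_pos hM (add_pos hA hB)
  have hL7 : 7 ≤ L := by linarith
  have hx0 : 0 ≤ t * Λ := mul_nonneg ht (by linarith)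
  have hxL : t * Λ * L ≤ 1 / 4 := by
    have h1 : t * Λ * L ≤ 1 / (4 * L) * L := mul_le_mul_of_nonneg_right hc (by linarith)
    have h2 : 1 / (4 * L) * L = 1 / 4 := by field_simp
    linarith
  have htx : t ≤ t * Λ := le_mul_of_one_le_right ht hΛ
  have hx7 : t * Λ * 7 ≤ t * Λ * L := mul_le_mul_of_nonneg_left hL7 hx0
  have hx1 : t * Λ ≤ 1 := by linarith
  have htκ : t * κ ≤ t * Λ := mul_le_mul_of_nonneg_left (by linarith) ht
  have htκ0 : 0 ≤ t * κ := mul_nonneg ht hκ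
  have hx2 : (t * Λ) ^ 2 ≤ t * Λ := by
    rw [sq]
    exact mul_le_of_le_one_right hx0 hx1
  have he1 : e ≤ M * (t * Λ * A + t * Λ * B) := by
    rw [he]
    refine mul_le_mul_of_nonneg_left (add_le_add ?_ ?_) hM.le
    · exact mul_le_mul_of_nonneg_right htκ hA.le
    · exact mul_le_mul_of_nonneg_right hx2 hB.le
  have he2 : M * (t * Λ * A + t * Λ * B) = t * Λ * (L - 7) := by
    rw [hL]
    ring
  have hT : t * (κ + t * Λ ^ 2) = t * κ + (t * Λ) ^ 2 := by ring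
  refine ⟨?_, ?_, ?_, ?_, ?_, ?_⟩
  · linarith
  · linarith
  · linarith
  · rw [he]
    positivity
  · rw [he, hT]
    have h1 : M * (t * κ * A + (t * Λ) ^ 2 * B) ≤
        M * ((t * κ + (t * Λ) ^ 2) * A + (t * κ + (t * Λ) ^ 2) * B) := by
      refine mul_le_mul_of_nonneg_left (add_le_add ?_ ?_) hM.le
      · exact mul_le_mul_of_nonneg_right (by linarith [sq_nonneg (t * Λ)]) hA.le
      · exact mul_le_mul_of_nonneg_right (by linarith) hB.le
    refine h1.trans (le_of_eq ?_)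
    ring
  · rw [hT]
    have h1 : t * Λ * t ≤ t * Λ * (t * Λ) := mul_le_mul_of_nonneg_left htx hx0
    have h2 : t * Λ * (t * Λ) = (t * Λ) ^ 2 := by ring
    linarith

private theorem gl_b {x t e T K E I J Ev : ℝ} (ht1 : t ≤ 1) (he : 0 ≤ e)
    (hl : 7 * x + e ≤ 1 / 4) (hE : 0 ≤ E) (hxt : x * t ≤ T) (heT : e ≤ K * T)
    (h1 : Ev ≤ E - 8 * I + 100 * (7 * x + e) * (3 * t + e) * E)
    (h2 : 2 * t * J - (8 * x * t + e) * E / 4 ≤ I) :
    Ev ≤ E - 16 * t * J + (2116 + 402 * K) * T * E := by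
  have g1 : e * t ≤ e := mul_le_of_le_one_right he ht1
  have g2 : (7 * x + e) * e ≤ 1 / 4 * e := mul_le_mul_of_nonneg_right hl he
  have f3 : 100 * (7 * x + e) * (3 * t + e) ≤ 2100 * (x * t) + 400 * e := by
    have : 100 * (7 * x + e) * (3 * t + e) =
        2100 * (x * t) + 300 * (e * t) + 100 * ((7 * x + e) * e) := by ring
    rw [this]
    linarith
  have f4 : 100 * (7 * x + e) * (3 * t + e) * E ≤ (2100 * (x * t) + 400 * e) * E :=
    mul_le_mul_of_nonneg_right f3 hE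
  have f5 : (2116 * (x * t) + 402 * e) * E ≤ (2116 + 402 * K) * T * E := by
    refine mul_le_mul_of_nonneg_right ?_ hE
    have : (2116 + 402 * K) * T = 2116 * T + 402 * (K * T) := by ring
    rw [this]
    linarith
  have f6 : 8 * (2 * t * J - (8 * x * t + e) * E / 4) = 16 * t * J - (16 * (x * t) + 2 * e) * E := by
    ring
  have f7 : (2116 * (x * t) + 402 * e) * E =
      (16 * (x * t) + 2 * e) * E + (2100 * (x * t) + 400 * e) * E := by ring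
  linarith

theorem exists_deform {h M : ℝ} (h0 : 0 < h) (h1 : h ≤ 1 / 6) (hM : 0 < M) :
    ∃ C c : ℝ, 0 < C ∧ 0 < c ∧ ∀ (z δ : ℂ) (S : Set ℂ) (u β : ℂ → ℝ) (V : ℂ → ℂ) (Λ κ t : ℝ),
      Dom z S → Fun S u → Bet S h M β → Vec z δ Λ κ V → (∀ w, ‖dbar V w‖ ≤ 1) → 0 ≤ κ → κ ≤ 1 →
      1 ≤ Λ → 0 ≤ t → t * Λ ≤ c → ∃ (S' : Set ℂ) (u' : ℂ → ℝ), Dom (z + t * δ) S' ∧ Fun S' u' ∧
        En u' ≤ En u - 16 * t * (∫ w, (β w * psi u w ^ 2 * dbar V w).re) +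
          C * t * (κ + t * Λ ^ 2) * En u := by
  obtain ⟨A, hA⟩ : ∃ A : ℝ, A = 1 + (2 / h) ^ 2 := ⟨_, rfl⟩
  obtain ⟨B, hB⟩ : ∃ B : ℝ, B = 2 * (2 / h) := ⟨_, rfl⟩
  have hA0 : 0 < A := by rw [hA]; positivity
  have hB0 : 0 < B := by rw [hB]; positivity
  obtain ⟨L, hL⟩ : ∃ L : ℝ, L = 7 + M * (A + B) := ⟨_, rfl⟩
  have hL0 : 0 < L := by rw [hL]; positivity
  refine ⟨2116 + 402 * (M * (A + B)), 1 / (4 * L), by positivity, by positivity, ?_⟩
  intro z δ S u β V Λ κ t hD hF hβ hV hV1 hκ0 hκ1 hΛ1 ht htc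
  have hΛ0 : 0 ≤ Λ := by linarith
  obtain ⟨e, he⟩ : ∃ e : ℝ, e = M * (t * κ * (1 + (2 / h) ^ 2) + 2 * (t * Λ) ^ 2 * (2 / h)) :=
    ⟨_, rfl⟩
  have he' : e = M * (t * κ * A + (t * Λ) ^ 2 * B) := by
    rw [he, hA, hB]
    ring
  obtain ⟨n1, n2, n3, n4, n5, n6⟩ := gl_a hA0 hB0 hM hL ht hκ0 hκ1 hΛ1 htc he'
  have hlam : lam t Λ κ h M = 7 * (t * Λ) + e := by
    unfold lam
    rw [he]
  have hl : lam t Λ κ h M ≤ 1 / 4 := by rw [hlam]; exact n1
  obtain ⟨G, hG, -, -, -⟩ := exists_homeo_gm h0 hβ hV hκ0 ht hM.le hΛ0 hl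
  have hD' := dom_image hD hV ht n2
  have hP := plat_gm hD hF h0 hβ hV hκ0 ht hM.le hΛ0 hl hG
  obtain ⟨hF', hE'⟩ := fun_sym hD' hP
  have hE := En_gm hD hF h0 hβ hV hV1 hκ0 ht hM.le hΛ0 hl hG
  have hlin := linear_term hD hF h0 hβ hV hV1 hκ0 ht hM.le hΛ0 n2
  have hEu : 0 ≤ En u := integral_nonneg fun w => sq_nonneg _
  rw [hlam, ← he] at hE
  rw [← he] at hlin
  refine ⟨_, _, hD', hF', hE'.trans ?_⟩
  have hfin := gl_b n3 n4 n1 hEu n6 n5 hE (by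
    rw [mul_assoc 8 (t * Λ) t] at *
    exact hlin)
  refine hfin.trans (le_of_eq ?_)
  ring
/- END gl -/

end Pool.Agent.NoH
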