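import Pool.Agent.NoH.Bas

set_option autoImplicit false

/-!
# Part D: the invariant Beltrami coefficient
-/

open MeasureTheory Set

namespace Pool.Agent.NoH

/-- The coefficient of `u`: `conj ψ / ψ` where `ψ ≠ 0`, `0` elsewhere. -/
noncomputable def mu0 (u : ℂ → ℝ) (w : ℂ) : ℂ := (starRingEnd ℂ) (psi u w) / psi u w

open Classical in
/-- One step of the construction. -/
noncomputable def step (z : ℂ) (S : Set ℂ) (u : ℂ → ℝ) (m : ℂ → ℂ) (w : ℂ) : ℂ :=
  if w ∈ S ∧ w⁻¹ ∈ S ∧ w ≠ 0 then mu0 u w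
  else if w ≠ 0 ∧ w⁻¹ ∉ S then m w⁻¹ * rat w⁻¹
  else if h : w ∉ S ∧ ∃ n : ℤ, w - n * z ∈ S then m (w - h.2.choose * z) else 0

/-- The iterates. -/
noncomputable def itm (z : ℂ) (S : Set ℂ) (u : ℂ → ℝ) (k : ℕ) : ℂ → ℂ := (step z S u)^[k] 0

/- MODULE da
`mu0` is measurable (`psi u` is continuous, division with `x / 0 = 0`), `‖mu0‖ ≤ 1`,
`mu0 u * psi² = ‖psi‖²`, `mu0 u (-w) = mu0 u w` (`psi` is odd: `grd_neg`),
`mu0 u w⁻¹ = mu0 u w * rat w` for `w ≠ 0` (from `u ∘ inv = -u` and `psi_inv`: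
`psi u w⁻¹ = w² psi u w`).  If `psi u w ≠ 0` then `w ∈ S`, `w ≠ 0`, `w⁻¹ ∈ S`: otherwise `|u w| = 1` and
`grd u w = 0` (`grd_eq_zero`; for `w⁻¹ ∉ S` or `w = 0`: `u w = -1`). -/
theorem mu0_props {z : ℂ} {S : Set ℂ} {u : ℂ → ℝ} (hD : Dom z S) (hF : Fun S u) :
    Measurable (mu0 u) ∧ (∀ w, ‖mu0 u w‖ ≤ 1) ∧
    (∀ w, mu0 u w * psi u w ^ 2 = ((‖psi u w‖ ^ 2 : ℝ) : ℂ)) ∧ (∀ w, mu0 u (-w) = mu0 u w) ∧
    (∀ w, w ≠ 0 → mu0 u w⁻¹ = mu0 u w * rat w) ∧
    ∀ w, psi u w ≠ 0 → w ∈ S ∧ w⁻¹ ∈ S ∧ w ≠ 0 := by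
  have hdu : ∀ w, DifferentiableAt ℝ u w := fun w =>
    (hF.smo.differentiable (by norm_num)).differentiableAt
  have hcg : Continuous (grd u) := continuous_grd hF.smo
  have hcp : Continuous (psi u) := by
    unfold psi
    exact (Complex.continuous_conj.comp hcg).div_const 2
  have hzero : ∀ w, |u w| = 1 → psi u w = 0 := by
    intro w hw
    unfold psi
    rw [grd_eq_zero hF.bnd hw]; simp
  refine ⟨?_, ?_, ?_, ?_, ?_, ?_⟩
  · exact (Complex.continuous_conj.comp hcp).measurable.div hcp.measurable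
  · intro w
    unfold mu0
    rw [norm_div, Complex.norm_conj]
    exact div_self_le_one _
  · intro w
    unfold mu0
    by_cases h : psi u w = 0
    · simp [h]
    · have h1 : (starRingEnd ℂ) (psi u w) / psi u w * psi u w ^ 2
          = psi u w * (starRingEnd ℂ) (psi u w) := by
        field_simp
      rw [h1, Complex.mul_conj, Complex.normSq_eq_norm_sq]
  · intro w
    have h1 : psi u (-w) = -psi u w := by
      have h2 := grd_neg (u := u) (w := w) (hdu (-w))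
      have h3 : (fun x => u (-x)) = u := funext hF.evn
      rw [h3] at h2
      unfold psi
      rw [h2]; simp only [map_neg]; ring
    unfold mu0
    rw [h1, map_neg, neg_div_neg_eq]
  · intro w hw
    have h1 : psi u w⁻¹ = w ^ 2 * psi u w := by
      have h2 := psi_inv (u := u) hw (hdu w⁻¹)
      have h3 : psi (fun x => u x⁻¹) w = -psi u w := by
        have h4 : (fun x => u x⁻¹) =ᶠ[nhds w] (fun x => - u x) := by
          filter_upwards [isOpen_ne.mem_nhds hw] with x hx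
          exact hF.inv x hx
        have h5 : fderiv ℝ (fun x => u x⁻¹) w = - fderiv ℝ u w := by
          rw [h4.fderiv_eq]; exact fderiv_neg
        unfold psi grd
        rw [h5]
        simp only [neg_apply]
        have h6 : (⟨-(fderiv ℝ u w) 1, -(fderiv ℝ u w) Complex.I⟩ : ℂ)
            = -(⟨(fderiv ℝ u w) 1, (fderiv ℝ u w) Complex.I⟩ : ℂ) := by
          apply Complex.ext <;> simp
        rw [h6, map_neg, neg_div]
      rw [h3] at h2
      have hw2 : w ^ 2 ≠ 0 := pow_ne_zero _ hw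
      rw [eq_div_iff hw2] at h2
      linear_combination h2
    unfold mu0 rat
    rw [h1, map_mul, map_pow]
    by_cases h : psi u w = 0
    · simp [h]
    · field_simp
  · intro w hw
    have hwS : w ∈ S := by
      by_contra hc
      exact hw (hzero w (by rw [hF.one w hc]; simp))
    have hw0 : w ≠ 0 := by
      rintro rfl
      exact hw (hzero 0 (by rw [(zero_mem hD hF).1]; simp))
    refine ⟨hwS, ?_, hw0⟩
    by_contra hc
    have h1 := hF.inv w hw0
    rw [hF.one _ hc] at h1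
    exact hw (hzero w (by rw [show u w = -1 by linarith]; simp))
/- END da -/

/- MODULE db
Measurability of a step: `step` is a finite / countable combination of measurable pieces.  On
`w ∉ S` with `w - n z ∈ S` the integer `n` is unique (`trn`: if `w - n z, w - m z ∈ S`, `n ≠ m`, then
`(w - n z) + (n - m) z ∈ S` is impossible), so the third branch is `Σ_n` of
`indicator (S + n z) (m (· - n z))`, i.e. `m (w - n z)` on the measurable set `{w | w - n z ∈ S}`
(use `Measurable.piecewise` / `measurable_of_restrict..` / `measurable_of_iUnion`-type lemma over the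
countable family, or write the function as a pointwise limit).  Iterates are measurable. -/
private theorem db_uniq {z : ℂ} {S : Set ℂ} (hD : Dom z S) {w : ℂ} {n m : ℤ}
    (hn : w - n * z ∈ S) (hm : w - m * z ∈ S) : n = m := by
  by_contra hne
  have h1 := hD.trn (n - m) (sub_ne_zero.mpr hne) _ hn
  apply h1
  have h2 : w - n * z + ((n - m : ℤ) : ℂ) * z = w - m * z := by push_cast; ring
  rw [h2]; exact hm

private theorem db_rat_meas : Measurable rat := by
  unfold rat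
  exact ((Complex.continuous_conj.measurable).pow_const 2).div (measurable_id.pow_const 2)

private theorem db_step {z : ℂ} {S : Set ℂ} {u : ℂ → ℝ} (hD : Dom z S) (hF : Fun S u) {m : ℂ → ℂ}
    (hm : Measurable m) : Measurable (step z S u m) := by
  classical
  have hS : MeasurableSet S := hD.opn.measurableSet
  have hSi : MeasurableSet {w : ℂ | w⁻¹ ∈ S} := measurable_inv hS
  have h0 : MeasurableSet {w : ℂ | w ≠ 0} := (measurableSet_singleton (0 : ℂ)).compl
  have hA : MeasurableSet {w : ℂ | w ∈ S ∧ w⁻¹ ∈ S ∧ w ≠ 0} := hS.inter (hSi.inter h0)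
  have hB : MeasurableSet {w : ℂ | w ≠ 0 ∧ w⁻¹ ∉ S} := h0.inter hSi.compl
  unfold step
  refine Measurable.ite hA (mu0_props hD hF).1 (Measurable.ite hB ?_ ?_)
  · exact (hm.comp measurable_inv).mul (db_rat_meas.comp measurable_inv)
  · intro t ht
    have key : (fun w : ℂ => if h : w ∉ S ∧ ∃ n : ℤ, w - n * z ∈ S then
        m (w - h.2.choose * z) else 0) ⁻¹' t
        = ({w | w ∈ S ∨ ∀ n : ℤ, w - n * z ∉ S} ∩ {_w | (0 : ℂ) ∈ t}) ∪
          ⋃ n : ℤ, (Sᶜ ∩ {w | w - n * z ∈ S} ∩ {w | m (w - n * z) ∈ t}) := by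
      ext w
      simp only [mem_preimage, mem_union, mem_inter_iff, mem_ofPred_eq, mem_iUnion, mem_compl_iff]
      by_cases hc : w ∉ S ∧ ∃ n : ℤ, w - n * z ∈ S
      · rw [dif_pos hc]
        constructor
        · intro h
          exact Or.inr ⟨hc.2.choose, ⟨hc.1, hc.2.choose_spec⟩, h⟩
        · rintro (⟨h1 | h1, -⟩ | ⟨n, ⟨h1, h2⟩, h3⟩)
          · exact absurd h1 hc.1
          · obtain ⟨n, hn⟩ := hc.2
            exact absurd hn (h1 n)
          · have e : hc.2.choose = n := db_uniq hD hc.2.choose_spec h2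
            rw [e]; exact h3
      · rw [dif_neg hc]
        constructor
        · intro h
          refine Or.inl ⟨?_, h⟩
          by_cases hw : w ∈ S
          · exact Or.inl hw
          · refine Or.inr fun n hn => hc ⟨hw, n, hn⟩
        · rintro (⟨-, h1⟩ | ⟨n, ⟨h1, h2⟩, -⟩)
          · exact h1
          · exact absurd ⟨h1, n, h2⟩ hc
    rw [key]
    have hT : ∀ n : ℤ, MeasurableSet {w : ℂ | w - n * z ∈ S} := fun n =>
      (measurable_id.sub_const _) hS
    refine MeasurableSet.union (MeasurableSet.inter ?_ (MeasurableSet.const _)) ?_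
    · have e : {w : ℂ | w ∈ S ∨ ∀ n : ℤ, w - n * z ∉ S}
          = S ∪ ⋂ n : ℤ, {w : ℂ | w - n * z ∈ S}ᶜ := by
        ext w; simp
      rw [e]
      exact hS.union (MeasurableSet.iInter fun n => (hT n).compl)
    · refine MeasurableSet.iUnion fun n => (hS.compl.inter (hT n)).inter ?_
      exact (hm.comp (measurable_id.sub_const _)) ht

theorem itm_measurable {z : ℂ} {S : Set ℂ} {u : ℂ → ℝ} (hD : Dom z S) (hF : Fun S u) (k : ℕ) :
    Measurable (itm z S u k) := by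
  induction k with
  | zero => exact measurable_const
  | succ k ih =>
    unfold itm at ih ⊢
    rw [Function.iterate_succ_apply']
    exact db_step hD hF ih
/- END db -/

/- MODULE dc
Rewriting rules for `step` (with uniqueness of `n`), the bound `‖itm‖ ≤ 1` (`‖rat w‖ ≤ 1`), evenness
(`S = -S`; the `n` of `-w` is minus the `n` of `w`), and stabilisation: by induction on `k`,
`itm k w ≠ 0 → itm (k+1) w = itm k w`. -/
theorem step_tr {z : ℂ} {S : Set ℂ} {u : ℂ → ℝ} (hD : Dom z S) (hF : Fun S u) (m : ℂ → ℂ) {w : ℂ}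
    {n : ℤ} (hn : n ≠ 0) (hw : w - n * z ∈ S) : step z S u m w = m (w - n * z) := by
  have hwS : w ∉ S := by
    have h1 := hD.trn n hn _ hw
    rwa [sub_add_cancel] at h1
  have hB : ¬ (w ≠ 0 ∧ w⁻¹ ∉ S) := by
    rintro ⟨-, h2⟩
    exact hwS (km_sub hD hF (Or.inr h2))
  have hc : w ∉ S ∧ ∃ n : ℤ, w - n * z ∈ S := ⟨hwS, n, hw⟩
  unfold step
  rw [if_neg (fun h => hwS h.1), if_neg hB, dif_pos hc]
  have e : hc.2.choose = n := by
    by_contra hne
    have h1 := hD.trn (hc.2.choose - n) (sub_ne_zero.mpr hne) _ hc.2.choose_spec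
    apply h1
    have h2 : w - hc.2.choose * z + ((hc.2.choose - n : ℤ) : ℂ) * z = w - n * z := by
      push_cast; ring
    rw [h2]; exact hw
  rw [e]

private theorem dc_ratn (w : ℂ) : ‖rat w‖ ≤ 1 := by
  unfold rat
  rw [norm_div, norm_pow, norm_pow, Complex.norm_conj]
  exact div_self_le_one _

private theorem dc_succ {z : ℂ} {S : Set ℂ} {u : ℂ → ℝ} (k : ℕ) :
    itm z S u (k + 1) = step z S u (itm z S u k) := by
  unfold itm
  rw [Function.iterate_succ_apply']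

private theorem dc_a {z : ℂ} {S : Set ℂ} {u : ℂ → ℝ} (m : ℂ → ℂ) {w : ℂ}
    (h : w ∈ S ∧ w⁻¹ ∈ S ∧ w ≠ 0) : step z S u m w = mu0 u w := by
  unfold step; rw [if_pos h]

private theorem dc_b {z : ℂ} {S : Set ℂ} {u : ℂ → ℝ} (m : ℂ → ℂ) {w : ℂ}
    (h0 : w ≠ 0) (h : w⁻¹ ∉ S) : step z S u m w = m w⁻¹ * rat w⁻¹ := by
  unfold step; rw [if_neg (fun h' => h h'.2.1), if_pos ⟨h0, h⟩]

private theorem dc_z {z : ℂ} {S : Set ℂ} {u : ℂ → ℝ} (m : ℂ → ℂ) {w : ℂ}
    (h1 : ¬ (w ∈ S ∧ w⁻¹ ∈ S ∧ w ≠ 0)) (h2 : ¬ (w ≠ 0 ∧ w⁻¹ ∉ S))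
    (h3 : ¬ (w ∉ S ∧ ∃ n : ℤ, w - n * z ∈ S)) : step z S u m w = 0 := by
  unfold step; rw [if_neg h1, if_neg h2, dif_neg h3]

/-- The four cases for a point. -/
private theorem dc_cases {z : ℂ} {S : Set ℂ} {u : ℂ → ℝ} (hD : Dom z S) (hF : Fun S u) (w : ℂ) :
    (w ∈ S ∧ w⁻¹ ∈ S ∧ w ≠ 0) ∨ (w ≠ 0 ∧ w⁻¹ ∉ S) ∨
    (∃ n : ℤ, n ≠ 0 ∧ w - n * z ∈ S) ∨
    (¬ (w ∈ S ∧ w⁻¹ ∈ S ∧ w ≠ 0) ∧ ¬ (w ≠ 0 ∧ w⁻¹ ∉ S) ∧
      ¬ (w ∉ S ∧ ∃ n : ℤ, w - n * z ∈ S)) := by
  by_cases h1 : w ∈ S ∧ w⁻¹ ∈ S ∧ w ≠ 0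
  · exact Or.inl h1
  by_cases h2 : w ≠ 0 ∧ w⁻¹ ∉ S
  · exact Or.inr (Or.inl h2)
  by_cases h3 : w ∉ S ∧ ∃ n : ℤ, w - n * z ∈ S
  · refine Or.inr (Or.inr (Or.inl ?_))
    obtain ⟨hw, n, hn⟩ := h3
    refine ⟨n, ?_, hn⟩
    rintro rfl
    apply hw
    simpa using hn
  · exact Or.inr (Or.inr (Or.inr ⟨h1, h2, h3⟩))

theorem itm_norm {z : ℂ} {S : Set ℂ} {u : ℂ → ℝ} (hD : Dom z S) (hF : Fun S u) (k : ℕ) (w : ℂ) :
    ‖itm z S u k w‖ ≤ 1 := by
  induction k generalizing w with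
  | zero => simp [itm]
  | succ k ih =>
    rw [dc_succ]
    rcases dc_cases hD hF w with h | h | ⟨n, hn, h⟩ | ⟨h1, h2, h3⟩
    · rw [dc_a _ h]; exact (mu0_props hD hF).2.1 w
    · rw [dc_b _ h.1 h.2, norm_mul]
      exact mul_le_one₀ (ih _) (norm_nonneg _) (dc_ratn _)
    · rw [step_tr hD hF _ hn h]; exact ih _
    · rw [dc_z _ h1 h2 h3]; simp

private theorem dc_mem_neg {z : ℂ} {S : Set ℂ} (hD : Dom z S) {w : ℂ} : -w ∈ S ↔ w ∈ S := by
  constructor
  · intro h; simpa using hD.neg _ h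
  · exact hD.neg w

theorem itm_neg {z : ℂ} {S : Set ℂ} {u : ℂ → ℝ} (hD : Dom z S) (hF : Fun S u) (k : ℕ) (w : ℂ) :
    itm z S u k (-w) = itm z S u k w := by
  induction k generalizing w with
  | zero => simp [itm]
  | succ k ih =>
    rw [dc_succ]
    have hinv : (-w)⁻¹ = -(w⁻¹) := by rw [inv_neg]
    have hrat : rat (-(w⁻¹)) = rat w⁻¹ := by
      unfold rat; rw [map_neg, neg_sq, neg_sq]
    rcases dc_cases hD hF w with h | h | ⟨n, hn, h⟩ | ⟨h1, h2, h3⟩
    · have h' : -w ∈ S ∧ (-w)⁻¹ ∈ S ∧ -w ≠ 0 := by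
        rw [hinv, dc_mem_neg hD, dc_mem_neg hD]
        exact ⟨h.1, h.2.1, neg_ne_zero.mpr h.2.2⟩
      rw [dc_a _ h, dc_a _ h']
      exact (mu0_props hD hF).2.2.2.1 w
    · have h' : (-w)⁻¹ ∉ S := by rw [hinv, dc_mem_neg hD]; exact h.2
      rw [dc_b _ h.1 h.2, dc_b _ (neg_ne_zero.mpr h.1) h', hinv, ih, hrat]
    · have h' : -w - ((-n : ℤ) : ℂ) * z ∈ S := by
        have e : -w - ((-n : ℤ) : ℂ) * z = -(w - n * z) := by push_cast; ring
        rw [e]; exact hD.neg _ h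
      rw [step_tr hD hF _ hn h, step_tr hD hF _ (neg_ne_zero.mpr hn) h']
      have e : -w - ((-n : ℤ) : ℂ) * z = -(w - n * z) := by push_cast; ring
      rw [e, ih]
    · rw [dc_z _ h1 h2 h3, dc_z]
      · rw [hinv, dc_mem_neg hD, dc_mem_neg hD, neg_ne_zero]; exact h1
      · rw [hinv, dc_mem_neg hD, neg_ne_zero]; exact h2
      · rintro ⟨hc1, n, hc2⟩
        apply h3
        refine ⟨fun hc => hc1 (hD.neg _ hc), -n, ?_⟩
        have e : w - ((-n : ℤ) : ℂ) * z = -(-w - n * z) := by push_cast; ring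
        rw [e]; exact hD.neg _ hc2

theorem itm_stable {z : ℂ} {S : Set ℂ} {u : ℂ → ℝ} (hD : Dom z S) (hF : Fun S u) (k : ℕ) (w : ℂ)
    (h : itm z S u k w ≠ 0) : itm z S u (k + 1) w = itm z S u k w := by
  induction k generalizing w with
  | zero => exact absurd (by simp [itm]) h
  | succ k ih =>
    have e1 : itm z S u (k + 1) w = step z S u (itm z S u k) w := by rw [dc_succ]
    have e2 : itm z S u (k + 1 + 1) w = step z S u (itm z S u (k + 1)) w := by rw [dc_succ]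
    rw [e1] at h
    rw [e1, e2]
    rcases dc_cases hD hF w with h' | h' | ⟨n, hn, h'⟩ | ⟨h1, h2, h3⟩
    · rw [dc_a _ h', dc_a _ h']
    · rw [dc_b _ h'.1 h'.2] at h
      rw [dc_b _ h'.1 h'.2, dc_b _ h'.1 h'.2, ih _ (left_ne_zero_of_mul h)]
    · rw [step_tr hD hF _ hn h'] at h
      rw [step_tr hD hF _ hn h', step_tr hD hF _ hn h', ih _ h]
    · rw [dc_z _ h1 h2 h3] at h; exact absurd rfl h
/- END dc -/

/- MODULE dd
The limit `μ w = lim_k itm k w` exists (the sequence is `0` or eventually constant), is measurable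
(`measurable_of_tendsto_metrizable`), satisfies `step μ = μ`, `‖μ‖ ≤ 1`, `μ (-w) = μ w`.
`inv`: for `w, w⁻¹ ∈ S` by `mu0_props`; for `w⁻¹ ∉ S`: `μ w = μ w⁻¹ * rat w⁻¹` and
`rat w⁻¹ * rat w = 1`; for `w ∉ S` apply this to `w⁻¹` (`inv_mem`).
`per`: if `w - n z ∈ S` for some `n` then `μ w = μ (w - n z)` (trivial for `n = 0`, `step_tr`
otherwise), and the same for `w + z` with `n + 1`; if `w` is in no translate, then `μ w = 0`
(`w ∉ S`, and `w⁻¹ ∈ S`) and the same for `w + z`.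
`hgt`: `μ w ≠ 0` implies that `w` is in some translate `S + n z` (for `w⁻¹ ∉ S`: `w ∈ Km S ⊆ S`), and
`S` is bounded: `|(w / z).im| = |((w - n z) / z).im| ≤ R / ‖z‖` (`z ≠ 0`: `norm_z_gt`).
Last clause: where `psi u w ≠ 0`, `μ w = mu0 u w`. -/
theorem exists_bel {z : ℂ} {S : Set ℂ} {u : ℂ → ℝ} (hD : Dom z S) (hF : Fun S u) :
    ∃ μ : ℂ → ℂ, Bel z μ ∧ ∀ w, μ w * psi u w ^ 2 = ((‖psi u w‖ ^ 2 : ℝ) : ℂ) := by
  classical
  have hst : ∀ w k, itm z S u k w ≠ 0 → ∀ j, k ≤ j → itm z S u j w = itm z S u k w := by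
    intro w k hk j hj
    induction j, hj using Nat.le_induction with
    | base => rfl
    | succ j hj ih => rw [itm_stable hD hF j w (by rw [ih]; exact hk), ih]
  have hex : ∀ w, ∃ c : ℂ, ∃ K, ∀ k, K ≤ k → itm z S u k w = c := by
    intro w
    by_cases h : ∃ k, itm z S u k w ≠ 0
    · obtain ⟨k, hk⟩ := h
      exact ⟨_, k, fun j hj => hst w k hk j hj⟩
    · push Not at h
      exact ⟨0, 0, fun k _ => h k⟩
  choose μ K hK using hex
  have hstep : ∀ w, step z S u μ w = μ w := by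
    intro w
    rcases dc_cases hD hF w with h | h | ⟨n, hn, h⟩ | ⟨h1, h2, h3⟩
    · have e := hK w (K w + 1) (by omega)
      rw [dc_succ, dc_a _ h] at e
      rw [dc_a _ h, e]
    · have e := hK w (max (K w) (K w⁻¹) + 1) (by omega)
      rw [dc_succ, dc_b _ h.1 h.2, hK w⁻¹ _ (le_max_right _ _)] at e
      rw [dc_b _ h.1 h.2, e]
    · have e := hK w (max (K w) (K (w - n * z)) + 1) (by omega)
      rw [dc_succ, step_tr hD hF _ hn h, hK (w - n * z) _ (le_max_right _ _)] at e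
      rw [step_tr hD hF _ hn h, e]
    · have e := hK w (K w + 1) (by omega)
      rw [dc_succ, dc_z _ h1 h2 h3] at e
      rw [dc_z _ h1 h2 h3, e]
  have hz : z ≠ 0 := by
    rintro rfl
    have h1 := hD.trn 1 one_ne_zero 0 (zero_mem hD hF).2
    apply h1
    simpa using (zero_mem hD hF).2
  -- values in the cases
  have hA : ∀ w, w ∈ S → w⁻¹ ∈ S → w ≠ 0 → μ w = mu0 u w := by
    intro w h1 h2 h3
    rw [← hstep w, dc_a _ ⟨h1, h2, h3⟩]
  have hB : ∀ w, w ≠ 0 → w⁻¹ ∉ S → μ w = μ w⁻¹ * rat w⁻¹ := by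
    intro w h1 h2
    rw [← hstep w, dc_b _ h1 h2]
  have hT : ∀ (w : ℂ) (n : ℤ), w - n * z ∈ S → μ w = μ (w - n * z) := by
    intro w n hn
    by_cases h0 : n = 0
    · subst h0; simp
    · calc μ w = step z S u μ w := (hstep w).symm
        _ = μ (w - n * z) := step_tr hD hF _ h0 hn
  have h0S : (0 : ℂ) ∈ S := (zero_mem hD hF).2
  have hN : ∀ w, (∀ n : ℤ, w - n * z ∉ S) → μ w = 0 := by
    intro w hw
    have hwS : w ∉ S := by simpa using hw 0
    rw [← hstep w]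
    apply dc_z
    · exact fun h => hwS h.1
    · rintro ⟨-, h2⟩
      exact hwS (km_sub hD hF (Or.inr h2))
    · rintro ⟨-, n, hn⟩
      exact hw n hn
  refine ⟨μ, ⟨?_, ?_, ?_, ?_, ?_, ?_⟩, ?_⟩
  · refine measurable_of_tendsto_metrizable (fun k => itm_measurable hD hF k) ?_
    rw [tendsto_pi_nhds]
    intro w
    exact tendsto_atTop_of_eventually_const (i₀ := K w) (fun k hk => hK w k hk)
  · intro w
    rw [← hK w (K w) le_rfl]
    exact itm_norm hD hF _ _
  · intro w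
    rw [← hK w (max (K w) (K (-w))) (le_max_left _ _),
      ← hK (-w) (max (K w) (K (-w))) (le_max_right _ _), itm_neg hD hF]
  · intro w hw
    have hrr : rat w⁻¹ * rat w = 1 := by
      have hc : (starRingEnd ℂ) w ≠ 0 := by simpa using hw
      unfold rat
      rw [map_inv₀]
      field_simp
    by_cases h1 : w⁻¹ ∈ S
    · by_cases h2 : w ∈ S
      · rw [hA w h2 h1 hw, hA w⁻¹ h1 (by rw [inv_inv]; exact h2) (inv_ne_zero hw)]
        exact (mu0_props hD hF).2.2.2.2.1 w hw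
      · have e := hB w⁻¹ (inv_ne_zero hw) (by rw [inv_inv]; exact h2)
        rw [inv_inv] at e
        exact e
    · have e := hB w hw h1
      rw [e, mul_assoc, hrr, mul_one]
  · intro w
    by_cases h : ∃ n : ℤ, w - n * z ∈ S
    · obtain ⟨n, hn⟩ := h
      have e : w + z - ((n + 1 : ℤ) : ℂ) * z = w - n * z := by push_cast; ring
      rw [hT w n hn, hT (w + z) (n + 1) (by rw [e]; exact hn), e]
    · push Not at h
      rw [hN w h, hN (w + z)]
      intro n
      have e : w + z - (n : ℂ) * z = w - ((n - 1 : ℤ) : ℂ) * z := by push_cast; ring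
      rw [e]; exact h _
  · obtain ⟨R, hR⟩ := hD.bdd
    refine ⟨R / ‖z‖, fun w hw => hN w fun n hn => ?_⟩
    have h1 := hR _ hn
    have e : (w / z).im = ((w - n * z) / z).im := by
      rw [sub_div, mul_div_assoc, div_self hz, mul_one, Complex.sub_im, Complex.intCast_im,
        sub_zero]
    rw [e] at hw
    have h2 : |((w - n * z) / z).im| ≤ ‖w - n * z‖ / ‖z‖ := by
      rw [← norm_div]; exact Complex.abs_im_le_norm _
    have h3 : ‖w - n * z‖ / ‖z‖ ≤ R / ‖z‖ :=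
      div_le_div_of_nonneg_right h1.le (norm_nonneg _)
    linarith
  · intro w
    by_cases h : psi u w = 0
    · simp [h]
    · obtain ⟨h1, h2, h3⟩ := (mu0_props hD hF).2.2.2.2.2 w h
      rw [hA w h1 h2 h3]
      exact (mu0_props hD hF).2.2.1 w
/- END dd -/

end Pool.Agent.NoH
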