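import Pool.Agent.NoH.Reg
import Pool.Agent.NoH.Mu
import Pool.Agent.NoH.Ker
import Pool.Agent.NoH.Map
import Pool.Agent.NoH.Ene

set_option autoImplicit false

/-!
# Part J: the complement is connected
-/

open MeasureTheory Set

namespace Pool.Agent.NoH

/-- The set of all `z` with a domain and a function. -/
def NN : Set ℂ := {z | ∃ (S : Set ℂ) (u : ℂ → ℝ), Dom z S ∧ Fun S u}

/- MODULE ja
The step.  Given an upper bound `E` of the energies.  `h = hh E`, constants `M` (`exists_beta`),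
`C, c` (`exists_deform`), `exists_reg`, `exists_linear`, `vec_field` with `γ < 1` such that
`16 ^ (1 - γ) * th ^ (1/4) ≤ 1`.  For `n : ℕ`: `η = th ^ n`, `e = h / 2 ^ n`, `ε = e ^ 2`,
`t = th ^ (n / 2)` (`√(th ^ n)`), `s = C √(2 th ^ n E)` (increase a little to have `0 < s`),
`ω² = 16 η + 150 s`, `Λ = C ε ^ (γ - 1)`, `κ = C ε ^ γ`.  As `n → ∞`: `s, ω, κ, t Λ, t Λ² → 0`
(`Λ ≤ C' 4 ^ (n (1 - γ))`, `t Λ² ≤ C'' (16 ^ (1 - γ) √th) ^ n`), `ε (M + C / e) → 0`.  So there is an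
`n` (depending only on `E`) such that for all `z` with `‖z‖ ≤ 2`, `Dom z S`, `Fun S u`, `En u ≤ E`,
`Near η S u`: with `μ` (`exists_bel`), `V` (`vec_field`, `norm_z_gt`), `β`:
`∫ Re (β psi² dbar V) ≥ En u / 8 - small`, and `exists_deform` (for every `t' ∈ [0, t]`; `thick` gives
the hypothesis of `exists_beta`, `hh` is decreasing) gives
`En u' ≤ En u (1 - 2 t + t)`.  The conclusion is stated with `η < t ≤ 1/2`. -/
private theorem ja_gamma {q : ℝ} (h1 : q < 1) :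
    ∃ γ : ℝ, 0 < γ ∧ γ < 1 ∧ q * ((1 / 16 : ℝ) ^ (γ - 1)) ^ 2 < 1 := by
  have hc : Continuous (fun γ : ℝ => q * ((1 / 16 : ℝ) ^ (γ - 1)) ^ 2) := by
    have h2 : Continuous (fun γ : ℝ => (1 / 16 : ℝ) ^ (γ - 1)) :=
      (Real.continuous_const_rpow (by norm_num)).comp (continuous_id.sub continuous_const)
    exact continuous_const.mul (h2.pow 2)
  have ht : Filter.Tendsto (fun γ : ℝ => q * ((1 / 16 : ℝ) ^ (γ - 1)) ^ 2) (nhds 1) (nhds q) := by
    have := hc.tendsto 1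
    simpa using this
  have h2 : ∀ᶠ γ : ℝ in nhds 1, q * ((1 / 16 : ℝ) ^ (γ - 1)) ^ 2 < 1 := ht.eventually_lt_const h1
  have h3 : ∀ᶠ γ : ℝ in nhdsWithin 1 (Iio 1), q * ((1 / 16 : ℝ) ^ (γ - 1)) ^ 2 < 1 :=
    h2.filter_mono nhdsWithin_le_nhds
  have h4 : ∀ᶠ γ : ℝ in nhdsWithin 1 (Iio 1), γ ∈ Ioo (0 : ℝ) 1 := Ioo_mem_nhdsLT zero_lt_one
  obtain ⟨γ, hγ1, hγ2⟩ := (h3.and h4).exists
  exact ⟨γ, hγ2.1, hγ2.2, hγ1⟩

private theorem ja_choice {q h E C₁ C₂ C₃ C₄ M c γ : ℝ} (q0 : 0 < q) (q1 : q < 1) (h0 : 0 < h)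
    (hc : 0 < c) (γ0 : 0 < γ) (hγ : q * ((1 / 16 : ℝ) ^ (γ - 1)) ^ 2 < 1) :
    ∃ m : ℕ, 1 ≤ m ∧ q ^ m ≤ 1 / 2 ∧ C₁ * √(2 * E) * q ^ m ≤ 1 ∧
      C₃ * ((h / 2 ^ (2 * m)) ^ 2) ^ γ ≤ 1 ∧
      q ^ m * (C₃ * ((h / 2 ^ (2 * m)) ^ 2) ^ (γ - 1)) ^ 2 ≤ c ∧
      16 * (√(16 * q ^ (2 * m) + 150 * (C₁ * √(2 * E) * q ^ m)) +
        (h / 2 ^ (2 * m)) ^ 2 * (M + C₄ / (h / 2 ^ (2 * m)))) +
        C₂ * (C₃ * ((h / 2 ^ (2 * m)) ^ 2) ^ γ +
          q ^ m * (C₃ * ((h / 2 ^ (2 * m)) ^ 2) ^ (γ - 1)) ^ 2) ≤ 1 := by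
  have T1 : Filter.Tendsto (fun m : ℕ => q ^ m) Filter.atTop (nhds 0) :=
    tendsto_pow_atTop_nhds_zero_of_lt_one q0.le q1
  have T1' : Filter.Tendsto (fun m : ℕ => q ^ (2 * m)) Filter.atTop (nhds 0) := by
    have h2 : (fun m : ℕ => q ^ (2 * m)) = fun m : ℕ => (q ^ m) ^ 2 := by
      funext m
      rw [← pow_mul, mul_comm]
    rw [h2]
    simpa using T1.pow 2
  have he : ∀ m : ℕ, h / 2 ^ (2 * m) = h * (1 / 4) ^ m := by
    intro m
    rw [pow_mul, div_pow, one_pow]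
    norm_num
    ring
  have T2 : Filter.Tendsto (fun m : ℕ => h / 2 ^ (2 * m)) Filter.atTop (nhds 0) := by
    have h2 : (fun m : ℕ => h / 2 ^ (2 * m)) = fun m : ℕ => h * (1 / 4) ^ m := funext he
    rw [h2]
    simpa using (tendsto_pow_atTop_nhds_zero_of_lt_one (r := (1 / 4 : ℝ)) (by norm_num)
      (by norm_num)).const_mul h
  have T3 : Filter.Tendsto (fun m : ℕ => (h / 2 ^ (2 * m)) ^ 2) Filter.atTop (nhds 0) := by
    simpa using T2.pow 2
  have T4 : Filter.Tendsto (fun m : ℕ => C₃ * ((h / 2 ^ (2 * m)) ^ 2) ^ γ) Filter.atTop (nhds 0) := by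
    have h2 : Continuous (fun x : ℝ => x ^ γ) := Real.continuous_rpow_const γ0.le
    have h3 := (h2.tendsto 0).comp T3
    simp only [Real.zero_rpow γ0.ne'] at h3
    simpa [Function.comp_def] using h3.const_mul C₃
  have T5 : Filter.Tendsto (fun m : ℕ => q ^ m * (C₃ * ((h / 2 ^ (2 * m)) ^ 2) ^ (γ - 1)) ^ 2)
      Filter.atTop (nhds 0) := by
    have h2 : (fun m : ℕ => q ^ m * (C₃ * ((h / 2 ^ (2 * m)) ^ 2) ^ (γ - 1)) ^ 2) =
        fun m : ℕ => (C₃ * (h ^ 2) ^ (γ - 1)) ^ 2 * (q * ((1 / 16 : ℝ) ^ (γ - 1)) ^ 2) ^ m := by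
      funext m
      have h3 : (h / 2 ^ (2 * m)) ^ 2 = h ^ 2 * (1 / 16) ^ m := by
        rw [he, mul_pow, ← pow_mul, mul_comm m 2, pow_mul]
        norm_num
      have h4 : ((1 / 16 : ℝ) ^ m) ^ (γ - 1) = ((1 / 16 : ℝ) ^ (γ - 1)) ^ m :=
        (Real.rpow_pow_comm (by norm_num) _ _).symm
      rw [h3, Real.mul_rpow (by positivity) (by positivity), h4]
      ring
    rw [h2]
    simpa using (tendsto_pow_atTop_nhds_zero_of_lt_one (by positivity) hγ).const_mul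
      ((C₃ * (h ^ 2) ^ (γ - 1)) ^ 2)
  have T6 : Filter.Tendsto (fun m : ℕ => C₁ * √(2 * E) * q ^ m) Filter.atTop (nhds 0) := by
    simpa using T1.const_mul (C₁ * √(2 * E))
  have T7 : Filter.Tendsto (fun m : ℕ => √(16 * q ^ (2 * m) + 150 * (C₁ * √(2 * E) * q ^ m)))
      Filter.atTop (nhds 0) := by
    have h2 := (T1'.const_mul 16).add (T6.const_mul 150)
    simp only [mul_zero, add_zero] at h2
    have h3 := (Real.continuous_sqrt.tendsto 0).comp h2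
    simpa [Function.comp_def] using h3
  have T8 : Filter.Tendsto (fun m : ℕ => (h / 2 ^ (2 * m)) ^ 2 * (M + C₄ / (h / 2 ^ (2 * m))))
      Filter.atTop (nhds 0) := by
    have h2 : (fun m : ℕ => (h / 2 ^ (2 * m)) ^ 2 * (M + C₄ / (h / 2 ^ (2 * m)))) =
        fun m : ℕ => (h / 2 ^ (2 * m)) ^ 2 * M + (h / 2 ^ (2 * m)) * C₄ := by
      funext m
      have : h / 2 ^ (2 * m) ≠ 0 := by positivity
      generalize h / 2 ^ (2 * m) = e at this
      field_simp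
    rw [h2]
    simpa using (T3.mul_const M).add (T2.mul_const C₄)
  have T9 : Filter.Tendsto (fun m : ℕ => 16 * (√(16 * q ^ (2 * m) + 150 * (C₁ * √(2 * E) * q ^ m)) +
        (h / 2 ^ (2 * m)) ^ 2 * (M + C₄ / (h / 2 ^ (2 * m)))) +
        C₂ * (C₃ * ((h / 2 ^ (2 * m)) ^ 2) ^ γ +
          q ^ m * (C₃ * ((h / 2 ^ (2 * m)) ^ 2) ^ (γ - 1)) ^ 2)) Filter.atTop (nhds 0) := by
    simpa using ((T7.add T8).const_mul 16).add ((T4.add T5).const_mul C₂)
  have A1 := Filter.eventually_ge_atTop 1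
  have A2 := T1.eventually_le_const (u := 1 / 2) (by norm_num)
  have A3 := T6.eventually_le_const (u := 1) (by norm_num)
  have A4 := T4.eventually_le_const (u := 1) (by norm_num)
  have A5 := T5.eventually_le_const (u := c) hc
  have A6 := T9.eventually_le_const (u := 1) (by norm_num)
  obtain ⟨m, m1, m2, m3, m4, m5, m6⟩ := (A1.and (A2.and (A3.and (A4.and (A5.and A6))))).exists
  exact ⟨m, m1, m2, m3, m4, m5, m6⟩

theorem exists_step (E : ℝ) (hE : 0 < E) : ∃ η t : ℝ, 0 < η ∧ η < t ∧ t ≤ 1 / 2 ∧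
    ∀ (z : ℂ) (S : Set ℂ) (u : ℂ → ℝ), ‖z‖ ≤ 2 → Dom z S → Fun S u → En u ≤ E → Near η S u →
    ∃ δ : ℂ, (∀ s : ℝ, 0 ≤ s → s ≤ t → z + s * δ ∈ NN) ∧
      ∃ (S' : Set ℂ) (u' : ℂ → ℝ), Dom (z + t * δ) S' ∧ Fun S' u' ∧
        En u' ≤ (1 - t) * En u := by
  have hth := th_pos
  set h : ℝ := hh E with hh_def
  have h0 : 0 < h := by rw [hh_def]; unfold hh; positivity
  have h1 : h ≤ 1 / 6 := by
    rw [hh_def]
    unfold hh
    have : Real.exp (-(Real.pi * E / 2)) ≤ 1 := by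
      rw [Real.exp_le_one_iff]
      have : 0 < Real.pi * E := mul_pos Real.pi_pos hE
      linarith
    linarith
  obtain ⟨M, hM, hbeta⟩ := exists_beta h0 h1
  obtain ⟨C₂, c, hC₂, hc, hdef⟩ := exists_deform h0 h1 hM
  obtain ⟨C₁, hC₁, hreg⟩ := exists_reg
  obtain ⟨C₄, hC₄, hlin⟩ := exists_linear
  obtain ⟨γ, γ0, γ1, hγ⟩ := ja_gamma hth.2
  obtain ⟨C₃, hC₃, hvec⟩ := vec_field γ0 γ1
  obtain ⟨m, m1, m2, m3, m4, m5, m6⟩ := ja_choice (E := E) (C₁ := C₁) (C₂ := C₂) (C₃ := C₃) (C₄ := C₄)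
    (M := M) hth.1 hth.2 h0 hc γ0 hγ
  set e : ℝ := h / 2 ^ (2 * m) with he_def
  have he : 0 < e := by positivity
  have he1 : e ≤ 1 := by
    rw [he_def, div_le_one (by positivity)]
    have : (1 : ℝ) ≤ 2 ^ (2 * m) := one_le_pow₀ (by norm_num)
    linarith
  have hε : 0 < e ^ 2 := by positivity
  have hε1 : e ^ 2 ≤ 1 := pow_le_one₀ he.le he1
  set t : ℝ := th ^ m with ht_def
  have ht : 0 < t := by rw [ht_def]; exact pow_pos hth.1 m
  have hη : th ^ (2 * m) = t * t := by rw [ht_def, ← pow_add, two_mul]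
  set Λ : ℝ := C₃ * (e ^ 2) ^ (γ - 1) with hΛ_def
  set κ : ℝ := C₃ * (e ^ 2) ^ γ with hκ_def
  have hΛ1 : 1 ≤ Λ := by
    have : 1 ≤ (e ^ 2) ^ (γ - 1) := Real.one_le_rpow_of_pos_of_le_one_of_nonpos hε hε1 (by linarith)
    rw [hΛ_def]
    nlinarith
  have hκ0 : 0 ≤ κ := by rw [hκ_def]; positivity
  refine ⟨th ^ (2 * m), t, pow_pos hth.1 _, ?_, m2, ?_⟩
  · rw [hη]
    have : t < 1 := by linarith
    nlinarith
  intro z S u hz hD hF huE hN
  have hz0 := norm_z_gt hD hF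
  obtain ⟨μ, hμ, hμψ⟩ := exists_bel hD hF
  obtain ⟨V, δ, hV, hVd⟩ := hvec z hz0.le hz μ hμ (e ^ 2) hε hε1
  have hV1 : ∀ w, ‖dbar V w‖ ≤ 1 := by
    intro w
    rw [hVd]
    exact norm_mol_le hε hμ.bnd w
  have hhu : h ≤ hh (En u) := by
    rw [hh_def]
    unfold hh
    have : Real.exp (-(Real.pi * E / 2)) ≤ Real.exp (-(Real.pi * En u / 2)) := by
      apply Real.exp_le_exp.2
      have := mul_le_mul_of_nonneg_left huE Real.pi_pos.le
      linarith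
    linarith
  obtain ⟨β, hβ⟩ := hbeta z S u hD hF (fun a ha b hb => hhu.trans (thick hD hF hz ha hb))
  have hEu : 0 < En u := by
    have h2 := En_ge hD hF hz
    have h3 : 0 < Real.log (82 / 81) / Real.pi := div_pos (Real.log_pos (by norm_num)) Real.pi_pos
    linarith
  have htΛ2 : t * Λ ^ 2 ≤ c := m5
  have htΛ : t * Λ ≤ c := by
    have : t * Λ ≤ t * Λ ^ 2 := by
      have : Λ ≤ Λ ^ 2 := by nlinarith
      gcongr
    linarith
  refine ⟨δ, ?_, ?_⟩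
  · intro s hs0 hst
    have hsΛ : s * Λ ≤ c := by
      have : s * Λ ≤ t * Λ := by gcongr
      linarith
    obtain ⟨S', u', hD', hF', -⟩ := hdef z δ S u β V Λ κ s hD hF hβ hV hV1 hκ0 m4 hΛ1 hs0 hsΛ
    exact ⟨S', u', hD', hF'⟩
  · obtain ⟨S', u', hD', hF', hEn⟩ := hdef z δ S u β V Λ κ t hD hF hβ hV hV1 hκ0 m4 hΛ1 ht.le htΛ
    refine ⟨S', u', hD', hF', ?_⟩
    set s : ℝ := C₁ * √(2 * E) * t with hs_def
    have hsq : 0 < √(2 * E) := Real.sqrt_pos.2 (by linarith)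
    have hs0 : 0 < s := by rw [hs_def]; positivity
    have hs1 : s ≤ 1 := m3
    have hr1 : C₁ * √((th ^ (2 * m) + th ^ (2 * m)) * En u) ≤ s := by
      have h2 : (th ^ (2 * m) + th ^ (2 * m)) * En u ≤ (2 * E) * t ^ 2 := by
        rw [hη]
        have : t * t * En u ≤ t * t * E := by gcongr
        nlinarith
      have h3 : √((th ^ (2 * m) + th ^ (2 * m)) * En u) ≤ √(2 * E) * t := by
        calc √((th ^ (2 * m) + th ^ (2 * m)) * En u) ≤ √((2 * E) * t ^ 2) := Real.sqrt_le_sqrt h2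
          _ = √(2 * E) * t := by
            rw [Real.sqrt_mul (by linarith), Real.sqrt_sq ht.le]
      calc C₁ * √((th ^ (2 * m) + th ^ (2 * m)) * En u) ≤ C₁ * (√(2 * E) * t) := by gcongr
        _ = s := by rw [hs_def]; ring
    have hreg1 := hreg z S u hD hF hz (th ^ (2 * m)) (pow_pos hth.1 _).le hN (2 * m) h s h0 hhu hr1 hs0 hs1
    set ω : ℝ := √(16 * th ^ (2 * m) + 150 * s) with hω_def
    have hω0 : 0 ≤ ω := Real.sqrt_nonneg _
    have hω2 : ω ^ 2 = 16 * th ^ (2 * m) + 150 * s := by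
      rw [hω_def, Real.sq_sqrt]
      have := pow_pos hth.1 (2 * m)
      positivity
    have hlin1 := hlin z S u β h M μ hD hF hβ hM.le hμ hμψ e (e ^ 2) ω he hε hω0 (by
      rw [hω2]
      exact hreg1)
    have hI : (fun w => ((β w : ℂ) * psi u w ^ 2 * dbar V w).re) =
        fun w => ((β w : ℂ) * psi u w ^ 2 * mol (e ^ 2) μ w).re := by
      funext w
      rw [hVd]
    rw [hI] at hEn
    have m6' : 16 * (ω + e ^ 2 * (M + C₄ / e)) + C₂ * (κ + t * Λ ^ 2) ≤ 1 := m6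
    set I : ℝ := ∫ w, ((β w : ℂ) * psi u w ^ 2 * mol (e ^ 2) μ w).re with hI_def
    have k1 : 16 * t * (En u / 8 - (ω + e ^ 2 * (M + C₄ / e)) * En u) ≤ 16 * t * I := by gcongr
    have k2 : t * En u * (16 * (ω + e ^ 2 * (M + C₄ / e)) + C₂ * (κ + t * Λ ^ 2)) ≤ t * En u * 1 := by
      gcongr
    linarith [k1, k2, hEn]

/- END ja -/

/- MODULE jb
NO BOUNDED COMPONENT.  Let `W` be the connected component of `z₀` in `NN`, `W ⊆ closedBall 0 2`.
`e0 = inf {En u | z ∈ W, Dom z S, Fun S u} ≥ log (82/81) / π > 0` (`En_ge`).  `exists_step` with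
`E = 2 e0`; choose `z, S, u` with `(1 - η) En u ≤ e0` and `En u ≤ 2 e0` (`η < 1/2`); `Near η S u` since
`En v ≥ e0` for all `v` with `Fun S v`.  The segment from `z` to `z + t δ` is connected in `NN`, so
`z + t δ ∈ W`, and `En u' ≤ (1 - t) En u ≤ (1 - t) e0 / (1 - η) < e0`: contradiction. -/
theorem no_bounded_component {z₀ : ℂ} (h0 : z₀ ∈ NN) :
    ¬ connectedComponentIn NN z₀ ⊆ Metric.closedBall 0 2 := by
  intro hW
  set W := connectedComponentIn NN z₀ with hWdef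
  set Es : Set ℝ := {e | ∃ z ∈ W, ∃ (S : Set ℂ) (u : ℂ → ℝ), Dom z S ∧ Fun S u ∧ e = En u} with hEs
  have hnorm : ∀ z ∈ W, ‖z‖ ≤ 2 := fun z hz => by simpa using hW hz
  have hc : 0 < Real.log (82 / 81) / Real.pi := by
    have : 0 < Real.log (82 / 81 : ℝ) := Real.log_pos (by norm_num)
    positivity
  have hlow : ∀ e ∈ Es, Real.log (82 / 81) / Real.pi ≤ e := by
    rintro e ⟨z, hz, S, u, hD, hF, rfl⟩
    exact En_ge hD hF (hnorm z hz)
  have hne : Es.Nonempty := by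
    obtain ⟨S, u, hD, hF⟩ := h0
    exact ⟨En u, z₀, mem_connectedComponentIn ⟨S, u, hD, hF⟩, S, u, hD, hF, rfl⟩
  have hbdd : BddBelow Es := ⟨_, hlow⟩
  have he0 : 0 < sInf Es := lt_of_lt_of_le hc (le_csInf hne hlow)
  obtain ⟨η, t, hη, hηt, ht, hstep⟩ := exists_step (2 * sInf Es) (by positivity)
  have h1η : 0 < 1 - η := by linarith
  have hlt : sInf Es < sInf Es / (1 - η) := by
    rw [lt_div_iff₀ h1η]
    nlinarith
  obtain ⟨e, ⟨z, hz, S, u, hD, hF, rfl⟩, he⟩ := exists_lt_of_csInf_lt hne hlt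
  rw [lt_div_iff₀ h1η] at he
  have hEu : 0 ≤ En u := (hc.le.trans (En_ge hD hF (hnorm z hz)))
  have hle2 : En u ≤ 2 * sInf Es := by nlinarith
  have hNear : Near η S u := by
    intro v hv
    have : sInf Es ≤ En v := csInf_le hbdd ⟨z, hz, S, v, hD, hv, rfl⟩
    nlinarith
  obtain ⟨δ, hseg, S', u', hD', hF', hE'⟩ := hstep z S u (hnorm z hz) hD hF hle2 hNear
  have hzW : z + t * δ ∈ W := by
    have h1 : IsPreconnected ((fun s : ℝ => z + s * δ) '' Set.Icc 0 t) :=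
      isPreconnected_Icc.image _ (by fun_prop)
    have h2 : (fun s : ℝ => z + s * δ) '' Set.Icc 0 t ⊆ NN := by
      rintro _ ⟨s, hs, rfl⟩
      exact hseg s hs.1 hs.2
    have h3 : z ∈ (fun s : ℝ => z + s * δ) '' Set.Icc 0 t :=
      ⟨0, ⟨le_rfl, by linarith⟩, by simp⟩
    have h4 := h1.subset_connectedComponentIn h3 h2
    rw [← connectedComponentIn_eq hz] at h4
    exact h4 ⟨t, ⟨by linarith, le_rfl⟩, rfl⟩
  have h5 : sInf Es ≤ En u' := csInf_le hbdd ⟨z + t * δ, hzW, S', u', hD', hF', rfl⟩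
  nlinarith
/- END jb -/

/- MODULE jc
If moreover `{w | 2 < ‖w‖} ⊆ NN`, then `NN` is connected: every component contains a point of norm
`> 2`, and `{w | 2 < ‖w‖}` is connected (image of a product of an interval and `ℝ` under polar
coordinates, or `isPreconnected_far` of `Pool.Agent.RSt.Fill`). -/
theorem isConnected_NN (h : {w : ℂ | 2 < ‖w‖} ⊆ NN) : IsConnected NN := by
  have hfar : IsPreconnected {w : ℂ | 2 < ‖w‖} := by
    have h1 : IsPreconnected (Set.Ioi (2 : ℝ) ×ˢ (Set.univ : Set ℝ)) :=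
      isPreconnected_Ioi.prod isPreconnected_univ
    have h2 := h1.image (fun p : ℝ × ℝ => (p.1 : ℂ) * Complex.exp (p.2 * Complex.I)) (by fun_prop)
    have h3 : (fun p : ℝ × ℝ => (p.1 : ℂ) * Complex.exp (p.2 * Complex.I)) ''
        (Set.Ioi (2 : ℝ) ×ˢ (Set.univ : Set ℝ)) = {w : ℂ | 2 < ‖w‖} := by
      ext w
      constructor
      · rintro ⟨⟨r, t⟩, ⟨hr, -⟩, rfl⟩
        simp only [Set.mem_Ioi] at hr
        simp only [Set.mem_ofPred_eq, norm_mul, Complex.norm_exp_ofReal_mul_I, mul_one,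
          Complex.norm_real]
        rwa [Real.norm_of_nonneg (by linarith)]
      · intro hw
        refine ⟨(‖w‖, Complex.arg w), ⟨hw, trivial⟩, ?_⟩
        exact Complex.norm_mul_exp_arg_mul_I w
    rwa [h3] at h2
  have h3m : (3 : ℂ) ∈ {w : ℂ | 2 < ‖w‖} := by
    simp only [Set.mem_ofPred_eq]
    norm_num
  have key : ∀ z₀ ∈ NN, z₀ ∈ connectedComponentIn NN 3 := by
    intro z₀ h0
    have h1 := no_bounded_component h0
    rw [Set.not_subset] at h1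
    obtain ⟨y, hy, hy2⟩ := h1
    have hy2' : 2 < ‖y‖ := by simpa using hy2
    have h2 := hfar.subset_connectedComponentIn (x := y) hy2' h
    have h4 := h2 h3m
    rw [← connectedComponentIn_eq hy] at h4
    rw [← connectedComponentIn_eq h4]
    exact mem_connectedComponentIn h0
  have heq : NN = connectedComponentIn NN 3 :=
    Set.Subset.antisymm key (connectedComponentIn_subset _ _)
  rw [heq]
  exact isConnected_connectedComponentIn_iff.2 (h h3m)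
/- END jc -/

end Pool.Agent.NoH
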