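import Pool.Agent.NoH.Inv

set_option autoImplicit false

/-!
# Part B: circles, thickness of the ring, lower bounds
-/

open MeasureTheory Set

namespace Pool.Agent.NoH

/- MODULE ba
`S` is bounded (`‖w‖ < R` on `S`): for `0 < ‖w‖ < 1/R` (take `R > 0`) the point `w⁻¹` is off `S`, so
`u w⁻¹ = 1` and `u w = -1`; by continuity `u 0 = -1`, so `0 ∈ S`.  If `w ∈ Km S`, `w ≠ 0`: `u w⁻¹ = 1`,
`u w = -1`.  If `w ∉ S` then `w ≠ 0` and `u w⁻¹ = -u w = -1 ≠ 1`, so `w⁻¹ ∈ S`.  `u 1 = -u 1` gives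
`u 1 = 0`, so `1 ∈ S`, `-1 ∈ S`; `1 + z ∉ S` by `trn` with `n = 1`, `1 + z ≠ 0` since `0 ∈ S`.
`km_sub`: if `w ∈ Km S` then `u w = -1 ≠ 1`, so `w ∈ S`. -/
theorem ba_bd {z : ℂ} {S : Set ℂ} (hD : Dom z S) : ∃ R : ℝ, 1 ≤ R ∧ ∀ w ∈ S, ‖w‖ < R := by
  obtain ⟨R, hR⟩ := hD.bdd
  exact ⟨max R 1, le_max_right _ _, fun w hw => lt_of_lt_of_le (hR w hw) (le_max_left _ _)⟩

theorem ba_small {z : ℂ} {S : Set ℂ} (hD : Dom z S) :
    ∃ r : ℝ, 0 < r ∧ ∀ w : ℂ, w ≠ 0 → ‖w‖ < r → w⁻¹ ∉ S := by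
  obtain ⟨R, hR1, hR⟩ := ba_bd hD
  refine ⟨1 / R, by positivity, fun w hw hwr hS => ?_⟩
  have h1 := hR _ hS
  rw [norm_inv] at h1
  have h2 : 0 < ‖w‖ := norm_pos_iff.mpr hw
  have h3 : 0 < R := by linarith
  rw [lt_div_iff₀ h3] at hwr
  rw [inv_lt_iff_one_lt_mul₀ h2] at h1
  nlinarith

theorem zero_mem {z : ℂ} {S : Set ℂ} {u : ℂ → ℝ} (hD : Dom z S) (hF : Fun S u) :
    u 0 = -1 ∧ (0 : ℂ) ∈ S := by
  obtain ⟨r, hr, h⟩ := ba_small hD
  have hu0 : u 0 = -1 := by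
    have hc : Filter.Tendsto u (nhdsWithin 0 {0}ᶜ) (nhds (u 0)) :=
      (hF.smo.continuous.tendsto 0).mono_left nhdsWithin_le_nhds
    have he : ∀ᶠ w in nhdsWithin (0 : ℂ) {0}ᶜ, u w = -1 := by
      have h1 : ∀ᶠ w in nhdsWithin (0 : ℂ) {0}ᶜ, w ∈ Metric.ball (0 : ℂ) r :=
        nhdsWithin_le_nhds (Metric.ball_mem_nhds 0 hr)
      have h2 : ∀ᶠ w in nhdsWithin (0 : ℂ) {0}ᶜ, w ∈ ({0}ᶜ : Set ℂ) := self_mem_nhdsWithin
      filter_upwards [h1, h2] with w hw1 hw2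
      have hw0 : w ≠ 0 := hw2
      have hwr : ‖w‖ < r := by simpa using hw1
      have h3 := hF.one _ (h w hw0 hwr)
      have h4 := hF.inv w hw0
      linarith
    have hc' : Filter.Tendsto u (nhdsWithin 0 {0}ᶜ) (nhds (-1)) :=
      tendsto_const_nhds.congr' (he.mono fun w hw => hw.symm)
    exact tendsto_nhds_unique hc hc'
  refine ⟨hu0, ?_⟩
  by_contra h0
  have := hF.one 0 h0
  linarith

theorem ba_km {z : ℂ} {S : Set ℂ} {u : ℂ → ℝ} (hD : Dom z S) (hF : Fun S u) {w : ℂ}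
    (hw : w ∈ Km S) : u w = -1 := by
  rcases hw with h | h
  · rw [h]; exact (zero_mem hD hF).1
  · by_cases h0 : w = 0
    · rw [h0]; exact (zero_mem hD hF).1
    · have h3 := hF.one _ h
      have h4 := hF.inv w h0
      linarith

theorem plat_of_fun {z : ℂ} {S : Set ℂ} {u : ℂ → ℝ} (hD : Dom z S) (hF : Fun S u) : Plat S u := by
  exact ⟨hF.smo, hF.bnd, hF.one, fun _ hw => ba_km hD hF hw⟩

theorem inv_mem {z : ℂ} {S : Set ℂ} {u : ℂ → ℝ} (hD : Dom z S) (hF : Fun S u) {w : ℂ}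
    (hw : w ∉ S) : w ≠ 0 ∧ w⁻¹ ∈ S := by
  have h0 : w ≠ 0 := by
    intro h
    exact hw (h ▸ (zero_mem hD hF).2)
  refine ⟨h0, ?_⟩
  by_contra h
  have h1 := hF.one _ h
  have h2 := hF.inv w h0
  have h3 := hF.one _ hw
  linarith

theorem km_sub {z : ℂ} {S : Set ℂ} {u : ℂ → ℝ} (hD : Dom z S) (hF : Fun S u) : Km S ⊆ S := by
  intro w hw
  by_contra h
  have h1 := hF.one _ h
  have h2 := ba_km hD hF hw
  linarith

theorem one_mem {z : ℂ} {S : Set ℂ} {u : ℂ → ℝ} (hD : Dom z S) (hF : Fun S u) :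
    (1 : ℂ) ∈ S ∧ 1 + z ∉ S ∧ 1 + z ≠ 0 := by
  have h1 : (1 : ℂ) ∈ S := by
    by_contra h
    have h1 := hF.one _ h
    have h2 := hF.inv 1 one_ne_zero
    rw [inv_one] at h2
    linarith
  have h2 : 1 + z ∉ S := by
    have := hD.trn 1 one_ne_zero 1 h1
    simpa using this
  refine ⟨h1, h2, (inv_mem hD hF h2).1⟩

/-- A neighbourhood of `0` is contained in `Km S`. -/
theorem ball_sub_km {z : ℂ} {S : Set ℂ} (hD : Dom z S) : ∃ r : ℝ, 0 < r ∧
    ∀ w : ℂ, ‖w‖ < r → w ∈ Km S := by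
  obtain ⟨r, hr, h⟩ := ba_small hD
  refine ⟨r, hr, fun w hw => ?_⟩
  by_cases h0 : w = 0
  · exact Or.inl h0
  · exact Or.inr (h w h0 hw)

theorem km_closed {z : ℂ} {S : Set ℂ} (hD : Dom z S) : IsClosed (Km S) := by
  have h : (Km S)ᶜ = {0}ᶜ ∩ (fun w : ℂ => w⁻¹) ⁻¹' S := by
    ext w
    simp only [Km, Set.mem_compl_iff, Set.mem_ofPred_eq, Set.mem_inter_iff, Set.mem_singleton_iff,
      Set.mem_preimage, not_or, not_not]
  rw [← isOpen_compl_iff, h]
  refine ContinuousOn.isOpen_inter_preimage ?_ isOpen_compl_singleton hD.opn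
  exact continuousOn_inv₀
/- END ba -/

/- MODULE bb
Every circle around a point `b` off `S` contains a point off `S`: otherwise
`Z = Sᶜ ∩ closedBall b r` is compact, contains `b`, and `Sᶜ \ Z = Sᶜ ∩ {w | r ≤ ‖w - b‖}` is closed,
against `con`. -/
/-- The general form of `circ_S`: a circle around any centre with a point off `S` inside. -/
theorem bb_gen {z : ℂ} {S : Set ℂ} (hD : Dom z S) {p b : ℂ} (hb : b ∉ S) {r : ℝ}
    (hr : ‖b - p‖ < r) : ∃ w, w ∉ S ∧ ‖w - p‖ = r := by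
  by_contra hcon
  push Not at hcon
  have hcl : IsClosed Sᶜ := hD.opn.isClosed_compl
  have hZ : Sᶜ ∩ Metric.closedBall p r = ∅ := by
    refine hD.con _ inter_subset_left ((isCompact_closedBall p r).inter_left hcl) ?_
    have : Sᶜ \ (Sᶜ ∩ Metric.closedBall p r) = Sᶜ ∩ {w | r ≤ ‖w - p‖} := by
      ext w
      simp only [mem_sdiff, mem_compl_iff, mem_inter_iff, Metric.mem_closedBall, dist_eq_norm,
        Set.mem_ofPred_eq, not_and, not_le]
      constructor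
      · rintro ⟨h1, h2⟩
        exact ⟨h1, (h2 h1).le⟩
      · rintro ⟨h1, h2⟩
        exact ⟨h1, fun _ => lt_of_le_of_ne h2 (Ne.symm (hcon w h1))⟩
    rw [this]
    exact hcl.inter (isClosed_le continuous_const (by fun_prop))
  have : b ∈ Sᶜ ∩ Metric.closedBall p r := ⟨hb, by
    rw [Metric.mem_closedBall, dist_eq_norm]; exact hr.le⟩
  rw [hZ] at this
  exact this

theorem circ_S {z : ℂ} {S : Set ℂ} (hD : Dom z S) {b : ℂ} (hb : b ∉ S) {r : ℝ} (hr : 0 < r) :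
    ∃ w, w ∉ S ∧ ‖w - b‖ = r := by
  exact bb_gen hD hb (by simpa using hr)
/- END bb -/

/- MODULE bc
A circle `‖w - p‖ = r` which misses `Km S` has `Km S` completely inside or completely outside.  The
two parts `A = Km S ∩ {‖w - p‖ ≤ r}` and `B = Km S ∩ {r ≤ ‖w - p‖}` are closed and disjoint with union
`Km S`.  Let `Z` be the one which does not contain `0`.  `Km S` is bounded, because `0 ∈ S` is an
interior point of `S` (`zero_mem`): `‖w‖ ≥ r₀` for `w ∉ S`, so `‖w‖ ≤ 1/r₀` on `Km S`.  So `Z` is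
compact, and `Z' = (·)⁻¹ '' Z` is compact (inversion is continuous on `Z`), contained in `Sᶜ`.
`Sᶜ \ Z' = {w ∈ Sᶜ | w⁻¹ ∈ the other part}` (for `w ∉ S`: `w ≠ 0` and `w⁻¹ ∈ Km S`) is closed, because
inversion is continuous on the closed set `Sᶜ`, which does not contain `0`.  By `con` `Z' = ∅`, so
`Z = ∅`. -/
/-- A compact part of `Km S` without `0` and with closed complement in `Km S` is empty. -/
theorem bc_part {z : ℂ} {S : Set ℂ} {u : ℂ → ℝ} (hD : Dom z S) (hF : Fun S u) {Z : Set ℂ}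
    (hZ : Z ⊆ Km S) (hc : IsCompact Z) (h0 : (0 : ℂ) ∉ Z) (hcl : IsClosed (Km S \ Z)) : Z = ∅ := by
  have hne : ∀ w ∈ Z, w ≠ 0 := fun w hw h => h0 (h ▸ hw)
  have hcompl : IsClosed Sᶜ := hD.opn.isClosed_compl
  have hZS : (fun w : ℂ => w⁻¹) '' Z ⊆ Sᶜ := by
    rintro _ ⟨w, hw, rfl⟩
    rcases hZ hw with h | h
    · exact absurd h (hne w hw)
    · exact h
  have hcont : ContinuousOn (fun w : ℂ => w⁻¹) Z :=
    continuousOn_inv₀.mono fun w hw => hne w hw
  have hcont' : ContinuousOn (fun w : ℂ => w⁻¹) Sᶜ :=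
    continuousOn_inv₀.mono fun w hw => (inv_mem hD hF hw).1
  have hkey : (fun w : ℂ => w⁻¹) '' Z = ∅ := by
    refine hD.con _ hZS (hc.image_of_continuousOn hcont) ?_
    have : Sᶜ \ ((fun w : ℂ => w⁻¹) '' Z) = Sᶜ ∩ (fun w : ℂ => w⁻¹) ⁻¹' (Km S \ Z) := by
      ext w
      simp only [mem_sdiff, mem_inter_iff, mem_preimage]
      constructor
      · rintro ⟨h1, h2⟩
        refine ⟨h1, Or.inr (by rw [inv_inv]; exact h1), fun h3 => h2 ⟨w⁻¹, h3, inv_inv w⟩⟩
      · rintro ⟨h1, _, h3⟩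
        refine ⟨h1, ?_⟩
        rintro ⟨v, hv, hvw⟩
        apply h3
        rw [← hvw]
        simpa using hv
    rw [this]
    exact hcont'.preimage_isClosed_of_isClosed hcompl hcl
  exact image_eq_empty.mp hkey

theorem bc_bdd {z : ℂ} {S : Set ℂ} {u : ℂ → ℝ} (hD : Dom z S) (hF : Fun S u) :
    ∃ R : ℝ, Km S ⊆ Metric.closedBall 0 R := by
  obtain ⟨r, hr, h⟩ := Metric.isOpen_iff.mp hD.opn 0 (zero_mem hD hF).2
  refine ⟨r⁻¹, fun w hw => ?_⟩
  rw [mem_closedBall_zero_iff]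
  rcases hw with h0 | h0
  · rw [h0, norm_zero]; positivity
  · by_contra hlt
    push Not at hlt
    apply h0
    apply h
    have hw0 : 0 < ‖w‖ := lt_trans (by positivity) hlt
    rw [mem_ball_zero_iff, norm_inv]
    exact (inv_lt_comm₀ hr hw0).mp hlt

theorem bc_compact {z : ℂ} {S : Set ℂ} {u : ℂ → ℝ} (hD : Dom z S) (hF : Fun S u) :
    IsCompact (Km S) := by
  obtain ⟨R, hR⟩ := bc_bdd hD hF
  exact (isCompact_closedBall 0 R).of_isClosed_subset (km_closed hD) hR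

theorem circ_Km {z : ℂ} {S : Set ℂ} {u : ℂ → ℝ} (hD : Dom z S) (hF : Fun S u) (p : ℂ) {r : ℝ}
    (hr : 0 < r) (h : ∀ w ∈ Km S, ‖w - p‖ ≠ r) :
    (∀ w ∈ Km S, ‖w - p‖ < r) ∨ ∀ w ∈ Km S, r < ‖w - p‖ := by
  have hcK := bc_compact hD hF
  have hK := km_closed hD
  have hA : IsClosed {w : ℂ | ‖w - p‖ ≤ r} := isClosed_le (by fun_prop) continuous_const
  have hB : IsClosed {w : ℂ | r ≤ ‖w - p‖} := isClosed_le continuous_const (by fun_prop)
  have hAB : Km S \ (Km S ∩ {w : ℂ | ‖w - p‖ ≤ r}) = Km S ∩ {w : ℂ | r ≤ ‖w - p‖} := by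
    ext w
    simp only [mem_sdiff, mem_inter_iff, Set.mem_ofPred_eq, not_and, not_le]
    exact ⟨fun ⟨h1, h2⟩ => ⟨h1, (h2 h1).le⟩, fun ⟨h1, h2⟩ =>
      ⟨h1, fun _ => lt_of_le_of_ne h2 (Ne.symm (h w h1))⟩⟩
  have hBA : Km S \ (Km S ∩ {w : ℂ | r ≤ ‖w - p‖}) = Km S ∩ {w : ℂ | ‖w - p‖ ≤ r} := by
    ext w
    simp only [mem_sdiff, mem_inter_iff, Set.mem_ofPred_eq, not_and, not_le]
    exact ⟨fun ⟨h1, h2⟩ => ⟨h1, (h2 h1).le⟩, fun ⟨h1, h2⟩ =>
      ⟨h1, fun _ => lt_of_le_of_ne h2 (h w h1)⟩⟩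
  rcases lt_or_ge r ‖(0 : ℂ) - p‖ with h0 | h0
  · right
    have hZ := bc_part hD hF (Z := Km S ∩ {w : ℂ | ‖w - p‖ ≤ r}) inter_subset_left
      (hcK.inter_right hA) (fun hm => absurd hm.2 (not_le.mpr h0)) (by rw [hAB]; exact hK.inter hB)
    intro w hw
    by_contra hc
    push Not at hc
    have : w ∈ Km S ∩ {w : ℂ | ‖w - p‖ ≤ r} := ⟨hw, hc⟩
    rw [hZ] at this
    exact this
  · left
    have h00 : ‖(0 : ℂ) - p‖ < r := lt_of_le_of_ne h0 (h 0 (Or.inl rfl))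
    have hZ := bc_part hD hF (Z := Km S ∩ {w : ℂ | r ≤ ‖w - p‖}) inter_subset_left
      (hcK.inter_right hB) (fun hm => absurd hm.2 (not_le.mpr h00)) (by rw [hBA]; exact hK.inter hA)
    intro w hw
    by_contra hc
    push Not at hc
    have : w ∈ Km S ∩ {w : ℂ | r ≤ ‖w - p‖} := ⟨hw, hc⟩
    rw [hZ] at this
    exact this
/- END bc -/

/- MODULE bd
`q = (1 + z)⁻¹` satisfies `q⁻¹ = 1 + z ∉ S`, so `q ∈ Km S`, and `-q ∈ Km S`
(`(-q)⁻¹ = -(1 + z) ∉ S` by `neg`), `‖q‖ ≥ 1/3`.  For `a ∈ Km S` and `r < 1/6` the circle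
`‖w - a‖ = r` meets `Km S`: otherwise by `circ_Km` `Km S` is inside (it contains the centre), but
`0` and `q` are in `Km S` at distance at least `1/3 > 2 r`. -/
theorem q_mem {z : ℂ} {S : Set ℂ} {u : ℂ → ℝ} (hD : Dom z S) (hF : Fun S u) (hz : ‖z‖ ≤ 2) :
    (1 + z)⁻¹ ∈ Km S ∧ -(1 + z)⁻¹ ∈ Km S ∧ 1 / 3 ≤ ‖(1 + z)⁻¹‖ := by
  obtain ⟨_, h2, h3⟩ := one_mem hD hF
  refine ⟨Or.inr (by rw [inv_inv]; exact h2), Or.inr ?_, ?_⟩
  · rw [inv_neg, inv_inv]
    intro h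
    have := hD.neg _ h
    rw [neg_neg] at this
    exact h2 this
  · rw [norm_inv]
    have h4 : 0 < ‖1 + z‖ := norm_pos_iff.mpr h3
    have h5 : ‖1 + z‖ ≤ 3 := by
      have h6 := norm_add_le (1 : ℂ) z
      rw [norm_one] at h6
      linarith
    rw [one_div]
    exact inv_anti₀ h4 h5

theorem circ_Km' {z : ℂ} {S : Set ℂ} {u : ℂ → ℝ} (hD : Dom z S) (hF : Fun S u) (hz : ‖z‖ ≤ 2)
    {a : ℂ} (ha : a ∈ Km S) {r : ℝ} (hr : 0 < r) (hr' : r < 1 / 6) : ∃ w ∈ Km S, ‖w - a‖ = r := by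
  by_contra hcon
  push Not at hcon
  obtain ⟨h1, _, h3⟩ := q_mem hD hF hz
  rcases circ_Km hD hF a hr hcon with h | h
  · have h4 := h _ h1
    have h5 := h 0 (Or.inl rfl)
    have h6 : ‖(1 + z)⁻¹‖ ≤ ‖(1 + z)⁻¹ - a‖ + ‖(0 : ℂ) - a‖ := by
      have h7 := norm_sub_le ((1 + z)⁻¹ - a) (0 - a)
      have h8 : ((1 + z)⁻¹ - a) - (0 - a) = (1 + z)⁻¹ := by ring
      rwa [h8] at h7
    linarith
  · have h4 := h a ha
    simp at h4
    linarith
/- END bd -/

/- MODULE be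
Energy of circles.  On the circle of radius `r` around `p` the function `u` takes the values `1` and
`-1`, so `2 ≤ ∫_0^(2π) |d/dθ u(p + r e^(iθ))| dθ ≤ ∫_0^(2π) r ‖grd u‖ dθ`, and by Cauchy - Schwarz
`4 ≤ 2π r² ∫_0^(2π) ‖grd u‖² dθ`, i.e. `∫_0^(2π) ‖grd u‖² r dθ ≥ 2 / (π r)`.  Integrate over
`r1 < r < r2` in polar coordinates around `p` (`Complex.integral_comp_polarCoord_symm` after the
translation by `p`). -/
/-- The point of the circle of radius `r` around `0` at the angle `t`. -/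
noncomputable def be_pt (r t : ℝ) : ℂ := (r : ℂ) * (Real.cos t + Real.sin t * Complex.I)

theorem be_pt_cont : Continuous fun q : ℝ × ℝ => be_pt q.1 q.2 := by
  unfold be_pt
  fun_prop

theorem be_pt_norm (r t : ℝ) : ‖be_pt r t‖ = |r| := by
  have h := Complex.norm_polarCoord_symm (r, t)
  rw [Complex.polarCoord_symm_apply] at h
  exact h

theorem be_intOn {F : ℂ → ℝ} (hF : Continuous F) (r1 r2 : ℝ) :
    IntegrableOn (fun q : ℝ × ℝ => q.1 * F (be_pt q.1 q.2)) (Ioo r1 r2 ×ˢ Ioo (-Real.pi) Real.pi)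
      ((volume : Measure ℝ).prod volume) := by
  have hc : Continuous fun q : ℝ × ℝ => q.1 * F (be_pt q.1 q.2) :=
    continuous_fst.mul (hF.comp be_pt_cont)
  have hK : IsCompact (Icc r1 r2 ×ˢ Icc (-Real.pi) Real.pi) := isCompact_Icc.prod isCompact_Icc
  exact (hc.continuousOn.integrableOn_compact hK).mono_set
    (prod_mono Ioo_subset_Icc_self Ioo_subset_Icc_self)

theorem be_polar {F : ℂ → ℝ} (hF : Continuous F) {r1 r2 : ℝ} (h0 : 0 ≤ r1) :
    ∫ w : ℂ, {w : ℂ | r1 < ‖w‖ ∧ ‖w‖ < r2}.indicator F w =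
      ∫ r in Ioo r1 r2, ∫ t in Ioo (-Real.pi) Real.pi, r * F (be_pt r t) := by
  rw [← Complex.integral_comp_polarCoord_symm]
  have h1 : ∀ q ∈ polarCoord.target, q.1 • {w : ℂ | r1 < ‖w‖ ∧ ‖w‖ < r2}.indicator F
      (Complex.polarCoord.symm q) =
      (Ioo r1 r2 ×ˢ (univ : Set ℝ)).indicator (fun q : ℝ × ℝ => q.1 * F (be_pt q.1 q.2)) q := by
    intro q hq
    have hq0 : 0 < q.1 := hq.1
    have hn : ‖Complex.polarCoord.symm q‖ = q.1 := by
      rw [Complex.norm_polarCoord_symm, abs_of_pos hq0]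
    by_cases hm : r1 < q.1 ∧ q.1 < r2
    · rw [indicator_of_mem (show Complex.polarCoord.symm q ∈ {w : ℂ | r1 < ‖w‖ ∧ ‖w‖ < r2} by
        rw [Set.mem_ofPred_eq, hn]; exact hm),
        indicator_of_mem (show q ∈ Ioo r1 r2 ×ˢ (univ : Set ℝ) from ⟨hm, mem_univ _⟩), smul_eq_mul,
        Complex.polarCoord_symm_apply]
      rfl
    · rw [indicator_of_notMem (show Complex.polarCoord.symm q ∉ {w : ℂ | r1 < ‖w‖ ∧ ‖w‖ < r2} by
        rw [Set.mem_ofPred_eq, hn]; exact hm),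
        indicator_of_notMem (show q ∉ Ioo r1 r2 ×ˢ (univ : Set ℝ) from fun h => hm h.1), smul_zero]
  rw [setIntegral_congr_fun polarCoord.open_target.measurableSet h1,
    setIntegral_indicator (measurableSet_Ioo.prod MeasurableSet.univ)]
  have h2 : polarCoord.target ∩ Ioo r1 r2 ×ˢ (univ : Set ℝ) =
      Ioo r1 r2 ×ˢ Ioo (-Real.pi) Real.pi := by
    ext q
    simp only [polarCoord_target, mem_inter_iff, mem_prod, mem_Ioi, mem_univ, and_true]
    constructor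
    · rintro ⟨⟨_, h3⟩, h4⟩
      exact ⟨h4, h3⟩
    · rintro ⟨h3, h4⟩
      exact ⟨⟨lt_of_le_of_lt h0 h3.1, h4⟩, h3⟩
  rw [h2, Measure.volume_eq_prod, setIntegral_prod _ (be_intOn hF r1 r2)]

theorem be_inner_intOn {F : ℂ → ℝ} (hF : Continuous F) (r1 r2 : ℝ) :
    IntegrableOn (fun r => ∫ t in Ioo (-Real.pi) Real.pi, r * F (be_pt r t)) (Ioo r1 r2) := by
  have h := be_intOn hF r1 r2
  rw [IntegrableOn, ← Measure.prod_restrict] at h
  exact h.integral_prod_left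

/-- The integral over one circle. -/
theorem be_circ {u : ℂ → ℝ} (hu : ContDiff ℝ 1 u) {p : ℂ} {r : ℝ} (hr : 0 < r)
    (h1 : ∃ w, ‖w - p‖ = r ∧ u w = 1) (h2 : ∃ w, ‖w - p‖ = r ∧ u w = -1) :
    2 / (Real.pi * r) ≤ ∫ t in Ioo (-Real.pi) Real.pi, r * ‖grd u (p + be_pt r t)‖ ^ 2 := by
  have hpi := Real.pi_pos
  -- the function on the circle
  have hrep : ∀ w : ℂ, ‖w - p‖ = r → ∃ t ∈ Icc (-Real.pi) Real.pi, w = p + be_pt r t := by
    intro w hw
    refine ⟨Complex.arg (w - p), ⟨(Complex.neg_pi_lt_arg _).le, Complex.arg_le_pi _⟩, ?_⟩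
    have h3 := Complex.norm_mul_cos_add_sin_mul_I (w - p)
    rw [hw] at h3
    unfold be_pt
    push_cast
    rw [h3]
    ring
  obtain ⟨w1, hw1, hu1⟩ := h1
  obtain ⟨w2, hw2, hu2⟩ := h2
  obtain ⟨t1, ht1, hwt1⟩ := hrep w1 hw1
  obtain ⟨t2, ht2, hwt2⟩ := hrep w2 hw2
  have hptd : ∀ t : ℝ, HasDerivAt (fun t : ℝ => p + be_pt r t)
      ((r : ℂ) * (-Real.sin t + Real.cos t * Complex.I)) t := by
    intro t
    have hc := (Real.hasDerivAt_cos t).ofReal_comp
    have hs := (Real.hasDerivAt_sin t).ofReal_comp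
    have h3 := ((hc.add (hs.mul_const Complex.I)).const_mul (r : ℂ)).const_add p
    have h4 : (fun t : ℝ => p + be_pt r t) = fun x : ℝ => p + (r : ℂ) *
        ((fun y : ℝ => ((Real.cos y : ℝ) : ℂ)) + fun y : ℝ => ((Real.sin y : ℝ) : ℂ) * Complex.I) x := by
      funext x
      rfl
    rw [h4]
    rw [Complex.ofReal_neg] at h3
    exact h3
  have hnd : ∀ t : ℝ, ‖(r : ℂ) * (-Real.sin t + Real.cos t * Complex.I)‖ = r := by
    intro t
    rw [norm_mul, Complex.norm_real, Real.norm_eq_abs, abs_of_pos hr]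
    have : ‖(-(Real.sin t : ℂ) + (Real.cos t : ℂ) * Complex.I)‖ = 1 := by
      have h4 : ‖(-(Real.sin t : ℂ) + (Real.cos t : ℂ) * Complex.I)‖ ^ 2 = 1 := by
        rw [← Complex.normSq_eq_norm_sq]
        simp only [Complex.normSq_apply, Complex.add_re, Complex.neg_re, Complex.ofReal_re,
          Complex.mul_re, Complex.I_re, Complex.ofReal_im, Complex.I_im, Complex.add_im,
          Complex.neg_im, Complex.mul_im]
        have := Real.sin_sq_add_cos_sq t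
        nlinarith
      have h5 := norm_nonneg (-(Real.sin t : ℂ) + (Real.cos t : ℂ) * Complex.I)
      nlinarith
    rw [this, mul_one]
  have hgd : ∀ t : ℝ, HasDerivAt (fun t : ℝ => u (p + be_pt r t))
      (fderiv ℝ u (p + be_pt r t) ((r : ℂ) * (-Real.sin t + Real.cos t * Complex.I))) t := by
    intro t
    have h3 : HasFDerivAt u (fderiv ℝ u (p + be_pt r t)) (p + be_pt r t) :=
      ((hu.differentiable one_ne_zero) _).hasFDerivAt
    exact h3.comp_hasDerivAt t (hptd t)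
  have hptc : Continuous fun t : ℝ => p + be_pt r t :=
    continuous_const.add (be_pt_cont.comp (Continuous.prodMk_right r))
  have hgc : Continuous fun t : ℝ =>
      fderiv ℝ u (p + be_pt r t) ((r : ℂ) * (-Real.sin t + Real.cos t * Complex.I)) := by
    have h3 : Continuous fun t : ℝ => fderiv ℝ u (p + be_pt r t) :=
      (hu.continuous_fderiv one_ne_zero).comp hptc
    exact h3.clm_apply (by fun_prop)
  have hGc : Continuous fun t : ℝ => ‖grd u (p + be_pt r t)‖ :=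
    ((continuous_grd hu).comp hptc).norm
  have hpt : ∀ t : ℝ, ‖fderiv ℝ u (p + be_pt r t) ((r : ℂ) * (-Real.sin t + Real.cos t * Complex.I))‖
      ≤ r * ‖grd u (p + be_pt r t)‖ := by
    intro t
    have h3 := ContinuousLinearMap.le_opNorm (fderiv ℝ u (p + be_pt r t))
      ((r : ℂ) * (-Real.sin t + Real.cos t * Complex.I))
    rw [hnd, norm_fderiv_eq ((hu.differentiable one_ne_zero) _)] at h3
    linarith
  -- the increment
  have hinc : 2 ≤ ∫ t in Ioo (-Real.pi) Real.pi, r * ‖grd u (p + be_pt r t)‖ := by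
    have h3 : ∫ t in t2..t1, fderiv ℝ u (p + be_pt r t)
        ((r : ℂ) * (-Real.sin t + Real.cos t * Complex.I)) = 2 := by
      rw [intervalIntegral.integral_eq_sub_of_hasDerivAt (fun t _ => hgd t)
        (hgc.intervalIntegrable _ _)]
      rw [← hwt1, ← hwt2, hu1, hu2]
      norm_num
    have h4 : (2 : ℝ) ≤ ∫ t in uIoc t2 t1, ‖fderiv ℝ u (p + be_pt r t)
        ((r : ℂ) * (-Real.sin t + Real.cos t * Complex.I))‖ := by
      have h5 := intervalIntegral.norm_integral_le_integral_norm_uIoc (a := t2) (b := t1)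
        (f := fun t => fderiv ℝ u (p + be_pt r t)
          ((r : ℂ) * (-Real.sin t + Real.cos t * Complex.I))) (μ := volume)
      rw [h3] at h5
      simpa using h5
    have h6 : uIoc t2 t1 ⊆ Icc (-Real.pi) Real.pi := by
      intro t ht
      rcases mem_uIoc.mp ht with h7 | h7
      · exact ⟨le_trans ht2.1 h7.1.le, le_trans h7.2 ht1.2⟩
      · exact ⟨le_trans ht1.1 h7.1.le, le_trans h7.2 ht2.2⟩
    have h7 : ∫ t in uIoc t2 t1, ‖fderiv ℝ u (p + be_pt r t)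
        ((r : ℂ) * (-Real.sin t + Real.cos t * Complex.I))‖ ≤
        ∫ t in Icc (-Real.pi) Real.pi, ‖fderiv ℝ u (p + be_pt r t)
        ((r : ℂ) * (-Real.sin t + Real.cos t * Complex.I))‖ := by
      apply setIntegral_mono_set
      · exact hgc.norm.continuousOn.integrableOn_compact isCompact_Icc
      · exact Filter.Eventually.of_forall fun t => norm_nonneg _
      · exact h6.eventuallyLE
    have h8 : ∫ t in Icc (-Real.pi) Real.pi, ‖fderiv ℝ u (p + be_pt r t)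
        ((r : ℂ) * (-Real.sin t + Real.cos t * Complex.I))‖ ≤
        ∫ t in Icc (-Real.pi) Real.pi, r * ‖grd u (p + be_pt r t)‖ := by
      apply setIntegral_mono_on
      · exact hgc.norm.continuousOn.integrableOn_compact isCompact_Icc
      · exact (continuous_const.mul hGc).continuousOn.integrableOn_compact isCompact_Icc
      · exact measurableSet_Icc
      · intro t _
        exact hpt t
    rw [integral_Icc_eq_integral_Ioo] at h8
    rw [integral_Icc_eq_integral_Ioo] at h8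
    rw [integral_Icc_eq_integral_Ioo] at h7
    linarith
  -- Cauchy - Schwarz
  have hint1 : IntegrableOn (fun t : ℝ => r * ‖grd u (p + be_pt r t)‖ ^ 2)
      (Ioo (-Real.pi) Real.pi) :=
    ((continuous_const.mul (hGc.pow 2)).continuousOn.integrableOn_compact
      isCompact_Icc).mono_set Ioo_subset_Icc_self
  have hint2 : IntegrableOn (fun t : ℝ => r * ‖grd u (p + be_pt r t)‖)
      (Ioo (-Real.pi) Real.pi) :=
    ((continuous_const.mul hGc).continuousOn.integrableOn_compact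
      isCompact_Icc).mono_set Ioo_subset_Icc_self
  have hcs : ∫ t in Ioo (-Real.pi) Real.pi, r * ‖grd u (p + be_pt r t)‖ ≤
      ∫ t in Ioo (-Real.pi) Real.pi,
        (Real.pi * r / 2 * (r * ‖grd u (p + be_pt r t)‖ ^ 2) + 1 / (2 * Real.pi)) := by
    apply setIntegral_mono_on hint2
    · exact (hint1.const_mul _).add (integrableOn_const (by simp))
    · exact measurableSet_Ioo
    · intro t _
      have h3 : 0 ≤ (Real.pi * (r * ‖grd u (p + be_pt r t)‖) - 1) ^ 2 / (2 * Real.pi) := by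
        positivity
      have h4 : (Real.pi * (r * ‖grd u (p + be_pt r t)‖) - 1) ^ 2 / (2 * Real.pi) =
          Real.pi * r / 2 * (r * ‖grd u (p + be_pt r t)‖ ^ 2) + 1 / (2 * Real.pi) -
            r * ‖grd u (p + be_pt r t)‖ := by
        field_simp
        ring
      linarith
  rw [integral_add (hint1.const_mul _) (integrableOn_const (by simp)),
    integral_const_mul (Real.pi * r / 2) (fun t => r * ‖grd u (p + be_pt r t)‖ ^ 2)] at hcs
  have h5 : ∫ _ in Ioo (-Real.pi) Real.pi, 1 / (2 * Real.pi) = 1 := by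
    rw [setIntegral_const]
    simp only [Measure.real, Real.volume_Ioo, smul_eq_mul]
    rw [ENNReal.toReal_ofReal (by linarith)]
    field_simp
    ring
  rw [h5] at hcs
  have h6 : 1 ≤ Real.pi * r / 2 * ∫ t in Ioo (-Real.pi) Real.pi,
      r * ‖grd u (p + be_pt r t)‖ ^ 2 := by linarith
  rw [div_le_iff₀ (by positivity)]
  linarith

theorem log_le_En {u : ℂ → ℝ} (hu : ContDiff ℝ 1 u) (hi : Integrable fun w => ‖grd u w‖ ^ 2)
    {p : ℂ} {r1 r2 : ℝ} (h0 : 0 < r1) (h : r1 ≤ r2) (hc : ∀ r, r1 < r → r < r2 →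
      (∃ w, ‖w - p‖ = r ∧ u w = 1) ∧ ∃ w, ‖w - p‖ = r ∧ u w = -1) :
    2 / Real.pi * Real.log (r2 / r1) ≤ En u := by
  have hpi := Real.pi_pos
  have hF : Continuous fun w : ℂ => ‖grd u (p + w)‖ ^ 2 :=
    (((continuous_grd hu).comp (continuous_const.add continuous_id)).norm.pow 2)
  have hFi : Integrable fun w : ℂ => ‖grd u (p + w)‖ ^ 2 := hi.comp_add_left p
  have h1 : ∫ w : ℂ, {w : ℂ | r1 < ‖w‖ ∧ ‖w‖ < r2}.indicator (fun w : ℂ => ‖grd u (p + w)‖ ^ 2) w ≤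
      ∫ w : ℂ, ‖grd u (p + w)‖ ^ 2 := by
    apply integral_mono_of_nonneg
    · exact Filter.Eventually.of_forall fun w => indicator_nonneg (fun _ _ => sq_nonneg _) _
    · exact hFi
    · exact Filter.Eventually.of_forall fun w => indicator_le_self' (fun _ _ => sq_nonneg _) _
  have h2 : ∫ w : ℂ, ‖grd u (p + w)‖ ^ 2 = En u :=
    integral_add_left_eq_self (fun w => ‖grd u w‖ ^ 2) p
  rw [be_polar hF h0.le, h2] at h1
  refine le_trans ?_ h1
  have h3 : ∫ r in Ioo r1 r2, 2 / (Real.pi * r) = 2 / Real.pi * Real.log (r2 / r1) := by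
    rw [← integral_Ioc_eq_integral_Ioo, ← intervalIntegral.integral_of_le h,
      ← integral_inv_of_pos h0 (lt_of_lt_of_le h0 h), ← intervalIntegral.integral_const_mul]
    apply intervalIntegral.integral_congr
    intro r _
    simp only [div_eq_mul_inv, mul_inv]
    ring
  rw [← h3]
  apply setIntegral_mono_on
  · have h4 : ContinuousOn (fun r : ℝ => 2 / (Real.pi * r)) (Icc r1 r2) := by
      apply ContinuousOn.div continuousOn_const (continuousOn_const.mul continuousOn_id)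
      intro r hr
      have : 0 < r := lt_of_lt_of_le h0 hr.1
      exact (mul_pos hpi this).ne'
    exact (h4.integrableOn_compact isCompact_Icc).mono_set Ioo_subset_Icc_self
  · exact be_inner_intOn hF r1 r2
  · exact measurableSet_Ioo
  · intro r hr
    obtain ⟨h5, h6⟩ := hc r hr.1 hr.2
    exact be_circ hu (lt_trans h0 hr.1) h5 h6
/- END be -/

/- MODULE bf
For `Plat S u` the gradient vanishes off `S` (`grd_eq_zero`), is continuous, and `S` is bounded: so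
`grd u` has compact support and `‖grd u‖ ^ 2` is integrable. -/
theorem grd_compactSupport {z : ℂ} {S : Set ℂ} {u : ℂ → ℝ} (hD : Dom z S) (hP : Plat S u) :
    HasCompactSupport (grd u) := by
  obtain ⟨R, hR⟩ := hD.bdd
  refine HasCompactSupport.of_support_subset_isCompact (isCompact_closedBall (0 : ℂ) R) ?_
  intro w hw
  rw [mem_closedBall_zero_iff]
  by_contra h
  push Not at h
  have hS : w ∉ S := fun hs => absurd (hR w hs) (not_lt.mpr h.le)
  exact hw (grd_eq_zero hP.bnd (by rw [hP.one w hS]; norm_num))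

theorem integrable_grd_sq {z : ℂ} {S : Set ℂ} {u : ℂ → ℝ} (hD : Dom z S) (hP : Plat S u) :
    Integrable fun w => ‖grd u w‖ ^ 2 := by
  have hc : Continuous fun w => ‖grd u w‖ ^ 2 := (continuous_grd hP.smo).norm.pow 2
  refine hc.integrable_of_hasCompactSupport ?_
  exact (grd_compactSupport hD hP).comp_left (g := fun x : ℂ => ‖x‖ ^ 2) (by simp)
/- END bf -/

/- MODULE bg
Thickness.  `a ∈ Km S`, `b ∉ S`, suppose `‖a - b‖ < hh (En u) ≤ 1/6` (`En u ≥ 0`).  `a ≠ b` because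
`u a = -1`, `u b = 1`.  For `‖a - b‖ < r < 1/6` the circle around `a` meets `Km S` (`circ_Km'`, where
`u = -1`) and `Sᶜ` (where `u = 1`): otherwise `Z = Sᶜ ∩ closedBall a r` is compact, contains `b`, and
`Sᶜ \ Z` is closed, against `con`.  `log_le_En` gives `2/π log(1/(6 ‖a - b‖)) ≤ En u`, i.e.
`‖a - b‖ ≥ exp(-π En u / 2) / 6`. -/
theorem bg_En_nonneg (u : ℂ → ℝ) : 0 ≤ En u := integral_nonneg fun w => sq_nonneg _

theorem thick {z : ℂ} {S : Set ℂ} {u : ℂ → ℝ} (hD : Dom z S) (hF : Fun S u) (hz : ‖z‖ ≤ 2)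
    {a b : ℂ} (ha : a ∈ Km S) (hb : b ∉ S) : hh (En u) ≤ ‖a - b‖ := by
  by_contra hcon
  push Not at hcon
  have hE : 0 ≤ En u := bg_En_nonneg u
  have hua := ba_km hD hF ha
  have hub := hF.one b hb
  have hab : a ≠ b := by
    intro h
    rw [h, hub] at hua
    norm_num at hua
  have h0 : 0 < ‖a - b‖ := norm_pos_iff.mpr (sub_ne_zero.mpr hab)
  have hpi := Real.pi_pos
  have hexp : Real.exp (-(Real.pi * En u / 2)) ≤ 1 := by
    apply Real.exp_le_one_iff.mpr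
    have : 0 ≤ Real.pi * En u := mul_nonneg hpi.le hE
    linarith
  have h16 : ‖a - b‖ < 1 / 6 := by
    unfold hh at hcon
    linarith
  have hkey := log_le_En hF.smo (integrable_grd_sq hD (plat_of_fun hD hF)) (p := a) h0 h16.le
    (fun r hr1 hr2 => by
      have hr0 : 0 < r := lt_trans h0 hr1
      refine ⟨?_, ?_⟩
      · obtain ⟨w, hw1, hw2⟩ := bb_gen hD (p := a) hb (r := r) (by rw [norm_sub_rev]; exact hr1)
        exact ⟨w, hw2, hF.one w hw1⟩
      · obtain ⟨w, hw1, hw2⟩ := circ_Km' hD hF hz ha hr0 hr2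
        exact ⟨w, hw2, ba_km hD hF hw1⟩)
  have h1 : Real.log (1 / 6 / ‖a - b‖) ≤ Real.pi * En u / 2 := by
    have h2 : Real.pi / 2 * (2 / Real.pi * Real.log (1 / 6 / ‖a - b‖)) ≤
        Real.pi / 2 * En u := mul_le_mul_of_nonneg_left hkey (by positivity)
    have h3 : Real.pi / 2 * (2 / Real.pi * Real.log (1 / 6 / ‖a - b‖)) =
        Real.log (1 / 6 / ‖a - b‖) := by field_simp
    rw [h3] at h2
    linarith
  have h4 : 1 / 6 / ‖a - b‖ ≤ Real.exp (Real.pi * En u / 2) := by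
    rw [← Real.log_le_iff_le_exp (by positivity)]
    exact h1
  rw [div_le_iff₀ h0] at h4
  unfold hh at hcon
  have h5 : Real.exp (Real.pi * En u / 2) * Real.exp (-(Real.pi * En u / 2)) = 1 := by
    rw [← Real.exp_add]; simp
  have h6 : 0 < Real.exp (Real.pi * En u / 2) := Real.exp_pos _
  nlinarith
/- END bg -/

/- MODULE bh
Lower bound of the energy.  `b = 1 + z ∉ S`, `0 < ‖b‖ ≤ 3`, `q = b⁻¹`.  For
`‖b‖ < r < √(‖b‖² + 1/9)` the circle around `b` meets `Sᶜ` (`circ_S`, `u = 1`) and `Km S` (`u = -1`):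
otherwise by `circ_Km` all of `Km S` is inside or outside; `0` is inside (`‖b‖ < r`) and one of `q`,
`-q` is outside, since `‖q - b‖² + ‖-q - b‖² = 2 ‖q‖² + 2 ‖b‖² ≥ 2 (‖b‖² + 1/9)`.  `log_le_En` with
`r1 = ‖b‖`, `r2 = √(‖b‖² + 1/9)`: `En u ≥ (2/π) (1/2) log(1 + 1/(9 ‖b‖²)) ≥ log(82/81) / π`. -/
theorem En_ge {z : ℂ} {S : Set ℂ} {u : ℂ → ℝ} (hD : Dom z S) (hF : Fun S u) (hz : ‖z‖ ≤ 2) :
    Real.log (82 / 81) / Real.pi ≤ En u := by
  obtain ⟨_, hb, hb0⟩ := one_mem hD hF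
  obtain ⟨hq1, hq2, hq3⟩ := q_mem hD hF hz
  have hn0 : 0 < ‖1 + z‖ := norm_pos_iff.mpr hb0
  have hn3 : ‖1 + z‖ ≤ 3 := by
    have h6 := norm_add_le (1 : ℂ) z
    rw [norm_one] at h6
    linarith
  have hpi := Real.pi_pos
  have hle : ‖1 + z‖ ≤ √(‖1 + z‖ ^ 2 + 1 / 9) := by
    apply Real.le_sqrt_of_sq_le
    linarith
  have hkey := log_le_En hF.smo (integrable_grd_sq hD (plat_of_fun hD hF)) (p := 1 + z) hn0 hle
    (fun r hr1 hr2 => by
      have hr0 : 0 < r := lt_trans hn0 hr1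
      refine ⟨?_, ?_⟩
      · obtain ⟨w, hw1, hw2⟩ := circ_S hD hb hr0
        exact ⟨w, hw2, hF.one w hw1⟩
      · by_contra hcon
        push Not at hcon
        have hcon' : ∀ w ∈ Km S, ‖w - (1 + z)‖ ≠ r := fun w hw hr =>
          hcon w hr (ba_km hD hF hw)
        rcases circ_Km hD hF (1 + z) hr0 hcon' with h | h
        · have h1 := h _ hq1
          have h2 := h _ hq2
          have hpar := parallelogram_law_with_norm ℝ (1 + z)⁻¹ (1 + z)
          have h3 : ‖-(1 + z)⁻¹ - (1 + z)‖ = ‖(1 + z)⁻¹ + (1 + z)‖ := by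
            rw [← norm_neg]; congr 1; ring
          rw [h3] at h2
          have h4 : r ^ 2 < ‖1 + z‖ ^ 2 + 1 / 9 := by
            rw [← Real.sq_sqrt (show (0 : ℝ) ≤ ‖1 + z‖ ^ 2 + 1 / 9 by positivity)]
            exact pow_lt_pow_left₀ hr2 hr0.le two_ne_zero
          have h5 : ‖(1 + z)⁻¹ - (1 + z)‖ ^ 2 < r ^ 2 :=
            pow_lt_pow_left₀ h1 (norm_nonneg _) two_ne_zero
          have h6 : ‖(1 + z)⁻¹ + (1 + z)‖ ^ 2 < r ^ 2 :=
            pow_lt_pow_left₀ h2 (norm_nonneg _) two_ne_zero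
          nlinarith [norm_nonneg (1 + z)⁻¹]
        · have h1 := h 0 (Or.inl rfl)
          rw [zero_sub, norm_neg] at h1
          linarith)
  have h1 : Real.log (√(‖1 + z‖ ^ 2 + 1 / 9) / ‖1 + z‖) =
      1 / 2 * Real.log (1 + 1 / (9 * ‖1 + z‖ ^ 2)) := by
    have h2 : √(‖1 + z‖ ^ 2 + 1 / 9) / ‖1 + z‖ = √(1 + 1 / (9 * ‖1 + z‖ ^ 2)) := by
      have h3 : 1 + 1 / (9 * ‖1 + z‖ ^ 2) = (‖1 + z‖ ^ 2 + 1 / 9) / ‖1 + z‖ ^ 2 := by
        field_simp
      rw [h3, Real.sqrt_div (by positivity), Real.sqrt_sq hn0.le]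
    rw [h2, Real.log_sqrt (by positivity)]
    ring
  have h2 : Real.log (82 / 81) ≤ Real.log (1 + 1 / (9 * ‖1 + z‖ ^ 2)) := by
    apply Real.log_le_log (by norm_num)
    have h3 : ‖1 + z‖ ^ 2 ≤ 9 := by nlinarith
    have h4 : 1 / 81 ≤ 1 / (9 * ‖1 + z‖ ^ 2) := by
      apply one_div_le_one_div_of_le (by positivity)
      linarith
    linarith
  rw [h1] at hkey
  have h3 : 2 / Real.pi * (1 / 2 * Real.log (1 + 1 / (9 * ‖1 + z‖ ^ 2))) =
      Real.log (1 + 1 / (9 * ‖1 + z‖ ^ 2)) / Real.pi := by ring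
  rw [h3] at hkey
  exact le_trans (div_le_div_of_nonneg_right h2 hpi.le) hkey
/- END bh -/

/- MODULE bi
`z` is not small.  `T = {w | 1/2 ≤ ‖w‖ ≤ 2}`, weight `‖w‖⁻²`: its integral over `T` is `2 π log 4`
(polar coordinates) and it is invariant under `w ↦ w⁻¹` (`integral_inv`); `T ⊆ (S ∩ T) ∪ (S ∩ T)⁻¹`
by `inv_mem`, so the weight of `S ∩ T` is at least `π log 4 > 4`, and as the weight is at most `4` on
`T`, `area (S ∩ T) > 1`.  If `‖z‖ ≤ 1/26` the `27` translates `(S ∩ T) + n z`, `0 ≤ n ≤ 26`, are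
pairwise disjoint (`trn`) and in the ball of radius `3`, area `9 π < 28.3`; each has area
`≥ π log 4 / 4 > 1.08`, and `27 * 1.08 > 9 π`: contradiction. -/
/-- The weight `‖w‖⁻²`, cut at `‖w‖ = 1/2`. -/
noncomputable def bi_F (w : ℂ) : ℝ := ((max ‖w‖ (1 / 2)) ^ 2)⁻¹

theorem bi_F_pos (w : ℂ) : 0 < max ‖w‖ (1 / 2) := lt_of_lt_of_le (by norm_num) (le_max_right _ _)

theorem bi_F_cont : Continuous bi_F := by
  unfold bi_F
  refine Continuous.inv₀ ((continuous_norm.max continuous_const).pow 2) ?_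
  intro w
  exact pow_ne_zero 2 (bi_F_pos w).ne'

theorem bi_F_nonneg (w : ℂ) : 0 ≤ bi_F w := by
  unfold bi_F
  positivity

theorem bi_F_le (w : ℂ) : bi_F w ≤ 4 := by
  unfold bi_F
  have h1 : (1 / 2 : ℝ) ≤ max ‖w‖ (1 / 2) := le_max_right _ _
  have h2 : (1 / 4 : ℝ) ≤ (max ‖w‖ (1 / 2)) ^ 2 := by nlinarith
  calc ((max ‖w‖ (1 / 2)) ^ 2)⁻¹ ≤ (1 / 4 : ℝ)⁻¹ := inv_anti₀ (by norm_num) h2
    _ = 4 := by norm_num

theorem bi_F_eq {w : ℂ} (h : 1 / 2 < ‖w‖) : bi_F w = (‖w‖ ^ 2)⁻¹ := by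
  unfold bi_F
  rw [max_eq_left h.le]

/-- The annulus. -/
def bi_T : Set ℂ := {w : ℂ | 1 / 2 < ‖w‖ ∧ ‖w‖ < 2}

theorem bi_T_open : IsOpen bi_T := by
  unfold bi_T
  exact (isOpen_lt continuous_const continuous_norm).inter
    (isOpen_lt continuous_norm continuous_const)

theorem bi_T_sub : bi_T ⊆ Metric.ball 0 2 := by
  intro w hw
  rw [mem_ball_zero_iff]
  exact hw.2

theorem bi_T_inv {w : ℂ} (hw : w ∈ bi_T) : w⁻¹ ∈ bi_T := by
  obtain ⟨h1, h2⟩ := hw
  have h0 : 0 < ‖w‖ := by linarith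
  refine ⟨?_, ?_⟩
  · rw [norm_inv, one_div]
    exact inv_strictAnti₀ h0 h2
  · rw [norm_inv, inv_lt_comm₀ h0 (by norm_num)]
    linarith

theorem bi_int_T : ∫ w : ℂ, bi_T.indicator bi_F w = 2 * Real.pi * Real.log 4 := by
  have hpi := Real.pi_pos
  have h1 := be_polar bi_F_cont (r1 := 1 / 2) (r2 := 2) (by norm_num)
  have h2 : ∫ w : ℂ, bi_T.indicator bi_F w =
      ∫ w : ℂ, {w : ℂ | 1 / 2 < ‖w‖ ∧ ‖w‖ < 2}.indicator bi_F w := rfl
  rw [h2, h1]
  have h3 : ∀ r ∈ Ioo (1 / 2 : ℝ) 2, ∫ t in Ioo (-Real.pi) Real.pi, r * bi_F (be_pt r t) =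
      2 * Real.pi * r⁻¹ := by
    intro r hr
    have hr0 : 0 < r := by linarith [hr.1]
    have h4 : ∀ t : ℝ, r * bi_F (be_pt r t) = r⁻¹ := by
      intro t
      have h5 : ‖be_pt r t‖ = r := by rw [be_pt_norm, abs_of_pos hr0]
      rw [bi_F_eq (by rw [h5]; exact hr.1), h5]
      field_simp
    simp_rw [h4]
    rw [setIntegral_const]
    simp only [Measure.real, Real.volume_Ioo, smul_eq_mul]
    rw [ENNReal.toReal_ofReal (by linarith)]
    ring
  rw [setIntegral_congr_fun measurableSet_Ioo h3, integral_const_mul,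
    ← integral_Ioc_eq_integral_Ioo, ← intervalIntegral.integral_of_le (by norm_num),
    integral_inv_of_pos (by norm_num) (by norm_num)]
  norm_num

theorem bi_area {z : ℂ} {S : Set ℂ} {u : ℂ → ℝ} (hD : Dom z S) (hF : Fun S u) :
    Real.pi * Real.log 4 / 4 ≤ volume.real (S ∩ bi_T) := by
  have hA : MeasurableSet (S ∩ bi_T) := hD.opn.measurableSet.inter bi_T_open.measurableSet
  have hT : MeasurableSet bi_T := bi_T_open.measurableSet
  have hA' : MeasurableSet {w : ℂ | w⁻¹ ∈ S ∩ bi_T} := measurable_inv hA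
  have hfin : ∀ B : Set ℂ, B ⊆ bi_T → volume B ≠ ⊤ := by
    intro B hB
    exact ((measure_mono (hB.trans bi_T_sub)).trans_lt measure_ball_lt_top).ne
  have hint : ∀ B : Set ℂ, MeasurableSet B → B ⊆ bi_T → Integrable (B.indicator bi_F) := by
    intro B hB hBT
    rw [integrable_indicator_iff hB]
    refine Measure.integrableOn_of_bounded (M := 4) (hfin B hBT)
      bi_F_cont.aestronglyMeasurable ?_
    refine Filter.Eventually.of_forall fun w => ?_
    rw [Real.norm_eq_abs, abs_of_nonneg (bi_F_nonneg w)]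
    exact bi_F_le w
  have hsub : {w : ℂ | w⁻¹ ∈ S ∩ bi_T} ⊆ bi_T := by
    intro w hw
    have := bi_T_inv hw.2
    rwa [inv_inv] at this
  have h1 : ∫ w : ℂ, bi_T.indicator bi_F w ≤
      ∫ w : ℂ, ((S ∩ bi_T).indicator bi_F w + {w : ℂ | w⁻¹ ∈ S ∩ bi_T}.indicator bi_F w) := by
    apply integral_mono (hint _ hT le_rfl)
      ((hint _ hA inter_subset_right).add (hint _ hA' hsub))
    intro w
    have hn1 : 0 ≤ (S ∩ bi_T).indicator bi_F w := indicator_nonneg (fun _ _ => bi_F_nonneg _) _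
    have hn2 : 0 ≤ {w : ℂ | w⁻¹ ∈ S ∩ bi_T}.indicator bi_F w :=
      indicator_nonneg (fun _ _ => bi_F_nonneg _) _
    show bi_T.indicator bi_F w ≤
      (S ∩ bi_T).indicator bi_F w + {w : ℂ | w⁻¹ ∈ S ∩ bi_T}.indicator bi_F w
    by_cases hw : w ∈ bi_T
    · by_cases hS : w ∈ S
      · have : (S ∩ bi_T).indicator bi_F w = bi_F w :=
          indicator_of_mem (show w ∈ S ∩ bi_T from ⟨hS, hw⟩) _
        simp only [indicator_of_mem hw]
        linarith
      · have hm : w ∈ {w : ℂ | w⁻¹ ∈ S ∩ bi_T} := ⟨(inv_mem hD hF hS).2, bi_T_inv hw⟩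
        have : {w : ℂ | w⁻¹ ∈ S ∩ bi_T}.indicator bi_F w = bi_F w := indicator_of_mem hm _
        simp only [indicator_of_mem hw]
        linarith
    · simp only [indicator_of_notMem hw]
      linarith
  have h2 : ∫ w : ℂ, {w : ℂ | w⁻¹ ∈ S ∩ bi_T}.indicator bi_F w =
      ∫ w : ℂ, (S ∩ bi_T).indicator bi_F w := by
    rw [← integral_inv ((S ∩ bi_T).indicator bi_F)]
    apply integral_congr_ae
    refine Filter.Eventually.of_forall fun w => ?_
    by_cases hw : w⁻¹ ∈ S ∩ bi_T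
    · have hwT : w ∈ bi_T := hsub hw
      have hw' : w ∈ {w : ℂ | w⁻¹ ∈ S ∩ bi_T} := hw
      simp only [indicator_of_mem hw', indicator_of_mem hw, smul_eq_mul]
      rw [bi_F_eq hwT.1, bi_F_eq hw.2.1, norm_inv]
      have h0 : 0 < ‖w‖ := by linarith [hwT.1]
      field_simp
    · have hw' : w ∉ {w : ℂ | w⁻¹ ∈ S ∩ bi_T} := hw
      simp only [indicator_of_notMem hw', indicator_of_notMem hw, smul_zero]
  rw [integral_add (hint _ hA inter_subset_right) (hint _ hA' hsub), h2, bi_int_T] at h1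
  have h3 : ∫ w : ℂ, (S ∩ bi_T).indicator bi_F w ≤ 4 * volume.real (S ∩ bi_T) := by
    rw [integral_indicator hA]
    have h4 : ∫ w in S ∩ bi_T, bi_F w ≤ ∫ _ in S ∩ bi_T, (4 : ℝ) := by
      apply setIntegral_mono_on
      · rw [← integrable_indicator_iff hA]
        exact hint _ hA inter_subset_right
      · exact integrableOn_const (hfin _ inter_subset_right)
      · exact hA
      · intro w _
        exact bi_F_le w
    rw [setIntegral_const, smul_eq_mul] at h4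
    linarith
  linarith

theorem norm_z_gt {z : ℂ} {S : Set ℂ} {u : ℂ → ℝ} (hD : Dom z S) (hF : Fun S u) :
    1 / 26 < ‖z‖ := by
  by_contra hcon
  push Not at hcon
  have hA : MeasurableSet (S ∩ bi_T) := hD.opn.measurableSet.inter bi_T_open.measurableSet
  have harea := bi_area hD hF
  have hpi := Real.pi_pos
  have hdis : Set.PairwiseDisjoint (↑(Finset.range 27) : Set ℕ)
      (fun n : ℕ => (fun w : ℂ => w + -((n : ℂ) * z)) ⁻¹' (S ∩ bi_T)) := by
    intro n _ m _ hnm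
    rw [Function.onFun, Set.disjoint_left]
    intro w hw1 hw2
    have h1 : w + -((n : ℂ) * z) ∈ S := hw1.1
    have h2 : w + -((m : ℂ) * z) ∈ S := hw2.1
    have h3 := hD.trn ((n : ℤ) - m) (by
      intro h
      apply hnm
      have : (n : ℤ) = m := by linarith
      exact_mod_cast this) _ h1
    apply h3
    have h4 : w + -((n : ℂ) * z) + (((n : ℤ) - m : ℤ) : ℂ) * z = w + -((m : ℂ) * z) := by
      push_cast
      ring
    rw [h4]
    exact h2
  have hmeas : ∀ n : ℕ, MeasurableSet ((fun w : ℂ => w + -((n : ℂ) * z)) ⁻¹' (S ∩ bi_T)) :=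
    fun n => (measurable_id.add_const _) hA
  have hsub : (⋃ n ∈ Finset.range 27, (fun w : ℂ => w + -((n : ℂ) * z)) ⁻¹' (S ∩ bi_T)) ⊆
      Metric.ball 0 3 := by
    intro w hw
    rw [mem_iUnion₂] at hw
    obtain ⟨n, hn, hw⟩ := hw
    have h1 : ‖w + -((n : ℂ) * z)‖ < 2 := hw.2.2
    have h2 : n ≤ 26 := by
      have := Finset.mem_range.mp hn
      omega
    have h3 : ‖(n : ℂ) * z‖ ≤ 1 := by
      rw [norm_mul, Complex.norm_natCast]
      have h4 : (n : ℝ) ≤ 26 := by exact_mod_cast h2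
      have h5 : (0 : ℝ) ≤ n := Nat.cast_nonneg n
      have h6 := norm_nonneg z
      nlinarith
    rw [mem_ball_zero_iff]
    have h4 : w = (w + -((n : ℂ) * z)) + (n : ℂ) * z := by ring
    have h5 := norm_add_le (w + -((n : ℂ) * z)) ((n : ℂ) * z)
    rw [← h4] at h5
    linarith
  have h1 := measure_mono (μ := volume) hsub
  rw [measure_biUnion_finset hdis (fun n _ => hmeas n)] at h1
  have h2 : ∀ n : ℕ, volume ((fun w : ℂ => w + -((n : ℂ) * z)) ⁻¹' (S ∩ bi_T)) =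
      volume (S ∩ bi_T) := fun n => measure_preimage_add_right volume _ _
  simp_rw [h2] at h1
  rw [Finset.sum_const, Finset.card_range, Complex.volume_ball] at h1
  have hfin : volume (S ∩ bi_T) ≠ ⊤ :=
    ((measure_mono (inter_subset_right.trans bi_T_sub)).trans_lt measure_ball_lt_top).ne
  have h3 := ENNReal.toReal_mono (by finiteness) h1
  have h4 : (27 • volume (S ∩ bi_T)).toReal = 27 * volume.real (S ∩ bi_T) := by
    rw [ENNReal.toReal_nsmul]
    simp [Measure.real]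
  have h5 : (ENNReal.ofReal 3 ^ 2 * (NNReal.pi : ENNReal)).toReal = 9 * Real.pi := by
    rw [ENNReal.toReal_mul, ENNReal.toReal_pow, ENNReal.toReal_ofReal (by norm_num)]
    simp
    norm_num
  rw [h4, h5] at h3
  have h6 : Real.log 4 = 2 * Real.log 2 := by
    rw [← Real.log_rpow (by norm_num)]
    norm_num
  have h7 := Real.log_two_gt_d9
  rw [h6] at harea
  nlinarith
/- END bi -/

/- MODULE bj
The symmetrisation.  For `Plat S v`: `0 ∈ S` (otherwise `v 0 = 1` and `v 0 = -1`).  Off `S`: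
`v w = v (-w) = 1`, and `w⁻¹, -w⁻¹ ∈ Km S`, so `sym v w = 1`.  Near `0` (`ball_sub_km`): for small
`w ≠ 0` the points `±w` are in `Km S` and `±w⁻¹` are off `S` (choose `w` smaller than `1/R`), so
`sym v w = -1`: `sym v` is constant near `0`; away from `0` it is of class `C^1`.  Energy:
`grd (sym v) w` is the mean of four gradients, of `v`, `v ∘ (-)`, `-v ∘ inv`, `-v ∘ (- inv)`; by
convexity of `‖·‖ ^ 2` and `integral_inv` each contributes `En v / 4`. -/
theorem bj_zero {S : Set ℂ} {v : ℂ → ℝ} (hP : Plat S v) : (0 : ℂ) ∈ S := by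
  by_contra h
  have h1 := hP.one 0 h
  have h2 := hP.mon 0 (Or.inl rfl)
  linarith

theorem bj_sym_ne {v : ℂ → ℝ} {w : ℂ} (hw : w ≠ 0) :
    sym v w = (v w + v (-w) - v w⁻¹ - v (-w⁻¹)) / 4 := by
  unfold sym
  rw [if_neg hw]

theorem bj_near {z : ℂ} {S : Set ℂ} {v : ℂ → ℝ} (hD : Dom z S) (hP : Plat S v) :
    ∀ᶠ w in nhds (0 : ℂ), sym v w = -1 := by
  obtain ⟨R, hR1, hR⟩ := (⟨max (Classical.choose hD.bdd) 1, le_max_right _ _, fun w hw =>
    lt_of_lt_of_le (Classical.choose_spec hD.bdd w hw) (le_max_left _ _)⟩ :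
    ∃ R : ℝ, 1 ≤ R ∧ ∀ w ∈ S, ‖w‖ < R)
  have hR0 : 0 < R := by linarith
  filter_upwards [Metric.ball_mem_nhds (0 : ℂ) (inv_pos.mpr hR0)] with w hw
  rw [mem_ball_zero_iff] at hw
  by_cases h0 : w = 0
  · rw [h0]; unfold sym; rw [if_pos rfl]
  · have hinv : R < ‖w⁻¹‖ := by
      rw [norm_inv]
      exact (lt_inv_comm₀ (norm_pos_iff.mpr h0) hR0).mp hw
    have h1 : w⁻¹ ∉ S := fun h => absurd (hR _ h) (not_lt.mpr hinv.le)
    have h2 : -w⁻¹ ∉ S := fun h => absurd (hR _ h) (not_lt.mpr (by rw [norm_neg]; exact hinv.le))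
    have h3 : w ∈ Km S := Or.inr h1
    have h4 : -w ∈ Km S := Or.inr (by rw [inv_neg]; exact h2)
    rw [bj_sym_ne h0, hP.one _ h1, hP.one _ h2, hP.mon _ h3, hP.mon _ h4]
    norm_num

theorem bj_smo {z : ℂ} {S : Set ℂ} {v : ℂ → ℝ} (hD : Dom z S) (hP : Plat S v) :
    ContDiff ℝ 1 (sym v) := by
  rw [contDiff_iff_contDiffAt]
  intro w
  by_cases h0 : w = 0
  · rw [h0]
    exact (contDiffAt_const (c := (-1 : ℝ))).congr_of_eventuallyEq (bj_near hD hP)
  · have he : sym v =ᶠ[nhds w] fun w => (v w + v (-w) - v w⁻¹ - v (-w⁻¹)) / 4 := by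
      filter_upwards [isOpen_ne.mem_nhds h0] with x hx
      exact bj_sym_ne hx
    have hinv : ContDiffAt ℝ 1 (fun x : ℂ => x⁻¹) w := contDiffAt_inv ℝ h0
    have hneg : ContDiffAt ℝ 1 (fun x : ℂ => -x) w := contDiff_neg.contDiffAt
    have h1 : ContDiffAt ℝ 1 v w := hP.smo.contDiffAt
    have h2 : ContDiffAt ℝ 1 (fun x : ℂ => v (-x)) w := hP.smo.contDiffAt.comp w hneg
    have h3 : ContDiffAt ℝ 1 (fun x : ℂ => v x⁻¹) w := hP.smo.contDiffAt.comp w hinv
    have h4 : ContDiffAt ℝ 1 (fun x : ℂ => v (-x⁻¹)) w := hP.smo.contDiffAt.comp w hinv.neg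
    exact ContDiffAt.congr_of_eventuallyEq ((((h1.add h2).sub h3).sub h4).div_const 4) he

theorem bj_fun {z : ℂ} {S : Set ℂ} {v : ℂ → ℝ} (hD : Dom z S) (hP : Plat S v) :
    Fun S (sym v) := by
  refine ⟨bj_smo hD hP, fun w => ?_, fun w => ?_, fun w hw => ?_, fun w hw => ?_⟩
  · by_cases h0 : w = 0
    · rw [h0]; unfold sym; rw [if_pos rfl]; norm_num
    · rw [bj_sym_ne h0, abs_le]
      have h1 := abs_le.mp (hP.bnd w)
      have h2 := abs_le.mp (hP.bnd (-w))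
      have h3 := abs_le.mp (hP.bnd w⁻¹)
      have h4 := abs_le.mp (hP.bnd (-w⁻¹))
      constructor <;> linarith [h1.1, h1.2, h2.1, h2.2, h3.1, h3.2, h4.1, h4.2]
  · by_cases h0 : w = 0
    · rw [h0, neg_zero]
    · rw [bj_sym_ne h0, bj_sym_ne (neg_ne_zero.mpr h0), neg_neg, inv_neg, neg_neg]
      ring
  · rw [bj_sym_ne hw, bj_sym_ne (inv_ne_zero hw), inv_inv]
    ring
  · have h0 : w ≠ 0 := by
      intro h
      rw [h] at hw
      exact hw (bj_zero hP)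
    have h1 : -w ∉ S := by
      intro h
      have := hD.neg _ h
      rw [neg_neg] at this
      exact hw this
    have h2 : w⁻¹ ∈ Km S := Or.inr (by rw [inv_inv]; exact hw)
    have h3 : -w⁻¹ ∈ Km S := Or.inr (by rw [inv_neg, inv_inv]; exact h1)
    rw [bj_sym_ne h0, hP.one _ hw, hP.one _ h1, hP.mon _ h2, hP.mon _ h3]
    norm_num

theorem bj_grd {v : ℂ → ℝ} (hv : ContDiff ℝ 1 v) {w : ℂ} (hw : w ≠ 0) :
    grd (sym v) w = (grd v w + grd (fun x => v (-x)) w - grd (fun x => v x⁻¹) w -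
      grd (fun x => v (-x⁻¹)) w) / 4 := by
  have hd := hv.differentiable one_ne_zero
  have hinv : DifferentiableAt ℝ (fun x : ℂ => x⁻¹) w :=
    (contDiffAt_inv ℝ hw (n := 1)).differentiableAt one_ne_zero
  have h1 : DifferentiableAt ℝ v w := hd w
  have h2 : DifferentiableAt ℝ (fun x : ℂ => v (-x)) w :=
    DifferentiableAt.comp w (hd (-w)) differentiableAt_id.neg
  have h3 : DifferentiableAt ℝ (fun x : ℂ => v x⁻¹) w := DifferentiableAt.comp w (hd _) hinv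
  have h4 : DifferentiableAt ℝ (fun x : ℂ => v (-x⁻¹)) w :=
    DifferentiableAt.comp w (hd _) hinv.neg
  have he : sym v =ᶠ[nhds w] fun w => (4⁻¹ : ℝ) • (v w + v (-w) - v w⁻¹ - v (-w⁻¹)) := by
    filter_upwards [isOpen_ne.mem_nhds hw] with x hx
    rw [bj_sym_ne hx, smul_eq_mul]
    ring
  have h5 : fderiv ℝ (sym v) w = (4⁻¹ : ℝ) • (fderiv ℝ v w + fderiv ℝ (fun x : ℂ => v (-x)) w -
      fderiv ℝ (fun x : ℂ => v x⁻¹) w - fderiv ℝ (fun x : ℂ => v (-x⁻¹)) w) := by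
    rw [he.fderiv_eq]
    exact ((((h1.hasFDerivAt.add h2.hasFDerivAt).sub h3.hasFDerivAt).sub
      h4.hasFDerivAt).const_smul (4⁻¹ : ℝ)).fderiv
  unfold grd
  rw [h5]
  apply Complex.ext
  · simp
    ring
  · simp
    ring

theorem bj_psi {v : ℂ → ℝ} (hv : ContDiff ℝ 1 v) {w : ℂ} (hw : w ≠ 0) :
    psi (sym v) w = (psi v w - psi v (-w) + psi v w⁻¹ / w ^ 2 - psi v (-w⁻¹) / w ^ 2) / 4 := by
  have hd := hv.differentiable one_ne_zero
  have h1 : psi (sym v) w = (psi v w + psi (fun x => v (-x)) w - psi (fun x => v x⁻¹) w -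
      psi (fun x => v (-x⁻¹)) w) / 4 := by
    have h := bj_grd hv hw
    unfold psi
    rw [h]
    simp only [map_div₀, map_add, map_sub]
    have : (starRingEnd ℂ) 4 = 4 := Complex.conj_ofNat 4
    rw [this]
    ring
  have h2 : psi (fun x => v (-x)) w = -psi v (-w) := by
    unfold psi
    rw [grd_neg (hd _), map_neg]
    ring
  have h2' : psi (fun x => v (-x)) w⁻¹ = -psi v (-w⁻¹) := by
    unfold psi
    rw [grd_neg (hd _), map_neg]
    ring
  have h3 := psi_inv hw (hd w⁻¹)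
  have h4 : psi (fun x => (fun y => v (-y)) x⁻¹) w = -psi (fun y => v (-y)) w⁻¹ / w ^ 2 :=
    psi_inv hw (DifferentiableAt.comp _ (hd _) differentiableAt_id.neg)
  have h5 : psi (fun x => v (-x⁻¹)) w = psi v (-w⁻¹) / w ^ 2 := by
    have h6 : (fun x => v (-x⁻¹)) = fun x => (fun y => v (-y)) x⁻¹ := rfl
    rw [h6, h4, h2', neg_neg]
  rw [h1, h2, h3, h5]
  ring

theorem bj_J (f g : ℂ → ℝ) (w : ℂ) :
    ((starRingEnd ℂ) (grd f w) * grd g w).re = 4 * (psi f w * (starRingEnd ℂ) (psi g w)).re := by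
  unfold psi
  simp only [map_div₀, Complex.conj_conj]
  have : (starRingEnd ℂ) 2 = 2 := Complex.conj_ofNat 2
  rw [this]
  have h : (starRingEnd ℂ) (grd f w) / 2 * (grd g w / 2) =
      ((1 / 4 : ℝ) : ℂ) * ((starRingEnd ℂ) (grd f w) * grd g w) := by
    push_cast
    ring
  rw [h, Complex.re_ofReal_mul]
  ring

theorem bj_div {a b w : ℂ} (hw : w ≠ 0) : a / w ^ 2 * (starRingEnd ℂ) (b / w ^ 2) =
    (((‖w‖ ^ 4)⁻¹ : ℝ) : ℂ) * (a * (starRingEnd ℂ) b) := by
  have h1 : w ^ 2 * (starRingEnd ℂ) w ^ 2 = ((‖w‖ ^ 4 : ℝ) : ℂ) := by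
    rw [← mul_pow, Complex.mul_conj, Complex.normSq_eq_norm_sq]
    push_cast
    ring
  have h2 : ((‖w‖ ^ 4 : ℝ) : ℂ) ≠ 0 := by
    rw [Complex.ofReal_ne_zero]
    exact pow_ne_zero 4 (norm_ne_zero_iff.mpr hw)
  rw [map_div₀, map_pow, div_mul_div_comm, h1, Complex.ofReal_inv]
  field_simp

/-- The energy density is at most the mean of the four. -/
theorem bj_dens {v : ℂ → ℝ} (hv : ContDiff ℝ 1 v) {w : ℂ} (hw : w ≠ 0) :
    ‖grd (sym v) w‖ ^ 2 ≤ (‖grd v w‖ ^ 2 + ‖grd v (-w)‖ ^ 2 + (‖w‖ ^ 4)⁻¹ * ‖grd v w⁻¹‖ ^ 2 +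
      (‖w‖ ^ 4)⁻¹ * ‖grd v (-w⁻¹)‖ ^ 2) / 4 := by
  rw [norm_grd_sq, norm_grd_sq, norm_grd_sq, norm_grd_sq, norm_grd_sq, bj_psi hv hw]
  have hn : ‖w ^ 2‖ ^ 2 = ‖w‖ ^ 4 := by
    rw [norm_pow]; ring
  have hw4 : 0 < ‖w‖ ^ 4 := pow_pos (norm_pos_iff.mpr hw) 4
  have key : ∀ a b c d : ℂ, ‖(a - b + c - d) / 4‖ ^ 2 ≤
      (‖a‖ ^ 2 + ‖b‖ ^ 2 + ‖c‖ ^ 2 + ‖d‖ ^ 2) / 4 := by
    intro a b c d
    have h1 : ‖(a - b + c - d) / 4‖ ≤ (‖a‖ + ‖b‖ + ‖c‖ + ‖d‖) / 4 := by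
      rw [norm_div]
      have h2 : ‖(4 : ℂ)‖ = 4 := by simp
      rw [h2]
      apply div_le_div_of_nonneg_right _ (by norm_num)
      have h3 := norm_sub_le (a - b + c) d
      have h4 := norm_add_le (a - b) c
      have h5 := norm_sub_le a b
      linarith
    have h6 : ‖(a - b + c - d) / 4‖ ^ 2 ≤ ((‖a‖ + ‖b‖ + ‖c‖ + ‖d‖) / 4) ^ 2 :=
      pow_le_pow_left₀ (norm_nonneg _) h1 2
    have h7 : ((‖a‖ + ‖b‖ + ‖c‖ + ‖d‖) / 4) ^ 2 ≤
        (‖a‖ ^ 2 + ‖b‖ ^ 2 + ‖c‖ ^ 2 + ‖d‖ ^ 2) / 4 := by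
      nlinarith [sq_nonneg (‖a‖ - ‖b‖), sq_nonneg (‖a‖ - ‖c‖), sq_nonneg (‖a‖ - ‖d‖),
        sq_nonneg (‖b‖ - ‖c‖), sq_nonneg (‖b‖ - ‖d‖), sq_nonneg (‖c‖ - ‖d‖)]
    linarith
  have h1 := key (psi v w) (psi v (-w)) (psi v w⁻¹ / w ^ 2) (psi v (-w⁻¹) / w ^ 2)
  have h2 : ‖psi v w⁻¹ / w ^ 2‖ ^ 2 = (‖w‖ ^ 4)⁻¹ * ‖psi v w⁻¹‖ ^ 2 := by
    rw [norm_div, div_pow, hn, div_eq_inv_mul]
  have h3 : ‖psi v (-w⁻¹) / w ^ 2‖ ^ 2 = (‖w‖ ^ 4)⁻¹ * ‖psi v (-w⁻¹)‖ ^ 2 := by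
    rw [norm_div, div_pow, hn, div_eq_inv_mul]
  rw [h2, h3] at h1
  linarith

theorem bj_ae : ∀ᵐ w : ℂ, w ≠ 0 := by
  rw [ae_iff]
  have : {a : ℂ | ¬a ≠ 0} = {0} := by ext x; simp
  rw [this]
  exact measure_singleton 0

/-- The integral of the mean of the four terms. -/
theorem bj_int {J : ℂ → ℝ} (hJ : Integrable J) :
    Integrable (fun w : ℂ => (J w + J (-w) + (‖w‖ ^ 4)⁻¹ * J w⁻¹ + (‖w‖ ^ 4)⁻¹ * J (-w⁻¹)) / 4) ∧
      ∫ w : ℂ, (J w + J (-w) + (‖w‖ ^ 4)⁻¹ * J w⁻¹ + (‖w‖ ^ 4)⁻¹ * J (-w⁻¹)) / 4 = ∫ w, J w := by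
  have h2 : Integrable fun w : ℂ => J (-w) := hJ.comp_neg
  have h3 : Integrable fun w : ℂ => (‖w‖ ^ 4)⁻¹ * J w⁻¹ := (integrable_inv J).mpr hJ
  have h4 : Integrable fun w : ℂ => (‖w‖ ^ 4)⁻¹ * J (-w⁻¹) :=
    (integrable_inv fun w => J (-w)).mpr h2
  have e2 : ∫ w : ℂ, J (-w) = ∫ w, J w := integral_neg_eq_self J volume
  have e3 : ∫ w : ℂ, (‖w‖ ^ 4)⁻¹ * J w⁻¹ = ∫ w, J w := integral_inv J
  have e4 : ∫ w : ℂ, (‖w‖ ^ 4)⁻¹ * J (-w⁻¹) = ∫ w, J w := by
    rw [← e2]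
    exact integral_inv fun w => J (-w)
  have h12 : Integrable fun w : ℂ => J w + J (-w) := hJ.add h2
  have h123 : Integrable fun w : ℂ => J w + J (-w) + (‖w‖ ^ 4)⁻¹ * J w⁻¹ := h12.add h3
  refine ⟨(h123.add h4).div_const 4, ?_⟩
  rw [integral_div, integral_add h123 h4, integral_add h12 h3, integral_add hJ h2, e2, e3, e4]
  ring

theorem fun_sym {z : ℂ} {S : Set ℂ} {v : ℂ → ℝ} (hD : Dom z S) (hP : Plat S v) :
    Fun S (sym v) ∧ En (sym v) ≤ En v := by
  refine ⟨bj_fun hD hP, ?_⟩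
  obtain ⟨h1, h2⟩ := bj_int (integrable_grd_sq hD hP)
  unfold En
  rw [← h2]
  apply integral_mono_of_nonneg
  · exact Filter.Eventually.of_forall fun w => sq_nonneg _
  · exact h1
  · filter_upwards [bj_ae] with w hw
    exact bj_dens hP.smo hw

/-- Inner products with a symmetric function do not see the symmetrisation (even `v`): the gradient of
`sym v` is `(grd v + grd (-v ∘ inv)) / 2` off `0` and `grd u` is invariant. -/
theorem inner_sym {z : ℂ} {S : Set ℂ} {u v : ℂ → ℝ} (hD : Dom z S) (hF : Fun S u)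
    (hP : Plat S v) :
    ∫ w, ((starRingEnd ℂ) (grd u w) * grd (sym v) w).re =
      ∫ w, ((starRingEnd ℂ) (grd u w) * grd v w).re := by
  have hcont : Continuous fun w => ((starRingEnd ℂ) (grd u w) * grd v w).re :=
    Complex.continuous_re.comp
      ((Complex.continuous_conj.comp (continuous_grd hF.smo)).mul (continuous_grd hP.smo))
  have hJ : Integrable fun w => ((starRingEnd ℂ) (grd u w) * grd v w).re := by
    refine hcont.integrable_of_hasCompactSupport ?_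
    refine (grd_compactSupport hD (plat_of_fun hD hF)).mono' ?_
    intro w hw
    apply subset_tsupport
    intro h0
    apply hw
    simp [h0]
  obtain ⟨h1, h2⟩ := bj_int hJ
  rw [← h2]
  apply integral_congr_ae
  filter_upwards [bj_ae] with w hw
  have hd := hF.smo.differentiable one_ne_zero
  have hneg : ∀ x : ℂ, psi u (-x) = -psi u x := by
    intro x
    have h3 : (fun x => u (-x)) = u := funext hF.evn
    have h4 := grd_neg (u := u) (w := x) (hd _)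
    rw [h3] at h4
    unfold psi
    rw [h4, map_neg]
    ring
  have hinv : psi u w = psi u w⁻¹ / w ^ 2 := by
    have h3 := psi_inv hw (hd w⁻¹)
    have h4 : (fun x => u x⁻¹) =ᶠ[nhds w] fun x => -u x := by
      filter_upwards [isOpen_ne.mem_nhds hw] with x hx
      exact hF.inv x hx
    have h5 : psi (fun x => u x⁻¹) w = -psi u w := by
      unfold psi grd
      rw [h4.fderiv_eq, fderiv_fun_neg]
      apply Complex.ext
      · simp
        ring
      · simp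
        ring
    rw [h5] at h3
    have h6 : psi u w = -(-psi u w⁻¹ / w ^ 2) := by rw [← h3, neg_neg]
    rw [h6]
    ring
  simp only [bj_J]
  rw [bj_psi hP.smo hw]
  have h3 : (psi u w * (starRingEnd ℂ) ((psi v w - psi v (-w) + psi v w⁻¹ / w ^ 2 -
      psi v (-w⁻¹) / w ^ 2) / 4)) = (psi u w * (starRingEnd ℂ) (psi v w) +
      psi u (-w) * (starRingEnd ℂ) (psi v (-w)) +
      psi u w⁻¹ / w ^ 2 * (starRingEnd ℂ) (psi v w⁻¹ / w ^ 2) +
      psi u (-w⁻¹) / w ^ 2 * (starRingEnd ℂ) (psi v (-w⁻¹) / w ^ 2)) / 4 := by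
    rw [hneg w, hneg w⁻¹, neg_div, ← hinv]
    simp only [map_div₀, map_add, map_sub]
    have : (starRingEnd ℂ) 4 = 4 := Complex.conj_ofNat 4
    rw [this]
    ring
  rw [h3, bj_div hw, bj_div hw]
  have h4 : ∀ x : ℂ, (x / 4).re = x.re / 4 := by
    intro x
    have : x / 4 = ((1 / 4 : ℝ) : ℂ) * x := by push_cast; ring
    rw [this, Complex.re_ofReal_mul]
    ring
  rw [h4, Complex.add_re, Complex.add_re, Complex.add_re, Complex.re_ofReal_mul,
    Complex.re_ofReal_mul]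
  ring
/- END bj -/

/- MODULE bk
Convexity: the mean of two functions of `Fun S` is in `Fun S`, and the expansion of the energy of the
mean. -/
theorem fun_mean {S : Set ℂ} {u v : ℂ → ℝ} (hu : Fun S u) (hv : Fun S v) :
    Fun S fun w => (u w + v w) / 2 := by
  refine ⟨(hu.smo.add hv.smo).div_const 2, fun w => ?_, fun w => ?_, fun w hw => ?_, fun w hw => ?_⟩
  · have h1 := abs_le.mp (hu.bnd w)
    have h2 := abs_le.mp (hv.bnd w)
    rw [abs_le]
    constructor <;> linarith [h1.1, h1.2, h2.1, h2.2]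
  · simp only [hu.evn w, hv.evn w]
  · simp only [hu.inv w hw, hv.inv w hw]
    ring
  · simp only [hu.one w hw, hv.one w hw]
    norm_num

theorem bk_integrable {u v : ℂ → ℝ} (hu : ContDiff ℝ 1 u) (hv : ContDiff ℝ 1 v)
    (hc : HasCompactSupport (grd u)) :
    Integrable fun w => ((starRingEnd ℂ) (grd u w) * grd v w).re := by
  have hcont : Continuous fun w => ((starRingEnd ℂ) (grd u w) * grd v w).re :=
    Complex.continuous_re.comp
      ((Complex.continuous_conj.comp (continuous_grd hu)).mul (continuous_grd hv))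
  refine hcont.integrable_of_hasCompactSupport ?_
  refine hc.mono' ?_
  intro w hw
  apply subset_tsupport
  intro h0
  apply hw
  simp [h0]

theorem bk_expand (a b : ℂ) : ‖(a + b) / 2‖ ^ 2 =
    (‖a‖ ^ 2 + 2 * ((starRingEnd ℂ) a * b).re + ‖b‖ ^ 2) / 4 := by
  rw [← Complex.normSq_eq_norm_sq, ← Complex.normSq_eq_norm_sq, ← Complex.normSq_eq_norm_sq]
  simp [Complex.normSq_apply]
  ring

theorem bk_grd {u v : ℂ → ℝ} (hu : ContDiff ℝ 1 u) (hv : ContDiff ℝ 1 v) (w : ℂ) :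
    grd (fun w => (u w + v w) / 2) w = (grd u w + grd v w) / 2 := by
  have h1 : DifferentiableAt ℝ u w := (hu.differentiable one_ne_zero) w
  have h2 : DifferentiableAt ℝ v w := (hv.differentiable one_ne_zero) w
  have h3 : fderiv ℝ (fun w => (u w + v w) / 2) w = (2⁻¹ : ℝ) • (fderiv ℝ u w + fderiv ℝ v w) := by
    have h4 : HasFDerivAt (fun w => (2⁻¹ : ℝ) • (u w + v w))
        ((2⁻¹ : ℝ) • (fderiv ℝ u w + fderiv ℝ v w)) w :=
      (h1.hasFDerivAt.add h2.hasFDerivAt).const_smul (2⁻¹ : ℝ)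
    have h5 : (fun w => (u w + v w) / 2) = fun w => (2⁻¹ : ℝ) • (u w + v w) := by
      funext w; simp only [smul_eq_mul]; ring
    rw [h5]
    exact h4.fderiv
  unfold grd
  rw [h3]
  apply Complex.ext
  · simp
    ring
  · simp
    ring

theorem En_mean {z : ℂ} {S : Set ℂ} {u v : ℂ → ℝ} (hD : Dom z S) (hu : Fun S u) (hv : Fun S v) :
    En (fun w => (u w + v w) / 2) =
      (En u + 2 * (∫ w, ((starRingEnd ℂ) (grd u w) * grd v w).re) + En v) / 4 := by
  have hPu := plat_of_fun hD hu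
  have hPv := plat_of_fun hD hv
  have h1 := integrable_grd_sq hD hPu
  have h2 := integrable_grd_sq hD hPv
  have h3 := bk_integrable hu.smo hv.smo (grd_compactSupport hD hPu)
  unfold En
  have h4 : ∀ w, ‖grd (fun w => (u w + v w) / 2) w‖ ^ 2 =
      (‖grd u w‖ ^ 2 + 2 * ((starRingEnd ℂ) (grd u w) * grd v w).re + ‖grd v w‖ ^ 2) / 4 := by
    intro w
    rw [bk_grd hu.smo hv.smo, bk_expand]
  simp_rw [h4]
  have h12 : Integrable fun w => ‖grd u w‖ ^ 2 +
      2 * ((starRingEnd ℂ) (grd u w) * grd v w).re := h1.add (h3.const_mul 2)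
  rw [integral_div, integral_add h12 h2, integral_add h1 (h3.const_mul 2), integral_const_mul]
/- END bk -/

end Pool.Agent.NoH
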