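import Pool.Agent.NoH.Bas

set_option autoImplicit false

/-!
# Part G1: the blending function
-/

open MeasureTheory Set

namespace Pool.Agent.NoH

/-- The blending functions of `S` for the thickness `h`, with gradient bound `M`. -/
structure Bet (S : Set ℂ) (h M : ℝ) (β : ℂ → ℝ) : Prop where
  smo : ContDiff ℝ 1 β
  bnd : ∀ w, 0 ≤ β w ∧ β w ≤ 1
  evn : ∀ w, β (-w) = β w
  inv : ∀ w, w ≠ 0 → β w⁻¹ = 1 - β w
  one : ∀ w, w ∉ S → β w = 1
  far : ∀ w : ℂ, 2 / h ≤ ‖w‖ → β w = 1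
  grd : ∀ w, ‖grd β w‖ ≤ M

/- MODULE ga
`L = Sᶜ ∪ {w | 2/h ≤ ‖w‖}` (closed, `L = -L`), `K = {0} ∪ {w | w⁻¹ ∈ L}` (contained in
`Km S ∪ closedBall 0 (h/2)`).  Distances: `‖b‖ ≥ h` for `b ∉ S` (`0 ∈ Km S`), so `‖a‖ ≤ 1/h` on
`Km S`; for `a ∈ K`, `b ∈ L`: `‖a - b‖ ≥ h/2` (four cases: thickness; `‖a‖ ≤ 1/h`, `‖b‖ ≥ 2/h`;
`‖a‖ ≤ h/2`, `‖b‖ ≥ h`; `‖a‖ ≤ h/2 ≤ 1/h`, `‖b‖ ≥ 2/h`; recall `h ≤ 1/6`).
`d w = mol (h/32) (infDist · L) w` is `C^2`, `1`-Lipschitz, `|d - infDist · L| ≤ h/32`, even;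
`β₁ = k (d / h)` with `k` a fixed `C^1` step (`k = 1` on `t ≤ 1/16`, `0` on `t ≥ 1/4`, `|k'| ≤ 10`):
`β₁ = 1` where `infDist ≤ h/32`, in particular on a neighbourhood of `L`; `β₁ = 0` where
`infDist ≥ h/2 - h/32`, in particular near `K`; `‖grd β₁‖ ≤ 10/h`.
`β w = (1 + β₁ w - β₁ w⁻¹) / 2` for `w ≠ 0`, `β 0 = 0`.  Near `0`: `w⁻¹` is far, `β₁ w⁻¹ = 1`, and
`β₁ w = 0` (`0 ∈ K`): `β = 0` near `0`, so `β` is `C^1` everywhere.  On `L`: `β₁ w = 1` and
`w⁻¹ ∈ K`, `β₁ w⁻¹ = 0`: `β = 1`.  Gradient: `‖grd β‖ ≤ (10/h + (10/h) ‖w‖⁻²)/2`, and `β = 0` for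
`‖w‖ ≤ h/2`, so `‖grd β‖ ≤ (5/h)(1 + 4/h²) =: M`. -/
private theorem ga_infDist_neg {L : Set ℂ} (hL : ∀ w, w ∈ L → -w ∈ L) (w : ℂ) :
    Metric.infDist (-w) L = Metric.infDist w L := by
  have h1 : (fun x : ℂ => -x) '' L = L := by
    apply Set.Subset.antisymm
    · rintro _ ⟨x, hx, rfl⟩
      exact hL x hx
    · intro x hx
      exact ⟨-x, hL x hx, neg_neg x⟩
  have h2 := Metric.infDist_image (Φ := fun x : ℂ => -x) (x := w) (t := L)
    (fun x y => by simp [edist_neg_neg])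
  rw [h1] at h2
  exact h2

private theorem ga_clamp (a b : ℝ) : |min 1 (max 0 a) - min 1 (max 0 b)| ≤ |a - b| := by
  have h1 := abs_min_sub_min_le_max 1 (max 0 a) 1 (max 0 b)
  have h2 := abs_max_sub_max_le_max 0 a 0 b
  rw [sub_self, abs_zero, max_eq_right (abs_nonneg (max 0 a - max 0 b))] at h1
  rw [sub_self, abs_zero, max_eq_right (abs_nonneg (a - b))] at h2
  exact le_trans h1 h2

private theorem ga_mol_int {e : ℝ} (he : 0 < e) {g : ℂ → ℝ} (hg : Continuous g)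
    (hb : ∀ w, 0 ≤ g w ∧ g w ≤ 1) (w : ℂ) : Integrable (fun x => rhoe e x • g (w - x)) := by
  obtain ⟨-, -, -, -, -, hi, -⟩ := rhoe_props he
  have hm : AEStronglyMeasurable (fun x => g (w - x)) volume :=
    (hg.comp (continuous_const.sub continuous_id)).aestronglyMeasurable
  refine hi.mul_bdd (c := 1) hm (ae_of_all _ fun x => ?_)
  rw [Real.norm_eq_abs, abs_of_nonneg (hb _).1]
  exact (hb _).2

private theorem ga_mol_bound {e : ℝ} (he : 0 < e) {g : ℂ → ℝ} (hg : Continuous g)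
    (hb : ∀ w, 0 ≤ g w ∧ g w ≤ 1) (w : ℂ) : 0 ≤ mol e g w ∧ mol e g w ≤ 1 := by
  have hab : |mol e g w| ≤ 1 := abs_mol_le he hg (fun x => by
    rw [abs_of_nonneg (hb x).1]
    exact (hb x).2) w
  obtain ⟨-, -, hn, -, -, -, -⟩ := rhoe_props he
  refine ⟨?_, (abs_le.mp hab).2⟩
  unfold mol
  exact integral_nonneg fun x => mul_nonneg (hn x) (hb _).1

private theorem ga_mol_const {e : ℝ} (he : 0 < e) {g : ℂ → ℝ} {w : ℂ} {c : ℝ}
    (h : ∀ x : ℂ, ‖x‖ ≤ e → g (w - x) = c) : mol e g w = c := by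
  obtain ⟨-, -, -, hs, -, hi, h1⟩ := rhoe_props he
  have h2 : ∀ x, rhoe e x • g (w - x) = rhoe e x * c := by
    intro x
    rcases le_or_gt ‖x‖ e with hx | hx
    · rw [h x hx, smul_eq_mul]
    · rw [hs x hx, zero_smul, zero_mul]
  unfold mol
  simp_rw [h2]
  rw [integral_mul_const, h1, one_mul]

private theorem ga_mol_lip {e : ℝ} (he : 0 < e) {g : ℂ → ℝ} (hg : Continuous g)
    (hb : ∀ w, 0 ≤ g w ∧ g w ≤ 1) {C : ℝ} (hl : ∀ w w', |g w - g w'| ≤ C * ‖w - w'‖) (x y : ℂ) :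
    |mol e g x - mol e g y| ≤ C * ‖x - y‖ := by
  obtain ⟨-, -, hn, -, -, hi, h1⟩ := rhoe_props he
  unfold mol
  rw [← integral_sub (ga_mol_int he hg hb x) (ga_mol_int he hg hb y)]
  have h2 : ∫ t, rhoe e t * (C * ‖x - y‖) = C * ‖x - y‖ := by
    rw [integral_mul_const, h1, one_mul]
  rw [← h2, ← Real.norm_eq_abs]
  refine norm_integral_le_of_norm_le (hi.mul_const _) (ae_of_all _ fun t => ?_)
  rw [← smul_sub, smul_eq_mul, norm_mul, Real.norm_eq_abs, Real.norm_eq_abs, abs_of_nonneg (hn t)]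
  refine mul_le_mul_of_nonneg_left ?_ (hn t)
  have h3 := hl (x - t) (y - t)
  have e1 : x - t - (y - t) = x - y := by ring
  rwa [e1] at h3

theorem exists_beta {h : ℝ} (h0 : 0 < h) (h1 : h ≤ 1 / 6) : ∃ M : ℝ, 0 < M ∧
    ∀ (z : ℂ) (S : Set ℂ) (u : ℂ → ℝ), Dom z S → Fun S u →
    (∀ a ∈ Km S, ∀ b, b ∉ S → h ≤ ‖a - b‖) → ∃ β : ℂ → ℝ, Bet S h M β := by
  refine ⟨4 / h * (1 + 4 / h ^ 2), by positivity, ?_⟩
  intro z S u hD hF hth
  obtain ⟨hu0, h0S⟩ := zero_mem hD hF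
  -- the closed set
  obtain ⟨L, hL⟩ : ∃ L : Set ℂ, L = {w | w ∉ S ∨ 2 / h ≤ ‖w‖} := ⟨_, rfl⟩
  have hLne : L.Nonempty := by
    refine ⟨((2 / h : ℝ) : ℂ), ?_⟩
    rw [hL]
    right
    rw [Complex.norm_real, Real.norm_eq_abs, abs_of_pos (by positivity)]
  have hLneg : ∀ w, w ∈ L → -w ∈ L := by
    intro w hw
    rw [hL] at hw ⊢
    rcases hw with hw | hw
    · left
      intro h
      apply hw
      have := hD.neg _ h
      rwa [neg_neg] at this
    · right
      rwa [norm_neg]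
  have hS0 : ∀ b, b ∉ S → h ≤ ‖b‖ := by
    intro b hb
    have := hth 0 (Or.inl rfl) b hb
    rwa [zero_sub, norm_neg] at this
  have h2h : 12 ≤ 2 / h := by
    rw [le_div_iff₀ h0]
    linarith
  have h1h : 6 ≤ 1 / h := by
    rw [le_div_iff₀ h0]
    linarith
  -- distances
  have hdist : ∀ w b : ℂ, (w = 0 ∨ w⁻¹ ∈ L) → b ∈ L → h / 2 ≤ ‖w - b‖ := by
    intro w b hw hb
    have key : w ∈ Km S ∨ ‖w‖ ≤ h / 2 := by
      rcases hw with hw | hw
      · left
        exact Or.inl hw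
      · rw [hL] at hw
        rcases hw with hw | hw
        · left
          exact Or.inr hw
        · right
          rw [norm_inv] at hw
          have hpos : 0 < ‖w‖⁻¹ := lt_of_lt_of_le (by positivity) hw
          have hw0 : 0 < ‖w‖ := inv_pos.mp hpos
          rw [div_le_iff₀ h0] at hw
          have h3 : ‖w‖ * (‖w‖⁻¹ * h) = h := by
            rw [← mul_assoc, mul_inv_cancel₀ hw0.ne', one_mul]
          nlinarith
    have key2 : w ∈ Km S → ‖w‖ ≤ 1 / h := by
      rintro (hw | hw)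
      · rw [hw, norm_zero]
        positivity
      · have h3 := hS0 _ hw
        rw [norm_inv] at h3
        have hw0 : 0 < ‖w‖ := inv_pos.mp (lt_of_lt_of_le h0 h3)
        rw [le_div_iff₀ h0]
        have h4 : ‖w‖ * ‖w‖⁻¹ = 1 := mul_inv_cancel₀ hw0.ne'
        nlinarith
    rw [hL] at hb
    have htri : ‖b‖ - ‖w‖ ≤ ‖w - b‖ := by
      have := norm_sub_norm_le b w
      rwa [norm_sub_rev] at this
    have h3h : 2 / h = 1 / h + 1 / h := by ring
    rcases key with hk | hk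
    · rcases hb with hb | hb
      · have := hth w hk b hb
        linarith
      · have := key2 hk
        linarith
    · rcases hb with hb | hb
      · have := hS0 b hb
        linarith
      · linarith
  -- the cut off function of the distance
  obtain ⟨g, hg⟩ : ∃ g : ℂ → ℝ, g = fun w => min 1 (max 0 (2 - 8 / h * Metric.infDist w L)) := ⟨_, rfl⟩
  have hgdef : ∀ w, g w = min 1 (max 0 (2 - 8 / h * Metric.infDist w L)) := fun w => by rw [hg]
  have hgc : Continuous g := by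
    rw [hg]
    exact continuous_const.min (continuous_const.max
      (continuous_const.sub (continuous_const.mul (Metric.continuous_infDist_pt L))))
  have hg0 : ∀ w, 0 ≤ g w ∧ g w ≤ 1 := by
    intro w
    rw [hgdef]
    exact ⟨le_min zero_le_one (le_max_left _ _), min_le_left _ _⟩
  have hgeven : ∀ w, g (-w) = g w := by
    intro w
    rw [hgdef, hgdef, ga_infDist_neg hLneg]
  have hglip : ∀ w w', |g w - g w'| ≤ 8 / h * ‖w - w'‖ := by
    intro w w'
    have h3 := ga_clamp (2 - 8 / h * Metric.infDist w L) (2 - 8 / h * Metric.infDist w' L)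
    rw [hgdef, hgdef]
    refine le_trans h3 ?_
    have h4 : |Metric.infDist w L - Metric.infDist w' L| ≤ ‖w - w'‖ := by
      have := (Metric.lipschitz_infDist_pt L).dist_le_mul w w'
      rw [Real.dist_eq, dist_eq_norm] at this
      simpa using this
    have h5 : (2 - 8 / h * Metric.infDist w L) - (2 - 8 / h * Metric.infDist w' L) =
        -(8 / h * (Metric.infDist w L - Metric.infDist w' L)) := by ring
    rw [h5, abs_neg, abs_mul, abs_of_pos (by positivity : (0 : ℝ) < 8 / h)]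
    exact mul_le_mul_of_nonneg_left h4 (by positivity)
  have hg1 : ∀ w, Metric.infDist w L ≤ h / 8 → g w = 1 := by
    intro w hw
    rw [hgdef]
    have h3 : 8 / h * Metric.infDist w L ≤ 1 := by
      rw [div_mul_eq_mul_div, div_le_iff₀ h0]
      linarith
    rw [max_eq_right (by linarith), min_eq_left (by linarith)]
  have hg2 : ∀ w, h / 4 ≤ Metric.infDist w L → g w = 0 := by
    intro w hw
    rw [hgdef]
    have h3 : 2 ≤ 8 / h * Metric.infDist w L := by
      rw [div_mul_eq_mul_div, le_div_iff₀ h0]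
      linarith
    rw [max_eq_left (by linarith), min_eq_right (by norm_num)]
  -- its mollification
  have he : 0 < h / 32 := by positivity
  obtain ⟨β₁, hβ₁⟩ : ∃ β₁ : ℂ → ℝ, β₁ = mol (h / 32) g := ⟨_, rfl⟩
  have b1 : ContDiff ℝ 1 β₁ := by
    rw [hβ₁]
    exact (mol_contDiff he hgc.locallyIntegrable).of_le (by norm_num)
  have b2 : ∀ w, 0 ≤ β₁ w ∧ β₁ w ≤ 1 := by
    intro w
    rw [hβ₁]
    exact ga_mol_bound he hgc hg0 w
  have b3 : ∀ w, β₁ (-w) = β₁ w := by
    intro w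
    rw [hβ₁, mol_neg he]
    congr 1
    funext x
    exact hgeven x
  have hinf : ∀ w x : ℂ, ‖x‖ ≤ h / 32 → |Metric.infDist (w - x) L - Metric.infDist w L| ≤ h / 32 := by
    intro w x hx
    have := (Metric.lipschitz_infDist_pt L).dist_le_mul (w - x) w
    rw [Real.dist_eq, dist_eq_norm] at this
    have e : w - x - w = -x := by ring
    rw [e, norm_neg] at this
    refine le_trans this ?_
    simpa using hx
  have b4 : ∀ w, Metric.infDist w L ≤ 3 * h / 32 → β₁ w = 1 := by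
    intro w hw
    rw [hβ₁]
    refine ga_mol_const he fun x hx => hg1 _ ?_
    have := (abs_le.mp (hinf w x hx)).2
    linarith
  have b5 : ∀ w, 9 * h / 32 ≤ Metric.infDist w L → β₁ w = 0 := by
    intro w hw
    rw [hβ₁]
    refine ga_mol_const he fun x hx => hg2 _ ?_
    have := (abs_le.mp (hinf w x hx)).1
    linarith
  have b6 : ∀ w, ‖grd β₁ w‖ ≤ 8 / h := by
    intro w
    rw [← norm_fderiv_eq ((b1.differentiable (by norm_num)) w)]
    have hl : LipschitzWith (8 / h).toNNReal β₁ := by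
      refine LipschitzWith.of_dist_le_mul fun x y => ?_
      rw [Real.dist_eq, dist_eq_norm, Real.coe_toNNReal _ (by positivity), hβ₁]
      exact ga_mol_lip he hgc hg0 hglip x y
    have := norm_fderiv_le_of_lipschitz ℝ hl (x₀ := w)
    rwa [Real.coe_toNNReal _ (by positivity)] at this
  -- values on L and on its inverse
  have v1 : ∀ w, w ∈ L → β₁ w = 1 := by
    intro w hw
    apply b4
    rw [Metric.infDist_zero_of_mem hw]
    positivity
  have v2 : ∀ w, (w = 0 ∨ w⁻¹ ∈ L) → β₁ w = 0 := by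
    intro w hw
    apply b5
    have h3 : h / 2 ≤ Metric.infDist w L := by
      refine (Metric.le_infDist hLne).2 fun b hb => ?_
      rw [dist_eq_norm]
      exact hdist w b hw hb
    linarith
  obtain ⟨β, hβ⟩ : ∃ β : ℂ → ℝ, β = fun w => if w = 0 then 0 else (1 + β₁ w - β₁ w⁻¹) / 2 := ⟨_, rfl⟩
  have hβ0 : β 0 = 0 := by
    rw [hβ]
    exact if_pos rfl
  have hβ1 : ∀ w, w ≠ 0 → β w = (1 + β₁ w - β₁ w⁻¹) / 2 := by
    intro w hw
    rw [hβ]
    exact if_neg hw
  have hsmall : ∀ w : ℂ, ‖w‖ < h / 2 → β w = 0 := by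
    intro w hw
    by_cases hw0 : w = 0
    · rw [hw0, hβ0]
    · have hL' : w⁻¹ ∈ L := by
        rw [hL]
        right
        rw [norm_inv]
        have hpos : 0 < ‖w‖ := norm_pos_iff.mpr hw0
        rw [le_inv_comm₀ (by positivity) hpos, inv_div]
        exact hw.le
      rw [hβ1 w hw0, v1 _ hL', v2 w (Or.inr hL')]
      norm_num
  have hLβ : ∀ w, w ∈ L → w ≠ 0 → β w = 1 := by
    intro w hw hw0
    rw [hβ1 w hw0, v1 w hw, v2 w⁻¹ (Or.inr (by rwa [inv_inv]))]
    norm_num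
  have hd1 : ∀ w : ℂ, w ≠ 0 → ContDiffAt ℝ 1 (fun x : ℂ => β₁ x⁻¹) w := by
    intro w hw
    exact (b1.contDiffAt).comp w (contDiffAt_inv ℝ hw)
  have hev : ∀ w : ℂ, w ≠ 0 → β =ᶠ[nhds w] fun x => (1 + β₁ x - β₁ x⁻¹) / 2 := by
    intro w hw
    filter_upwards [isOpen_ne.mem_nhds hw] with x hx
    exact hβ1 x hx
  have hev0 : ∀ w : ℂ, ‖w‖ < h / 2 → β =ᶠ[nhds w] fun _ => 0 := by
    intro w hw
    have hop : IsOpen {x : ℂ | ‖x‖ < h / 2} := isOpen_lt continuous_norm continuous_const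
    filter_upwards [hop.mem_nhds hw] with x hx
    exact hsmall x hx
  have hsmo : ContDiff ℝ 1 β := by
    rw [contDiff_iff_contDiffAt]
    intro w
    by_cases hw : w = 0
    · subst hw
      exact (contDiffAt_const (c := (0 : ℝ))).congr_of_eventuallyEq
        (hev0 0 (by rw [norm_zero]; positivity))
    · refine ContDiffAt.congr_of_eventuallyEq ?_ (hev w hw)
      exact ((contDiffAt_const.add b1.contDiffAt).sub (hd1 w hw)).div_const 2
  refine ⟨β, hsmo, ?_, ?_, ?_, ?_, ?_, ?_⟩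
  · intro w
    by_cases hw : w = 0
    · rw [hw, hβ0]
      exact ⟨le_refl _, zero_le_one⟩
    · rw [hβ1 w hw]
      have h3 := b2 w
      have h4 := b2 w⁻¹
      constructor <;> linarith [h3.1, h3.2, h4.1, h4.2]
  · intro w
    by_cases hw : w = 0
    · rw [hw, neg_zero]
    · rw [hβ1 w hw, hβ1 (-w) (neg_ne_zero.mpr hw), b3, inv_neg, b3]
  · intro w hw
    rw [hβ1 w hw, hβ1 w⁻¹ (inv_ne_zero hw), inv_inv]
    ring
  · intro w hw
    have hwL : w ∈ L := by
      rw [hL]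
      exact Or.inl hw
    exact hLβ w hwL fun h => hw (by rw [h]; exact h0S)
  · intro w hw
    have hwL : w ∈ L := by
      rw [hL]
      exact Or.inr hw
    refine hLβ w hwL fun h => ?_
    rw [h, norm_zero] at hw
    linarith
  · intro w
    rcases lt_or_ge ‖w‖ (h / 2) with hw | hw
    · have h3 : grd β w = 0 := by
        unfold grd
        rw [(hev0 w hw).fderiv_eq]
        simp
        rfl
      rw [h3, norm_zero]
      positivity
    · have hpos : 0 < ‖w‖ := lt_of_lt_of_le (by positivity) hw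
      have hw0 : w ≠ 0 := norm_pos_iff.mp hpos
      have hda : DifferentiableAt ℝ β₁ w := (b1.differentiable (by norm_num)) w
      have hdb : DifferentiableAt ℝ (fun x : ℂ => β₁ x⁻¹) w :=
        (hd1 w hw0).differentiableAt (by norm_num)
      have h3 : fderiv ℝ β w = (2 : ℝ)⁻¹ • (fderiv ℝ β₁ w - fderiv ℝ (fun x : ℂ => β₁ x⁻¹) w) := by
        rw [(hev w hw0).fderiv_eq]
        have h4 : HasFDerivAt (fun x : ℂ => (2 : ℝ)⁻¹ • ((1 + β₁ x) - β₁ x⁻¹))
            ((2 : ℝ)⁻¹ • (fderiv ℝ β₁ w - fderiv ℝ (fun x : ℂ => β₁ x⁻¹) w)) w :=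
          ((hda.hasFDerivAt.const_add 1).sub hdb.hasFDerivAt).const_smul (2 : ℝ)⁻¹
        have e : (fun x : ℂ => (1 + β₁ x - β₁ x⁻¹) / 2) =
            fun x : ℂ => (2 : ℝ)⁻¹ • ((1 + β₁ x) - β₁ x⁻¹) := by
          funext x
          rw [smul_eq_mul]
          ring
        rw [e]
        exact h4.fderiv
      have h5 : ‖fderiv ℝ β₁ w‖ ≤ 8 / h := by
        rw [norm_fderiv_eq hda]
        exact b6 w
      have h6 : ‖fderiv ℝ (fun x : ℂ => β₁ x⁻¹) w‖ ≤ 8 / h * (4 / h ^ 2) := by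
        rw [norm_fderiv_eq hdb]
        have h7 := norm_grd_inv hw0 ((b1.differentiable (by norm_num)) w⁻¹)
        have h8 := b6 w⁻¹
        have h9 : (‖w‖ ^ 4)⁻¹ ≤ (4 / h ^ 2) ^ 2 := by
          rw [inv_le_comm₀ (by positivity) (by positivity)]
          have e : ((4 / h ^ 2) ^ 2)⁻¹ = (h / 2) ^ 4 := by
            field_simp
            norm_num
          rw [e]
          exact pow_le_pow_left₀ (by positivity) hw 4
        have h10 : ‖grd (fun x : ℂ => β₁ x⁻¹) w‖ ^ 2 ≤ (8 / h * (4 / h ^ 2)) ^ 2 := by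
          rw [h7, mul_pow, mul_comm]
          exact mul_le_mul (pow_le_pow_left₀ (norm_nonneg _) h8 2) h9 (by positivity) (by positivity)
        exact le_of_sq_le_sq h10 (by positivity)
      rw [← norm_fderiv_eq ((hsmo.differentiable (by norm_num)) w), h3, norm_smul, norm_inv,
        Real.norm_ofNat]
      have h11 := norm_sub_le (fderiv ℝ β₁ w) (fderiv ℝ (fun x : ℂ => β₁ x⁻¹) w)
      have e : 4 / h * (1 + 4 / h ^ 2) = 2⁻¹ * (8 / h + 8 / h * (4 / h ^ 2)) := by ring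
      rw [e]
      refine mul_le_mul_of_nonneg_left ?_ (by norm_num)
      linarith

/-- `β = 0` near `0` and on `Km S`, constant far out: the gradient vanishes for `‖w‖ < h/2` and for
`‖w‖ > 2/h`. -/
theorem bet_zero {S : Set ℂ} {h M : ℝ} {β : ℂ → ℝ} (h0 : 0 < h) (hβ : Bet S h M β) :
    (∀ w ∈ Km S, β w = 0) ∧ (∀ w : ℂ, ‖w‖ ≤ h / 2 → β w = 0) ∧
    (∀ w : ℂ, ‖w‖ < h / 2 → grd β w = 0) ∧ ∀ w : ℂ, 2 / h < ‖w‖ → grd β w = 0 := by
  have h2h : 0 < 2 / h := by positivity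
  have hsmall0 : ∀ w : ℂ, w ≠ 0 → ‖w‖ ≤ h / 2 → β w = 0 := by
    intro w hw hw2
    have hpos : 0 < ‖w‖ := norm_pos_iff.mpr hw
    have h3 : β w⁻¹ = 1 := by
      apply hβ.far
      rw [norm_inv, le_inv_comm₀ h2h hpos, inv_div]
      exact hw2
    have h4 := hβ.inv w hw
    linarith
  have hz : β 0 = 0 := by
    have hc : Filter.Tendsto β (nhdsWithin 0 {0}ᶜ) (nhds (β 0)) :=
      (hβ.smo.continuous.tendsto 0).mono_left nhdsWithin_le_nhds
    have hc2 : Filter.Tendsto β (nhdsWithin 0 {0}ᶜ) (nhds 0) := by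
      refine tendsto_const_nhds.congr' ?_
      have hop : IsOpen {x : ℂ | ‖x‖ < h / 2} := isOpen_lt continuous_norm continuous_const
      have hmem : {x : ℂ | ‖x‖ < h / 2} ∈ nhds (0 : ℂ) := hop.mem_nhds (by
        change ‖(0 : ℂ)‖ < h / 2
        rw [norm_zero]
        positivity)
      filter_upwards [nhdsWithin_le_nhds hmem, self_mem_nhdsWithin] with x hx hx0
      exact (hsmall0 x hx0 (le_of_lt hx)).symm
    exact tendsto_nhds_unique hc hc2
  have hsmall : ∀ w : ℂ, ‖w‖ ≤ h / 2 → β w = 0 := by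
    intro w hw
    by_cases hw0 : w = 0
    · rw [hw0, hz]
    · exact hsmall0 w hw0 hw
  refine ⟨?_, hsmall, ?_, ?_⟩
  · rintro w (hw | hw)
    · rw [hw, hz]
    · by_cases hw0 : w = 0
      · rw [hw0, hz]
      · have h4 := hβ.inv w hw0
        rw [hβ.one _ hw] at h4
        linarith
  · intro w hw
    have hop : IsOpen {x : ℂ | ‖x‖ < h / 2} := isOpen_lt continuous_norm continuous_const
    have hev : β =ᶠ[nhds w] fun _ => 0 := by
      filter_upwards [hop.mem_nhds hw] with x hx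
      exact hsmall x (le_of_lt hx)
    unfold grd
    rw [hev.fderiv_eq]
    simp
    rfl
  · intro w hw
    have hop : IsOpen {x : ℂ | 2 / h < ‖x‖} := isOpen_lt continuous_const continuous_norm
    have hev : β =ᶠ[nhds w] fun _ => 1 := by
      filter_upwards [hop.mem_nhds hw] with x hx
      exact hβ.far x (le_of_lt hx)
    unfold grd
    rw [hev.fderiv_eq]
    simp
    rfl
/- END ga -/

end Pool.Agent.NoH
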