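import Mathlib

set_option autoImplicit false

/-!
# The complement of the Feinberg-Zee spectrum is connected.  Definitions.

Text: store MP_1366af_an_noholes_helper75.md.
-/

open MeasureTheory Set

namespace Pool.Agent.NoH

/-- The domains `S` of `z`: open, bounded, `S = -S`, disjoint from all translates by `n z`, `n ≠ 0`,
and the complement has no nonempty compact relatively clopen part (the complement together with
infinity is connected). -/
structure Dom (z : ℂ) (S : Set ℂ) : Prop where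
  opn : IsOpen S
  bdd : ∃ R : ℝ, ∀ w ∈ S, ‖w‖ < R
  neg : ∀ w ∈ S, -w ∈ S
  trn : ∀ n : ℤ, n ≠ 0 → ∀ w ∈ S, w + n * z ∉ S
  con : ∀ Z : Set ℂ, Z ⊆ Sᶜ → IsCompact Z → IsClosed (Sᶜ \ Z) → Z = ∅

/-- The symmetric functions of `S`. -/
structure Fun (S : Set ℂ) (u : ℂ → ℝ) : Prop where
  smo : ContDiff ℝ 1 u
  bnd : ∀ w, |u w| ≤ 1
  evn : ∀ w, u (-w) = u w
  inv : ∀ w, w ≠ 0 → u w⁻¹ = -u w
  one : ∀ w, w ∉ S → u w = 1

/-- `K⁻`: the point `0` and the inverses of the points off `S`. -/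
def Km (S : Set ℂ) : Set ℂ := {w | w = 0 ∨ w⁻¹ ∉ S}

/-- The functions which are `1` off `S` and `-1` on `K⁻`, without symmetry. -/
structure Plat (S : Set ℂ) (u : ℂ → ℝ) : Prop where
  smo : ContDiff ℝ 1 u
  bnd : ∀ w, |u w| ≤ 1
  one : ∀ w, w ∉ S → u w = 1
  mon : ∀ w ∈ Km S, u w = -1

/-- The symmetrisation. -/
noncomputable def sym (v : ℂ → ℝ) (w : ℂ) : ℝ :=
  if w = 0 then -1 else (v w + v (-w) - v w⁻¹ - v (-w⁻¹)) / 4

/-- The gradient as a complex number `u_x + i u_y`. -/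
noncomputable def grd (u : ℂ → ℝ) (w : ℂ) : ℂ := ⟨fderiv ℝ u w 1, fderiv ℝ u w Complex.I⟩

/-- The Dirichlet energy. -/
noncomputable def En (u : ℂ → ℝ) : ℝ := ∫ w : ℂ, ‖grd u w‖ ^ 2

/-- The energy in a disc. -/
noncomputable def Dl (u : ℂ → ℝ) (b : ℂ) (r : ℝ) : ℝ := ∫ w in Metric.ball b r, ‖grd u w‖ ^ 2

/-- The derivative `∂u = (u_x - i u_y) / 2`. -/
noncomputable def psi (u : ℂ → ℝ) (w : ℂ) : ℂ := (starRingEnd ℂ) (grd u w) / 2

/-- `∂f` of a map of the plane. -/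
noncomputable def del (f : ℂ → ℂ) (w : ℂ) : ℂ := (fderiv ℝ f w 1 - Complex.I * fderiv ℝ f w Complex.I) / 2

/-- `∂̄f` of a map of the plane. -/
noncomputable def dbar (f : ℂ → ℂ) (w : ℂ) : ℂ :=
  (fderiv ℝ f w 1 + Complex.I * fderiv ℝ f w Complex.I) / 2

/-- A fixed smooth bump function on the plane, `1` for `|w| ≤ 1/2`, `0` for `|w| ≥ 1`. -/
noncomputable def bmp : ContDiffBump (0 : ℂ) := ⟨1 / 2, 1, by norm_num, by norm_num⟩

/-- The mollifier: even, smooth, nonnegative, integral one, support in the closed unit disc. -/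
noncomputable def rho (w : ℂ) : ℝ := bmp.normed volume w

/-- The mollifier at scale `ε`. -/
noncomputable def rhoe (ε : ℝ) (w : ℂ) : ℝ := (ε ^ 2)⁻¹ * rho ((ε⁻¹ : ℝ) • w)

/-- Mollification at scale `ε`. -/
noncomputable def mol {F : Type} [NormedAddCommGroup F] [NormedSpace ℝ F] (ε : ℝ) (f : ℂ → F)
    (w : ℂ) : F := ∫ x : ℂ, rhoe ε x • f (w - x)

/-- `u` is minimal for `S` up to the factor `1 - η`. -/
def Near (η : ℝ) (S : Set ℂ) (u : ℂ → ℝ) : Prop := ∀ v, Fun S v → (1 - η) * En u ≤ En v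

/-- The thickness of the ring of a function with energy at most `E`. -/
noncomputable def hh (E : ℝ) : ℝ := Real.exp (-(Real.pi * E / 2)) / 6

/-- The constant of hole filling. -/
noncomputable def C2 : ℝ := 2 + 512 * Real.pi ^ 2

/-- The rate of hole filling. -/
noncomputable def th : ℝ := 1 - 1 / C2

/-- The factor which makes `z ↦ 1/z` act on Beltrami coefficients: `conj(w)² / w²`. -/
noncomputable def rat (w : ℂ) : ℂ := (starRingEnd ℂ) w ^ 2 / w ^ 2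

/-- Invariant Beltrami coefficients. -/
structure Bel (z : ℂ) (μ : ℂ → ℂ) : Prop where
  mea : Measurable μ
  bnd : ∀ w, ‖μ w‖ ≤ 1
  neg : ∀ w, μ (-w) = μ w
  inv : ∀ w, w ≠ 0 → μ w⁻¹ = μ w * rat w
  per : ∀ w, μ (w + z) = μ w
  hgt : ∃ Y : ℝ, ∀ w : ℂ, Y < |(w / z).im| → μ w = 0

/-- The vector field `V` of `z` with translation number `δ`, Lipschitz constant `Λ` and defect `κ`
of the equivariance under `w ↦ 1/w`. -/
structure Vec (z δ : ℂ) (Λ κ : ℝ) (V : ℂ → ℂ) : Prop where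
  smo : ContDiff ℝ 1 V
  odd : ∀ w, V (-w) = -V w
  trn : ∀ w, V (w + z) = V w + δ
  lip : ∀ w, ‖fderiv ℝ V w‖ ≤ Λ
  inv : ∀ w, w ≠ 0 → ‖V w + w ^ 2 * V w⁻¹‖ ≤ κ * (1 + ‖w‖ ^ 2)

end Pool.Agent.NoH
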