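import Pool.Agent.NoH.Defs

set_option autoImplicit false

/-!
# Gradients, mollification and the inversion `w ↦ 1/w`
-/

open MeasureTheory Set

namespace Pool.Agent.NoH

/- MODULE ia
Substitution `w = 1/x` on `ℂ \ {0}`: the real derivative of `x ↦ x⁻¹` at `x ≠ 0` is multiplication by
`-x⁻²`, with determinant `‖x‖⁻⁴`; `MeasureTheory.integral_image_eq_integral_abs_det_fderiv_smul` with
the image `{0}ᶜ` of `{0}ᶜ`, and `{0}` has measure zero.  (For the determinant of multiplication by a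
complex number `a` as a real linear map: `LinearMap.det` / `Complex.det_..`, equal to `‖a‖ ^ 2`.) -/
private noncomputable def ia_D (x : ℂ) : ℂ →L[ℝ] ℂ :=
  (ContinuousLinearMap.toSpanSingleton ℂ (-(x ^ 2)⁻¹)).restrictScalars ℝ

private theorem ia_det (x : ℂ) : |(ia_D x).det| = (‖x‖ ^ 4)⁻¹ := by
  have h : (ia_D x).det = (‖x‖ ^ 4)⁻¹ := by
    unfold ia_D
    simp [ContinuousLinearMap.det, LinearMap.det_restrictScalars,
      Algebra.norm_complex_eq, Complex.normSq_eq_norm_sq, ← pow_mul]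
  rw [h, abs_of_nonneg (by positivity)]

private theorem ia_img : (fun x : ℂ => x⁻¹) '' ({0}ᶜ : Set ℂ) = {0}ᶜ := by
  ext w
  simp only [Set.mem_image, Set.mem_compl_iff, Set.mem_singleton_iff]
  constructor
  · rintro ⟨x, hx, rfl⟩
    exact inv_ne_zero hx
  · intro hw
    exact ⟨w⁻¹, inv_ne_zero hw, inv_inv w⟩

private theorem ia_deriv : ∀ x ∈ ({0}ᶜ : Set ℂ), HasFDerivWithinAt (fun x : ℂ => x⁻¹) (ia_D x) {0}ᶜ x := by
  intro x hx
  have h := hasDerivAt_inv (𝕜 := ℂ) (x := x) hx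
  exact (h.hasFDerivAt.restrictScalars ℝ).hasFDerivWithinAt

private theorem ia_inj : InjOn (fun x : ℂ => x⁻¹) ({0}ᶜ : Set ℂ) := fun _ _ _ _ h => inv_injective h

private theorem ia_ae : ∀ {F : Type} [NormedAddCommGroup F] [NormedSpace ℝ F] (g : ℂ → F),
    (∫ w in ({0}ᶜ : Set ℂ), g w = ∫ w, g w) ∧ (IntegrableOn g ({0}ᶜ : Set ℂ) ↔ Integrable g) := by
  intro F _ _ g
  have h : volume.restrict ({0}ᶜ : Set ℂ) = volume := by
    apply Measure.restrict_eq_self_of_ae_mem
    rw [ae_iff]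
    simp
  exact ⟨by rw [h], by rw [IntegrableOn, h]⟩

theorem integral_inv {F : Type} [NormedAddCommGroup F] [NormedSpace ℝ F] (g : ℂ → F) :
    ∫ w : ℂ, (‖w‖ ^ 4)⁻¹ • g w⁻¹ = ∫ w : ℂ, g w := by
  have h := integral_image_eq_integral_abs_det_fderiv_smul (μ := volume) (measurableSet_singleton (0 : ℂ)).compl
    ia_deriv ia_inj g
  rw [ia_img] at h
  simp only [ia_det] at h
  rw [(ia_ae g).1, (ia_ae (fun w : ℂ => (‖w‖ ^ 4)⁻¹ • g w⁻¹)).1] at h
  exact h.symm

theorem integrable_inv {F : Type} [NormedAddCommGroup F] [NormedSpace ℝ F] (g : ℂ → F) :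
    Integrable (fun w : ℂ => (‖w‖ ^ 4)⁻¹ • g w⁻¹) ↔ Integrable g := by
  have h := integrableOn_image_iff_integrableOn_abs_det_fderiv_smul (μ := volume)
    (measurableSet_singleton (0 : ℂ)).compl ia_deriv ia_inj g
  rw [ia_img] at h
  simp only [ia_det] at h
  rw [(ia_ae g).2, (ia_ae (fun w : ℂ => (‖w‖ ^ 4)⁻¹ • g w⁻¹)).2] at h
  exact h.symm
/- END ia -/

/- MODULE ib
Elementary facts on `grd`: `‖grd u w‖ ^ 2 = 4 * ‖psi u w‖ ^ 2`; the derivative is recovered,
`fderiv ℝ u w h = (conj (grd u w) * h).re` (real linearity: `h = h.re + h.im I`), so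
`‖fderiv ℝ u w‖ = ‖grd u w‖`; `grd` of `u ∘ (-)` and of `u ∘ inv` (chain rule with the derivative
`h ↦ -h / w²` of `inv`: `conj (grd (u ∘ inv) w) = - conj (grd u w⁻¹) / w ^ 2`); `grd` is continuous
for `u` of class `C^1`; at a point where `|u|` has its maximal value `1` the gradient vanishes
(`IsLocalMax.fderiv_eq_zero`). -/
theorem norm_grd_sq (u : ℂ → ℝ) (w : ℂ) : ‖grd u w‖ ^ 2 = 4 * ‖psi u w‖ ^ 2 := by
  unfold psi
  rw [norm_div, RCLike.norm_conj]
  norm_num
  ring

theorem fderiv_eq_grd {u : ℂ → ℝ} {w : ℂ} (hu : DifferentiableAt ℝ u w) (h : ℂ) :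
    fderiv ℝ u w h = ((starRingEnd ℂ) (grd u w) * h).re := by
  have h1 : h = h.re • (1 : ℂ) + h.im • Complex.I := by
    simp [Complex.re_add_im]
  conv_lhs => rw [h1, map_add, map_smul, map_smul]
  simp only [grd, Complex.mul_re, Complex.conj_re, Complex.conj_im, smul_eq_mul]
  ring

theorem norm_fderiv_eq {u : ℂ → ℝ} {w : ℂ} (hu : DifferentiableAt ℝ u w) :
    ‖fderiv ℝ u w‖ = ‖grd u w‖ := by
  apply le_antisymm
  · refine ContinuousLinearMap.opNorm_le_bound _ (norm_nonneg _) fun h => ?_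
    rw [fderiv_eq_grd hu h, Real.norm_eq_abs]
    calc |((starRingEnd ℂ) (grd u w) * h).re| ≤ ‖(starRingEnd ℂ) (grd u w) * h‖ := Complex.abs_re_le_norm _
      _ = ‖grd u w‖ * ‖h‖ := by rw [norm_mul, RCLike.norm_conj]
  · rcases eq_or_ne (grd u w) 0 with h0 | h0
    · rw [h0, norm_zero]; exact norm_nonneg _
    have h1 := (fderiv ℝ u w).le_opNorm (grd u w)
    rw [fderiv_eq_grd hu, ← Complex.normSq_eq_conj_mul_self, Complex.ofReal_re, Complex.normSq_eq_norm_sq,
      Real.norm_eq_abs, abs_of_nonneg (by positivity), pow_two] at h1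
    exact le_of_mul_le_mul_right h1 (norm_pos_iff.2 h0)

theorem grd_neg {u : ℂ → ℝ} {w : ℂ} (hu : DifferentiableAt ℝ u (-w)) :
    grd (fun x => u (-x)) w = -grd u (-w) := by
  have h : fderiv ℝ (fun x => u (-x)) w = -fderiv ℝ u (-w) := by
    have h1 : HasFDerivAt (fun x : ℂ => -x) (-(ContinuousLinearMap.id ℝ ℂ)) w := (hasFDerivAt_id w).neg
    have h2 := (hu.hasFDerivAt.comp w h1).fderiv
    have h3 : (u ∘ fun x : ℂ => -x) = fun x => u (-x) := rfl
    rw [h3] at h2
    rw [h2]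
    ext v
    simp
  unfold grd
  rw [h]
  apply Complex.ext <;> simp

private theorem ib_inv {u : ℂ → ℝ} {w : ℂ} (hw : w ≠ 0) (hu : DifferentiableAt ℝ u w⁻¹) (h : ℂ) :
    fderiv ℝ (fun x => u x⁻¹) w h = fderiv ℝ u w⁻¹ (-(w ^ 2)⁻¹ * h) := by
  have h1 : HasFDerivAt (fun x : ℂ => x⁻¹) (ia_D w) w :=
    (hasDerivAt_inv (𝕜 := ℂ) (x := w) hw).hasFDerivAt.restrictScalars ℝ
  have h2 := (hu.hasFDerivAt.comp w h1).fderiv
  have h3 : (u ∘ fun x : ℂ => x⁻¹) = fun x => u x⁻¹ := rfl
  rw [h3] at h2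
  rw [h2]
  simp only [ContinuousLinearMap.comp_apply]
  congr 1
  simp [ia_D, mul_comm]

theorem psi_inv {u : ℂ → ℝ} {w : ℂ} (hw : w ≠ 0) (hu : DifferentiableAt ℝ u w⁻¹) :
    psi (fun x => u x⁻¹) w = -psi u w⁻¹ / w ^ 2 := by
  have key : (starRingEnd ℂ) (grd (fun x => u x⁻¹) w) = -(starRingEnd ℂ) (grd u w⁻¹) / w ^ 2 := by
    have h1 := ib_inv hw hu 1
    have h2 := ib_inv hw hu Complex.I
    rw [fderiv_eq_grd hu] at h1 h2
    apply Complex.ext
    · rw [Complex.conj_re]
      change fderiv ℝ (fun x => u x⁻¹) w 1 = _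
      rw [h1]
      congr 1
      field_simp
    · rw [Complex.conj_im]
      change -fderiv ℝ (fun x => u x⁻¹) w Complex.I = _
      rw [h2]
      have h3 : (starRingEnd ℂ) (grd u w⁻¹) * (-(w ^ 2)⁻¹ * Complex.I) =
          (-(starRingEnd ℂ) (grd u w⁻¹) / w ^ 2) * Complex.I := by
        field_simp
      rw [h3, Complex.mul_I_re, neg_neg]
  unfold psi
  rw [key]
  ring

theorem norm_grd_inv {u : ℂ → ℝ} {w : ℂ} (hw : w ≠ 0) (hu : DifferentiableAt ℝ u w⁻¹) :
    ‖grd (fun x => u x⁻¹) w‖ ^ 2 = (‖w‖ ^ 4)⁻¹ * ‖grd u w⁻¹‖ ^ 2 := by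
  rw [norm_grd_sq, norm_grd_sq, psi_inv hw hu, norm_div, norm_neg, norm_pow]
  have : ‖w‖ ≠ 0 := norm_ne_zero_iff.2 hw
  field_simp

theorem continuous_grd {u : ℂ → ℝ} (hu : ContDiff ℝ 1 u) : Continuous (grd u) := by
  have h := hu.continuous_fderiv (by norm_num)
  have h1 : grd u = fun w => (Complex.equivRealProdCLM.symm (fderiv ℝ u w 1, fderiv ℝ u w Complex.I)) := by
    funext w
    apply Complex.ext <;> simp [grd]
  rw [h1]
  exact Complex.equivRealProdCLM.symm.continuous.comp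
    ((h.clm_apply continuous_const).prodMk (h.clm_apply continuous_const))

theorem grd_eq_zero {u : ℂ → ℝ} (hb : ∀ w, |u w| ≤ 1) {w : ℂ} (hw : |u w| = 1) : grd u w = 0 := by
  have h : fderiv ℝ u w = 0 := by
    rcases abs_eq (by norm_num : (0 : ℝ) ≤ 1) |>.1 hw with h | h
    · apply IsLocalMax.fderiv_eq_zero
      exact Filter.Eventually.of_forall fun x => by rw [h]; exact (abs_le.1 (hb x)).2
    · apply IsLocalMin.fderiv_eq_zero
      exact Filter.Eventually.of_forall fun x => by rw [h]; exact (abs_le.1 (hb x)).1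
  unfold grd
  rw [h]
  rfl
/- END ib -/

/- MODULE ic
The mollifier.  `rho` is even (`ContDiffBump` is symmetric: `ContDiffBump.neg` or its definition by
the norm), continuous, nonnegative, bounded by some `C`, support in the closed unit disc, integral
`1` (`ContDiffBump.integral_normed`); scaling: `integral_comp_smul` in dimension two gives
`∫ rhoe ε = 1` (`Complex` has real dimension two, `Complex.finrank_real_complex`). -/
theorem rho_props : (∀ w, rho (-w) = rho w) ∧ Continuous rho ∧ (∀ w, 0 ≤ rho w) ∧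
    (∀ w, 1 < ‖w‖ → rho w = 0) ∧ ContDiff ℝ 2 rho := by
  refine ⟨fun w => bmp.normed_neg w, bmp.continuous_normed, fun w => bmp.nonneg_normed w, ?_,
    bmp.contDiff_normed (n := 2)⟩
  intro w hw
  have h : w ∉ Function.support (bmp.normed volume) := by
    rw [bmp.support_normed_eq]
    simp only [Metric.mem_ball, dist_zero_right, not_lt]
    exact hw.le
  simpa [Function.mem_support, rho] using h

private theorem ic_compact : HasCompactSupport rho := bmp.hasCompactSupport_normed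

private theorem ic_compact' {ε : ℝ} (hε : 0 < ε) : HasCompactSupport (rhoe ε) := by
  have h1 : HasCompactSupport (fun w : ℂ => rho ((ε⁻¹ : ℝ) • w)) :=
    ic_compact.comp_homeomorph (Homeomorph.smulOfNeZero (ε⁻¹ : ℝ) (inv_ne_zero hε.ne'))
  exact h1.mul_left

theorem rhoe_props {ε : ℝ} (hε : 0 < ε) : (∀ w, rhoe ε (-w) = rhoe ε w) ∧ Continuous (rhoe ε) ∧
    (∀ w, 0 ≤ rhoe ε w) ∧ (∀ w, ε < ‖w‖ → rhoe ε w = 0) ∧ ContDiff ℝ 2 (rhoe ε) ∧
    Integrable (rhoe ε) ∧ ∫ w, rhoe ε w = 1 := by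
  obtain ⟨h1, h2, h3, h4, h5⟩ := rho_props
  have hc : Continuous (rhoe ε) := by
    unfold rhoe
    exact continuous_const.mul (h2.comp (continuous_const_smul _))
  refine ⟨?_, hc, ?_, ?_, ?_, ?_, ?_⟩
  · intro w
    unfold rhoe
    rw [smul_neg, h1]
  · intro w
    unfold rhoe
    exact mul_nonneg (by positivity) (h3 _)
  · intro w hw
    unfold rhoe
    rw [h4, mul_zero]
    rw [norm_smul, Real.norm_eq_abs, abs_of_pos (inv_pos.2 hε), inv_mul_eq_div, lt_div_iff₀ hε, one_mul]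
    exact hw
  · unfold rhoe
    exact contDiff_const.mul (h5.comp (contDiff_const_smul _))
  · exact hc.integrable_of_hasCompactSupport (ic_compact' hε)
  · unfold rhoe
    rw [integral_const_mul, Measure.integral_comp_smul, Complex.finrank_real_complex]
    have h6 : ∫ x : ℂ, rho x = 1 := bmp.integral_normed
    rw [h6]
    rw [abs_of_nonneg (by positivity)]
    simp only [smul_eq_mul, mul_one, inv_pow, inv_inv]
    field_simp

private theorem ic_fderiv {ε : ℝ} (hε : 0 < ε) (w : ℂ) :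
    ‖fderiv ℝ (rhoe ε) w‖ = (ε ^ 3)⁻¹ * ‖fderiv ℝ rho ((ε⁻¹ : ℝ) • w)‖ := by
  have hd : Differentiable ℝ rho := rho_props.2.2.2.2.differentiable (by norm_num)
  have h1 : HasFDerivAt (fun x : ℂ => (ε⁻¹ : ℝ) • x) ((ε⁻¹ : ℝ) • ContinuousLinearMap.id ℝ ℂ) w :=
    ((ε⁻¹ : ℝ) • ContinuousLinearMap.id ℝ ℂ).hasFDerivAt
  have h2 := ((hd ((ε⁻¹ : ℝ) • w)).hasFDerivAt.comp w h1).const_mul ((ε ^ 2)⁻¹)
  have h3 : fderiv ℝ (rhoe ε) w =
      (ε ^ 2)⁻¹ • (fderiv ℝ rho ((ε⁻¹ : ℝ) • w)).comp ((ε⁻¹ : ℝ) • ContinuousLinearMap.id ℝ ℂ) := h2.fderiv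
  rw [h3, norm_smul, ContinuousLinearMap.comp_smul, ContinuousLinearMap.comp_id, norm_smul, Real.norm_eq_abs,
    Real.norm_eq_abs, abs_of_pos (by positivity), abs_of_pos (by positivity), ← mul_assoc]
  congr 1
  field_simp

/-- Bounds of the mollifier and of the integral of its gradient. -/
theorem exists_rho_bound : ∃ C : ℝ, 0 < C ∧ ∀ ε : ℝ, 0 < ε → (∀ w, rhoe ε w ≤ C / ε ^ 2) ∧
    (∀ w, ‖fderiv ℝ (rhoe ε) w‖ ≤ C / ε ^ 3) ∧ ∫ w, ‖fderiv ℝ (rhoe ε) w‖ ≤ C / ε := by
  obtain ⟨h1, h2, h3, h4, h5⟩ := rho_props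
  obtain ⟨A, hA⟩ := ic_compact.exists_bound_of_continuous h2
  have hcf : Continuous (fderiv ℝ rho) := h5.continuous_fderiv (by norm_num)
  have hcs : HasCompactSupport (fderiv ℝ rho) := ic_compact.fderiv ℝ
  obtain ⟨B, hB⟩ := hcs.exists_bound_of_continuous hcf
  have hI : 0 ≤ ∫ w : ℂ, ‖fderiv ℝ rho w‖ := integral_nonneg fun _ => norm_nonneg _
  have hA0 : 0 ≤ A := le_trans (norm_nonneg _) (hA 0)
  have hB0 : 0 ≤ B := le_trans (norm_nonneg _) (hB 0)
  refine ⟨A + B + (∫ w : ℂ, ‖fderiv ℝ rho w‖) + 1, by positivity, fun ε hε => ⟨?_, ?_, ?_⟩⟩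
  · intro w
    unfold rhoe
    have h6 : rho ((ε⁻¹ : ℝ) • w) ≤ A := le_trans (le_abs_self _) (hA _)
    rw [inv_mul_eq_div]
    gcongr
    linarith
  · intro w
    rw [ic_fderiv hε, inv_mul_eq_div]
    have h6 := hB ((ε⁻¹ : ℝ) • w)
    gcongr
    linarith
  · have h6 : ∫ w : ℂ, ‖fderiv ℝ (rhoe ε) w‖ = (∫ w : ℂ, ‖fderiv ℝ rho w‖) / ε := by
      simp only [ic_fderiv hε]
      rw [integral_const_mul, Measure.integral_comp_smul (μ := volume) (fun x : ℂ => ‖fderiv ℝ rho x‖),
        Complex.finrank_real_complex, abs_of_nonneg (by positivity)]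
      simp only [smul_eq_mul, inv_pow, inv_inv]
      field_simp
    rw [h6]
    gcongr
    linarith
/- END ic -/

/- MODULE id
Mollification of a locally integrable (here: continuous, or bounded measurable) function.
`mol ε f w = ∫ rhoe ε (w - y) • f y dy` (substitution `x = w - y`) is the convolution with a function
of class `C^2` and compact support: it is of class `C^2`, and the derivative falls on `rhoe`
(`HasCompactSupport.contDiff_convolution_right`, `HasCompactSupport.hasFDerivAt_convolution_right`).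
For `f` of class `C^1` it falls on `f`: `grd (mol ε u) = mol ε (grd u)`. -/
private theorem id_conv {F : Type} [NormedAddCommGroup F] [NormedSpace ℝ F] (ε : ℝ) (f : ℂ → F) :
    mol ε f = MeasureTheory.convolution (rhoe ε) f (ContinuousLinearMap.lsmul ℝ ℝ) volume := by
  funext w
  rfl

theorem mol_contDiff {F : Type} [NormedAddCommGroup F] [NormedSpace ℝ F] [CompleteSpace F] {ε : ℝ}
    (hε : 0 < ε) {f : ℂ → F} (hf : LocallyIntegrable f volume) : ContDiff ℝ 2 (mol ε f) := by
  rw [id_conv]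
  exact (ic_compact' hε).contDiff_convolution_left _ (n := 2) (rhoe_props hε).2.2.2.2.1 hf

theorem fderiv_mol {F : Type} [NormedAddCommGroup F] [NormedSpace ℝ F] [CompleteSpace F] {ε : ℝ}
    (hε : 0 < ε) {f : ℂ → F} (hf : LocallyIntegrable f volume) (w h : ℂ) :
    fderiv ℝ (mol ε f) w h = ∫ x : ℂ, fderiv ℝ (rhoe ε) x h • f (w - x) := by
  rw [id_conv]
  have hcd : ContDiff ℝ 1 (rhoe ε) := (rhoe_props hε).2.2.2.2.1.of_le (by norm_num)
  rw [((ic_compact' hε).hasFDerivAt_convolution_left (ContinuousLinearMap.lsmul ℝ ℝ) hcd hf w).fderiv]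
  have hex : ConvolutionExists (fderiv ℝ (rhoe ε)) f ((ContinuousLinearMap.lsmul ℝ ℝ).precompL ℂ) volume :=
    ((ic_compact' hε).fderiv ℝ).convolutionExists_left _ (hcd.continuous_fderiv (by norm_num)) hf
  rw [convolution_def, ContinuousLinearMap.integral_apply (hex w)]
  rfl

theorem grd_mol {ε : ℝ} (hε : 0 < ε) {u : ℂ → ℝ} (hu : ContDiff ℝ 1 u) (w : ℂ) :
    grd (mol ε u) w = mol ε (grd u) w := by
  obtain ⟨h1, h2, h3, h4, h5, h6, h7⟩ := rhoe_props hε
  have hcf : Continuous (fderiv ℝ u) := hu.continuous_fderiv (by norm_num)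
  have hcint : ∀ (g : ℂ → ℝ), Continuous g → ∀ y : ℂ, Integrable (fun x => rhoe ε x * g (y - x)) := by
    intro g hg y
    apply Continuous.integrable_of_hasCompactSupport
    · exact h2.mul (hg.comp (continuous_const.sub continuous_id))
    · exact (ic_compact' hε).mul_right
  -- a bound of the derivative near `w`
  obtain ⟨B, hB⟩ := (isCompact_closedBall w (1 + ε)).exists_bound_of_continuousOn (f := fderiv ℝ u) hcf.continuousOn
  have hint2 : Integrable (fun x : ℂ => rhoe ε x • fderiv ℝ u (w - x)) := by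
    apply Continuous.integrable_of_hasCompactSupport
    · exact h2.smul (hcf.comp (continuous_const.sub continuous_id))
    · exact (ic_compact' hε).smul_right
  have key : HasFDerivAt (mol ε u) (∫ x : ℂ, rhoe ε x • fderiv ℝ u (w - x)) w := by
    have hF := hasFDerivAt_integral_of_dominated_of_fderiv_le (𝕜 := ℝ) (μ := volume)
      (F := fun (y x : ℂ) => rhoe ε x • u (y - x)) (F' := fun (y x : ℂ) => rhoe ε x • fderiv ℝ u (y - x))
      (bound := fun x => rhoe ε x * B) (x₀ := w) (s := Metric.ball w 1) (Metric.ball_mem_nhds w one_pos)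
      (Filter.Eventually.of_forall fun y =>
        (h2.smul (hu.continuous.comp (continuous_const.sub continuous_id))).aestronglyMeasurable)
      (hcint u hu.continuous w) hint2.aestronglyMeasurable
      (Filter.Eventually.of_forall fun x y hy => by
        rw [norm_smul, Real.norm_eq_abs, abs_of_nonneg (h3 x)]
        rcases le_or_gt ‖x‖ ε with hx | hx
        · apply mul_le_mul_of_nonneg_left _ (h3 x)
          apply hB
          rw [Metric.mem_closedBall, dist_eq_norm]
          rw [Metric.mem_ball, dist_eq_norm] at hy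
          calc ‖y - x - w‖ = ‖(y - w) - x‖ := by congr 1; ring
            _ ≤ ‖y - w‖ + ‖x‖ := norm_sub_le _ _
            _ ≤ 1 + ε := by linarith
        · rw [h4 x hx, zero_mul, zero_mul])
      (h6.mul_const B)
      (Filter.Eventually.of_forall fun x y _ => by
        have h8 : HasFDerivAt (fun y : ℂ => y - x) (ContinuousLinearMap.id ℝ ℂ) y := (hasFDerivAt_id y).sub_const x
        have h9 := ((hu.differentiable (by norm_num) (y - x)).hasFDerivAt.comp y h8).const_smul (rhoe ε x)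
        simpa using! h9)
    exact hF
  have hap : ∀ h : ℂ, fderiv ℝ (mol ε u) w h = ∫ x : ℂ, rhoe ε x * fderiv ℝ u (w - x) h := by
    intro h
    rw [key.fderiv, ContinuousLinearMap.integral_apply hint2]
    rfl
  have hgi : Integrable (fun x : ℂ => rhoe ε x • grd u (w - x)) := by
    apply Continuous.integrable_of_hasCompactSupport
    · exact h2.smul ((continuous_grd hu).comp (continuous_const.sub continuous_id))
    · exact (ic_compact' hε).smul_right
  apply Complex.ext
  · change fderiv ℝ (mol ε u) w 1 = (∫ x : ℂ, rhoe ε x • grd u (w - x)).re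
    rw [hap, ← RCLike.re_eq_complex_re, ← integral_re hgi]
    apply integral_congr_ae
    exact Filter.Eventually.of_forall fun x => by simp [grd]
  · change fderiv ℝ (mol ε u) w Complex.I = (∫ x : ℂ, rhoe ε x • grd u (w - x)).im
    rw [hap, ← RCLike.im_eq_complex_im, ← integral_im hgi]
    apply integral_congr_ae
    exact Filter.Eventually.of_forall fun x => by simp [grd]
/- END id -/

/- MODULE ie
Simple estimates: if `|u| ≤ 1` then `|mol ε u| ≤ 1`; `mol` of an even function is even;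
`∫ ‖mol ε f‖ ^ 2 ≤ ∫ ‖f‖ ^ 2` (Jensen / Cauchy-Schwarz with the probability density `rhoe ε` and
Fubini) for continuous `f` with compact support; `∫ ‖fderiv ℝ (mol ε f) w‖ ^ 2 ≤ (C / ε) ^ 2 ∫ ‖f‖ ^ 2`
with the constant of module ic (Cauchy-Schwarz with the weight `‖fderiv ℝ (rhoe ε) x‖`);
`∫ ‖mol ε f - f‖ ≤ ε ∫ ‖fderiv ℝ f‖` for `f` of class `C^1` with compact support
(`f (w - x) - f w` is the integral of the derivative over the segment, Fubini). -/
private theorem ie_norm {F : Type} [NormedAddCommGroup F] [NormedSpace ℝ F] {ε : ℝ} (hε : 0 < ε) {u : ℂ → F}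
    (hb : ∀ w, ‖u w‖ ≤ 1) (w : ℂ) : ‖mol ε u w‖ ≤ 1 := by
  obtain ⟨h1, h2, h3, h4, h5, h6, h7⟩ := rhoe_props hε
  rw [← h7]
  unfold mol
  apply norm_integral_le_of_norm_le h6
  exact Filter.Eventually.of_forall fun x => by
    rw [norm_smul, Real.norm_eq_abs, abs_of_nonneg (h3 x)]
    calc rhoe ε x * ‖u (w - x)‖ ≤ rhoe ε x * 1 := mul_le_mul_of_nonneg_left (hb _) (h3 x)
      _ = rhoe ε x := mul_one _

theorem abs_mol_le {ε : ℝ} (hε : 0 < ε) {u : ℂ → ℝ} (hu : Continuous u) (hb : ∀ w, |u w| ≤ 1)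
    (w : ℂ) : |mol ε u w| ≤ 1 := by
  have h := ie_norm (F := ℝ) (u := u) hε (fun x => by rw [Real.norm_eq_abs]; exact hb x) w
  rwa [Real.norm_eq_abs] at h

theorem norm_mol_le {ε : ℝ} (hε : 0 < ε) {m : ℂ → ℂ} (hb : ∀ w, ‖m w‖ ≤ 1) (w : ℂ) :
    ‖mol ε m w‖ ≤ 1 := ie_norm hε hb w

theorem mol_neg {F : Type} [NormedAddCommGroup F] [NormedSpace ℝ F] {ε : ℝ} (hε : 0 < ε)
    {f : ℂ → F} (w : ℂ) : mol ε f (-w) = mol ε (fun x => f (-x)) w := by
  obtain ⟨h1, h2, h3, h4, h5, h6, h7⟩ := rhoe_props hε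
  unfold mol
  rw [← integral_neg_eq_self]
  congr 1
  funext x
  rw [h1]
  congr 2
  ring

/-- the convolution inequality -/
private theorem ie_L2 {k g : ℂ → ℝ} (hk : Continuous k) (hk0 : ∀ x, 0 ≤ k x) (hkc : HasCompactSupport k)
    (hg : Continuous g) (hgc : HasCompactSupport g) :
    Integrable (fun w => (∫ x, k x * g (w - x)) ^ 2) ∧
      ∫ w, (∫ x, k x * g (w - x)) ^ 2 ≤ (∫ x, k x) ^ 2 * ∫ w, g w ^ 2 := by
  have hki : Integrable k := hk.integrable_of_hasCompactSupport hkc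
  have hg2 : Continuous (fun w => g w ^ 2) := hg.pow 2
  have hg2c : HasCompactSupport (fun w => g w ^ 2) := by
    have : (fun w => g w ^ 2) = fun w => g w * g w := by funext w; ring
    rw [this]
    exact hgc.mul_left
  have hg2i : Integrable (fun w => g w ^ 2) := hg2.integrable_of_hasCompactSupport hg2c
  have hint : ∀ (q : ℂ → ℝ), Continuous q → ∀ y : ℂ, Integrable (fun x => k x * q (y - x)) := by
    intro q hq y
    apply Continuous.integrable_of_hasCompactSupport
    · exact hk.mul (hq.comp (continuous_const.sub continuous_id))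
    · exact hkc.mul_right
  have hK : Continuous (fun w => ∫ x, k x * g (w - x)) :=
    hkc.continuous_convolution_left (ContinuousLinearMap.lsmul ℝ ℝ) hk (hg.locallyIntegrable (μ := volume))
  have hKc : HasCompactSupport (fun w => ∫ x, k x * g (w - x)) :=
    HasCompactSupport.convolution (μ := volume) (ContinuousLinearMap.lsmul ℝ ℝ) hkc hgc
  have hK2c : HasCompactSupport (fun w => (∫ x, k x * g (w - x)) ^ 2) := by
    have : (fun w => (∫ x, k x * g (w - x)) ^ 2) =
        fun w => (∫ x, k x * g (w - x)) * (∫ x, k x * g (w - x)) := by funext w; ring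
    rw [this]
    exact hKc.mul_left
  have hpt : ∀ w, (∫ x, k x * g (w - x)) ^ 2 ≤ (∫ x, k x) * ∫ x, k x * (fun y => g y ^ 2) (w - x) := by
    intro w
    have hall : ∀ t : ℝ, 0 ≤ (∫ x, k x) * (t * t) + (-2 * ∫ x, k x * g (w - x)) * t +
        ∫ x, k x * (fun y => g y ^ 2) (w - x) := by
      intro t
      have h0 : 0 ≤ ∫ x, k x * (g (w - x) - t) ^ 2 :=
        integral_nonneg fun x => mul_nonneg (hk0 x) (sq_nonneg _)
      have h1 : (fun x => k x * (g (w - x) - t) ^ 2) = fun x =>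
          (k x * (fun y => g y ^ 2) (w - x) - (2 * t) * (k x * g (w - x))) + (t * t) * k x := by
        funext x
        ring
      have hAB : Integrable (fun x => k x * (fun y => g y ^ 2) (w - x) - (2 * t) * (k x * g (w - x))) :=
        (hint _ hg2 w).sub ((hint g hg w).const_mul _)
      rw [h1, integral_add hAB (hki.const_mul _),
        integral_sub (hint _ hg2 w) ((hint g hg w).const_mul _), integral_const_mul, integral_const_mul] at h0
      linarith
    have h2 := discrim_le_zero hall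
    unfold discrim at h2
    nlinarith
  have hJ : Integrable (fun w => ∫ x, k x * (fun y => g y ^ 2) (w - x)) :=
    hki.integrable_convolution (ContinuousLinearMap.lsmul ℝ ℝ) hg2i
  have hJv : ∫ w, ∫ x, k x * (fun y => g y ^ 2) (w - x) = (∫ x, k x) * ∫ w, g w ^ 2 :=
    integral_convolution (ContinuousLinearMap.lsmul ℝ ℝ) hki hg2i
  have hK2i : Integrable (fun w => (∫ x, k x * g (w - x)) ^ 2) :=
    (hK.pow 2).integrable_of_hasCompactSupport hK2c
  refine ⟨hK2i, ?_⟩
  calc ∫ w, (∫ x, k x * g (w - x)) ^ 2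
      ≤ ∫ w, (∫ x, k x) * ∫ x, k x * (fun y => g y ^ 2) (w - x) := integral_mono hK2i (hJ.const_mul _) hpt
    _ = (∫ x, k x) * ((∫ x, k x) * ∫ w, g w ^ 2) := by rw [integral_const_mul, hJv]
    _ = _ := by ring

theorem integral_mol_sq_le {ε : ℝ} (hε : 0 < ε) {f : ℂ → ℂ} (hf : Continuous f)
    (hc : HasCompactSupport f) : ∫ w, ‖mol ε f w‖ ^ 2 ≤ ∫ w, ‖f w‖ ^ 2 := by
  obtain ⟨h1, h2, h3, h4, h5, h6, h7⟩ := rhoe_props hε
  obtain ⟨hi, hle⟩ := ie_L2 h2 h3 (ic_compact' hε) hf.norm hc.norm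
  rw [h7, one_pow, one_mul] at hle
  refine le_trans (integral_mono_of_nonneg (Filter.Eventually.of_forall fun w => by positivity) hi
    (Filter.Eventually.of_forall fun w => ?_)) hle
  have h8 : ‖mol ε f w‖ ≤ ∫ x, rhoe ε x * ‖f (w - x)‖ := by
    unfold mol
    refine le_trans (norm_integral_le_integral_norm _) (le_of_eq ?_)
    congr 1
    funext x
    rw [norm_smul, Real.norm_eq_abs, abs_of_nonneg (h3 x)]
  exact pow_le_pow_left₀ (norm_nonneg _) h8 2

theorem mol_compactSupport {ε : ℝ} (hε : 0 < ε) {f : ℂ → ℂ} (hc : HasCompactSupport f) :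
    HasCompactSupport (mol ε f) := by
  rw [id_conv]
  exact HasCompactSupport.convolution _ (ic_compact' hε) hc

theorem exists_fderiv_mol_bound : ∃ C : ℝ, 0 < C ∧ ∀ ε : ℝ, 0 < ε → ∀ f : ℂ → ℂ, Continuous f →
    HasCompactSupport f → ∫ w, ‖fderiv ℝ (mol ε f) w‖ ^ 2 ≤ (C / ε) ^ 2 * ∫ w, ‖f w‖ ^ 2 := by
  obtain ⟨C, hC, hCb⟩ := exists_rho_bound
  refine ⟨C, hC, fun ε hε f hf hc => ?_⟩
  obtain ⟨h1, h2, h3, h4, h5, h6, h7⟩ := rhoe_props hε
  have hcf : Continuous (fderiv ℝ (rhoe ε)) := h5.continuous_fderiv (by norm_num)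
  have hcs : HasCompactSupport (fderiv ℝ (rhoe ε)) := (ic_compact' hε).fderiv ℝ
  obtain ⟨hi, hle⟩ := ie_L2 hcf.norm (fun _ => norm_nonneg _) hcs.norm hf.norm hc.norm
  have hb := (hCb ε hε).2.2
  have hf0 : 0 ≤ ∫ w, ‖f w‖ ^ 2 := integral_nonneg fun _ => by positivity
  have hI0 : 0 ≤ ∫ w, ‖fderiv ℝ (rhoe ε) w‖ := integral_nonneg fun _ => norm_nonneg _
  refine le_trans ?_ (le_trans hle (mul_le_mul_of_nonneg_right (pow_le_pow_left₀ hI0 hb 2) hf0))
  refine integral_mono_of_nonneg (Filter.Eventually.of_forall fun w => by positivity) hi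
    (Filter.Eventually.of_forall fun w => ?_)
  have hint : Integrable (fun x => ‖fderiv ℝ (rhoe ε) x‖ * ‖f (w - x)‖) := by
    apply Continuous.integrable_of_hasCompactSupport
    · exact hcf.norm.mul (hf.comp (continuous_const.sub continuous_id)).norm
    · exact hcs.norm.mul_right
  have h8 : ‖fderiv ℝ (mol ε f) w‖ ≤ ∫ x, ‖fderiv ℝ (rhoe ε) x‖ * ‖f (w - x)‖ := by
    refine ContinuousLinearMap.opNorm_le_bound _ (integral_nonneg fun _ => by positivity) fun h => ?_
    rw [fderiv_mol hε hf.locallyIntegrable, mul_comm, ← integral_const_mul]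
    refine norm_integral_le_of_norm_le (hint.const_mul _) (Filter.Eventually.of_forall fun x => ?_)
    rw [norm_smul]
    calc ‖fderiv ℝ (rhoe ε) x h‖ * ‖f (w - x)‖ ≤ (‖fderiv ℝ (rhoe ε) x‖ * ‖h‖) * ‖f (w - x)‖ :=
          mul_le_mul_of_nonneg_right ((fderiv ℝ (rhoe ε) x).le_opNorm h) (norm_nonneg _)
      _ = ‖h‖ * (‖fderiv ℝ (rhoe ε) x‖ * ‖f (w - x)‖) := by ring
  exact pow_le_pow_left₀ (norm_nonneg _) h8 2

private theorem ie_trans {f : ℂ → ℂ} (hf : ContDiff ℝ 1 f) (hc : HasCompactSupport f) (x : ℂ) :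
    ∫ w, ‖f (w - x) - f w‖ ≤ ‖x‖ * ∫ w, ‖fderiv ℝ f w‖ := by
  have hcf : Continuous (fderiv ℝ f) := hf.continuous_fderiv (by norm_num)
  have hcs : HasCompactSupport (fderiv ℝ f) := hc.fderiv ℝ
  have hfi : Integrable (fderiv ℝ f) := hcf.integrable_of_hasCompactSupport hcs
  have hpt : ∀ w, ‖f (w - x) - f w‖ ≤ ∫ t in Ioc (0 : ℝ) 1, ‖x‖ * ‖fderiv ℝ f (w - t • x)‖ := by
    intro w
    have hd : ∀ t ∈ uIcc (0 : ℝ) 1, HasDerivAt (fun s : ℝ => f (w - s • x)) (fderiv ℝ f (w - t • x) (-x)) t := by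
      intro t _
      have h1 : HasDerivAt (fun s : ℝ => w - s • x) (-x) t := by
        have h2 := ((hasDerivAt_id t).smul_const x).const_sub w
        simpa using h2
      exact ((hf.differentiable (by norm_num) (w - t • x)).hasFDerivAt.comp_hasDerivAt t h1)
    have hci : Continuous (fun t : ℝ => fderiv ℝ f (w - t • x) (-x)) :=
      (hcf.comp (continuous_const.sub (continuous_id.smul continuous_const))).clm_apply continuous_const
    have h2 := intervalIntegral.integral_eq_sub_of_hasDerivAt hd (hci.intervalIntegrable 0 1)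
    simp only [one_smul, zero_smul, sub_zero] at h2
    rw [← h2, intervalIntegral.integral_of_le zero_le_one]
    refine norm_integral_le_of_norm_le ?_ (Filter.Eventually.of_forall fun t => ?_)
    · have : Continuous (fun t : ℝ => ‖x‖ * ‖fderiv ℝ f (w - t • x)‖) :=
        continuous_const.mul (hcf.comp (continuous_const.sub (continuous_id.smul continuous_const))).norm
      exact (this.integrableOn_Icc (a := 0) (b := 1)).mono_set Ioc_subset_Icc_self
    · calc ‖fderiv ℝ f (w - t • x) (-x)‖ ≤ ‖fderiv ℝ f (w - t • x)‖ * ‖-x‖ := ContinuousLinearMap.le_opNorm _ _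
        _ = ‖x‖ * ‖fderiv ℝ f (w - t • x)‖ := by rw [norm_neg, mul_comm]
  have hcont2 : Continuous (fun p : ℂ × ℝ => ‖x‖ * ‖fderiv ℝ f (p.1 - p.2 • x)‖) :=
    continuous_const.mul (hcf.comp (continuous_fst.sub (continuous_snd.smul continuous_const))).norm
  have htr : ∀ t : ℝ, ∫ w, ‖x‖ * ‖fderiv ℝ f (w - t • x)‖ = ‖x‖ * ∫ w, ‖fderiv ℝ f w‖ := by
    intro t
    rw [integral_const_mul]
    congr 1
    exact integral_sub_right_eq_self (fun w => ‖fderiv ℝ f w‖) (t • x)
  have hprod : Integrable (fun p : ℂ × ℝ => ‖x‖ * ‖fderiv ℝ f (p.1 - p.2 • x)‖)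
      (volume.prod (volume.restrict (Ioc (0 : ℝ) 1))) := by
    rw [integrable_prod_iff' hcont2.aestronglyMeasurable]
    constructor
    · exact Filter.Eventually.of_forall fun t => ((hfi.comp_sub_right (t • x)).norm.const_mul _)
    · have h3 : (fun t : ℝ => ∫ w : ℂ, ‖‖x‖ * ‖fderiv ℝ f (w - t • x)‖‖) = fun _ => ‖x‖ * ∫ w, ‖fderiv ℝ f w‖ := by
        funext t
        rw [← htr t]
        congr 1
        funext w
        rw [Real.norm_eq_abs, abs_of_nonneg (by positivity)]
      simp only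
      rw [h3]
      exact integrable_const _
  calc ∫ w, ‖f (w - x) - f w‖ ≤ ∫ w, ∫ t in Ioc (0 : ℝ) 1, ‖x‖ * ‖fderiv ℝ f (w - t • x)‖ :=
        integral_mono_of_nonneg (Filter.Eventually.of_forall fun _ => norm_nonneg _) hprod.integral_prod_left
          (Filter.Eventually.of_forall hpt)
    _ = ∫ t in Ioc (0 : ℝ) 1, ∫ w, ‖x‖ * ‖fderiv ℝ f (w - t • x)‖ := integral_integral_swap hprod
    _ = ‖x‖ * ∫ w, ‖fderiv ℝ f w‖ := by
        simp only [htr]
        simp

theorem integral_mol_sub_le {ε : ℝ} (hε : 0 < ε) {f : ℂ → ℂ} (hf : ContDiff ℝ 1 f)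
    (hc : HasCompactSupport f) : ∫ w, ‖mol ε f w - f w‖ ≤ ε * ∫ w, ‖fderiv ℝ f w‖ := by
  obtain ⟨h1, h2, h3, h4, h5, h6, h7⟩ := rhoe_props hε
  have hfc : Continuous f := hf.continuous
  have hfi : Integrable f := hfc.integrable_of_hasCompactSupport hc
  have hI0 : 0 ≤ ∫ w, ‖fderiv ℝ f w‖ := integral_nonneg fun _ => norm_nonneg _
  have hprod : Integrable (fun p : ℂ × ℂ => rhoe ε p.2 * ‖f (p.1 - p.2) - f p.1‖) (volume.prod volume) := by
    have ha : Integrable (fun p : ℂ × ℂ => rhoe ε p.2 * ‖f (p.1 - p.2)‖) (volume.prod volume) :=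
      h6.convolution_integrand (ContinuousLinearMap.lsmul ℝ ℝ) hfi.norm
    have hb : Integrable (fun p : ℂ × ℂ => ‖f p.1‖ * rhoe ε p.2) (volume.prod volume) := hfi.norm.mul_prod h6
    refine (ha.add hb).mono' ?_ (Filter.Eventually.of_forall fun p => ?_)
    · exact ((h2.comp continuous_snd).mul
        ((hfc.comp (continuous_fst.sub continuous_snd)).sub (hfc.comp continuous_fst)).norm).aestronglyMeasurable
    · rw [Real.norm_eq_abs, abs_of_nonneg (mul_nonneg (h3 _) (norm_nonneg _))]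
      calc rhoe ε p.2 * ‖f (p.1 - p.2) - f p.1‖ ≤ rhoe ε p.2 * (‖f (p.1 - p.2)‖ + ‖f p.1‖) :=
            mul_le_mul_of_nonneg_left (norm_sub_le _ _) (h3 _)
        _ = rhoe ε p.2 * ‖f (p.1 - p.2)‖ + ‖f p.1‖ * rhoe ε p.2 := by ring
  have hpt : ∀ w, ‖mol ε f w - f w‖ ≤ ∫ x, rhoe ε x * ‖f (w - x) - f w‖ := by
    intro w
    have hi1 : Integrable (fun x => rhoe ε x • f (w - x)) := by
      apply Continuous.integrable_of_hasCompactSupport
      · exact h2.smul (hfc.comp (continuous_const.sub continuous_id))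
      · exact (ic_compact' hε).smul_right
    have hi2 : Integrable (fun x => rhoe ε x • f w) := h6.smul_const _
    have h8 : mol ε f w - f w = ∫ x, rhoe ε x • (f (w - x) - f w) := by
      simp only [smul_sub]
      rw [integral_sub hi1 hi2, integral_smul_const, h7, one_smul]
      rfl
    rw [h8]
    refine le_trans (norm_integral_le_integral_norm _) (le_of_eq ?_)
    congr 1
    funext x
    rw [norm_smul, Real.norm_eq_abs, abs_of_nonneg (h3 x)]
  calc ∫ w, ‖mol ε f w - f w‖ ≤ ∫ w, ∫ x, rhoe ε x * ‖f (w - x) - f w‖ :=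
        integral_mono_of_nonneg (Filter.Eventually.of_forall fun _ => norm_nonneg _) hprod.integral_prod_left
          (Filter.Eventually.of_forall hpt)
    _ = ∫ x, ∫ w, rhoe ε x * ‖f (w - x) - f w‖ := integral_integral_swap hprod
    _ ≤ ∫ x, rhoe ε x * (ε * ∫ w, ‖fderiv ℝ f w‖) := by
        refine integral_mono_of_nonneg (Filter.Eventually.of_forall fun x => integral_nonneg fun w =>
          mul_nonneg (h3 x) (norm_nonneg _)) (h6.mul_const _) (Filter.Eventually.of_forall fun x => ?_)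
        simp only
        rw [integral_const_mul]
        rcases le_or_gt ‖x‖ ε with hx | hx
        · exact mul_le_mul_of_nonneg_left
            (le_trans (ie_trans hf hc x) (mul_le_mul_of_nonneg_right hx hI0)) (h3 x)
        · rw [h4 x hx, zero_mul, zero_mul]
    _ = ε * ∫ w, ‖fderiv ℝ f w‖ := by rw [integral_mul_const, h7, one_mul]

/-- Moving the mollifier to the other factor (Fubini, `rhoe` is even). -/
theorem integral_mul_mol {ε : ℝ} (hε : 0 < ε) {f m : ℂ → ℂ} (hf : Continuous f)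
    (hc : HasCompactSupport f) (hm : Measurable m) (hb : ∀ w, ‖m w‖ ≤ 1) :
    ∫ w, f w * mol ε m w = ∫ w, mol ε f w * m w := by
  obtain ⟨h1, h2, h3, h4, h5, h6, h7⟩ := rhoe_props hε
  have hfi : Integrable f := hf.integrable_of_hasCompactSupport hc
  have hsub : ∀ (g : ℂ → ℂ) (y : ℂ), mol ε g y = ∫ w, rhoe ε (y - w) • g w := by
    intro g y
    have h8 := integral_sub_left_eq_self (fun x => rhoe ε x • g (y - x)) volume y
    simp only [sub_sub_cancel] at h8
    exact h8.symm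
  have hprod : Integrable (fun p : ℂ × ℂ => f p.2 * (rhoe ε (p.1 - p.2) • m p.1)) (volume.prod volume) := by
    have ha : Integrable (fun p : ℂ × ℂ => ‖f p.2‖ * rhoe ε (p.1 - p.2)) (volume.prod volume) :=
      hfi.norm.convolution_integrand (ContinuousLinearMap.lsmul ℝ ℝ) h6
    refine ha.mono' ?_ (Filter.Eventually.of_forall fun p => ?_)
    · apply Measurable.aestronglyMeasurable
      exact (hf.measurable.comp measurable_snd).mul
        ((h2.measurable.comp (measurable_fst.sub measurable_snd)).smul (hm.comp measurable_fst))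
    · rw [norm_mul, norm_smul, Real.norm_eq_abs, abs_of_nonneg (h3 _)]
      apply mul_le_mul_of_nonneg_left _ (norm_nonneg _)
      calc rhoe ε (p.1 - p.2) * ‖m p.1‖ ≤ rhoe ε (p.1 - p.2) * 1 := mul_le_mul_of_nonneg_left (hb _) (h3 _)
        _ = _ := mul_one _
  have hL : ∀ w, f w * mol ε m w = ∫ y, f w * (rhoe ε (y - w) • m y) := by
    intro w
    rw [hsub, integral_const_mul]
    congr 2
    funext y
    rw [← h1, neg_sub]
  have hR : ∀ y, mol ε f y * m y = ∫ w, f w * (rhoe ε (y - w) • m y) := by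
    intro y
    rw [hsub, ← integral_mul_const]
    congr 1
    funext w
    rw [smul_mul_assoc, mul_smul_comm]
  simp only [hL, hR]
  exact (integral_integral_swap hprod).symm
/- END ie -/

end Pool.Agent.NoH
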