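import Pool.Agent.NoH.Bas

set_option autoImplicit false

/-!
# Part C: near minimisers, hole filling, smoothness at a polynomial scale
-/

open MeasureTheory Set

namespace Pool.Agent.NoH

/- MODULE ca
`G` has a zero `x0`; for `x` in `[x0, x0 + 2π]` `|G x| ≤ ∫ |G'| ≤ √(2π ∫ G'²)` (over one period), so
`∫ G² ≤ 2π · 2π ∫ G'²`.  Periodicity moves the interval to `[0, 2π]`. -/
/-- Cauchy-Schwarz on `[0, 2π]` with the constant function. -/
private theorem ca_cs {f : ℝ → ℝ} (hf : Continuous f) :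
    (∫ x in (0 : ℝ)..2 * Real.pi, |f x|) ^ 2 ≤ 2 * Real.pi * ∫ x in (0 : ℝ)..2 * Real.pi, f x ^ 2 := by
  have hpi : 0 < 2 * Real.pi := by positivity
  set I := ∫ x in (0 : ℝ)..2 * Real.pi, |f x| with hI
  set J := ∫ x in (0 : ℝ)..2 * Real.pi, f x ^ 2 with hJ
  have h1 : 0 ≤ ∫ x in (0 : ℝ)..2 * Real.pi, (|f x| - I / (2 * Real.pi)) ^ 2 :=
    intervalIntegral.integral_nonneg hpi.le fun x _ => sq_nonneg _
  have i1 : IntervalIntegrable (fun x => f x ^ 2) volume 0 (2 * Real.pi) :=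
    (hf.pow 2).intervalIntegrable _ _
  have i2 : IntervalIntegrable (fun x => 2 * (I / (2 * Real.pi)) * |f x|) volume 0 (2 * Real.pi) :=
    (continuous_const.mul hf.abs).intervalIntegrable _ _
  have i3 : IntervalIntegrable (fun _ => (I / (2 * Real.pi)) ^ 2) volume 0 (2 * Real.pi) :=
    continuous_const.intervalIntegrable _ _
  have h2 : (∫ x in (0 : ℝ)..2 * Real.pi, (|f x| - I / (2 * Real.pi)) ^ 2) =
      J - 2 * (I / (2 * Real.pi)) * I + 2 * Real.pi * (I / (2 * Real.pi)) ^ 2 := by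
    have : (fun x => (|f x| - I / (2 * Real.pi)) ^ 2) = fun x =>
        (f x ^ 2 - 2 * (I / (2 * Real.pi)) * |f x|) + (I / (2 * Real.pi)) ^ 2 := by
      funext x
      rw [← sq_abs (f x)]
      ring
    rw [this, intervalIntegral.integral_add (i1.sub i2) i3, intervalIntegral.integral_sub i1 i2,
      intervalIntegral.integral_const_mul, intervalIntegral.integral_const]
    simp only [smul_eq_mul, sub_zero]
    rw [← hI, ← hJ]
  rw [h2] at h1
  have h3 : J - 2 * (I / (2 * Real.pi)) * I + 2 * Real.pi * (I / (2 * Real.pi)) ^ 2 =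
      J - I ^ 2 / (2 * Real.pi) := by
    field_simp
    ring
  rw [h3] at h1
  have h4 : I ^ 2 / (2 * Real.pi) ≤ J := by linarith
  rw [div_le_iff₀ hpi] at h4
  linarith

theorem circ_poinc {G : ℝ → ℝ} (hG : ContDiff ℝ 1 G) (hp : ∀ x, G (x + 2 * Real.pi) = G x)
    (h0 : ∃ x, G x = 0) : ∫ x in (0 : ℝ)..2 * Real.pi, G x ^ 2 ≤
      4 * Real.pi ^ 2 * ∫ x in (0 : ℝ)..2 * Real.pi, deriv G x ^ 2 := by
  have hpi : 0 < 2 * Real.pi := by positivity
  obtain ⟨x0, hx0⟩ := h0
  have hper : Function.Periodic G (2 * Real.pi) := hp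
  obtain ⟨x1, hx1, hx1'⟩ := hper.exists_mem_Ico₀ hpi x0
  have hd : Continuous (deriv G) := hG.continuous_deriv le_rfl
  have hz : G x1 = 0 := by rw [← hx1', hx0]
  have hb : ∀ x ∈ Icc (0 : ℝ) (2 * Real.pi), G x ^ 2 ≤
      2 * Real.pi * ∫ x in (0 : ℝ)..2 * Real.pi, deriv G x ^ 2 := by
    intro x hx
    have h1 : G x = ∫ y in x1..x, deriv G y := by
      rw [intervalIntegral.integral_deriv_eq_sub' G rfl
        (fun y _ => (hG.differentiable one_ne_zero).differentiableAt) hd.continuousOn, hz, sub_zero]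
    have h2 : |G x| ≤ ∫ y in (0 : ℝ)..2 * Real.pi, |deriv G y| := by
      rw [h1]
      calc abs (∫ y in x1..x, deriv G y) ≤ abs (∫ y in x1..x, |deriv G y|) := by
            simpa [Real.norm_eq_abs] using
              (intervalIntegral.norm_integral_le_abs_integral_norm (f := deriv G) (a := x1) (b := x)
                (μ := volume))
        _ ≤ abs (∫ y in (0 : ℝ)..2 * Real.pi, |deriv G y|) := by
            apply intervalIntegral.abs_integral_mono_interval
            · intro y hy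
              rw [Set.uIoc_of_le hpi.le]
              rcases Set.mem_uIoc.1 hy with h | h
              · exact ⟨lt_of_le_of_lt hx1.1 h.1, h.2.trans hx.2⟩
              · exact ⟨lt_of_le_of_lt hx.1 h.1, h.2.trans hx1.2.le⟩
            · exact Filter.Eventually.of_forall fun y => abs_nonneg _
            · exact (hd.abs).intervalIntegrable _ _
        _ = ∫ y in (0 : ℝ)..2 * Real.pi, |deriv G y| := by
            rw [abs_of_nonneg]
            exact intervalIntegral.integral_nonneg hpi.le fun y _ => abs_nonneg _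
    have h3 : |G x| ^ 2 ≤ (∫ y in (0 : ℝ)..2 * Real.pi, |deriv G y|) ^ 2 :=
      pow_le_pow_left₀ (abs_nonneg _) h2 2
    rw [sq_abs] at h3
    exact h3.trans (ca_cs hd)
  have h5 := intervalIntegral.integral_mono_on (μ := volume) hpi.le
    ((hG.continuous.pow 2).intervalIntegrable _ _) (continuous_const.intervalIntegrable _ _) hb
  refine h5.trans (le_of_eq ?_)
  rw [intervalIntegral.integral_const]
  simp only [smul_eq_mul, sub_zero]
  ring
/- END ca -/

/- MODULE cb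
Polar coordinates around `b`: for every radius `ρ` in `(r1, r2)` apply `circ_poinc` to
`G θ = g (b + ρ e^(iθ))`, `|G'| ≤ ρ ‖grd g‖ ≤ r2 ‖grd g‖`. -/
/-- The point on the circle. -/
private noncomputable def cb_pt (b : ℂ) (r θ : ℝ) : ℂ := b + r * (Real.cos θ + Real.sin θ * Complex.I)

private theorem cb_pt_norm (b : ℂ) (r θ : ℝ) : ‖cb_pt b r θ - b‖ = |r| := by
  unfold cb_pt
  have h := Complex.norm_polarCoord_symm (r, θ)
  rw [Complex.polarCoord_symm_apply] at h
  simpa using h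

private theorem cb_pt_cont (b : ℂ) : Continuous fun p : ℝ × ℝ => cb_pt b p.1 p.2 := by
  unfold cb_pt
  fun_prop

/-- Polar coordinates on the annulus. -/
private theorem cb_polar {F : ℂ → ℝ} (hF : Continuous F) (b : ℂ) {r1 r2 : ℝ} (h0 : 0 ≤ r1)
    (h : r1 ≤ r2) : ∫ w in {w : ℂ | r1 ≤ ‖w - b‖ ∧ ‖w - b‖ < r2}, F w =
      ∫ r in Ioo r1 r2, ∫ θ in (0 : ℝ)..2 * Real.pi, r * F (cb_pt b r θ) := by
  have hA : MeasurableSet {w : ℂ | r1 ≤ ‖w - b‖ ∧ ‖w - b‖ < r2} := by
    apply MeasurableSet.inter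
    · exact measurableSet_le measurable_const (measurable_norm.comp (measurable_id.sub_const b))
    · exact measurableSet_lt (measurable_norm.comp (measurable_id.sub_const b)) measurable_const
  rw [← integral_indicator hA, ← integral_add_right_eq_self _ b,
    ← Complex.integral_comp_polarCoord_symm, polarCoord_target]
  have h1 : ∀ p ∈ (Ioi (0 : ℝ)) ×ˢ (Ioo (-Real.pi) Real.pi),
      p.1 • (indicator {w : ℂ | r1 ≤ ‖w - b‖ ∧ ‖w - b‖ < r2} F (Complex.polarCoord.symm p + b)) =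
      indicator ((Ico r1 r2) ×ˢ (univ : Set ℝ)) (fun p => p.1 * F (cb_pt b p.1 p.2)) p := by
    intro p hp
    have hp1 : 0 < p.1 := hp.1
    have e1 : Complex.polarCoord.symm p + b = cb_pt b p.1 p.2 := by
      rw [Complex.polarCoord_symm_apply]
      unfold cb_pt
      ring
    have e2 : ‖cb_pt b p.1 p.2 - b‖ = p.1 := by rw [cb_pt_norm, abs_of_pos hp1]
    rw [e1]
    by_cases hm : p ∈ (Ico r1 r2) ×ˢ (univ : Set ℝ)
    · rw [indicator_of_mem hm, indicator_of_mem, smul_eq_mul]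
      show r1 ≤ ‖cb_pt b p.1 p.2 - b‖ ∧ ‖cb_pt b p.1 p.2 - b‖ < r2
      rw [e2]
      exact hm.1
    · rw [indicator_of_notMem hm, indicator_of_notMem, smul_zero]
      show ¬ (r1 ≤ ‖cb_pt b p.1 p.2 - b‖ ∧ ‖cb_pt b p.1 p.2 - b‖ < r2)
      rw [e2]
      intro hh
      exact hm ⟨hh, trivial⟩
  have hms : MeasurableSet ((Ioi (0 : ℝ)) ×ˢ (Ioo (-Real.pi) Real.pi)) :=
    measurableSet_Ioi.prod measurableSet_Ioo
  rw [setIntegral_congr_fun hms h1, setIntegral_indicator (measurableSet_Ico.prod MeasurableSet.univ)]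
  have hG : Continuous fun p : ℝ × ℝ => p.1 * F (cb_pt b p.1 p.2) :=
    continuous_fst.mul (hF.comp (cb_pt_cont b))
  have h2 : ((Ioi (0 : ℝ)) ×ˢ (Ioo (-Real.pi) Real.pi) ∩ (Ico r1 r2) ×ˢ (univ : Set ℝ)) =
      (Ioi 0 ∩ Ico r1 r2) ×ˢ (Ioo (-Real.pi) Real.pi) := by
    ext p
    simp only [mem_inter_iff, mem_prod, mem_univ, and_true]
    tauto
  rw [h2]
  have hint : IntegrableOn (fun p : ℝ × ℝ => p.1 * F (cb_pt b p.1 p.2))
      ((Ioi 0 ∩ Ico r1 r2) ×ˢ (Ioo (-Real.pi) Real.pi)) (volume : Measure (ℝ × ℝ)) := by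
    have hk : IntegrableOn (fun p : ℝ × ℝ => p.1 * F (cb_pt b p.1 p.2))
        ((Icc r1 r2) ×ˢ (Icc (-Real.pi) Real.pi)) (volume : Measure (ℝ × ℝ)) :=
      hG.continuousOn.integrableOn_compact (isCompact_Icc.prod isCompact_Icc)
    apply hk.mono_set
    intro p hp
    exact ⟨Ico_subset_Icc_self hp.1.2, Ioo_subset_Icc_self hp.2⟩
  rw [Measure.volume_eq_prod] at hint ⊢
  rw [setIntegral_prod _ hint]
  have hset : (Ioi (0 : ℝ) ∩ Ico r1 r2 : Set ℝ) =ᵐ[volume] (Ioo r1 r2 : Set ℝ) := by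
    have h3 : (Ioi (0 : ℝ) ∩ Ico r1 r2 : Set ℝ) =ᵐ[volume] (Ioi (0 : ℝ) ∩ Ioo r1 r2 : Set ℝ) :=
      (Filter.EventuallyEq.refl _ _).inter Ioo_ae_eq_Ico.symm
    refine h3.trans ?_
    have : (Ioi (0 : ℝ) ∩ Ioo r1 r2 : Set ℝ) = Ioo r1 r2 := by
      apply inter_eq_right.2
      intro x hx
      exact lt_of_le_of_lt h0 hx.1
    rw [this]
  rw [setIntegral_congr_set hset]
  apply setIntegral_congr_fun measurableSet_Ioo
  intro r hr
  have hc : Continuous fun θ : ℝ => r * F (cb_pt b r θ) := by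
    have : Continuous fun θ : ℝ => cb_pt b r θ := (cb_pt_cont b).comp (Continuous.prodMk_right r)
    exact continuous_const.mul (hF.comp this)
  have hper : Function.Periodic (fun θ : ℝ => r * F (cb_pt b r θ)) (2 * Real.pi) := by
    intro θ
    simp only [cb_pt, Real.cos_add_two_pi, Real.sin_add_two_pi]
  have h4 := hper.intervalIntegral_add_eq (-Real.pi) 0
  have h5 : -Real.pi + 2 * Real.pi = Real.pi := by ring
  rw [h5, zero_add] at h4
  simp only
  rw [← h4, intervalIntegral.integral_of_le (by linarith [Real.pi_pos]), integral_Ioc_eq_integral_Ioo]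

theorem annulus_poinc {g : ℂ → ℝ} (hg : ContDiff ℝ 1 g) {b : ℂ} {r1 r2 : ℝ} (h0 : 0 ≤ r1)
    (h : r1 ≤ r2) (hz : ∀ r, r1 < r → r < r2 → ∃ w, ‖w - b‖ = r ∧ g w = 0) :
    ∫ w in {w : ℂ | r1 ≤ ‖w - b‖ ∧ ‖w - b‖ < r2}, g w ^ 2 ≤
      4 * Real.pi ^ 2 * r2 ^ 2 * ∫ w in {w : ℂ | r1 ≤ ‖w - b‖ ∧ ‖w - b‖ < r2}, ‖grd g w‖ ^ 2 := by
  have hgc : Continuous fun w => g w ^ 2 := hg.continuous.pow 2
  have hgd : Continuous fun w => ‖grd g w‖ ^ 2 := (continuous_grd hg).norm.pow 2
  rw [cb_polar hgc b h0 h, cb_polar hgd b h0 h, ← integral_const_mul]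
  have hcont : ∀ {F : ℂ → ℝ}, Continuous F → Continuous fun r : ℝ =>
      ∫ θ in (0 : ℝ)..2 * Real.pi, r * F (cb_pt b r θ) := by
    intro F hF
    apply intervalIntegral.continuous_parametric_intervalIntegral_of_continuous'
    exact continuous_fst.mul (hF.comp (cb_pt_cont b))
  have hio : ∀ {H : ℝ → ℝ}, Continuous H → IntegrableOn H (Ioo r1 r2) volume := fun hH =>
    (hH.continuousOn.integrableOn_compact isCompact_Icc).mono_set Ioo_subset_Icc_self
  apply setIntegral_mono_on (hio (hcont hgc)) ((hio (hcont hgd)).const_mul _) measurableSet_Ioo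
  intro r hr
  have hr0 : 0 < r := lt_of_le_of_lt h0 hr.1
  set G : ℝ → ℝ := fun θ => g (cb_pt b r θ) with hG
  have hpt : ∀ θ : ℝ, HasDerivAt (fun θ : ℝ => cb_pt b r θ)
      (r * (-Real.sin θ + Real.cos θ * Complex.I)) θ := by
    intro θ
    have h1 := (Real.hasDerivAt_cos θ).ofReal_comp
    have h2 := (Real.hasDerivAt_sin θ).ofReal_comp
    have h3 := ((h1.add (h2.mul_const Complex.I)).const_mul (r : ℂ)).const_add b
    refine h3.congr_deriv ?_
    push_cast
    ring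
  have hGd : ∀ θ : ℝ, HasDerivAt G (fderiv ℝ g (cb_pt b r θ) (r * (-Real.sin θ + Real.cos θ * Complex.I))) θ :=
    fun θ => ((hg.differentiable one_ne_zero (cb_pt b r θ)).hasFDerivAt).comp_hasDerivAt θ (hpt θ)
  have hGc : ContDiff ℝ 1 G := by
    apply hg.comp
    unfold cb_pt
    have h1 : ContDiff ℝ 1 fun θ : ℝ => ((Real.cos θ : ℝ) : ℂ) :=
      Complex.ofRealCLM.contDiff.comp Real.contDiff_cos
    have h2 : ContDiff ℝ 1 fun θ : ℝ => ((Real.sin θ : ℝ) : ℂ) :=
      Complex.ofRealCLM.contDiff.comp Real.contDiff_sin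
    exact contDiff_const.add (contDiff_const.mul (h1.add (h2.mul contDiff_const)))
  have hGp : ∀ x, G (x + 2 * Real.pi) = G x := by
    intro θ
    simp only [hG, cb_pt, Real.cos_add_two_pi, Real.sin_add_two_pi]
  have hG0 : ∃ x, G x = 0 := by
    obtain ⟨w, hw1, hw2⟩ := hz r hr.1 hr.2
    refine ⟨Complex.arg (w - b), ?_⟩
    have : cb_pt b r (Complex.arg (w - b)) = w := by
      unfold cb_pt
      have h1 := Complex.norm_mul_cos_add_sin_mul_I (w - b)
      rw [hw1] at h1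
      rw [Complex.ofReal_cos, Complex.ofReal_sin, h1]
      ring
    simp only [hG, this, hw2]
  have hp := circ_poinc hGc hGp hG0
  have hGle : ∀ θ, deriv G θ ^ 2 ≤ r2 ^ 2 * ‖grd g (cb_pt b r θ)‖ ^ 2 := by
    intro θ
    rw [(hGd θ).deriv]
    have h1 := (fderiv ℝ g (cb_pt b r θ)).le_opNorm (r * (-Real.sin θ + Real.cos θ * Complex.I))
    rw [norm_fderiv_eq (hg.differentiable one_ne_zero _), norm_mul, Complex.norm_real,
      Real.norm_of_nonneg hr0.le] at h1
    have h2 : ‖(-Real.sin θ + Real.cos θ * Complex.I : ℂ)‖ = 1 := by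
      have h3 : (-Real.sin θ + Real.cos θ * Complex.I : ℂ) =
          Complex.I * (Real.cos θ + Real.sin θ * Complex.I) := by
        linear_combination (-(Real.sin θ : ℂ)) * Complex.I_sq
      rw [h3, norm_mul, Complex.norm_I, one_mul, Complex.ofReal_cos, Complex.ofReal_sin,
        ← Complex.exp_mul_I, Complex.norm_exp_ofReal_mul_I]
    rw [h2, mul_one] at h1
    have h4 : ‖fderiv ℝ g (cb_pt b r θ) (r * (-Real.sin θ + Real.cos θ * Complex.I))‖ ≤
        r2 * ‖grd g (cb_pt b r θ)‖ := by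
      refine h1.trans ?_
      rw [mul_comm]
      gcongr
      exact hr.2.le
    calc (fderiv ℝ g (cb_pt b r θ) (r * (-Real.sin θ + Real.cos θ * Complex.I))) ^ 2 =
          ‖fderiv ℝ g (cb_pt b r θ) (r * (-Real.sin θ + Real.cos θ * Complex.I))‖ ^ 2 := by
            rw [Real.norm_eq_abs, sq_abs]
      _ ≤ (r2 * ‖grd g (cb_pt b r θ)‖) ^ 2 := pow_le_pow_left₀ (norm_nonneg _) h4 2
      _ = _ := by ring
  have hptc : Continuous fun θ : ℝ => cb_pt b r θ := (cb_pt_cont b).comp (Continuous.prodMk_right r)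
  have hp2 : ∫ x in (0 : ℝ)..2 * Real.pi, deriv G x ^ 2 ≤
      r2 ^ 2 * ∫ x in (0 : ℝ)..2 * Real.pi, ‖grd g (cb_pt b r x)‖ ^ 2 := by
    rw [← intervalIntegral.integral_const_mul]
    apply intervalIntegral.integral_mono_on (by positivity)
    · exact ((hGc.continuous_deriv le_rfl).pow 2).intervalIntegrable _ _
    · exact (continuous_const.mul (hgd.comp hptc)).intervalIntegrable _ _
    · intro x _
      exact hGle x
  rw [intervalIntegral.integral_const_mul, intervalIntegral.integral_const_mul]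
  calc r * ∫ x in (0 : ℝ)..2 * Real.pi, G x ^ 2 ≤
      r * (4 * Real.pi ^ 2 * (r2 ^ 2 * ∫ x in (0 : ℝ)..2 * Real.pi, ‖grd g (cb_pt b r x)‖ ^ 2)) := by
        gcongr
        exact hp.trans (by gcongr)
    _ = _ := by ring
/- END cb -/

/- MODULE cc
The cut-off `χ`: `C^1`, values in `[0, 1]`, `1` for `‖w - b‖ ≤ r`, `0` for `‖w - b‖ ≥ 2 r`,
`‖grd χ‖ ≤ 4 / r` everywhere and `0` outside the annulus.  (For instance `χ w = k (‖w - b‖² / r²)`
with `k` a fixed `C^1` function, `k = 1` on `t ≤ 1`, `0` on `t ≥ 4`, `|k'| ≤ 1/2`,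
`k t = 1 - (t-1)² (7-2(t-1)...)`: any smooth step will do; `k t = 1 - s² (3 - 2 s)`, `s = (t-1)/3`,
has `|k'| ≤ 1/2`, and `‖grd χ‖ ≤ |k'| 2 ‖w - b‖ / r² ≤ 2 / r`.) -/
private noncomputable def cc_m (x : ℝ) : ℝ := 2 / 9 * max 0 ((x - 1) * (4 - x))

private theorem cc_m_cont : Continuous cc_m := by unfold cc_m; fun_prop

private theorem cc_m_nonneg (x : ℝ) : 0 ≤ cc_m x := by
  unfold cc_m; positivity

private theorem cc_m_le (x : ℝ) : cc_m x ≤ 1 := by
  unfold cc_m
  have : max 0 ((x - 1) * (4 - x)) ≤ 9 / 4 := by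
    apply max_le (by norm_num)
    nlinarith [sq_nonneg (x - 5 / 2)]
  linarith

private theorem cc_m_left {x : ℝ} (hx : x ≤ 1) : cc_m x = 0 := by
  unfold cc_m
  rw [max_eq_left (by nlinarith)]
  ring

private theorem cc_m_right {x : ℝ} (hx : 4 ≤ x) : cc_m x = 0 := by
  unfold cc_m
  rw [max_eq_left (by nlinarith)]
  ring

private theorem cc_m_int : ∫ x in (1 : ℝ)..4, cc_m x = 1 := by
  have h1 : ∫ x in (1 : ℝ)..4, cc_m x = ∫ x in (1 : ℝ)..4, (2 / 9 * ((x - 1) * (4 - x))) := by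
    apply intervalIntegral.integral_congr
    intro x hx
    rw [uIcc_of_le (by norm_num)] at hx
    unfold cc_m
    simp only
    rw [max_eq_right]
    nlinarith [hx.1, hx.2, mul_nonneg (sub_nonneg.2 hx.1) (sub_nonneg.2 hx.2)]
  rw [h1]
  have h2 : ∀ x ∈ uIcc (1 : ℝ) 4, HasDerivAt (fun x : ℝ => 2 / 9 * (-x ^ 3 / 3 + 5 * x ^ 2 / 2 - 4 * x))
      (2 / 9 * ((x - 1) * (4 - x))) x := by
    intro x _
    have h := ((((hasDerivAt_pow 3 x).neg.div_const 3).add
      (((hasDerivAt_pow 2 x).const_mul 5).div_const 2)).sub ((hasDerivAt_id x).const_mul 4)).const_mul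
        (2 / 9 : ℝ)
    refine h.congr_deriv ?_
    norm_num
    ring
  rw [intervalIntegral.integral_eq_sub_of_hasDerivAt h2
    (by apply Continuous.intervalIntegrable; fun_prop)]
  norm_num

private noncomputable def cc_k (t : ℝ) : ℝ := 1 - ∫ x in (1 : ℝ)..t, cc_m x

private theorem cc_k_deriv (t : ℝ) : HasDerivAt cc_k (-cc_m t) t := by
  have h := (cc_m_cont.integral_hasStrictDerivAt 1 t).hasDerivAt.const_sub 1
  exact h

private theorem cc_k_one {t : ℝ} (ht : t ≤ 1) : cc_k t = 1 := by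
  unfold cc_k
  have : ∫ x in (1 : ℝ)..t, cc_m x = 0 := by
    rw [intervalIntegral.integral_congr (g := fun _ => 0)]
    · simp
    · intro x hx
      rw [uIcc_of_ge ht] at hx
      exact cc_m_left hx.2
  rw [this, sub_zero]

private theorem cc_k_zero {t : ℝ} (ht : 4 ≤ t) : cc_k t = 0 := by
  unfold cc_k
  have h0 : ∫ x in (4 : ℝ)..t, cc_m x = 0 := by
    rw [intervalIntegral.integral_congr (g := fun _ => 0)]
    · simp
    · intro x hx
      rw [uIcc_of_le ht] at hx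
      exact cc_m_right hx.1
  have := intervalIntegral.integral_add_adjacent_intervals
    (cc_m_cont.intervalIntegrable 1 4) (cc_m_cont.intervalIntegrable (μ := volume) 4 t)
  rw [cc_m_int, h0] at this
  linarith

private theorem cc_k_anti : Antitone cc_k := by
  apply antitone_of_hasDerivAt_nonpos (f' := fun t => -cc_m t)
  · intro t
    exact cc_k_deriv t
  · intro t
    have := cc_m_nonneg t
    show -cc_m t ≤ 0
    linarith

private theorem cc_k_mem (t : ℝ) : 0 ≤ cc_k t ∧ cc_k t ≤ 1 := by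
  constructor
  · rcases le_total t 4 with h | h
    · rw [← cc_k_zero (le_refl 4)]
      exact cc_k_anti h
    · exact (cc_k_zero h).ge
  · rcases le_total 1 t with h | h
    · rw [← cc_k_one (le_refl 1)]
      exact cc_k_anti h
    · exact (cc_k_one h).le

private theorem cc_k_contDiff : ContDiff ℝ 1 cc_k := by
  rw [contDiff_one_iff_deriv]
  refine ⟨fun t => (cc_k_deriv t).differentiableAt, ?_⟩
  have : deriv cc_k = fun t => -cc_m t := by
    funext t
    exact (cc_k_deriv t).deriv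
  rw [this]
  exact cc_m_cont.neg

theorem exists_cut (b : ℂ) {r : ℝ} (hr : 0 < r) : ∃ χ : ℂ → ℝ, ContDiff ℝ 1 χ ∧
    (∀ w, 0 ≤ χ w ∧ χ w ≤ 1) ∧ (∀ w, ‖w - b‖ ≤ r → χ w = 1) ∧ (∀ w, 2 * r ≤ ‖w - b‖ → χ w = 0) ∧
    ∀ w, ‖grd χ w‖ ≤ 4 / r := by
  have hs : ContDiff ℝ 1 (fun w : ℂ => ‖w - b‖ ^ 2 / r ^ 2) := by
    apply ContDiff.div_const
    exact (contDiff_id.sub contDiff_const).norm_sq ℝ
  refine ⟨fun w => cc_k (‖w - b‖ ^ 2 / r ^ 2), cc_k_contDiff.comp hs, fun w => cc_k_mem _, ?_, ?_,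
    ?_⟩
  · intro w hw
    apply cc_k_one
    rw [div_le_one (by positivity)]
    gcongr
  · intro w hw
    apply cc_k_zero
    rw [le_div_iff₀ (by positivity)]
    nlinarith [norm_nonneg (w - b)]
  · intro w
    have hd : DifferentiableAt ℝ (fun w : ℂ => cc_k (‖w - b‖ ^ 2 / r ^ 2)) w :=
      (cc_k_contDiff.comp hs).differentiable one_ne_zero w
    rw [← norm_fderiv_eq hd]
    have h1 : HasFDerivAt (fun w : ℂ => ‖w - b‖ ^ 2) (2 • (innerSL ℝ (w - b))) w := by
      have h := ((hasFDerivAt_id (𝕜 := ℝ) w).sub_const b).norm_sq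
      simp only [id] at h
      exact h.congr_fderiv (by ext; simp)
    have h2 : HasFDerivAt (fun w : ℂ => ‖w - b‖ ^ 2 / r ^ 2) ((r ^ 2)⁻¹ • (2 • (innerSL ℝ (w - b)))) w := by
      have h := h1.const_mul (r ^ 2)⁻¹
      simp only [div_eq_inv_mul]
      exact h
    have h3 := (cc_k_deriv (‖w - b‖ ^ 2 / r ^ 2)).comp_hasFDerivAt w h2
    have h4 : fderiv ℝ (fun w : ℂ => cc_k (‖w - b‖ ^ 2 / r ^ 2)) w =
      -cc_m (‖w - b‖ ^ 2 / r ^ 2) • ((r ^ 2)⁻¹ • (2 • (innerSL ℝ (w - b)))) := h3.fderiv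
    rw [h4]
    have h5 : ‖-cc_m (‖w - b‖ ^ 2 / r ^ 2) • ((r ^ 2)⁻¹ • (2 • (innerSL ℝ (w - b))))‖ ≤
        cc_m (‖w - b‖ ^ 2 / r ^ 2) * ((r ^ 2)⁻¹ * (2 * ‖w - b‖)) := by
      rw [norm_smul, norm_smul, norm_neg, Real.norm_of_nonneg (cc_m_nonneg _),
        Real.norm_of_nonneg (by positivity : 0 ≤ (r ^ 2)⁻¹)]
      gcongr
      · exact cc_m_nonneg _
      · calc ‖2 • (innerSL ℝ (w - b))‖ = ‖(2 : ℝ) • (innerSL ℝ (w - b))‖ := by
              congr 1
              rw [two_smul, two_smul]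
          _ = 2 * ‖w - b‖ := by rw [norm_smul, innerSL_apply_norm]; norm_num
          _ ≤ _ := le_refl _
    refine h5.trans ?_
    rcases le_total (2 * r) ‖w - b‖ with h | h
    · rw [cc_m_right, zero_mul]
      · positivity
      · rw [le_div_iff₀ (by positivity)]
        nlinarith [norm_nonneg (w - b)]
    · calc cc_m (‖w - b‖ ^ 2 / r ^ 2) * ((r ^ 2)⁻¹ * (2 * ‖w - b‖)) ≤ 1 * ((r ^ 2)⁻¹ * (2 * (2 * r))) := by
            gcongr
            · exact cc_m_le _
        _ = 4 / r := by field_simp; ring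
/- END cc -/

/- MODULE cd
HOLE FILLING.  Case `b ∉ S`: `v = 1 - (1 - u) (1 - χ)`, case `b ∈ Km S`: `v = -1 + (1 + u) (1 - χ)`
(`χ` of `exists_cut`).  `Plat S v`: the ball of radius `2 r ≤ hh (En u) ≤ 1/6` around `b` does not
meet `Km S` (resp. `Sᶜ`) by `thick` (a point at distance exactly `hh` is harmless: `χ = 0` there).
With `g = 1 - u` (resp. `1 + u`): `‖grd v‖ = ‖(1 - χ) grd g - g grd χ‖` is `0` for `‖w - b‖ < r`,
`‖grd u‖` for `‖w - b‖ ≥ 2 r`, and in between `‖grd v‖² ≤ 2 ‖grd u‖² + 2 g² (16 / r²)`; by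
`annulus_poinc` (circles of radius `< 2r` around `b` contain zeros of `g`: `circ_S`, resp. `circ_Km'`,
`2 r ≤ 1/6`) `∫_A g² ≤ 16 π² r² ∫_A ‖grd u‖²`.  So with `A = Dl u b (2 r) - Dl u b r`
`En v ≤ En u - Dl u b r + (1 + 512 π²) A`.  `Near` for `sym v` (`fun_sym`):
`(1 - η) En u ≤ En v`.  Hence `Dl u b r ≤ (1 + 512 π²) A + η En u`, i.e. with `c = 2 + 512 π²`
`c Dl u b r ≤ (c - 1) Dl u b (2 r) + η En u`.  (`C2` is this `c`.) -/
private theorem cd_hh_le {E : ℝ} (hE : 0 ≤ E) : hh E ≤ 1 / 6 := by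
  unfold hh
  have h1 : Real.exp (-(Real.pi * E / 2)) ≤ 1 := by
    apply Real.exp_le_one_iff.2
    have := mul_nonneg Real.pi_pos.le hE
    linarith
  linarith

private theorem cd_En_nonneg (u : ℂ → ℝ) : 0 ≤ En u := by
  unfold En
  exact integral_nonneg fun w => by positivity

/-- The gradient of the competitor. -/
private theorem cd_grd {u χ : ℂ → ℝ} (hu : ContDiff ℝ 1 u) (hχ : ContDiff ℝ 1 χ) {σ : ℝ}
    (hσ : σ ^ 2 = 1) (w : ℂ) : grd (fun w => σ * (1 - (1 - σ * u w) * (1 - χ w))) w =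
      ((σ * (1 - σ * u w) : ℝ) : ℂ) * grd χ w + ((1 - χ w : ℝ) : ℂ) * grd u w := by
  have h1 := (hu.differentiable one_ne_zero w).hasFDerivAt
  have h2 := (hχ.differentiable one_ne_zero w).hasFDerivAt
  have h3 := ((h1.const_mul σ).const_sub 1).mul (h2.const_sub 1)
  have h4 := (h3.const_sub 1).const_mul σ
  have h5 : fderiv ℝ (fun w => σ * (1 - (1 - σ * u w) * (1 - χ w))) w = _ := h4.fderiv
  have h6 : ∀ h : ℂ, fderiv ℝ (fun w => σ * (1 - (1 - σ * u w) * (1 - χ w))) w h =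
      σ * (1 - σ * u w) * fderiv ℝ χ w h + (1 - χ w) * fderiv ℝ u w h := by
    intro h
    rw [h5]
    simp only [ContinuousLinearMap.smul_apply, ContinuousLinearMap.neg_apply,
      ContinuousLinearMap.add_apply, smul_eq_mul]
    linear_combination (1 - χ w) * (fderiv ℝ u w h) * hσ
  unfold grd
  rw [h6, h6]
  apply Complex.ext <;> simp

private theorem cd_core {u v χ : ℂ → ℝ} (hu : ContDiff ℝ 1 u) (hχ : ContDiff ℝ 1 χ) {σ : ℝ}
    (hσ : σ ^ 2 = 1) {b : ℂ} {r : ℝ} (hr : 0 < r) (hχ1 : ∀ w, 0 ≤ χ w ∧ χ w ≤ 1)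
    (hχ2 : ∀ w, ‖w - b‖ ≤ r → χ w = 1) (hχ3 : ∀ w, 2 * r ≤ ‖w - b‖ → χ w = 0)
    (hχ4 : ∀ w, ‖grd χ w‖ ≤ 4 / r) (hv : v = fun w => σ * (1 - (1 - σ * u w) * (1 - χ w)))
    (hiu : Integrable fun w => ‖grd u w‖ ^ 2) (hiv : Integrable fun w => ‖grd v w‖ ^ 2)
    (hzero : ∀ ρ, r < ρ → ρ < 2 * r → ∃ w, ‖w - b‖ = ρ ∧ u w = σ) :
    En v ≤ En u - Dl u b r + (1 + 512 * Real.pi ^ 2) * (Dl u b (2 * r) - Dl u b r) := by
  set A : Set ℂ := {w : ℂ | r ≤ ‖w - b‖ ∧ ‖w - b‖ < 2 * r} with hAdef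
  set g : ℂ → ℝ := fun w => 1 - σ * u w with hg
  have hgC : ContDiff ℝ 1 g := contDiff_const.sub (contDiff_const.mul hu)
  have hA : MeasurableSet A := by
    apply MeasurableSet.inter
    · exact measurableSet_le measurable_const (measurable_norm.comp (measurable_id.sub_const b))
    · exact measurableSet_lt (measurable_norm.comp (measurable_id.sub_const b)) measurable_const
  have hgrd : ∀ w, grd v w = ((σ * g w : ℝ) : ℂ) * grd χ w + ((1 - χ w : ℝ) : ℂ) * grd u w := by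
    intro w
    rw [hv]
    exact cd_grd hu hχ hσ w
  have hg0 : ∀ w, χ w = 0 ∨ χ w = 1 → grd χ w = 0 := by
    intro w hw
    have hf : fderiv ℝ χ w = 0 := by
      rcases hw with h | h
      · apply IsLocalMin.fderiv_eq_zero
        apply Filter.Eventually.of_forall
        intro x
        rw [h]
        exact (hχ1 x).1
      · apply IsLocalMax.fderiv_eq_zero
        apply Filter.Eventually.of_forall
        intro x
        rw [h]
        exact (hχ1 x).2
    unfold grd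
    rw [hf]
    rfl
  have habs : |σ| = 1 := by
    have : |σ| ^ 2 = 1 := by rw [sq_abs, hσ]
    nlinarith [abs_nonneg σ]
  -- gradient of g
  have hgrdg : ∀ w, ‖grd g w‖ ^ 2 = ‖grd u w‖ ^ 2 := by
    intro w
    have h1 := (hu.differentiable one_ne_zero w).hasFDerivAt
    have h3 := (h1.const_mul σ).const_sub 1
    have h5 : fderiv ℝ g w = _ := h3.fderiv
    have h6 : grd g w = ((-σ : ℝ) : ℂ) * grd u w := by
      unfold grd
      rw [h5]
      apply Complex.ext <;> simp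
    rw [h6, norm_mul, Complex.norm_real, norm_neg, Real.norm_eq_abs, habs, one_mul]
  -- the annulus inequality
  have hann := annulus_poinc hgC (b := b) hr.le (by linarith : r ≤ 2 * r) (by
    intro ρ h1 h2
    obtain ⟨w, hw1, hw2⟩ := hzero ρ h1 h2
    refine ⟨w, hw1, ?_⟩
    rw [hg]
    simp only
    rw [hw2]
    linarith)
  rw [← hAdef] at hann
  simp only [hgrdg] at hann
  -- pointwise
  have hb2 : MeasurableSet (Metric.ball b (2 * r)) := Metric.isOpen_ball.measurableSet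
  have hb1 : MeasurableSet (Metric.ball b r) := Metric.isOpen_ball.measurableSet
  have hgi : IntegrableOn (fun w => g w ^ 2) A volume := by
    have : IntegrableOn (fun w => g w ^ 2) (Metric.closedBall b (2 * r)) volume :=
      (hgC.continuous.pow 2).continuousOn.integrableOn_compact (isCompact_closedBall _ _)
    apply this.mono_set
    intro w hw
    rw [Metric.mem_closedBall, dist_eq_norm]
    exact hw.2.le
  have hpw : ∀ w, ‖grd v w‖ ^ 2 ≤ ‖grd u w‖ ^ 2 -
      (Metric.ball b (2 * r)).indicator (fun w => ‖grd u w‖ ^ 2) w +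
      A.indicator (fun w => 2 * ‖grd u w‖ ^ 2 + 32 / r ^ 2 * g w ^ 2) w := by
    intro w
    rcases lt_or_ge ‖w - b‖ r with h1 | h1
    · have hm : w ∈ Metric.ball b (2 * r) := by
        rw [Metric.mem_ball, dist_eq_norm]; linarith
      have hm2 : w ∉ A := fun h => absurd h.1 (not_le.2 h1)
      rw [indicator_of_mem hm, indicator_of_notMem hm2, hgrd, hg0 w (Or.inr (hχ2 w h1.le)),
        hχ2 w h1.le]
      simp
    · rcases lt_or_ge ‖w - b‖ (2 * r) with h2 | h2
      · have hm : w ∈ Metric.ball b (2 * r) := by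
          rw [Metric.mem_ball, dist_eq_norm]; exact h2
        have hm2 : w ∈ A := ⟨h1, h2⟩
        rw [indicator_of_mem hm, indicator_of_mem hm2, sub_self, zero_add]
        have h3 : ‖grd v w‖ ≤ |g w| * (4 / r) + ‖grd u w‖ := by
          rw [hgrd]
          refine (norm_add_le _ _).trans ?_
          have h0 : |1 - χ w| = 1 - χ w := abs_of_nonneg (by linarith [(hχ1 w).2])
          rw [norm_mul, norm_mul, Complex.norm_real, Complex.norm_real, Real.norm_eq_abs,
            Real.norm_eq_abs, abs_mul, habs, one_mul, h0]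
          have h4 : (1 - χ w) * ‖grd u w‖ ≤ 1 * ‖grd u w‖ := by
            gcongr
            linarith [(hχ1 w).1]
          have h5 : |g w| * ‖grd χ w‖ ≤ |g w| * (4 / r) := by
            gcongr
            exact hχ4 w
          linarith
        calc ‖grd v w‖ ^ 2 ≤ (|g w| * (4 / r) + ‖grd u w‖) ^ 2 := by gcongr
          _ ≤ 2 * (|g w| * (4 / r)) ^ 2 + 2 * ‖grd u w‖ ^ 2 := by
              nlinarith [sq_nonneg (|g w| * (4 / r) - ‖grd u w‖)]
          _ = 2 * ‖grd u w‖ ^ 2 + 32 / r ^ 2 * g w ^ 2 := by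
              rw [mul_pow, sq_abs]
              ring
      · have hm : w ∉ Metric.ball b (2 * r) := by
          rw [Metric.mem_ball, dist_eq_norm]; exact not_lt.2 h2
        have hm2 : w ∉ A := fun h => absurd h.2 (not_lt.2 h2)
        rw [indicator_of_notMem hm, indicator_of_notMem hm2, hgrd, hg0 w (Or.inl (hχ3 w h2)),
          hχ3 w h2]
        simp
  have hi1 : Integrable ((Metric.ball b (2 * r)).indicator (fun w => ‖grd u w‖ ^ 2)) volume :=
    hiu.indicator hb2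
  have hi2 : IntegrableOn (fun w => 2 * ‖grd u w‖ ^ 2 + 32 / r ^ 2 * g w ^ 2) A volume :=
    ((hiu.const_mul 2).integrableOn).add (hgi.const_mul _)
  have hi2' : Integrable (A.indicator (fun w => 2 * ‖grd u w‖ ^ 2 + 32 / r ^ 2 * g w ^ 2)) volume :=
    hi2.integrable_indicator hA
  have hi3 : Integrable (fun w => ‖grd u w‖ ^ 2 -
      (Metric.ball b (2 * r)).indicator (fun w => ‖grd u w‖ ^ 2) w) volume := hiu.sub hi1
  have hEn := integral_mono hiv (hi3.add hi2') hpw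
  have hsplit : ∫ w, (‖grd u w‖ ^ 2 -
      (Metric.ball b (2 * r)).indicator (fun w => ‖grd u w‖ ^ 2) w +
      A.indicator (fun w => 2 * ‖grd u w‖ ^ 2 + 32 / r ^ 2 * g w ^ 2) w) =
      En u - Dl u b (2 * r) + (2 * ∫ w in A, ‖grd u w‖ ^ 2) + 32 / r ^ 2 * ∫ w in A, g w ^ 2 := by
    rw [integral_add hi3 hi2', integral_sub hiu hi1, integral_indicator hb2,
      integral_indicator hA, integral_add ((hiu.const_mul 2).integrableOn) (hgi.const_mul _),
      integral_const_mul, integral_const_mul]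
    unfold En Dl
    ring
  have hAint : ∫ w in A, ‖grd u w‖ ^ 2 = Dl u b (2 * r) - Dl u b r := by
    have hAeq : A = Metric.ball b (2 * r) \ Metric.ball b r := by
      ext w
      rw [mem_diff, Metric.mem_ball, Metric.mem_ball, dist_eq_norm, not_lt]
      exact and_comm
    unfold Dl
    rw [hAeq, integral_diff hb1 hiu.integrableOn
      (Metric.ball_subset_ball (by linarith))]
  have hle : En v ≤ En u - Dl u b (2 * r) + (2 * ∫ w in A, ‖grd u w‖ ^ 2) +
      32 / r ^ 2 * ∫ w in A, g w ^ 2 := by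
    have : En v = ∫ w, ‖grd v w‖ ^ 2 := rfl
    rw [this, ← hsplit]
    exact hEn
  have h32 : 32 / r ^ 2 * ∫ w in A, g w ^ 2 ≤
      32 / r ^ 2 * (4 * Real.pi ^ 2 * (2 * r) ^ 2 * ∫ w in A, ‖grd u w‖ ^ 2) := by
    gcongr
  have h33 : 32 / r ^ 2 * (4 * Real.pi ^ 2 * (2 * r) ^ 2 * ∫ w in A, ‖grd u w‖ ^ 2) =
      512 * Real.pi ^ 2 * ∫ w in A, ‖grd u w‖ ^ 2 := by
    field_simp
    ring
  rw [h33] at h32
  rw [hAint] at hle h32
  linarith

theorem hole {z : ℂ} {S : Set ℂ} {u : ℂ → ℝ} (hD : Dom z S) (hF : Fun S u) (hz : ‖z‖ ≤ 2)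
    {η : ℝ} (hη : 0 ≤ η) (hN : Near η S u) {b : ℂ} (hb : b ∉ S ∨ b ∈ Km S) {r : ℝ} (hr : 0 < r)
    (hr' : 2 * r ≤ hh (En u)) : Dl u b r ≤ th * Dl u b (2 * r) + η * En u := by
  obtain ⟨χ, hχC, hχ1, hχ2, hχ3, hχ4⟩ := exists_cut b hr
  have hE := cd_En_nonneg u
  have hh6 : hh (En u) ≤ 1 / 6 := cd_hh_le hE
  have hPu := plat_of_fun hD hF
  have hiu := integrable_grd_sq hD hPu
  -- the main inequality
  have key : (1 - η) * En u ≤ En u - Dl u b r +
      (1 + 512 * Real.pi ^ 2) * (Dl u b (2 * r) - Dl u b r) := by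
    rcases hb with hb | hb
    · have hP : Plat S (fun w => (1 : ℝ) * (1 - (1 - 1 * u w) * (1 - χ w))) := by
        constructor
        · exact contDiff_const.mul (contDiff_const.sub ((contDiff_const.sub
            (contDiff_const.mul hF.smo)).mul (contDiff_const.sub hχC)))
        · intro w
          have h1 := abs_le.1 (hF.bnd w)
          have h2 := hχ1 w
          rw [abs_le]
          constructor <;> nlinarith [mul_nonneg (by linarith [h1.2] : 0 ≤ 1 - u w) h2.1,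
            mul_nonneg (by linarith [h1.2] : 0 ≤ 1 - u w) (by linarith [h2.2] : 0 ≤ 1 - χ w)]
        · intro w hw
          rw [hF.one w hw]
          ring
        · intro w hw
          have h3 := thick hD hF hz hw hb
          rw [hχ3 w (hr'.trans h3), hPu.mon w hw]
          norm_num
      have h1 := cd_core hF.smo hχC (σ := 1) (by norm_num) hr hχ1 hχ2 hχ3 hχ4 rfl hiu
        (integrable_grd_sq hD hP) (by
          intro ρ h1 h2
          obtain ⟨w, hw1, hw2⟩ := circ_S hD hb (by linarith : 0 < ρ)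
          exact ⟨w, hw2, hF.one w hw1⟩)
      have h2 := fun_sym hD hP
      have h3 := hN _ h2.1
      linarith [h2.2]
    · have hP : Plat S (fun w => (-1 : ℝ) * (1 - (1 - (-1) * u w) * (1 - χ w))) := by
        constructor
        · exact contDiff_const.mul (contDiff_const.sub ((contDiff_const.sub
            (contDiff_const.mul hF.smo)).mul (contDiff_const.sub hχC)))
        · intro w
          have h1 := abs_le.1 (hF.bnd w)
          have h2 := hχ1 w
          rw [abs_le]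
          constructor <;> nlinarith [mul_nonneg (by linarith [h1.1] : 0 ≤ 1 + u w) h2.1,
            mul_nonneg (by linarith [h1.1] : 0 ≤ 1 + u w) (by linarith [h2.2] : 0 ≤ 1 - χ w)]
        · intro w hw
          have h3 := thick hD hF hz hb hw
          rw [norm_sub_rev] at h3
          rw [hχ3 w (hr'.trans h3), hF.one w hw]
          norm_num
        · intro w hw
          rw [hPu.mon w hw]
          ring
      have h1 := cd_core hF.smo hχC (σ := -1) (by norm_num) hr hχ1 hχ2 hχ3 hχ4 rfl hiu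
        (integrable_grd_sq hD hP) (by
          intro ρ h1 h2
          obtain ⟨w, hw1, hw2⟩ := circ_Km' hD hF hz hb (by linarith : 0 < ρ) (by linarith)
          exact ⟨w, hw2, hPu.mon w hw1⟩)
      have h2 := fun_sym hD hP
      have h3 := hN _ h2.1
      linarith [h2.2]
  have hC2 : (1 : ℝ) ≤ C2 := by
    unfold C2
    have : 0 ≤ 512 * Real.pi ^ 2 := by positivity
    linarith
  have hc : C2 = 2 + 512 * Real.pi ^ 2 := rfl
  have h1 : C2 * Dl u b r ≤ (C2 - 1) * Dl u b (2 * r) + η * En u := by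
    rw [hc]
    linarith
  have h2 : C2 * (th * Dl u b (2 * r) + η * En u) = (C2 - 1) * Dl u b (2 * r) + C2 * (η * En u) := by
    unfold th
    have : C2 ≠ 0 := by linarith
    field_simp
  have h3 : η * En u ≤ C2 * (η * En u) := by
    have := mul_nonneg hη hE
    nlinarith
  have h4 : C2 * Dl u b r ≤ C2 * (th * Dl u b (2 * r) + η * En u) := by
    rw [h2]
    linarith
  exact le_of_mul_le_mul_left h4 (by linarith)
/- END cd -/

/- MODULE ce
Induction on `k` from `hole` (`r = h / 2^(k+1)`), `th * C2 + 1 = C2`, `Dl ≤ En` for `k = 0`. -/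
theorem decay {z : ℂ} {S : Set ℂ} {u : ℂ → ℝ} (hD : Dom z S) (hF : Fun S u) (hz : ‖z‖ ≤ 2)
    {η : ℝ} (hη : 0 ≤ η) (hN : Near η S u) {b : ℂ} (hb : b ∉ S ∨ b ∈ Km S) {h : ℝ} (hh0 : 0 < h)
    (hh1 : h ≤ hh (En u)) (k : ℕ) : Dl u b (h / 2 ^ k) ≤ (th ^ k + C2 * η) * En u := by
  have hE : 0 ≤ En u := by
    unfold En
    exact integral_nonneg fun w => by positivity
  have hiu := integrable_grd_sq hD (plat_of_fun hD hF)
  have hC2 : (2 : ℝ) ≤ C2 := by
    unfold C2
    have : 0 ≤ 512 * Real.pi ^ 2 := by positivity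
    linarith
  have hth : 0 < th := by
    unfold th
    have : 1 / C2 < 1 := by
      rw [div_lt_one (by linarith)]
      linarith
    linarith
  have hthC : th * C2 + 1 = C2 := by
    unfold th
    have : C2 ≠ 0 := by linarith
    field_simp
    ring
  induction k with
  | zero =>
    have h1 : Dl u b (h / 2 ^ 0) ≤ En u := by
      unfold Dl En
      exact setIntegral_le_integral hiu (Filter.Eventually.of_forall fun w => by positivity)
    have h2 : 0 ≤ C2 * η * En u := by positivity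
    rw [pow_zero (M := ℝ) th]
    linarith
  | succ k ih =>
    have h1 := hole hD hF hz hη hN hb (r := h / 2 ^ (k + 1)) (by positivity) (by
      have : 2 * (h / 2 ^ (k + 1)) = h / 2 ^ k := by
        rw [pow_succ]
        field_simp
      rw [this]
      refine le_trans ?_ hh1
      exact div_le_self hh0.le (one_le_pow₀ (by norm_num)))
    have h2 : 2 * (h / 2 ^ (k + 1)) = h / 2 ^ k := by
      rw [pow_succ]
      field_simp
    rw [h2] at h1
    calc Dl u b (h / 2 ^ (k + 1)) ≤ th * Dl u b (h / 2 ^ k) + η * En u := h1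
      _ ≤ th * ((th ^ k + C2 * η) * En u) + η * En u := by gcongr
      _ = (th ^ (k + 1) + (th * C2 + 1) * η) * En u := by ring
      _ = (th ^ (k + 1) + C2 * η) * En u := by rw [hthC]

theorem th_pos : 0 < th ∧ th < 1 := by
  have hC2 : (2 : ℝ) ≤ C2 := by
    unfold C2
    have : 0 ≤ 512 * Real.pi ^ 2 := by positivity
    linarith
  unfold th
  constructor
  · have : 1 / C2 < 1 := by
      rw [div_lt_one (by linarith)]
      linarith
    linarith
  · have : 0 < 1 / C2 := by positivity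
    linarith
/- END ce -/

/- MODULE cf
The mollified function on the plateaus.  `b ∉ S`, `g = 1 - u ≥ 0`, `ε ≤ 1/6`:
`1 - mol ε u b = ∫ rhoe ε x g (b - x) ≤ (C / ε²) ∫_{ball b ε} g ≤ (C / ε²) √(π ε²) √(∫_{ball b ε} g²)`
and `∫_{ball b ε} g² ≤ 4 π² ε² Dl u b ε` by `annulus_poinc` with `r1 = 0` and `circ_S`.  The same for
`a ∈ Km S`, `g = 1 + u`, `circ_Km'`.  (`C` of `exists_rho_bound`.) -/
/-- Cauchy - Schwarz on a ball -/
private theorem cf_cs {g : ℂ → ℝ} (hg : Continuous g) (b : ℂ) {r : ℝ} (hr : 0 < r) :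
    (∫ w in Metric.ball b r, g w) ^ 2 ≤ Real.pi * r ^ 2 * ∫ w in Metric.ball b r, g w ^ 2 := by
  have hV : volume.real (Metric.ball b r) = Real.pi * r ^ 2 := by
    rw [Measure.real, Complex.volume_ball]
    simp
    rw [ENNReal.toReal_ofReal hr.le]
    ring
  have hVpos : 0 < Real.pi * r ^ 2 := by positivity
  have hfin : IsFiniteMeasure (volume.restrict (Metric.ball b r)) :=
    ⟨by rw [Measure.restrict_apply_univ]; exact measure_ball_lt_top⟩
  have hint : ∀ f : ℂ → ℝ, Continuous f → IntegrableOn f (Metric.ball b r) volume := fun f hf =>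
    (hf.continuousOn.integrableOn_compact (isCompact_closedBall b r)).mono_set
      Metric.ball_subset_closedBall
  set A := ∫ w in Metric.ball b r, g w with hA
  set V := Real.pi * r ^ 2 with hVdef
  have h1 : 0 ≤ ∫ w in Metric.ball b r, (g w - A / V) ^ 2 :=
    integral_nonneg fun w => sq_nonneg _
  have h2 : ∫ w in Metric.ball b r, (g w - A / V) ^ 2 =
      (∫ w in Metric.ball b r, g w ^ 2) - 2 * (A / V) * A + (A / V) ^ 2 * V := by
    have e1 : ∀ w, (g w - A / V) ^ 2 = (g w ^ 2 - 2 * (A / V) * g w) + (A / V) ^ 2 := fun w => by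
      ring
    simp only [e1]
    rw [integral_add, integral_sub, integral_const_mul, ← hA, integral_const, smul_eq_mul]
    · congr 1
      rw [Measure.real, Measure.restrict_apply_univ]
      change volume.real _ * _ = _
      rw [hV]
      ring
    · exact hint _ (hg.pow 2)
    · exact (hint _ hg).const_mul _
    · exact (hint _ (hg.pow 2)).sub ((hint _ hg).const_mul _)
    · exact integrable_const _
  rw [h2] at h1
  have h3 : (A / V) ^ 2 * V = A ^ 2 / V := by field_simp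
  have h4 : 2 * (A / V) * A = 2 * (A ^ 2 / V) := by ring
  rw [h3, h4] at h1
  have h5 : A ^ 2 / V ≤ ∫ w in Metric.ball b r, g w ^ 2 := by linarith
  rw [div_le_iff₀ hVpos] at h5
  linarith

/-- The mollification of a nonnegative function with zeros on all small circles. -/
private theorem cf_main {C : ℝ} (hC : 0 < C) {ε : ℝ} (hε : 0 < ε)
    (hb : ∀ w, rhoe ε w ≤ C / ε ^ 2) {g : ℂ → ℝ} (hg : ContDiff ℝ 1 g) (h0 : ∀ w, 0 ≤ g w)
    (b : ℂ) (hz : ∀ r, 0 < r → r < ε → ∃ w, ‖w - b‖ = r ∧ g w = 0) :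
    ∫ x, rhoe ε x * g (b - x) ≤ (2 * Real.pi * √Real.pi * C) * √(Dl g b ε) := by
  obtain ⟨hev, hcont, hnn, hsupp, hcd, hri, hr1⟩ := rhoe_props hε
  have hgc := hg.continuous
  have e1 : ∫ x, rhoe ε x * g (b - x) = ∫ y, rhoe ε (b - y) * g y := by
    have := integral_sub_left_eq_self (fun y => rhoe ε (b - y) * g y) volume b
    rw [← this]
    simp
  have e2 : ∫ y, rhoe ε (b - y) * g y ≤ ∫ y in Metric.closedBall b ε, C / ε ^ 2 * g y := by
    rw [← integral_indicator measurableSet_closedBall]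
    have hcb : IntegrableOn (fun y => C / ε ^ 2 * g y) (Metric.closedBall b ε) volume :=
      (continuous_const.mul hgc).continuousOn.integrableOn_compact (isCompact_closedBall b ε)
    refine integral_mono_of_nonneg (Filter.Eventually.of_forall fun y => mul_nonneg (hnn _) (h0 y))
      (hcb.integrable_indicator measurableSet_closedBall) (Filter.Eventually.of_forall fun y => ?_)
    show rhoe ε (b - y) * g y ≤ indicator _ _ _
    by_cases hy : y ∈ Metric.closedBall b ε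
    · rw [indicator_of_mem hy]
      exact mul_le_mul_of_nonneg_right (hb _) (h0 y)
    · rw [indicator_of_notMem hy, hsupp, zero_mul]
      rw [Metric.mem_closedBall, not_le, dist_eq_norm] at hy
      rwa [norm_sub_rev]
  have e3 : ∫ y in Metric.closedBall b ε, C / ε ^ 2 * g y =
      C / ε ^ 2 * ∫ y in Metric.ball b ε, g y := by
    rw [integral_const_mul]
    congr 1
    refine (setIntegral_congr_set ?_).symm
    exact ae_eq_of_subset_of_measure_ge Metric.ball_subset_closedBall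
      (Measure.addHaar_closedBall_eq_addHaar_ball volume b ε).le
      measurableSet_ball.nullMeasurableSet measure_closedBall_lt_top.ne
  have hset : {w : ℂ | 0 ≤ ‖w - b‖ ∧ ‖w - b‖ < ε} = Metric.ball b ε := by
    ext w
    simp [dist_eq_norm]
  have e4 := annulus_poinc hg (b := b) (r1 := 0) (r2 := ε) le_rfl hε.le hz
  rw [hset] at e4
  have e5 := cf_cs hgc b hε
  have hA0 : 0 ≤ ∫ w in Metric.ball b ε, g w := integral_nonneg h0
  have hD0 : 0 ≤ Dl g b ε := integral_nonneg fun w => sq_nonneg _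
  have e6 : ∫ w in Metric.ball b ε, g w ≤ ε ^ 2 * (2 * Real.pi * √Real.pi) * √(Dl g b ε) := by
    have h7 : (∫ w in Metric.ball b ε, g w) ^ 2 ≤
        (ε ^ 2 * (2 * Real.pi * √Real.pi) * √(Dl g b ε)) ^ 2 := by
      refine e5.trans ?_
      have h8 : (ε ^ 2 * (2 * Real.pi * √Real.pi) * √(Dl g b ε)) ^ 2 =
          Real.pi * ε ^ 2 * (4 * Real.pi ^ 2 * ε ^ 2 * Dl g b ε) := by
        have h9 : √Real.pi ^ 2 = Real.pi := Real.sq_sqrt Real.pi_pos.le
        have h10 : √(Dl g b ε) ^ 2 = Dl g b ε := Real.sq_sqrt hD0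
        calc (ε ^ 2 * (2 * Real.pi * √Real.pi) * √(Dl g b ε)) ^ 2 =
            ε ^ 4 * (4 * Real.pi ^ 2) * (√Real.pi ^ 2) * (√(Dl g b ε) ^ 2) := by ring
          _ = _ := by rw [h9, h10]; ring
      rw [h8]
      exact mul_le_mul_of_nonneg_left e4 (by positivity)
    exact le_of_sq_le_sq h7 (by positivity)
  rw [e1]
  refine e2.trans ?_
  rw [e3]
  calc C / ε ^ 2 * ∫ y in Metric.ball b ε, g y ≤
      C / ε ^ 2 * (ε ^ 2 * (2 * Real.pi * √Real.pi) * √(Dl g b ε)) :=
        mul_le_mul_of_nonneg_left e6 (by positivity)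
    _ = (2 * Real.pi * √Real.pi * C) * √(Dl g b ε) := by field_simp


private theorem cf_mol {ε : ℝ} (hε : 0 < ε) {u : ℂ → ℝ} (hu : Continuous u)
    (c : ℝ) (σ : ℝ) (b : ℂ) :
    ∫ x, rhoe ε x * (σ * (u (b - x) - c)) = σ * (mol ε u b - c) := by
  obtain ⟨hev, hcont, hnn, hsupp, hcd, hri, hr1⟩ := rhoe_props hε
  have hcs : HasCompactSupport (rhoe ε) := by
    refine HasCompactSupport.intro (isCompact_closedBall (0 : ℂ) ε) fun x hx => ?_
    apply hsupp
    rw [Metric.mem_closedBall, not_le, dist_zero_right] at hx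
    exact hx
  have hint : Integrable fun x => rhoe ε x * u (b - x) :=
    (hcont.mul (hu.comp (continuous_const.sub continuous_id))).integrable_of_hasCompactSupport
      (hcs.mul_right)
  have e1 : ∀ x, rhoe ε x * (σ * (u (b - x) - c)) =
      σ * (rhoe ε x * u (b - x)) - σ * c * rhoe ε x := fun x => by ring
  simp only [e1]
  rw [integral_sub (hint.const_mul σ) (hri.const_mul _), integral_const_mul, integral_const_mul, hr1]
  unfold mol
  simp only [smul_eq_mul]
  ring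

private theorem cf_grd (c σ : ℝ) {u : ℂ → ℝ} (hu : ContDiff ℝ 1 u) (hσ : |σ| = 1) (w : ℂ) :
    ‖grd (fun x => σ * (u x - c)) w‖ = ‖grd u w‖ := by
  have hd : DifferentiableAt ℝ u w := hu.differentiable one_ne_zero w
  have hd2 : HasFDerivAt (fun x => σ * (u x - c)) (σ • fderiv ℝ u w) w :=
    (hd.hasFDerivAt.sub_const c).const_mul σ
  have hg : grd (fun x => σ * (u x - c)) w = (σ : ℂ) * grd u w := by
    unfold grd
    rw [hd2.fderiv]
    apply Complex.ext
    · simp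
    · simp
  rw [hg, norm_mul, Complex.norm_real, Real.norm_eq_abs, hσ, one_mul]

theorem exists_plateau : ∃ C : ℝ, 0 < C ∧ ∀ (z : ℂ) (S : Set ℂ) (u : ℂ → ℝ), Dom z S → Fun S u →
    ‖z‖ ≤ 2 → ∀ ε : ℝ, 0 < ε → ε ≤ 1 / 6 →
    (∀ b, b ∉ S → |mol ε u b - 1| ≤ C * √(Dl u b ε)) ∧
      ∀ a ∈ Km S, |mol ε u a + 1| ≤ C * √(Dl u a ε) := by
  obtain ⟨C, hC, hrho⟩ := exists_rho_bound
  refine ⟨2 * Real.pi * √Real.pi * C, by positivity, ?_⟩
  intro z S u hD hF hz ε hε hε6
  have hbd := (hrho ε hε).1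
  have hP := plat_of_fun hD hF
  have hnn := (rhoe_props hε).2.2.1
  have key : ∀ (σ c : ℝ), |σ| = 1 → (∀ w, 0 ≤ σ * (u w - c)) → ∀ b : ℂ,
      (∀ r, 0 < r → r < ε → ∃ w, ‖w - b‖ = r ∧ σ * (u w - c) = 0) →
      |mol ε u b - c| ≤ 2 * Real.pi * √Real.pi * C * √(Dl u b ε) := by
    intro σ c hσ h0 b hzr
    have hg : ContDiff ℝ 1 (fun x => σ * (u x - c)) :=
      contDiff_const.mul (hF.smo.sub contDiff_const)
    have h1 := cf_main hC hε hbd hg h0 b hzr
    rw [cf_mol hε hF.smo.continuous c σ b] at h1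
    have h2 : Dl (fun x => σ * (u x - c)) b ε = Dl u b ε := by
      unfold Dl
      simp only [cf_grd c σ hF.smo hσ]
    rw [h2] at h1
    have h3 : 0 ≤ σ * (mol ε u b - c) := by
      rw [← cf_mol hε hF.smo.continuous c σ b]
      exact integral_nonneg fun x => mul_nonneg (hnn x) (h0 _)
    have h4 : |mol ε u b - c| = σ * (mol ε u b - c) := by
      rw [← abs_of_nonneg h3, abs_mul, hσ, one_mul]
    rw [h4]
    exact h1
  constructor
  · intro b hb
    refine key (-1) 1 (by norm_num) (fun w => ?_) b fun r hr hrε => ?_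
    · have := (abs_le.1 (hF.bnd w)).2
      linarith
    · obtain ⟨w, hw, hwr⟩ := circ_S hD hb hr
      exact ⟨w, hwr, by rw [hF.one w hw]; ring⟩
  · intro a ha
    have h1 := key 1 (-1) (by norm_num) (fun w => ?_) a fun r hr hrε => ?_
    · rwa [sub_neg_eq_add] at h1
    · have := (abs_le.1 (hF.bnd w)).1
      linarith
    · obtain ⟨w, hw, hwr⟩ := circ_Km' hD hF hz ha hr (by linarith)
      exact ⟨w, hwr, by rw [hP.mon w hw]; ring⟩
/- END cf -/

/- MODULE cg
The clip function: `k y = min (1 + s) (max 0 ((1 + s) (1 - |y|) / τ))` with `τ = 2 s / (1 + s)` is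
continuous and even, `c x = ∫_0^x k`: `C^1`, odd, `c 1 = (1 + s)(1 - τ) + (1 + s) τ / 2 = 1`,
`c x = 1` for `x ≥ 1`, `c x = -1` for `x ≤ -1`. -/
private noncomputable def cg_k (s : ℝ) (y : ℝ) : ℝ :=
  min (1 + s) (max 0 ((1 + s) * (1 - |y|) / (2 * s / (1 + s))))

private theorem cg_k_cont (s : ℝ) : Continuous (cg_k s) := by
  unfold cg_k
  fun_prop

private theorem cg_int_one {s : ℝ} (h0 : 0 < s) (h1 : s ≤ 1) : ∫ y in (0 : ℝ)..1, cg_k s y = 1 := by
  obtain ⟨τ, hτ⟩ : ∃ τ, τ = 2 * s / (1 + s) := ⟨_, rfl⟩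
  have hs1 : 0 < 1 + s := by linarith
  have hτ0 : 0 < τ := by rw [hτ]; positivity
  have hτs : τ * (1 + s) = 2 * s := by rw [hτ]; field_simp
  have hτ1 : τ ≤ 1 := by
    rw [hτ, div_le_one hs1]
    linarith
  have hint : ∀ a b : ℝ, IntervalIntegrable (cg_k s) volume a b := fun a b =>
    (cg_k_cont s).intervalIntegrable a b
  rw [← intervalIntegral.integral_add_adjacent_intervals (hint 0 (1 - τ)) (hint (1 - τ) 1)]
  have e1 : ∫ y in (0 : ℝ)..(1 - τ), cg_k s y = ∫ _y in (0 : ℝ)..(1 - τ), (1 + s) := by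
    refine intervalIntegral.integral_congr fun y hy => ?_
    rw [uIcc_of_le (by linarith)] at hy
    show cg_k s y = 1 + s
    unfold cg_k
    rw [← hτ, abs_of_nonneg hy.1]
    refine min_eq_left (le_max_of_le_right ?_)
    rw [le_div_iff₀ hτ0]
    have := hy.2
    nlinarith
  have e2 : ∫ y in (1 - τ)..(1 : ℝ), cg_k s y =
      ∫ y in (1 - τ)..(1 : ℝ), ((1 + s) / τ) * (1 - y) := by
    refine intervalIntegral.integral_congr fun y hy => ?_
    rw [uIcc_of_le (by linarith)] at hy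
    show cg_k s y = (1 + s) / τ * (1 - y)
    unfold cg_k
    have hy1 := hy.1
    have hy2 := hy.2
    rw [← hτ, abs_of_nonneg (by linarith), max_eq_right (by
      apply div_nonneg _ hτ0.le
      exact mul_nonneg hs1.le (by linarith)), min_eq_right]
    · ring
    · rw [div_le_iff₀ hτ0]
      nlinarith
  rw [e1, e2, intervalIntegral.integral_const, intervalIntegral.integral_const_mul]
  have e3 : ∫ y in (1 - τ)..(1 : ℝ), (1 - y) = τ ^ 2 / 2 := by
    rw [intervalIntegral.integral_sub (by simp) (by simp)]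
    simp only [intervalIntegral.integral_const, integral_id, smul_eq_mul, mul_one]
    ring
  rw [e3, smul_eq_mul]
  field_simp
  nlinarith

private theorem cg_k_neg (s y : ℝ) : cg_k s (-y) = cg_k s y := by
  unfold cg_k
  rw [abs_neg]

private theorem cg_k_out {s y : ℝ} (h0 : 0 < s) (hy : 1 ≤ |y|) : cg_k s y = 0 := by
  unfold cg_k
  have : (1 + s) * (1 - |y|) / (2 * s / (1 + s)) ≤ 0 := by
    apply div_nonpos_of_nonpos_of_nonneg
    · exact mul_nonpos_of_nonneg_of_nonpos (by linarith) (by linarith)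
    · positivity
  rw [max_eq_left this, min_eq_right (by linarith)]

theorem exists_clip {s : ℝ} (h0 : 0 < s) (h1 : s ≤ 1) : ∃ c : ℝ → ℝ, ContDiff ℝ 1 c ∧
    (∀ x, |c x| ≤ 1) ∧ (∀ x, 1 ≤ x → c x = 1) ∧ (∀ x, x ≤ -1 → c x = -1) ∧
    ∀ x, 0 ≤ deriv c x ∧ deriv c x ≤ 1 + s := by
  let c : ℝ → ℝ := fun x => ∫ y in (0 : ℝ)..x, cg_k s y
  have hd : ∀ x, HasDerivAt c (cg_k s x) x := fun x =>
    intervalIntegral.integral_hasDerivAt_right ((cg_k_cont s).intervalIntegrable _ _)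
      ((cg_k_cont s).stronglyMeasurableAtFilter _ _) (cg_k_cont s).continuousAt
  have hderiv : deriv c = cg_k s := funext fun x => (hd x).deriv
  have hk0 : ∀ x, 0 ≤ cg_k s x := fun x => le_min (by linarith) (le_max_left _ _)
  have hk1 : ∀ x, cg_k s x ≤ 1 + s := fun x => min_le_left _ _
  have hmono : Monotone c := monotone_of_deriv_nonneg (fun x => (hd x).differentiableAt)
    (fun x => by rw [hderiv]; exact hk0 x)
  have hc1 : c 1 = 1 := cg_int_one h0 h1
  have hodd : ∀ x, c (-x) = -c x := by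
    intro x
    show ∫ y in (0 : ℝ)..(-x), cg_k s y = -∫ y in (0 : ℝ)..x, cg_k s y
    have h2 := intervalIntegral.integral_comp_neg (a := 0) (b := x) (cg_k s)
    simp only [cg_k_neg, neg_zero] at h2
    rw [h2, intervalIntegral.integral_symm]
  have hge : ∀ x, 1 ≤ x → c x = 1 := by
    intro x hx
    have h2 : ∫ y in (1 : ℝ)..x, cg_k s y = 0 := by
      rw [intervalIntegral.integral_congr (g := fun _ => (0 : ℝ))]
      · simp
      · intro y hy
        rw [uIcc_of_le hx] at hy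
        exact cg_k_out h0 (by rw [abs_of_nonneg (by linarith [hy.1])]; exact hy.1)
    have h3 : c x = (∫ y in (0 : ℝ)..1, cg_k s y) + ∫ y in (1 : ℝ)..x, cg_k s y :=
      (intervalIntegral.integral_add_adjacent_intervals ((cg_k_cont s).intervalIntegrable _ _)
        ((cg_k_cont s).intervalIntegrable _ _)).symm
    rw [h3, h2, add_zero]
    exact hc1
  have hle : ∀ x, x ≤ -1 → c x = -1 := by
    intro x hx
    have := hodd (-x)
    rw [neg_neg] at this
    rw [this, hge (-x) (by linarith)]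
  refine ⟨c, ?_, ?_, hge, hle, ?_⟩
  · rw [contDiff_one_iff_deriv]
    exact ⟨fun x => (hd x).differentiableAt, by rw [hderiv]; exact cg_k_cont s⟩
  · intro x
    rw [abs_le]
    constructor
    · rcases le_total x (-1) with hx | hx
      · rw [hle x hx]
      · rw [← hle (-1) le_rfl]
        exact hmono hx
    · rcases le_total 1 x with hx | hx
      · rw [hge x hx]
      · rw [← hge 1 le_rfl]
        exact hmono hx
  · intro x
    rw [hderiv]
    exact ⟨hk0 x, hk1 x⟩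
/- END cg -/

/- MODULE ch
The competitor `v = c ((1 + s) mol ε u)`: `Plat S v`, because `(1 + s)(1 - s/2) ≥ 1` and so
`(1 + s) mol ε u ≥ 1` off `S`, `≤ -1` on `Km S`; `grd v = k • mol ε (grd u)` with
`k = (1 + s) c'(..)`, `0 ≤ k ≤ (1 + s)²`. -/
theorem competitor {z : ℂ} {S : Set ℂ} {u : ℂ → ℝ} (hD : Dom z S) (hF : Fun S u) {s ε : ℝ}
    (h0 : 0 < s) (h1 : s ≤ 1) (hε : 0 < ε) (hS : ∀ b, b ∉ S → |mol ε u b - 1| ≤ s / 2)
    (hK : ∀ a ∈ Km S, |mol ε u a + 1| ≤ s / 2) : ∃ (v : ℂ → ℝ) (k : ℂ → ℝ), Plat S v ∧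
      Continuous k ∧ (∀ w, 0 ≤ k w ∧ k w ≤ (1 + s) ^ 2) ∧
      ∀ w, grd v w = (k w : ℂ) * mol ε (grd u) w := by
  obtain ⟨c, hc, hcb, hc1, hcm, hcd⟩ := exists_clip h0 h1
  have hmol : ContDiff ℝ 2 (mol ε u) :=
    mol_contDiff hε hF.smo.continuous.locallyIntegrable
  have hmol1 : ContDiff ℝ 1 (mol ε u) := hmol.of_le (by norm_num)
  have hin : ContDiff ℝ 1 (fun w => (1 + s) * mol ε u w) := contDiff_const.mul hmol1
  refine ⟨fun w => c ((1 + s) * mol ε u w), fun w => (1 + s) * deriv c ((1 + s) * mol ε u w),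
    ⟨hc.comp hin, fun w => hcb _, ?_, ?_⟩, ?_, ?_, ?_⟩
  · intro w hw
    apply hc1
    have := (abs_le.1 (hS w hw)).1
    nlinarith
  · intro w hw
    apply hcm
    have := (abs_le.1 (hK w hw)).2
    nlinarith
  · exact continuous_const.mul ((hc.continuous_deriv le_rfl).comp hin.continuous)
  · intro w
    obtain ⟨h2, h3⟩ := hcd ((1 + s) * mol ε u w)
    refine ⟨mul_nonneg (by linarith) h2, ?_⟩
    nlinarith
  · intro w
    have hm : HasFDerivAt (mol ε u) (fderiv ℝ (mol ε u) w) w :=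
      (hmol1.differentiable one_ne_zero w).hasFDerivAt
    have hm2 : HasFDerivAt (fun w => (1 + s) * mol ε u w) ((1 + s) • fderiv ℝ (mol ε u) w) w :=
      hm.const_mul (1 + s)
    have hcd' : HasDerivAt c (deriv c ((1 + s) * mol ε u w)) ((1 + s) * mol ε u w) :=
      (hc.differentiable one_ne_zero _).hasDerivAt
    have hcomp := hcd'.comp_hasFDerivAt w hm2
    have hf : fderiv ℝ (fun w => c ((1 + s) * mol ε u w)) w =
        deriv c ((1 + s) * mol ε u w) • ((1 + s) • fderiv ℝ (mol ε u) w) := hcomp.fderiv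
    have hg := grd_mol hε hF.smo w
    rw [← hg]
    unfold grd
    rw [hf]
    apply Complex.ext
    · simp only [smul_apply, smul_eq_mul, Complex.mul_re, Complex.ofReal_re,
        Complex.ofReal_im, zero_mul, sub_zero]
      ring
    · simp only [smul_apply, smul_eq_mul, Complex.mul_im, Complex.ofReal_re,
        Complex.ofReal_im, zero_mul, add_zero]
      ring
/- END ch -/

/- MODULE ci
Hilbert space computation.  `P, Q : ℂ → ℂ` continuous with compact support, `0 ≤ k ≤ (1 + s)²`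
continuous, `E = ∫ ‖P‖²`, `∫ ‖Q‖² ≤ E`, and
`4 (1 - η) E ≤ E + 2 ∫ Re (conj P · k Q) + ∫ ‖k Q‖²`.  Then `∫ ‖k Q‖² ≤ (1 + 15 s) E`, so
`2 ∫ Re (conj P k Q) ≥ (2 - 4 η - 15 s) E`, `∫ ‖P - k Q‖² ≤ (4 η + 30 s) E`; by Cauchy - Schwarz
`∫ ‖k Q‖² ≥ (1 - 4 η - 15 s) E` (if `1 - 2 η - 7.5 s ≥ 0` it is `≥ (1 - 2η - 7.5 s)² E`, otherwise the
right side is negative); `(1 - k)² ≤ |1 - k²| = (1 - k²) + 2 (k² - 1)⁺ ≤ (1 - k²) + 30 s`, so
`∫ ‖Q - k Q‖² ≤ E - ∫ ‖k Q‖² + 30 s E ≤ (4 η + 45 s) E`; and `‖P - Q‖² ≤ 2 ‖P - k Q‖² + 2 ‖k Q - Q‖²`. -/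
private theorem ci_point (P Q : ℂ) (k s : ℝ) (hs : 0 ≤ s) (hs1 : s ≤ 1) (hk0 : 0 ≤ k)
    (hk1 : k ≤ (1 + s) ^ 2) :
    ‖P - Q‖ ^ 2 ≤ 2 * ‖P‖ ^ 2 - 4 * ((starRingEnd ℂ) P * ((k : ℂ) * Q)).re +
      2 * (1 + 30 * s) * ‖Q‖ ^ 2 := by
  have e1 : ‖P - Q‖ ^ 2 = (P.re - Q.re) ^ 2 + (P.im - Q.im) ^ 2 := by
    rw [Complex.sq_norm, Complex.normSq_apply]; simp; ring
  have e2 : ‖P‖ ^ 2 = P.re ^ 2 + P.im ^ 2 := by
    rw [Complex.sq_norm, Complex.normSq_apply]; ring
  have e3 : ‖Q‖ ^ 2 = Q.re ^ 2 + Q.im ^ 2 := by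
    rw [Complex.sq_norm, Complex.normSq_apply]; ring
  have e4 : ((starRingEnd ℂ) P * ((k : ℂ) * Q)).re = k * (P.re * Q.re + P.im * Q.im) := by
    simp only [Complex.mul_re, Complex.conj_re, Complex.conj_im, Complex.ofReal_re,
      Complex.ofReal_im, Complex.mul_im]
    ring
  rw [e1, e2, e3, e4]
  have hk : k * (k - 1) ≤ 15 * s := by
    have h1 : (1 + s) ^ 2 ≤ 4 := by nlinarith
    have h2 : (1 + s) ^ 2 - 1 ≤ 3 * s := by nlinarith
    rcases le_total k 1 with h | h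
    · nlinarith [mul_nonneg hk0 (sub_nonneg.2 h)]
    · have h3 : k - 1 ≤ 3 * s := by linarith
      have h4 : k ≤ 4 := by linarith
      nlinarith [mul_nonneg hk0 (sub_nonneg.2 h), mul_nonneg (sub_nonneg.2 h4) (sub_nonneg.2 h),
        mul_nonneg hk0 (sub_nonneg.2 h3)]
  have g : ∀ a c : ℝ, (a - c) ^ 2 ≤ 2 * a ^ 2 - 4 * (k * (a * c)) + 2 * (1 + 30 * s) * c ^ 2 := by
    intro a c
    have h1 : (a - c) ^ 2 ≤ 2 * (a - k * c) ^ 2 + 2 * ((1 - k) * c) ^ 2 := by
      nlinarith [sq_nonneg ((a - k * c) + (1 - k) * c)]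
    have h2 : 2 * (a - k * c) ^ 2 + 2 * ((1 - k) * c) ^ 2 =
        2 * a ^ 2 - 4 * (k * (a * c)) + 2 * c ^ 2 + 4 * (k * (k - 1)) * c ^ 2 := by ring
    have h3 : (k * (k - 1)) * c ^ 2 ≤ 15 * s * c ^ 2 :=
      mul_le_mul_of_nonneg_right hk (sq_nonneg c)
    nlinarith
  have g1 := g P.re Q.re
  have g2 := g P.im Q.im
  nlinarith

private theorem ci_point2 (Q : ℂ) (k s : ℝ) (hs : 0 ≤ s) (hs1 : s ≤ 1) (hk0 : 0 ≤ k)
    (hk1 : k ≤ (1 + s) ^ 2) : ‖(k : ℂ) * Q‖ ^ 2 ≤ (1 + 15 * s) * ‖Q‖ ^ 2 := by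
  rw [norm_mul, mul_pow, Complex.norm_real, Real.norm_of_nonneg hk0]
  refine mul_le_mul_of_nonneg_right ?_ (sq_nonneg _)
  have h1 : k ^ 2 ≤ ((1 + s) ^ 2) ^ 2 := pow_le_pow_left₀ hk0 hk1 2
  have h2 : ((1 + s) ^ 2) ^ 2 ≤ 1 + 15 * s := by
    have a1 : s ^ 2 ≤ s := by nlinarith
    have a2 : s ^ 3 ≤ s := by nlinarith [mul_nonneg hs hs]
    have a3 : s ^ 4 ≤ s := by nlinarith [mul_nonneg hs hs, mul_nonneg (mul_nonneg hs hs) hs]
    nlinarith
  linarith

theorem hilb {P Q : ℂ → ℂ} (hP : Continuous P) (hPc : HasCompactSupport P) (hQ : Continuous Q)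
    (hQc : HasCompactSupport Q) {k : ℂ → ℝ} (hk : Continuous k) {s η : ℝ} (hs : 0 ≤ s)
    (hs1 : s ≤ 1) (hη : 0 ≤ η) (hkb : ∀ w, 0 ≤ k w ∧ k w ≤ (1 + s) ^ 2)
    (hQP : ∫ w, ‖Q w‖ ^ 2 ≤ ∫ w, ‖P w‖ ^ 2)
    (h : 4 * (1 - η) * ∫ w, ‖P w‖ ^ 2 ≤ (∫ w, ‖P w‖ ^ 2) +
      2 * (∫ w, ((starRingEnd ℂ) (P w) * ((k w : ℂ) * Q w)).re) +
      ∫ w, ‖(k w : ℂ) * Q w‖ ^ 2) :
    ∫ w, ‖P w - Q w‖ ^ 2 ≤ (16 * η + 150 * s) * ∫ w, ‖P w‖ ^ 2 := by
  have i1 : Integrable fun w => ‖P w‖ ^ 2 := by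
    refine Continuous.integrable_of_hasCompactSupport (by fun_prop) ?_
    exact hPc.comp_left (g := fun x : ℂ => ‖x‖ ^ 2) (by simp)
  have i2 : Integrable fun w => ‖Q w‖ ^ 2 := by
    refine Continuous.integrable_of_hasCompactSupport (by fun_prop) ?_
    exact hQc.comp_left (g := fun x : ℂ => ‖x‖ ^ 2) (by simp)
  have i3 : Integrable fun w => ‖P w - Q w‖ ^ 2 := by
    refine Continuous.integrable_of_hasCompactSupport (by fun_prop) ?_
    exact (hPc.sub hQc).comp_left (g := fun x : ℂ => ‖x‖ ^ 2) (by simp)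
  have i4 : Integrable fun w => ((starRingEnd ℂ) (P w) * ((k w : ℂ) * Q w)).re := by
    refine Continuous.integrable_of_hasCompactSupport ?_ ?_
    · exact Complex.continuous_re.comp ((Complex.continuous_conj.comp hP).mul
        ((Complex.continuous_ofReal.comp hk).mul hQ))
    · refine HasCompactSupport.comp_left (g := Complex.re) ?_ (by simp)
      exact (hQc.mul_left (f := fun w => (k w : ℂ))).mul_left (f := fun w => (starRingEnd ℂ) (P w))
  have i5 : Integrable fun w => ‖(k w : ℂ) * Q w‖ ^ 2 := by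
    refine Continuous.integrable_of_hasCompactSupport (by fun_prop) ?_
    exact (hQc.mul_left (f := fun w => (k w : ℂ))).comp_left (g := fun x : ℂ => ‖x‖ ^ 2) (by simp)
  have hE : 0 ≤ ∫ w, ‖P w‖ ^ 2 := integral_nonneg fun w => sq_nonneg _
  have hF : 0 ≤ ∫ w, ‖Q w‖ ^ 2 := integral_nonneg fun w => sq_nonneg _
  have hA : ∫ w, ‖(k w : ℂ) * Q w‖ ^ 2 ≤ (1 + 15 * s) * ∫ w, ‖Q w‖ ^ 2 := by
    rw [← integral_const_mul]
    exact integral_mono i5 (i2.const_mul _) fun w => ci_point2 _ _ s hs hs1 (hkb w).1 (hkb w).2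
  have hmain : ∫ w, ‖P w - Q w‖ ^ 2 ≤ 2 * (∫ w, ‖P w‖ ^ 2) -
      4 * (∫ w, ((starRingEnd ℂ) (P w) * ((k w : ℂ) * Q w)).re) +
      2 * (1 + 30 * s) * ∫ w, ‖Q w‖ ^ 2 := by
    have j1 : Integrable fun w => 2 * ‖P w‖ ^ 2 - 4 * ((starRingEnd ℂ) (P w) * ((k w : ℂ) * Q w)).re :=
      (i1.const_mul 2).sub (i4.const_mul 4)
    have j2 : Integrable fun w => 2 * (1 + 30 * s) * ‖Q w‖ ^ 2 := i2.const_mul _
    rw [← integral_const_mul, ← integral_const_mul, ← integral_const_mul,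
      ← integral_sub (i1.const_mul _) (i4.const_mul _), ← integral_add j1 j2]
    exact integral_mono i3 (j1.add j2)
      fun w => ci_point _ _ _ s hs hs1 (hkb w).1 (hkb w).2
  generalize (∫ w, ‖P w‖ ^ 2) = E at *
  generalize (∫ w, ‖Q w‖ ^ 2) = F at *
  generalize (∫ w, ((starRingEnd ℂ) (P w) * ((k w : ℂ) * Q w)).re) = B at *
  generalize (∫ w, ‖(k w : ℂ) * Q w‖ ^ 2) = A at *
  have h1 : A ≤ (1 + 15 * s) * E := hA.trans (mul_le_mul_of_nonneg_left hQP (by linarith))
  have h2 : 2 * (1 + 30 * s) * F ≤ 2 * (1 + 30 * s) * E := mul_le_mul_of_nonneg_left hQP (by linarith)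
  nlinarith [mul_nonneg hη hE, mul_nonneg hs hE]
/- END ci -/

/- MODULE cj
Assembly: `v` of `competitor`, `sym v ∈ Fun S` with `En (sym v) ≤ En v` (`fun_sym`), the mean
`m = (u + sym v)/2 ∈ Fun S` (`fun_mean`), `Near`: `(1 - η) En u ≤ En m`; `En_mean` and `inner_sym`:
`En m ≤ (En u + 2 ∫ Re (conj (grd u) grd v) + En v) / 4`.  Then `hilb` with `P = grd u`,
`Q = mol ε (grd u)` (`integral_mol_sq_le`). -/
theorem smooth_of_near {z : ℂ} {S : Set ℂ} {u : ℂ → ℝ} (hD : Dom z S) (hF : Fun S u) {s ε η : ℝ}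
    (h0 : 0 < s) (h1 : s ≤ 1) (hε : 0 < ε) (hη : 0 ≤ η) (hN : Near η S u)
    (hS : ∀ b, b ∉ S → |mol ε u b - 1| ≤ s / 2) (hK : ∀ a ∈ Km S, |mol ε u a + 1| ≤ s / 2) :
    ∫ w, ‖grd u w - mol ε (grd u) w‖ ^ 2 ≤ (16 * η + 150 * s) * En u := by
  obtain ⟨v, k, hP, hk, hkb, hgv⟩ := competitor hD hF h0 h1 hε hS hK
  obtain ⟨hFs, hEs⟩ := fun_sym hD hP
  have hcP : Continuous (grd u) := continuous_grd hF.smo
  have hsP : HasCompactSupport (grd u) := grd_compactSupport hD (plat_of_fun hD hF)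
  have hcQ : Continuous (mol ε (grd u)) := (mol_contDiff hε hcP.locallyIntegrable).continuous
  have hm := hN _ (fun_mean hF hFs)
  rw [En_mean hD hF hFs, inner_sym hD hF hP] at hm
  have e1 : ∫ w, ((starRingEnd ℂ) (grd u w) * grd v w).re =
      ∫ w, ((starRingEnd ℂ) (grd u w) * ((k w : ℂ) * mol ε (grd u) w)).re :=
    integral_congr_ae (Filter.Eventually.of_forall fun w => by simp only [hgv w])
  have e2 : En v = ∫ w, ‖(k w : ℂ) * mol ε (grd u) w‖ ^ 2 := by
    unfold En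
    exact integral_congr_ae (Filter.Eventually.of_forall fun w => by simp only [hgv w])
  have e3 : En u = ∫ w, ‖grd u w‖ ^ 2 := rfl
  rw [e1] at hm
  rw [e2] at hEs
  refine hilb hcP hsP hcQ (mol_compactSupport hε hsP) hk h0.le h1 hη hkb
    (integral_mol_sq_le hε hcP hsP) ?_
  rw [← e3]
  linarith

/-- The result of part C: `decay`, `exists_plateau` and `smooth_of_near` with `ε = h / 2^k`,
`s = 2 C √((th^k + C2 η) En u)` (the constant of the statement absorbs `C2`). -/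
theorem exists_reg : ∃ C : ℝ, 0 < C ∧ ∀ (z : ℂ) (S : Set ℂ) (u : ℂ → ℝ), Dom z S → Fun S u →
    ‖z‖ ≤ 2 → ∀ η : ℝ, 0 ≤ η → Near η S u → ∀ (k : ℕ) (h s : ℝ), 0 < h → h ≤ hh (En u) →
    C * √((th ^ k + η) * En u) ≤ s → 0 < s → s ≤ 1 →
    ∫ w, ‖grd u w - mol (h / 2 ^ k) (grd u) w‖ ^ 2 ≤ (16 * η + 150 * s) * En u := by
  obtain ⟨C, hC, hpl⟩ := exists_plateau
  have hC2 : (1 : ℝ) ≤ C2 := by unfold C2; nlinarith [sq_nonneg Real.pi]
  refine ⟨2 * C * √C2, by positivity, ?_⟩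
  intro z S u hD hF hz η hη hN k h s hh0 hh1 hs hs0 hs1
  have hEn : 0 ≤ En u := integral_nonneg fun w => sq_nonneg _
  have hth := th_pos
  have hε : 0 < h / 2 ^ k := by positivity
  have hh6 : hh (En u) ≤ 1 / 6 := by
    unfold hh
    have : Real.exp (-(Real.pi * En u / 2)) ≤ 1 := by
      rw [Real.exp_le_one_iff]
      have := mul_nonneg Real.pi_pos.le hEn
      linarith
    linarith
  have hε6 : h / 2 ^ k ≤ 1 / 6 := by
    have h1 : h / 2 ^ k ≤ h := div_le_self hh0.le (one_le_pow₀ (by norm_num))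
    linarith
  have key : ∀ b, (b ∉ S ∨ b ∈ Km S) → C * √(Dl u b (h / 2 ^ k)) ≤ s / 2 := by
    intro b hb
    have h1 := decay hD hF hz hη hN hb hh0 hh1 k
    have h2 : (th ^ k + C2 * η) * En u ≤ C2 * ((th ^ k + η) * En u) := by
      have h3 : th ^ k + C2 * η ≤ C2 * (th ^ k + η) := by
        nlinarith [mul_le_mul_of_nonneg_right hC2 (pow_pos hth.1 k).le]
      nlinarith [mul_le_mul_of_nonneg_right h3 hEn]
    have h4 : √(Dl u b (h / 2 ^ k)) ≤ √C2 * √((th ^ k + η) * En u) := by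
      rw [← Real.sqrt_mul (by linarith)]
      exact Real.sqrt_le_sqrt (h1.trans h2)
    have h5 := mul_le_mul_of_nonneg_left h4 hC.le
    nlinarith
  obtain ⟨p1, p2⟩ := hpl z S u hD hF hz (h / 2 ^ k) hε hε6
  exact smooth_of_near hD hF hs0 hs1 hε hη hN (fun b hb => (p1 b hb).trans (key b (Or.inl hb)))
    (fun a ha => (p2 a ha).trans (key a (Or.inr ha)))
/- END cj -/

end Pool.Agent.NoH
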